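import Pool.Agent.Lib.MP_a4482b_co.Core

set_option autoImplicit false
set_option linter.unusedSectionVars false

/-!
# Finite models: colourings all of whose classes are forests
-/

namespace MPa4482b

variable {V : Type*} [DecidableEq V]

namespace SG

instance decMemSum {α β : Type} [DecidableEq α] [DecidableEq β] (i : α ⊕ β) (l : List (α ⊕ β)) :
    Decidable (i ∈ l) := @List.instDecidableMemOfLawfulBEq (α ⊕ β) instBEqOfDecidableEq _ i l

/-- the list can be built up by adding leaves -/
def fst {ι : Type} (adj : ι → ι → Bool) : List ι → Bool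
  | [] => true
  | i :: l => decide ((l.filter (adj i)).length ≤ 1) && fst adj l

theorem bal_list {ι : Type} {G : SG V} (φ : ι → V) (adj : ι → ι → Bool)
    (hadj : ∀ i j, G.s (φ i) (φ j) ≠ none → adj i j = true) :
    ∀ l : List ι, fst adj l = true → G.Bal (l.map φ).toFinset := by
  intro l
  induction l with
  | nil =>
    intro _
    simpa using G.bal_empty
  | cons i l ih =>
    intro h
    simp only [fst, Bool.and_eq_true, decide_eq_true_eq] at h
    have hb := ih h.2
    rw [List.map_cons, List.toFinset_cons]
    rcases hf : l.filter (adj i) with _ | ⟨k, t⟩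
    · apply hb.leaf (φ i) (φ i)
      intro w hw hne
      rw [List.mem_toFinset, List.mem_map] at hw
      obtain ⟨k, hk, rfl⟩ := hw
      have : k ∈ l.filter (adj i) := List.mem_filter.mpr ⟨hk, hadj i k hne⟩
      rw [hf] at this
      simp at this
    · have ht : t = [] := by
        have h1 := h.1
        rw [hf, List.length_cons] at h1
        exact List.length_eq_zero_iff.mp (by omega)
      subst ht
      apply hb.leaf (φ i) (φ k)
      intro w hw hne
      rw [List.mem_toFinset, List.mem_map] at hw
      obtain ⟨k', hk, rfl⟩ := hw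
      have : k' ∈ l.filter (adj i) := List.mem_filter.mpr ⟨hk, hadj i k' hne⟩
      rw [hf] at this
      simp only [List.mem_singleton] at this
      rw [this]

theorem col_model {ι : Type} [DecidableEq ι] {G : SG V} {S : Finset V} (φ : ι → V)
    (adj : ι → ι → Bool) (L : Fin 8 → List ι)
    (hS : ∀ v ∈ S, ∃ i, φ i = v)
    (hadj : ∀ i j, G.s (φ i) (φ j) ≠ none → adj i j = true)
    (hL : ∀ j, fst adj (L j) = true)
    (hc : ∀ i, 5 ≤ (Finset.univ.filter (fun j => i ∈ L j)).card) : G.Col S := by
  refine ⟨fun j => ((L j).map φ).toFinset, fun j => bal_list φ adj hadj _ (hL j), ?_⟩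
  intro v hv
  obtain ⟨i, rfl⟩ := hS v hv
  refine (hc i).trans (Finset.card_le_card ?_)
  intro j hj
  rw [Finset.mem_filter] at hj ⊢
  exact ⟨hj.1, by rw [List.mem_toFinset]; exact List.mem_map_of_mem hj.2⟩

end SG

end MPa4482b
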