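import Mathlib

set_option autoImplicit false

/-!
# Signed graphs, switching, balanced colourings

The definitions of the problem file.
-/

namespace MPa4482b

variable {V W : Type*}

/-- A signature of `G`: a sign (a unit of the integers, that is `1` or `-1`) for every edge. -/
abbrev Signature (G : SimpleGraph V) : Type _ := G.edgeSet → ℤˣ

open Classical in
/-- Switching at `v` reverses the sign of every edge incident to `v`. -/
noncomputable def switchAt {G : SimpleGraph V} (v : V) (σ : Signature G) : Signature G :=
  fun e => if v ∈ (e : Sym2 V) then - σ e else σ e

/-- Two signatures are switching equivalent if a sequence of switchings turns one into the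
other. -/
def SwitchEquiv {G : SimpleGraph V} (σ τ : Signature G) : Prop :=
  Relation.ReflTransGen (fun α β => ∃ v, β = switchAt v α) σ τ

/-- The signature inherited along a graph homomorphism `f` from `H` to `G`. -/
def pullback {H : SimpleGraph W} {G : SimpleGraph V} (f : H →g G) (σ : Signature G) :
    Signature H :=
  fun e => σ (f.mapEdgeSet e)

/-- The signature inherited by the subgraph induced on the vertex set `X`. -/
def restrict {G : SimpleGraph V} (σ : Signature G) (X : Set V) : Signature (G.induce X) :=
  pullback (SimpleGraph.Embedding.induce X).toHom σ

/-- A signed graph is balanced if it is switching equivalent to the all-positive signature. -/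
def IsBalanced {G : SimpleGraph V} (σ : Signature G) : Prop :=
  SwitchEquiv σ (fun _ => 1)

/-- A balanced `(p, q)`-colouring: every vertex gets a set of `q` of the `p` colours, and every
colour class induces a balanced signed graph. -/
def HasBalancedColouring {G : SimpleGraph V} (σ : Signature G) (p q : ℕ) : Prop :=
  ∃ c : V → Finset (Fin p), (∀ v, (c v).card = q) ∧ ∀ i, IsBalanced (restrict σ {v | i ∈ c v})

/-- The signed graph is (up to isomorphism and switching) `(K₄, -)`. -/
def IsNegK4 {G : SimpleGraph V} (σ : Signature G) : Prop :=
  ∃ f : (⊤ : SimpleGraph (Fin 4)) ≃g G, SwitchEquiv (pullback f.toHom σ) (fun _ => -1)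

/-- `K₄•`: the complete graph on `0, 1, 2, 3` whose edge `0 1` is subdivided by the vertex `4`. -/
def K4bullet : SimpleGraph (Fin 5) :=
  SimpleGraph.fromEdgeSet {s(0, 2), s(0, 3), s(1, 2), s(1, 3), s(2, 3), s(0, 4), s(1, 4)}

/-- The signature of `K̂₄•`: the edge `1 4` at the vertex `4` of degree two is positive, all other
edges are negative. -/
def hatSign : Signature K4bullet :=
  fun e => if (e : Sym2 (Fin 5)) = s(1, 4) then 1 else -1

/-- The signed graph contains `K̂₄•`: it has a subgraph isomorphic to `K₄•` whose inherited
signature is switching equivalent to that of `K̂₄•`. -/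
def ContainsHat {G : SimpleGraph V} (σ : Signature G) : Prop :=
  ∃ f : K4bullet →g G, Function.Injective f ∧ SwitchEquiv (pullback f σ) hatSign

end MPa4482b
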