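import Pool.Agent.Lib.MP_a4482b_co.Main
import Pool.Agent.Lib.MP_a4482b_co.Defs

set_option autoImplicit false
set_option linter.unusedSectionVars false

/-!
# From signed graphs to their encoding
-/

namespace MPa4482b

variable {V W : Type*}

/-- the sign of a Boolean -/
def sgn (b : Bool) : ℤˣ := if b then -1 else 1

theorem sgn_xor (a b : Bool) : sgn (a ^^ b) = sgn a * sgn b := by
  cases a <;> cases b <;> simp [sgn]

theorem exists_sgn (u : ℤˣ) : ∃ b, u = sgn b := by
  rcases Int.units_eq_one_or u with h | h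
  · exact ⟨false, by rw [h]; rfl⟩
  · exact ⟨true, by rw [h]; rfl⟩

theorem sgn_inj {a b : Bool} (h : sgn a = sgn b) : a = b := by
  cases a <;> cases b <;> first | rfl | (exact absurd h (by decide))

theorem decide_sgn (b : Bool) : decide (sgn b = -1) = b := by
  cases b <;> decide

theorem switch_iff [Finite V] {G : SimpleGraph V} (σ τ : Signature G) :
    SwitchEquiv σ τ ↔ ∃ p : V → Bool, ∀ u v (h : G.Adj u v),
      τ ⟨s(u, v), h⟩ = sgn (p u ^^ p v) * σ ⟨s(u, v), h⟩ := by
  classical
  constructor
  · intro h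
    induction h with
    | refl => exact ⟨fun _ => false, by intro u v h; simp [sgn]⟩
    | tail _ hstep ih =>
      obtain ⟨p, hp⟩ := ih
      obtain ⟨w, rfl⟩ := hstep
      refine ⟨fun u => if u = w then !(p u) else p u, ?_⟩
      intro u v h
      have huv := h.ne
      simp only [switchAt, Sym2.mem_iff]
      rw [hp u v h]
      by_cases h1 : u = w
      · have h2 : v ≠ w := fun hh => huv (h1.trans hh.symm)
        rw [if_pos (Or.inl h1.symm), if_pos h1, if_neg h2]
        cases p u <;> cases p v <;> simp [sgn]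
      · by_cases h2 : v = w
        · rw [if_pos (Or.inr h2.symm), if_neg h1, if_pos h2]
          cases p u <;> cases p v <;> simp [sgn]
        · rw [if_neg, if_neg h1, if_neg h2]
          rintro (h' | h')
          exacts [h1 h'.symm, h2 h'.symm]
  · rintro ⟨p, hp⟩
    have key : ∀ (s : Finset V) (σ τ : Signature G), (∀ u v (h : G.Adj u v),
        τ ⟨s(u, v), h⟩ = sgn ((decide (u ∈ s)) ^^ (decide (v ∈ s))) * σ ⟨s(u, v), h⟩) →
        SwitchEquiv σ τ := by
      intro s
      induction s using Finset.induction_on with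
      | empty =>
        intro σ τ h
        have : σ = τ := by
          funext e
          rcases e with ⟨e, he⟩
          induction e using Sym2.ind with
          | _ u v =>
            rw [h u v he]
            simp [sgn]
        rw [this]
        exact Relation.ReflTransGen.refl
      | insert a s ha ih =>
        intro σ τ h
        refine Relation.ReflTransGen.head ⟨a, rfl⟩ (ih (switchAt a σ) τ ?_)
        intro u v hadj
        rw [h u v hadj]
        have huv := hadj.ne
        simp only [switchAt, Sym2.mem_iff]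
        by_cases h1 : u = a
        · have h2 : v ≠ a := fun hh => huv (h1.trans hh.symm)
          rw [if_pos (Or.inl h1.symm)]
          subst h1
          by_cases h3 : v ∈ s <;> simp [Finset.mem_insert, h2, h3, ha, sgn]
        · by_cases h2 : v = a
          · rw [if_pos (Or.inr h2.symm)]
            subst h2
            by_cases h3 : u ∈ s <;> simp [Finset.mem_insert, h1, h3, ha, sgn]
          · rw [if_neg]
            · by_cases h3 : u ∈ s <;> by_cases h4 : v ∈ s <;>
                simp [Finset.mem_insert, h1, h2, h3, h4, sgn]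
            · rintro (h' | h')
              exacts [h1 h'.symm, h2 h'.symm]
    cases nonempty_fintype V
    refine key (Finset.univ.filter (fun u => p u = true)) σ τ ?_
    intro u v h
    have h1 : ∀ u, decide (u ∈ Finset.univ.filter (fun u => p u = true)) = p u := by
      intro u
      cases hpu : p u <;> simp [hpu]
    rw [hp u v h, h1, h1]

open Classical in
/-- the encoding of a signed graph -/
noncomputable def toSG {G : SimpleGraph V} (σ : Signature G) : SG V where
  s u v := if h : G.Adj u v then some (decide (σ ⟨s(u, v), h⟩ = -1)) else none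
  symm u v := by
    by_cases h : G.Adj u v
    · rw [dif_pos h, dif_pos h.symm]
      congr 3
      congr 1
      exact Subtype.ext Sym2.eq_swap
    · rw [dif_neg h, dif_neg (fun hh => h hh.symm)]
  irr u := by
    rw [dif_neg]
    exact G.irrefl

theorem toSG_some {G : SimpleGraph V} {σ : Signature G} {u v : V} {e : Bool} :
    (toSG σ).s u v = some e ↔ ∃ h : G.Adj u v, σ ⟨s(u, v), h⟩ = sgn e := by
  classical
  simp only [toSG]
  by_cases h : G.Adj u v
  · rw [dif_pos h, Option.some.injEq]
    constructor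
    · intro he
      refine ⟨h, ?_⟩
      obtain ⟨b, hb⟩ := exists_sgn (σ ⟨s(u, v), h⟩)
      rw [hb] at he ⊢
      rw [← he]
      congr 1
      cases b <;> simp [sgn]
    · rintro ⟨_, he⟩
      rw [he]
      cases e <;> simp [sgn]
  · rw [dif_neg h]
    constructor
    · intro he
      exact absurd he (by simp)
    · rintro ⟨h', _⟩
      exact absurd h' h

theorem toSG_ne_none {G : SimpleGraph V} {σ : Signature G} {u v : V} :
    (toSG σ).s u v ≠ none ↔ G.Adj u v := by
  constructor
  · intro h
    obtain ⟨e, he⟩ := Option.ne_none_iff_exists'.mp h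
    exact (toSG_some.mp he).choose
  · intro h
    obtain ⟨b, hb⟩ := exists_sgn (σ ⟨s(u, v), h⟩)
    rw [toSG_some.mpr ⟨h, hb⟩]
    simp

theorem restrict_apply {G : SimpleGraph V} (σ : Signature G) (X : Set V) (u v : X)
    (h : (G.induce X).Adj u v) : restrict σ X ⟨s(u, v), h⟩ = σ ⟨s((u : V), (v : V)), h⟩ := rfl

theorem toSG_restrict {G : SimpleGraph V} {σ : Signature G} {X : Set V} {u v : X} {e : Bool} :
    (toSG (restrict σ X)).s u v = some e ↔ (toSG σ).s (u : V) (v : V) = some e := by
  rw [toSG_some, toSG_some]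
  exact Iff.rfl

theorem balanced_iff [Finite V] {G : SimpleGraph V} (σ : Signature G) (X : Set V) :
    IsBalanced (restrict σ X) ↔ ∃ p : V → Bool, ∀ u ∈ X, ∀ v ∈ X, ∀ e,
      (toSG σ).s u v = some e → e = (p u ^^ p v) := by
  classical
  rw [IsBalanced, switch_iff]
  constructor
  · rintro ⟨p, hp⟩
    refine ⟨fun u => if h : u ∈ X then p ⟨u, h⟩ else false, ?_⟩
    intro u hu v hv e he
    simp only [dif_pos hu, dif_pos hv]
    obtain ⟨hadj, hs⟩ := toSG_some.mp he
    have h1 : (1 : ℤˣ) = sgn (p ⟨u, hu⟩ ^^ p ⟨v, hv⟩) * σ ⟨s(u, v), hadj⟩ :=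
      hp ⟨u, hu⟩ ⟨v, hv⟩ hadj
    rw [hs, ← sgn_xor] at h1
    have h2 : ((p ⟨u, hu⟩ ^^ p ⟨v, hv⟩) ^^ e) = false := sgn_inj (h1.symm.trans rfl)
    revert h2
    cases p ⟨u, hu⟩ <;> cases p ⟨v, hv⟩ <;> cases e <;> simp
  · rintro ⟨p, hp⟩
    refine ⟨fun u => p u, ?_⟩
    intro u v h
    rw [restrict_apply]
    obtain ⟨b, hb⟩ := exists_sgn (σ ⟨s((u : V), (v : V)), h⟩)
    have h1 := hp u u.2 v v.2 b (toSG_some.mpr ⟨h, hb⟩)
    rw [hb, h1, ← sgn_xor, Bool.xor_self]
    rfl

/-! ### `(K₄, -)` -/

/-- a signed graph on the four vertices of a negative `K₄` -/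
theorem isNegK4_of [Finite V] [DecidableEq V] {G : SimpleGraph V} {τ : Signature G} {a b c d : V}
    (h : (toSG τ).K4At a b c d) (hall : ∀ w, w ∈ ({a, b, c, d} : Finset V)) : IsNegK4 τ := by
  have hinj := h.inj
  have hadj := h.adjq
  have hsurj : Function.Surjective (![a, b, c, d] : Fin 4 → V) :=
    fun w => SG.exists_idx (hall w)
  let f : (⊤ : SimpleGraph (Fin 4)) ≃g G :=
    { toEquiv := Equiv.ofBijective _ ⟨hinj, hsurj⟩
      map_rel_iff' := by
        intro i j
        rw [SimpleGraph.top_adj]
        constructor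
        · intro hij
          rintro rfl
          exact G.irrefl hij
        · intro hij
          exact toSG_ne_none.mp (hadj i j hij) }
  refine ⟨f, ?_⟩
  rw [switch_iff]
  obtain ⟨pa, pb, pc, pd, k1, k2, k3, k4, k5, k6⟩ := h
  have key : ∀ i j : Fin 4, i ≠ j → (toSG τ).s ((![a, b, c, d] : Fin 4 → V) i)
      ((![a, b, c, d] : Fin 4 → V) j) = some (!((![pa, pb, pc, pd] : Fin 4 → Bool) i ^^
        (![pa, pb, pc, pd] : Fin 4 → Bool) j)) := by
    intro i j hij
    fin_cases i <;> fin_cases j <;>
      first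
      | exact absurd rfl hij
      | exact k1
      | exact k2
      | exact k3
      | exact k4
      | exact k5
      | exact k6
      | (exact (SG.nsome k1).trans (by cases pa <;> cases pb <;> rfl))
      | (exact (SG.nsome k2).trans (by cases pa <;> cases pc <;> rfl))
      | (exact (SG.nsome k3).trans (by cases pa <;> cases pd <;> rfl))
      | (exact (SG.nsome k4).trans (by cases pb <;> cases pc <;> rfl))
      | (exact (SG.nsome k5).trans (by cases pb <;> cases pd <;> rfl))
      | (exact (SG.nsome k6).trans (by cases pc <;> cases pd <;> rfl))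
  refine ⟨(![pa, pb, pc, pd] : Fin 4 → Bool), ?_⟩
  intro i j hij
  obtain ⟨hadj', hs⟩ := toSG_some.mp (key i j hij)
  have h1 : pullback f.toHom τ ⟨s(i, j), hij⟩ = τ ⟨s((![a, b, c, d] : Fin 4 → V) i,
      (![a, b, c, d] : Fin 4 → V) j), hadj'⟩ := rfl
  rw [h1, hs, ← sgn_xor, Bool.xor_not, Bool.xor_self]
  rfl

/-- conversely -/
theorem k4At_of [Finite V] {G : SimpleGraph V} {τ : Signature G} (h : IsNegK4 τ) :
    ∃ a b c d, (toSG τ).K4At a b c d := by
  obtain ⟨f, hf⟩ := h
  rw [switch_iff] at hf
  obtain ⟨p, hp⟩ := hf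
  have key : ∀ i j : Fin 4, i ≠ j → (toSG τ).s (f i) (f j) = some (!(p i ^^ p j)) := by
    intro i j hij
    rw [toSG_some]
    have hadj : G.Adj (f i) (f j) := f.map_rel_iff'.mpr hij
    refine ⟨hadj, ?_⟩
    have h1 : (-1 : ℤˣ) = sgn (p i ^^ p j) * τ ⟨s(f i, f j), hadj⟩ := hp i j hij
    obtain ⟨b, hb⟩ := exists_sgn (τ ⟨s(f i, f j), hadj⟩)
    rw [hb, ← sgn_xor] at h1
    have h2 : ((p i ^^ p j) ^^ b) = true := sgn_inj (h1.symm.trans rfl)
    rw [hb]
    congr 1
    revert h2
    cases p i <;> cases p j <;> cases b <;> simp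
  exact ⟨f 0, f 1, f 2, f 3, p 0, p 1, p 2, p 3, key 0 1 (by decide), key 0 2 (by decide),
    key 0 3 (by decide), key 1 2 (by decide), key 1 3 (by decide), key 2 3 (by decide)⟩

end MPa4482b
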