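import Pool.Agent.Lib.MP_a4482b_co.Bridge

set_option autoImplicit false
set_option linter.unusedSectionVars false

/-!
# From signed graphs to their encoding, continued; necessity of the conditions
-/

namespace MPa4482b

variable {V W : Type*}

/-! ### Degrees and components -/

theorem deg_le [Fintype V] [DecidableEq V] {G : SimpleGraph V} (σ : Signature G)
    (hG : ∀ v, (G.neighborSet v).ncard ≤ 3) :
    ∀ v ∈ (Finset.univ : Finset V), ((toSG σ).nb Finset.univ v).card ≤ 3 := by
  intro v _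
  have h1 : (((toSG σ).nb Finset.univ v : Finset V) : Set V) = G.neighborSet v := by
    ext w
    rw [Finset.mem_coe, SG.mem_nb, SimpleGraph.mem_neighborSet, toSG_ne_none]
    simp
  rw [← Set.ncard_coe_finset, h1]
  exact hG v

theorem walk_closed {G : SimpleGraph V} {Q : Set V} (hQ : ∀ q ∈ Q, ∀ w, G.Adj q w → w ∈ Q)
    {u w : V} (p : G.Walk u w) (hu : u ∈ Q) : w ∈ Q := by
  induction p with
  | nil => exact hu
  | cons hadj _ ih => exact ih (hQ _ hu _ hadj)

theorem component_of [Fintype V] [DecidableEq V] {G : SimpleGraph V} {σ : Signature G}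
    (hG : ∀ v, (G.neighborSet v).ncard ≤ 3) {a b c d : V} (h : (toSG σ).K4At a b c d) :
    IsNegK4 (restrict σ (G.connectedComponentMk a).supp) := by
  have hcl := h.closed (deg_le σ hG) (Finset.mem_univ _) (Finset.mem_univ _) (Finset.mem_univ _)
    (Finset.mem_univ _)
  have hcl' : ∀ q ∈ (({a, b, c, d} : Finset V) : Set V), ∀ w, G.Adj q w →
      w ∈ (({a, b, c, d} : Finset V) : Set V) := by
    intro q hq w hadj
    exact hcl q hq w (Finset.mem_univ _) (toSG_ne_none.mpr hadj)
  obtain ⟨pa, pb, pc, pd, k1, k2, k3, k4, k5, k6⟩ := h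
  have ab : G.Adj a b := (toSG_some.mp k1).choose
  have ac : G.Adj a c := (toSG_some.mp k2).choose
  have ad : G.Adj a d := (toSG_some.mp k3).choose
  have ma : a ∈ (G.connectedComponentMk a).supp := rfl
  have mb : b ∈ (G.connectedComponentMk a).supp := by
    rw [SimpleGraph.ConnectedComponent.mem_supp_iff, SimpleGraph.ConnectedComponent.eq]
    exact ab.symm.reachable
  have mc : c ∈ (G.connectedComponentMk a).supp := by
    rw [SimpleGraph.ConnectedComponent.mem_supp_iff, SimpleGraph.ConnectedComponent.eq]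
    exact ac.symm.reachable
  have md : d ∈ (G.connectedComponentMk a).supp := by
    rw [SimpleGraph.ConnectedComponent.mem_supp_iff, SimpleGraph.ConnectedComponent.eq]
    exact ad.symm.reachable
  refine isNegK4_of (a := ⟨a, ma⟩) (b := ⟨b, mb⟩) (c := ⟨c, mc⟩) (d := ⟨d, md⟩)
    ⟨pa, pb, pc, pd, toSG_restrict.mpr k1, toSG_restrict.mpr k2, toSG_restrict.mpr k3,
      toSG_restrict.mpr k4, toSG_restrict.mpr k5, toSG_restrict.mpr k6⟩ ?_
  rintro ⟨w, hw⟩
  rw [SimpleGraph.ConnectedComponent.mem_supp_iff, SimpleGraph.ConnectedComponent.eq] at hw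
  obtain ⟨p⟩ := hw
  have := walk_closed hcl' p.reverse (by simp)
  simpa [Subtype.ext_iff] using this

/-! ### `K̂₄•` -/

/-- the negative edges of `K̂₄•` -/
def sh : Fin 7 → Bool := ![true, true, true, true, true, true, false]

theorem K4b_adj : ∀ i j : Fin 5, K4bullet.Adj i j ↔ SG.adjD i j = true := by
  intro i j
  simp only [K4bullet, SimpleGraph.fromEdgeSet_adj, Set.mem_insert_iff, Set.mem_singleton_iff]
  revert i j
  decide

theorem hatSign_lo (e : Fin 7) (h : K4bullet.Adj (SG.lod e) (SG.hid e)) :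
    hatSign ⟨s(SG.lod e, SG.hid e), h⟩ = sgn (sh e) := by
  fin_cases e <;> rfl

theorem hat_of [Finite V] [DecidableEq V] {G : SimpleGraph V} {σ : Signature G}
    {a b c d x : V} (h : (toSG σ).K4dAt a b c d x) : ContainsHat σ := by
  have hinj := h.inj
  obtain ⟨nab, nxc, nxd, pa, pb, pc, pd, px, k1, k2, k3, k4, k5, k6, k7⟩ := h
  set q : Fin 5 → V := ![a, b, c, d, x] with hq
  set p : Fin 5 → Bool := ![pa, pb, pc, pd, px] with hp
  have base : ∀ e : Fin 7, (toSG σ).s (q (SG.lod e)) (q (SG.hid e)) =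
      some (sh e ^^ (p (SG.lod e) ^^ p (SG.hid e))) := by
    intro e
    fin_cases e
    · exact k1.trans (by cases pa <;> cases pc <;> rfl)
    · exact k2.trans (by cases pa <;> cases pd <;> rfl)
    · exact k3.trans (by cases pb <;> cases pc <;> rfl)
    · exact k4.trans (by cases pb <;> cases pd <;> rfl)
    · exact k5.trans (by cases pc <;> cases pd <;> rfl)
    · exact k6.trans (by cases pa <;> cases px <;> rfl)
    · exact k7.trans (by cases px <;> cases pb <;> rfl)
  have hom : ∀ i j, K4bullet.Adj i j → G.Adj (q i) (q j) := by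
    intro i j hij
    obtain ⟨e, he⟩ := SG.exists_edgeD i j ((K4b_adj i j).mp hij)
    have h1 : G.Adj (q (SG.lod e)) (q (SG.hid e)) := (toSG_some.mp (base e)).choose
    rcases he with ⟨rfl, rfl⟩ | ⟨rfl, rfl⟩
    exacts [h1, h1.symm]
  let f : K4bullet →g G := ⟨q, fun {i j} hij => hom i j hij⟩
  refine ⟨f, hinj, ?_⟩
  rw [switch_iff]
  refine ⟨p, ?_⟩
  intro i j hij
  obtain ⟨e, he⟩ := SG.exists_edgeD i j ((K4b_adj i j).mp hij)
  obtain ⟨h1, h2⟩ := toSG_some.mp (base e)
  rcases he with ⟨rfl, rfl⟩ | ⟨rfl, rfl⟩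
  · have h3 : pullback f σ ⟨s(SG.lod e, SG.hid e), hij⟩ =
        σ ⟨s(q (SG.lod e), q (SG.hid e)), h1⟩ := rfl
    rw [h3, h2, hatSign_lo, ← sgn_xor]
    congr 1
    cases sh e <;> cases p (SG.lod e) <;> cases p (SG.hid e) <;> rfl
  · have h3 : pullback f σ ⟨s(SG.hid e, SG.lod e), hij⟩ =
        σ ⟨s(q (SG.lod e), q (SG.hid e)), h1⟩ := by
      have h4 : pullback f σ ⟨s(SG.hid e, SG.lod e), hij⟩ =
          σ ⟨s(q (SG.hid e), q (SG.lod e)), h1.symm⟩ := rfl
      rw [h4]
      congr 1
      exact Subtype.ext Sym2.eq_swap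
    have h5 : hatSign ⟨s(SG.hid e, SG.lod e), hij⟩ = sgn (sh e) := by
      rw [← hatSign_lo e hij.symm]
      congr 1
      exact Subtype.ext Sym2.eq_swap
    rw [h3, h2, h5, ← sgn_xor]
    congr 1
    cases sh e <;> cases p (SG.lod e) <;> cases p (SG.hid e) <;> rfl

theorem k4dAt_of [Finite V] {G : SimpleGraph V} {σ : Signature G} (h : ContainsHat σ) :
    ∃ a b c d x, (toSG σ).K4dAt a b c d x := by
  obtain ⟨f, hinj, hf⟩ := h
  rw [switch_iff] at hf
  obtain ⟨p, hp⟩ := hf
  have base : ∀ e : Fin 7, (toSG σ).s (f (SG.lod e)) (f (SG.hid e)) =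
      some (sh e ^^ (p (SG.lod e) ^^ p (SG.hid e))) := by
    intro e
    have hadj : K4bullet.Adj (SG.lod e) (SG.hid e) := by
      rw [K4b_adj]
      revert e
      decide
    have h1 := hp _ _ hadj
    rw [hatSign_lo] at h1
    have h2 : pullback f σ ⟨s(SG.lod e, SG.hid e), hadj⟩ =
        σ ⟨s(f (SG.lod e), f (SG.hid e)), f.map_adj hadj⟩ := rfl
    rw [h2] at h1
    rw [toSG_some]
    refine ⟨f.map_adj hadj, ?_⟩
    obtain ⟨b, hb⟩ := exists_sgn (σ ⟨s(f (SG.lod e), f (SG.hid e)), f.map_adj hadj⟩)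
    rw [hb, ← sgn_xor] at h1
    have h3 := sgn_inj h1
    rw [hb, h3]
    congr 1
    cases p (SG.lod e) <;> cases p (SG.hid e) <;> cases b <;> rfl
  refine ⟨f 0, f 1, f 2, f 3, f 4, fun hh => absurd (hinj hh) (by decide),
    fun hh => absurd (hinj hh) (by decide), fun hh => absurd (hinj hh) (by decide),
    p 0, p 1, p 2, p 3, p 4, ?_, ?_, ?_, ?_, ?_, ?_, ?_⟩
  · exact (base 0).trans (congrArg some (Bool.true_xor _))
  · exact (base 1).trans (congrArg some (Bool.true_xor _))
  · exact (base 2).trans (congrArg some (Bool.true_xor _))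
  · exact (base 3).trans (congrArg some (Bool.true_xor _))
  · exact (base 4).trans (congrArg some (Bool.true_xor _))
  · exact (base 5).trans (congrArg some (Bool.true_xor _))
  · exact (base 6).trans (congrArg some (Bool.false_xor _))

/-! ### Necessity -/

theorem count {V : Type*} [DecidableEq V] {P : Fin 8 → Finset V} {Q : Finset V} {k : ℕ}
    (h5 : ∀ v ∈ Q, 5 ≤ (Finset.univ.filter (fun j => v ∈ P j)).card)
    (hk : ∀ j, (Q.filter (fun v => v ∈ P j)).card ≤ k) : 5 * Q.card ≤ 8 * k := by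
  have h1 : 5 * Q.card ≤ ∑ v ∈ Q, (Finset.univ.filter (fun j => v ∈ P j)).card := by
    rw [mul_comm, ← smul_eq_mul]
    exact Finset.card_nsmul_le_sum Q _ 5 h5
  have h2 : ∑ v ∈ Q, (Finset.univ.filter (fun j => v ∈ P j)).card =
      ∑ j : Fin 8, (Q.filter (fun v => v ∈ P j)).card := by
    simp only [Finset.card_filter]
    exact Finset.sum_comm
  have h3 : ∑ j : Fin 8, (Q.filter (fun v => v ∈ P j)).card ≤ 8 * k := by
    have := Finset.sum_le_card_nsmul (Finset.univ : Finset (Fin 8))
      (fun j => (Q.filter (fun v => v ∈ P j)).card) k (fun j _ => hk j)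
    simpa using this
  omega

/-- no balanced set contains three vertices of a negative `K₄` -/
theorem tri_neg {V : Type*} [DecidableEq V] {G : SG V} {X : Finset V} (h : G.Bal X)
    {a b c : V} {pa pb pc : Bool} (k1 : G.s a b = some (!(pa ^^ pb)))
    (k2 : G.s a c = some (!(pa ^^ pc))) (k3 : G.s b c = some (!(pb ^^ pc)))
    (ha : a ∈ X) (hb : b ∈ X) (hc : c ∈ X) : False := by
  obtain ⟨p, hp⟩ := h
  have h1 := hp a ha b hb _ k1
  have h2 := hp a ha c hc _ k2
  have h3 := hp b hb c hc _ k3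
  revert h1 h2 h3
  cases pa <;> cases pb <;> cases pc <;> cases p a <;> cases p b <;> cases p c <;> simp

theorem four_neg {V : Type*} [DecidableEq V] {G : SG V} {X : Finset V} (h : G.Bal X)
    {a b c x : V} {pa pb pc px : Bool} (k1 : G.s a c = some (!(pa ^^ pc)))
    (k2 : G.s b c = some (!(pb ^^ pc))) (k3 : G.s a x = some (!(pa ^^ px)))
    (k4 : G.s x b = some (px ^^ pb))
    (ha : a ∈ X) (hb : b ∈ X) (hc : c ∈ X) (hx : x ∈ X) : False := by
  obtain ⟨p, hp⟩ := h
  have h1 := hp a ha c hc _ k1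
  have h2 := hp b hb c hc _ k2
  have h3 := hp a ha x hx _ k3
  have h4 := hp x hx b hb _ k4
  revert h1 h2 h3 h4
  cases pa <;> cases pb <;> cases pc <;> cases px <;> cases p a <;> cases p b <;> cases p c <;>
    cases p x <;> simp

theorem no_K4 {V : Type*} [DecidableEq V] {G : SG V} {S : Finset V} (hcol : G.Col S)
    {a b c d : V} (h : G.K4At a b c d) (ha : a ∈ S) (hb : b ∈ S) (hc : c ∈ S) (hd : d ∈ S) :
    False := by
  obtain ⟨P, hP, h5⟩ := hcol
  have hcard := h.card
  obtain ⟨pa, pb, pc, pd, k1, k2, k3, k4, k5, k6⟩ := h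
  have nab := SG.ne_of_some k1
  have nac := SG.ne_of_some k2
  have nad := SG.ne_of_some k3
  have nbc := SG.ne_of_some k4
  have nbd := SG.ne_of_some k5
  have ncd := SG.ne_of_some k6
  have := count (P := P) (Q := {a, b, c, d}) (k := 2) ?_ ?_
  · rw [hcard] at this
    omega
  · intro v hv
    simp only [Finset.mem_insert, Finset.mem_singleton] at hv
    rcases hv with rfl | rfl | rfl | rfl
    exacts [h5 _ ha, h5 _ hb, h5 _ hc, h5 _ hd]
  · intro j
    rw [Finset.card_filter, Finset.sum_insert (by simp [nab, nac, nad]),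
      Finset.sum_insert (by simp [nbc, nbd]), Finset.sum_insert (by simp [ncd]),
      Finset.sum_singleton]
    by_cases qa : a ∈ P j <;> by_cases qb : b ∈ P j <;> by_cases qc : c ∈ P j <;>
      by_cases qd : d ∈ P j <;> simp only [qa, qb, qc, qd, if_true, if_false] <;>
      first
      | omega
      | exact (tri_neg (hP j) k1 k2 k4 qa qb qc).elim
      | exact (tri_neg (hP j) k1 k3 k5 qa qb qd).elim
      | exact (tri_neg (hP j) k2 k3 k6 qa qc qd).elim
      | exact (tri_neg (hP j) k4 k5 k6 qb qc qd).elim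

theorem no_K4d {V : Type*} [DecidableEq V] {G : SG V} {S : Finset V} (hcol : G.Col S)
    {a b c d x : V} (h : G.K4dAt a b c d x) (ha : a ∈ S) (hb : b ∈ S) (hc : c ∈ S) (hd : d ∈ S)
    (hx : x ∈ S) : False := by
  obtain ⟨P, hP, h5⟩ := hcol
  have hcard := h.card
  obtain ⟨nab, nxc, nxd, pa, pb, pc, pd, px, k1, k2, k3, k4, k5, k6, k7⟩ := h
  have nac := SG.ne_of_some k1
  have nad := SG.ne_of_some k2
  have nbc := SG.ne_of_some k3
  have nbd := SG.ne_of_some k4
  have ncd := SG.ne_of_some k5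
  have nax := SG.ne_of_some k6
  have nxb := SG.ne_of_some k7
  have := count (P := P) (Q := {a, b, c, d, x}) (k := 3) ?_ ?_
  · rw [hcard] at this
    omega
  · intro v hv
    simp only [Finset.mem_insert, Finset.mem_singleton] at hv
    rcases hv with rfl | rfl | rfl | rfl | rfl
    exacts [h5 _ ha, h5 _ hb, h5 _ hc, h5 _ hd, h5 _ hx]
  · intro j
    rw [Finset.card_filter, Finset.sum_insert (by simp [nab, nac, nad, nax]),
      Finset.sum_insert (by simp [nbc, nbd, nxb.symm]),
      Finset.sum_insert (by simp [ncd, nxc.symm]), Finset.sum_insert (by simp [nxd.symm]),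
      Finset.sum_singleton]
    by_cases qa : a ∈ P j <;> by_cases qb : b ∈ P j <;> by_cases qc : c ∈ P j <;>
      by_cases qd : d ∈ P j <;> by_cases qx : x ∈ P j <;>
      simp only [qa, qb, qc, qd, qx, if_true, if_false] <;>
      first
      | omega
      | exact (tri_neg (hP j) k1 k2 k5 qa qc qd).elim
      | exact (tri_neg (hP j) k3 k4 k5 qb qc qd).elim
      | exact (four_neg (hP j) k1 k3 k6 k7 qa qb qc qx).elim
      | exact (four_neg (hP j) k2 k4 k6 k7 qa qb qd qx).elim

/-! ### Colourings -/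

theorem col_of [Fintype V] [DecidableEq V] {G : SimpleGraph V} {σ : Signature G}
    (h : HasBalancedColouring σ 8 5) : (toSG σ).Col Finset.univ := by
  obtain ⟨c, hc, hb⟩ := h
  refine ⟨fun j => Finset.univ.filter (fun v => j ∈ c v), ?_, ?_⟩
  · intro j
    obtain ⟨p, hp⟩ := (balanced_iff σ _).mp (hb j)
    refine ⟨p, ?_⟩
    intro u hu w hw e he
    rw [Finset.mem_filter] at hu hw
    exact hp u hu.2 w hw.2 e he
  · intro v _
    have : (Finset.univ.filter (fun j => v ∈ Finset.univ.filter (fun v => j ∈ c v))) = c v := by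
      ext j
      simp
    rw [this, hc v]

theorem of_col [Fintype V] [DecidableEq V] {G : SimpleGraph V} {σ : Signature G}
    (h : (toSG σ).Col Finset.univ) : HasBalancedColouring σ 8 5 := by
  obtain ⟨P, hP, _, h5⟩ := h.exact
  refine ⟨fun v => Finset.univ.filter (fun j => v ∈ P j), fun v => h5 v (Finset.mem_univ v), ?_⟩
  intro j
  rw [balanced_iff]
  obtain ⟨p, hp⟩ := hP j
  refine ⟨p, ?_⟩
  intro u hu w hw e he
  simp only [Set.mem_ofPred_eq, Finset.mem_filter, Finset.mem_univ, true_and] at hu hw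
  exact hp u hu w hw e he

end MPa4482b
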