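import Mathlib

set_option autoImplicit false
set_option linter.unusedSectionVars false

/-!
# Balanced (8,5)-colourings of signed subcubic graphs : basic notions

A signed graph is encoded by one symmetric function `s : V → V → Option Bool`:
`none` = no edge, `some false` = positive edge, `some true` = negative edge.
-/

namespace MPa4482b

/-- Signed simple graphs on `V`. -/
structure SG (V : Type*) where
  s : V → V → Option Bool
  symm : ∀ u w, s u w = s w u
  irr : ∀ u, s u u = none

variable {V : Type*} [DecidableEq V]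

namespace SG

/-- `p` is a potential of `G` on `X`: every edge inside `X` has sign `p u + p w`. -/
def PB (G : SG V) (X : Finset V) (p : V → Bool) : Prop :=
  ∀ u ∈ X, ∀ w ∈ X, ∀ e, G.s u w = some e → e = (p u ^^ p w)

/-- balanced vertex sets -/
def Bal (G : SG V) (X : Finset V) : Prop := ∃ p, G.PB X p

/-- neighbours in `S` -/
def nb (G : SG V) (S : Finset V) (u : V) : Finset V := S.filter (fun w => G.s u w ≠ none)

/-- `S` has a balanced `(8,5)`-colouring, given by its colour classes. -/
def Col (G : SG V) (S : Finset V) : Prop :=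
  ∃ P : Fin 8 → Finset V, (∀ j, G.Bal (P j)) ∧
    ∀ v ∈ S, 5 ≤ (Finset.univ.filter (fun j => v ∈ P j)).card

theorem mem_nb {G : SG V} {S : Finset V} {u w : V} :
    w ∈ G.nb S u ↔ w ∈ S ∧ G.s u w ≠ none := by
  simp [nb]

theorem PB.mono {G : SG V} {X Y : Finset V} {p : V → Bool} (h : G.PB X p) (hY : Y ⊆ X) :
    G.PB Y p := fun u hu w hw e he => h u (hY hu) w (hY hw) e he

theorem Bal.mono {G : SG V} {X Y : Finset V} (h : G.Bal X) (hY : Y ⊆ X) : G.Bal Y := by
  obtain ⟨p, hp⟩ := h
  exact ⟨p, hp.mono hY⟩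

theorem adj_symm {G : SG V} {u w : V} (h : G.s u w ≠ none) : G.s w u ≠ none := by
  rwa [G.symm]

theorem ne_of_adj {G : SG V} {u w : V} (h : G.s u w ≠ none) : u ≠ w := by
  rintro rfl
  exact h (G.irr u)

theorem ne_of_some {G : SG V} {u w : V} {e : Bool} (h : G.s u w = some e) : u ≠ w := by
  apply ne_of_adj (G := G)
  rw [h]
  simp

/-- Adding one vertex with a prescribed value. -/
theorem PB.insert {G : SG V} {X : Finset V} {p : V → Bool} (h : G.PB X p) {v : V} (hv : v ∉ X)
    (b : Bool) (hb : ∀ w ∈ X, ∀ e, G.s v w = some e → e = (b ^^ p w)) :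
    G.PB (insert v X) (Function.update p v b) := by
  intro u hu w hw e he
  rw [Finset.mem_insert] at hu hw
  rcases hu with rfl | hu
  · rcases hw with rfl | hw
    · rw [G.irr] at he
      exact absurd he (by simp)
    · have hne : w ≠ u := fun hh => hv (hh ▸ hw)
      rw [Function.update_self, Function.update_of_ne hne]
      exact hb w hw e he
  · rcases hw with rfl | hw
    · have hne : u ≠ w := fun hh => hv (hh ▸ hu)
      rw [Function.update_self, Function.update_of_ne hne]
      rw [G.symm] at he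
      rw [hb u hu e he, Bool.xor_comm]
    · have hne : u ≠ v := fun hh => hv (hh ▸ hu)
      have hne' : w ≠ v := fun hh => hv (hh ▸ hw)
      rw [Function.update_of_ne hne, Function.update_of_ne hne']
      exact h u hu w hw e he

/-- Extension of a potential by one vertex, keeping the old values. -/
def Ext (G : SG V) (X : Finset V) (p : V → Bool) (v : V) : Prop :=
  ∃ q : V → Bool, G.PB (insert v X) q ∧ ∀ w ∈ X, q w = p w

theorem ext_of {G : SG V} {X : Finset V} {p : V → Bool} (h : G.PB X p) {v : V} (hv : v ∉ X)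
    (b : Bool) (hb : ∀ w ∈ X, ∀ e, G.s v w = some e → e = (b ^^ p w)) : G.Ext X p v :=
  ⟨_, h.insert hv b hb, fun w hw => Function.update_of_ne (fun hh => hv (by rw [← hh]; exact hw)) _ _⟩

/-- Leaf: the new vertex has at most one neighbour `a` in `X`. -/
theorem ext_leaf {G : SG V} {X : Finset V} {p : V → Bool} (h : G.PB X p) {v : V} (hv : v ∉ X)
    (a : V) (ha : ∀ w ∈ X, G.s v w ≠ none → w = a) : G.Ext X p v := by
  rcases hs : G.s v a with _ | e
  · refine ext_of h hv false ?_
    intro w hw e he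
    have := ha w hw (by rw [he]; simp)
    subst this
    rw [hs] at he
    exact absurd he (by simp)
  · refine ext_of h hv (e ^^ p a) ?_
    intro w hw e' he
    have := ha w hw (by rw [he]; simp)
    subst this
    rw [hs] at he
    simp only [Option.some.injEq] at he
    subst he
    rw [Bool.xor_assoc, Bool.xor_self, Bool.xor_false]

/-- Two neighbours with consistent values. -/
theorem ext_two {G : SG V} {X : Finset V} {p : V → Bool} (h : G.PB X p) {v : V} (hv : v ∉ X)
    {a c : V} {e₁ e₂ : Bool} (h1 : G.s v a = some e₁) (h2 : G.s v c = some e₂)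
    (ha : ∀ w ∈ X, G.s v w ≠ none → w = a ∨ w = c)
    (hac : a ∈ X → c ∈ X → (p a ^^ p c) = (e₁ ^^ e₂)) : G.Ext X p v := by
  by_cases hcX : c ∈ X
  · by_cases haX : a ∈ X
    · refine ext_of h hv (e₁ ^^ p a) ?_
      have := hac haX hcX
      intro w hw e he
      rcases ha w hw (by rw [he]; simp) with rfl | rfl
      · rw [h1] at he
        simp only [Option.some.injEq] at he
        subst he
        rw [Bool.xor_assoc, Bool.xor_self, Bool.xor_false]
      · rw [h2] at he
        simp only [Option.some.injEq] at he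
        subst he
        revert this
        cases e₁ <;> cases e₂ <;> cases p a <;> cases p w <;> simp
    · apply ext_leaf h hv c
      intro w hw hne
      rcases ha w hw hne with rfl | rfl
      · exact absurd hw haX
      · rfl
  · apply ext_leaf h hv a
    intro w hw hne
    rcases ha w hw hne with rfl | rfl
    · rfl
    · exact absurd hw hcX

theorem Ext.bal {G : SG V} {X : Finset V} {p : V → Bool} {v : V} (h : G.Ext X p v) :
    G.Bal (insert v X) := by
  obtain ⟨q, hq, _⟩ := h
  exact ⟨q, hq⟩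

/-- leaf extension of balanced sets -/
theorem Bal.leaf {G : SG V} {X : Finset V} (h : G.Bal X) (v : V) (a : V)
    (ha : ∀ w ∈ X, G.s v w ≠ none → w = a) : G.Bal (insert v X) := by
  by_cases hv : v ∈ X
  · rwa [Finset.insert_eq_of_mem hv]
  · obtain ⟨p, hp⟩ := h
    exact (ext_leaf hp hv a ha).bal

theorem bal_empty (G : SG V) : G.Bal ∅ := ⟨fun _ => false, by intro u hu; simp at hu⟩

/-! ### Colourings -/

theorem Col.exact {G : SG V} {S : Finset V} (h : G.Col S) :
    ∃ P : Fin 8 → Finset V, (∀ j, G.Bal (P j)) ∧ (∀ j, P j ⊆ S) ∧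
      ∀ v ∈ S, (Finset.univ.filter (fun j => v ∈ P j)).card = 5 := by
  obtain ⟨P, hP, h5⟩ := h
  have hT : ∀ v : V, ∃ T : Finset (Fin 8), v ∈ S →
      T ⊆ Finset.univ.filter (fun j => v ∈ P j) ∧ T.card = 5 := by
    intro v
    by_cases hv : v ∈ S
    · obtain ⟨T, hT1, hT2⟩ := Finset.exists_subset_card_eq (h5 v hv)
      exact ⟨T, fun _ => ⟨hT1, hT2⟩⟩
    · exact ⟨∅, fun h => absurd h hv⟩
  choose T hT using hT
  refine ⟨fun j => S.filter (fun v => j ∈ T v), ?_, ?_, ?_⟩
  · intro j
    refine (hP j).mono ?_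
    intro v hv
    rw [Finset.mem_filter] at hv
    have := (hT v hv.1).1 hv.2
    rw [Finset.mem_filter] at this
    exact this.2
  · intro j
    exact Finset.filter_subset _ _
  · intro v hv
    have : (Finset.univ.filter (fun j => v ∈ S.filter (fun v => j ∈ T v))) = T v := by
      ext j
      simp [hv]
    rw [this]
    exact (hT v hv).2

/-- Normalisation: a given vertex is missing in the colours `0, 1, 2`. -/
theorem Col.norm {G : SG V} {S : Finset V} (h : G.Col S) (y : V) :
    ∃ P : Fin 8 → Finset V, (∀ j, G.Bal (P j)) ∧ (∀ j, P j ⊆ S) ∧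
      (∀ v ∈ S, 5 ≤ (Finset.univ.filter (fun j => v ∈ P j)).card) ∧
      y ∉ P 0 ∧ y ∉ P 1 ∧ y ∉ P 2 := by
  obtain ⟨P, hP, hPS, h5⟩ := h.exact
  by_cases hy : y ∈ S
  · set A : Finset (Fin 8) := Finset.univ.filter (fun j => y ∉ P j) with hA
    have hAc : A.card = 3 := by
      have h1 := Finset.card_filter_add_card_filter_not (s := (Finset.univ : Finset (Fin 8)))
        (fun j => y ∈ P j)
      rw [h5 y hy] at h1
      simp only [Finset.card_univ, Fintype.card_fin] at h1
      rw [hA]
      omega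
    set B : Finset (Fin 8) := {0, 1, 2} with hB
    have hBc : B.card = 3 := by
      rw [hB]
      decide
    let e : {x // x ∈ B} ≃ {x // x ∈ A} := Finset.equivOfCardEq (by rw [hAc, hBc])
    let f : Equiv.Perm (Fin 8) := e.extendSubtype
    have hf : ∀ j ∈ B, y ∉ P (f j) := by
      intro j hj
      have := e.extendSubtype_mem j hj
      exact (Finset.mem_filter.mp this).2
    refine ⟨fun j => P (f j), fun j => hP _, fun j => hPS _, ?_, hf 0 (by simp [hB]),
      hf 1 (by simp [hB]), hf 2 (by simp [hB])⟩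
    intro v hv
    have h6 : (Finset.univ.filter (fun j => v ∈ P (f j))).card
        = (Finset.univ.filter (fun j => v ∈ P j)).card := by
      apply Finset.card_bij (fun j _ => f j)
      · intro j hj
        simpa using hj
      · intro j _ j' _ hjj
        exact f.injective hjj
      · intro j hj
        refine ⟨f.symm j, ?_, by simp⟩
        simpa using hj
    rw [h6, h5 v hv]
  · refine ⟨P, hP, hPS, fun v hv => (h5 v hv).ge, ?_, ?_, ?_⟩ <;>
    exact fun h => hy (hPS _ h)

/-- Assembling a colouring. -/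
theorem Col.extend {G : SG V} {S S' : Finset V} (P' : Fin 8 → Finset V)
    (h5 : ∀ v ∈ S', 5 ≤ (Finset.univ.filter (fun j => v ∈ P' j)).card) (E : Fin 8 → Finset V)
    (hB : ∀ j, G.Bal (P' j ∪ E j))
    (hX : ∀ v ∈ S, v ∉ S' → ∃ T : Finset (Fin 8), T.card = 5 ∧ ∀ j ∈ T, v ∈ E j) : G.Col S := by
  refine ⟨fun j => P' j ∪ E j, hB, ?_⟩
  intro v hv
  by_cases hv' : v ∈ S'
  · refine (h5 v hv').trans (Finset.card_le_card ?_)
    intro j hj
    rw [Finset.mem_filter] at hj ⊢
    exact ⟨hj.1, Finset.mem_union_left _ hj.2⟩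
  · obtain ⟨T, hT, hTE⟩ := hX v hv hv'
    rw [← hT]
    refine Finset.card_le_card ?_
    intro j hj
    rw [Finset.mem_filter]
    exact ⟨Finset.mem_univ _, Finset.mem_union_right _ (hTE j hj)⟩

theorem Col.extend8 {G : SG V} {S S' : Finset V} (P' : Fin 8 → Finset V)
    (h5 : ∀ v ∈ S', 5 ≤ (Finset.univ.filter (fun j => v ∈ P' j)).card)
    (E0 E1 E2 E3 E4 E5 E6 E7 : Finset V)
    (h0 : G.Bal (P' 0 ∪ E0)) (h1 : G.Bal (P' 1 ∪ E1)) (h2 : G.Bal (P' 2 ∪ E2))
    (h3 : G.Bal (P' 3 ∪ E3)) (h4 : G.Bal (P' 4 ∪ E4)) (h5' : G.Bal (P' 5 ∪ E5))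
    (h6 : G.Bal (P' 6 ∪ E6)) (h7 : G.Bal (P' 7 ∪ E7))
    (hX : ∀ v ∈ S, v ∉ S' → ∃ T : Finset (Fin 8), T.card = 5 ∧
      ∀ j ∈ T, v ∈ (![E0, E1, E2, E3, E4, E5, E6, E7] : Fin 8 → Finset V) j) : G.Col S := by
  refine Col.extend P' h5 ![E0, E1, E2, E3, E4, E5, E6, E7] ?_ hX
  intro j
  fin_cases j
  exacts [h0, h1, h2, h3, h4, h5', h6, h7]

theorem Col.mono {G : SG V} {S T : Finset V} (h : G.Col S) (hT : T ⊆ S) : G.Col T := by
  obtain ⟨P, h1, h2⟩ := h
  exact ⟨P, h1, fun v hv => h2 v (hT hv)⟩

end SG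

end MPa4482b
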