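import Pool.Agent.Lib.MP_a4482b_co.Core

set_option autoImplicit false
set_option linter.unusedSectionVars false

/-!
# Extension lemmas: from a colouring of a smaller signed graph to a colouring of the given one
-/

namespace MPa4482b

variable {V : Type*} [DecidableEq V]

namespace SG

/-! ### Gluing two vertex sets -/

theorem bal_glue {G : SG V} {X Y : Finset V} {p q : V → Bool} (hX : G.PB X p) (hY : G.PB Y q)
    (hd : Disjoint X Y) (c : Bool)
    (h : ∀ x ∈ X, ∀ y ∈ Y, ∀ e, G.s x y = some e → e = ((p x ^^ q y) ^^ c)) :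
    G.Bal (X ∪ Y) := by
  refine ⟨fun v => if v ∈ X then p v else (q v ^^ c), ?_⟩
  have hYX : ∀ y ∈ Y, y ∉ X := fun y hy hx => (Finset.disjoint_left.mp hd) hx hy
  intro u hu w hw e he
  rw [Finset.mem_union] at hu hw
  rcases hu with hu | hu
  · rcases hw with hw | hw
    · simp only [if_pos hu, if_pos hw]
      exact hX u hu w hw e he
    · simp only [if_pos hu, if_neg (hYX w hw)]
      rw [h u hu w hw e he, Bool.xor_assoc]
  · rcases hw with hw | hw
    · simp only [if_neg (hYX u hu), if_pos hw]
      rw [G.symm] at he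
      rw [h w hw u hu e he]
      cases p w <;> cases q u <;> cases c <;> rfl
    · simp only [if_neg (hYX u hu), if_neg (hYX w hw)]
      rw [hY u hu w hw e he]
      cases q w <;> cases q u <;> cases c <;> rfl

/-- Gluing along at most one edge. -/
theorem glue1 {G : SG V} {A B : Finset V} (hA : G.Col A) (hB : G.Col B) (hd : Disjoint A B)
    (a b : V) (h : ∀ x ∈ A, ∀ y ∈ B, G.s x y ≠ none → x = a ∧ y = b) : G.Col (A ∪ B) := by
  obtain ⟨P, hP, hPA, h5⟩ := hA.exact
  obtain ⟨Q, hQ, hQB, h5'⟩ := hB.exact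
  refine ⟨fun j => P j ∪ Q j, ?_, ?_⟩
  · intro j
    obtain ⟨p, hp⟩ := hP j
    obtain ⟨q, hq⟩ := hQ j
    have hdj : Disjoint (P j) (Q j) := Disjoint.mono (hPA j) (hQB j) hd
    rcases hs : G.s a b with _ | e
    · refine bal_glue hp hq hdj false ?_
      intro x hx y hy e he
      obtain ⟨rfl, rfl⟩ := h x (hPA j hx) y (hQB j hy) (by rw [he]; simp)
      rw [hs] at he
      exact absurd he (by simp)
    · refine bal_glue hp hq hdj ((p a ^^ q b) ^^ e) ?_
      intro x hx y hy e' he
      obtain ⟨rfl, rfl⟩ := h x (hPA j hx) y (hQB j hy) (by rw [he]; simp)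
      rw [hs] at he
      simp only [Option.some.injEq] at he
      subst he
      cases p x <;> cases q y <;> cases e <;> rfl
  · intro v hv
    rcases Finset.mem_union.mp hv with hv | hv
    · rw [← h5 v hv]
      refine Finset.card_le_card ?_
      intro j hj
      rw [Finset.mem_filter] at hj ⊢
      exact ⟨hj.1, Finset.mem_union_left _ hj.2⟩
    · rw [← h5' v hv]
      refine Finset.card_le_card ?_
      intro j hj
      rw [Finset.mem_filter] at hj ⊢
      exact ⟨hj.1, Finset.mem_union_right _ hj.2⟩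

theorem PB.of_le {G G' : SG V} {X : Finset V} {p : V → Bool} (h : G'.PB X p)
    (hm : ∀ u ∈ X, ∀ w ∈ X, ∀ e, G.s u w = some e → G'.s u w = some e) : G.PB X p :=
  fun u hu w hw e he => h u hu w hw e (hm u hu w hw e he)

/-- Gluing along two edges. -/
theorem glue2 {G GA GB : SG V} {A B : Finset V} (hA : GA.Col A) (hB : GB.Col B)
    (hd : Disjoint A B)
    (hmA : ∀ u ∈ A, ∀ w ∈ A, ∀ e, G.s u w = some e → GA.s u w = some e)
    (hmB : ∀ u ∈ B, ∀ w ∈ B, ∀ e, G.s u w = some e → GB.s u w = some e)
    {a₁ a₂ b₁ b₂ : V} {e₁ e₂ εA εB : Bool} (h1 : G.s a₁ b₁ = some e₁) (h2 : G.s a₂ b₂ = some e₂)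
    (h3 : GA.s a₁ a₂ = some εA) (h4 : GB.s b₁ b₂ = some εB)
    (hs : ((εA ^^ εB) ^^ (e₁ ^^ e₂)) = false)
    (h : ∀ x ∈ A, ∀ y ∈ B, G.s x y ≠ none → (x = a₁ ∧ y = b₁) ∨ (x = a₂ ∧ y = b₂)) :
    G.Col (A ∪ B) := by
  obtain ⟨P, hP, hPA, h5⟩ := hA.exact
  obtain ⟨Q, hQ, hQB, h5'⟩ := hB.exact
  refine ⟨fun j => P j ∪ Q j, ?_, ?_⟩
  · intro j
    obtain ⟨p, hp⟩ := hP j
    obtain ⟨q, hq⟩ := hQ j
    have hdj : Disjoint (P j) (Q j) := Disjoint.mono (hPA j) (hQB j) hd
    have hp' : G.PB (P j) p := hp.of_le fun u hu w hw e he =>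
      hmA u (hPA j hu) w (hPA j hw) e he
    have hq' : G.PB (Q j) q := hq.of_le fun u hu w hw e he =>
      hmB u (hQB j hu) w (hQB j hw) e he
    by_cases hc : a₁ ∈ P j ∧ b₁ ∈ Q j
    · refine bal_glue hp' hq' hdj ((p a₁ ^^ q b₁) ^^ e₁) ?_
      intro x hx y hy e' he
      rcases h x (hPA j hx) y (hQB j hy) (by rw [he]; simp) with ⟨rfl, rfl⟩ | ⟨rfl, rfl⟩
      · rw [h1] at he
        simp only [Option.some.injEq] at he
        subst he
        cases p x <;> cases q y <;> cases e₁ <;> rfl
      · rw [h2] at he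
        simp only [Option.some.injEq] at he
        subst he
        have e3 := hp a₁ hc.1 x hx εA h3
        have e4 := hq b₁ hc.2 y hy εB h4
        subst e3 e4
        revert hs
        cases p x <;> cases q y <;> cases e₁ <;> cases e₂ <;> cases p a₁ <;> cases q b₁ <;> simp
    · refine bal_glue hp' hq' hdj ((p a₂ ^^ q b₂) ^^ e₂) ?_
      intro x hx y hy e' he
      rcases h x (hPA j hx) y (hQB j hy) (by rw [he]; simp) with ⟨rfl, rfl⟩ | ⟨rfl, rfl⟩
      · exact absurd ⟨hx, hy⟩ hc
      · rw [h2] at he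
        simp only [Option.some.injEq] at he
        subst he
        cases p x <;> cases q y <;> cases e₂ <;> rfl
  · intro v hv
    rcases Finset.mem_union.mp hv with hv | hv
    · rw [← h5 v hv]
      refine Finset.card_le_card ?_
      intro j hj
      rw [Finset.mem_filter] at hj ⊢
      exact ⟨hj.1, Finset.mem_union_left _ hj.2⟩
    · rw [← h5' v hv]
      refine Finset.card_le_card ?_
      intro j hj
      rw [Finset.mem_filter] at hj ⊢
      exact ⟨hj.1, Finset.mem_union_right _ hj.2⟩

/-! ### Paths through new vertices -/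

/-- extension keeping the old values -/
def ExtS (G : SG V) (X : Finset V) (p : V → Bool) (Y : Finset V) : Prop :=
  ∃ q : V → Bool, G.PB Y q ∧ ∀ w ∈ X, q w = p w

theorem ExtS.bal {G : SG V} {X : Finset V} {p : V → Bool} {Y : Finset V} (h : G.ExtS X p Y) :
    G.Bal Y := ⟨h.choose, h.choose_spec.1⟩

theorem ext_iff {G : SG V} {X : Finset V} {p : V → Bool} {v : V} :
    G.Ext X p v ↔ G.ExtS X p (insert v X) := Iff.rfl

/-- A path `a, x, y, c` through the two new vertices `x`, `y`. -/
theorem path2 {G : SG V} {X : Finset V} {p : V → Bool} (h : G.PB X p) {x y a c : V}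
    (hx : x ∉ X) (hy : y ∉ X) {e₁ e₂ e₃ : Bool} (h1 : G.s x a = some e₁)
    (h2 : G.s x y = some e₂) (h3 : G.s y c = some e₃)
    (hax : ∀ w ∈ X, G.s x w ≠ none → w = a) (hcy : ∀ w ∈ X, G.s y w ≠ none → w = c)
    (hac : a ∈ X → c ∈ X → (p a ^^ p c) = (e₁ ^^ (e₂ ^^ e₃))) :
    G.ExtS X p (insert y (insert x X)) := by
  have hxy : x ≠ y := ne_of_some h2
  by_cases ha : a ∈ X
  · obtain ⟨q, hq, hqp⟩ := ext_leaf h hx a hax
    have hxq : q x = (e₁ ^^ p a) := by
      have := hq x (Finset.mem_insert_self _ _) a (Finset.mem_insert_of_mem ha) e₁ h1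
      rw [hqp a ha] at this
      subst this
      cases q x <;> cases p a <;> rfl
    have hy' : y ∉ insert x X := by
      rw [Finset.mem_insert]
      rintro (h | h)
      · exact hxy h.symm
      · exact hy h
    have h2' : G.s y x = some e₂ := by rw [G.symm]; exact h2
    obtain ⟨r, hr, hrq⟩ := ext_two hq hy' h2' h3 (by
      intro w hw hne
      rcases Finset.mem_insert.mp hw with rfl | hw
      · exact Or.inl rfl
      · exact Or.inr (hcy w hw hne)) (by
      intro _ hc
      rcases Finset.mem_insert.mp hc with hc | hc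
      · rw [hc] at h3
        rw [h2'] at h3
        simp only [Option.some.injEq] at h3
        subst h3 hc
        simp
      · rw [hqp c hc, hxq]
        have := hac ha hc
        revert this
        cases e₁ <;> cases e₂ <;> cases e₃ <;> cases p a <;> cases p c <;> simp)
    refine ⟨r, hr, fun w hw => ?_⟩
    rw [hrq w (Finset.mem_insert_of_mem hw), hqp w hw]
  · obtain ⟨q, hq, hqp⟩ := ext_leaf h hy c hcy
    have hx' : x ∉ insert y X := by
      rw [Finset.mem_insert]
      rintro (h | h)
      · exact hxy h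
      · exact hx h
    obtain ⟨r, hr, hrq⟩ := ext_leaf hq hx' y (by
      intro w hw hne
      rcases Finset.mem_insert.mp hw with rfl | hw
      · rfl
      · exact absurd (hax w hw hne ▸ hw) ha)
    rw [Finset.insert_comm]
    refine ⟨r, hr, fun w hw => ?_⟩
    rw [hrq w (Finset.mem_insert_of_mem hw), hqp w hw]

/-- A path `a, x, y, z, c` through the three new vertices `x`, `y`, `z`. -/
theorem path3 {G : SG V} {X : Finset V} {p : V → Bool} (h : G.PB X p) {x y z a c : V}
    (hx : x ∉ X) (hy : y ∉ X) (hz : z ∉ X) (hxz : x ≠ z) {e₁ e₂ e₃ e₄ : Bool}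
    (h1 : G.s x a = some e₁)
    (h2 : G.s x y = some e₂) (h3 : G.s y z = some e₃) (h4 : G.s z c = some e₄)
    (hnxz : G.s x z = none)
    (hax : ∀ w ∈ X, G.s x w ≠ none → w = a) (hyX : ∀ w ∈ X, G.s y w = none)
    (hcz : ∀ w ∈ X, G.s z w ≠ none → w = c)
    (hac : a ∈ X → c ∈ X → (p a ^^ p c) = ((e₁ ^^ e₂) ^^ (e₃ ^^ e₄))) :
    G.ExtS X p (insert z (insert y (insert x X))) := by
  have hxy : x ≠ y := ne_of_some h2
  have hyz : y ≠ z := ne_of_some h3
  by_cases ha : a ∈ X
  · obtain ⟨q, hq, hqp⟩ := ext_leaf h hx a hax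
    have hxq : q x = (e₁ ^^ p a) := by
      have := hq x (Finset.mem_insert_self _ _) a (Finset.mem_insert_of_mem ha) e₁ h1
      rw [hqp a ha] at this
      subst this
      cases q x <;> cases p a <;> rfl
    have hy' : y ∉ insert x X := by
      rw [Finset.mem_insert]
      rintro (h | h)
      · exact hxy h.symm
      · exact hy h
    have hz' : z ∉ insert x X := by
      rw [Finset.mem_insert]
      rintro (h | h)
      · exact hxz h.symm
      · exact hz h
    have h2' : G.s y x = some e₂ := by rw [G.symm]; exact h2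
    obtain ⟨r, hr, hrq⟩ := path2 hq hy' hz' h2' h3 h4 (by
      intro w hw hne
      rcases Finset.mem_insert.mp hw with rfl | hw
      · rfl
      · exact absurd (hyX w hw) hne) (by
      intro w hw hne
      rcases Finset.mem_insert.mp hw with rfl | hw
      · rw [G.symm] at hne
        exact absurd hnxz hne
      · exact hcz w hw hne) (by
      intro _ hc
      rcases Finset.mem_insert.mp hc with hc | hc
      · rw [hc, G.symm, hnxz] at h4
        exact absurd h4 (by simp)
      · rw [hqp c hc, hxq]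
        have := hac ha hc
        revert this
        cases e₁ <;> cases e₂ <;> cases e₃ <;> cases e₄ <;> cases p a <;> cases p c <;> simp)
    refine ⟨r, hr, fun w hw => ?_⟩
    rw [hrq w (Finset.mem_insert_of_mem hw), hqp w hw]
  · obtain ⟨q, hq, hqp⟩ := ext_leaf h hz c hcz
    have hy' : y ∉ insert z X := by
      rw [Finset.mem_insert]
      rintro (h | h)
      · exact hyz h
      · exact hy h
    obtain ⟨r, hr, hrq⟩ := ext_leaf hq hy' z (by
      intro w hw hne
      rcases Finset.mem_insert.mp hw with rfl | hw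
      · rfl
      · exact absurd (hyX w hw) hne)
    have hx' : x ∉ insert y (insert z X) := by
      rw [Finset.mem_insert, Finset.mem_insert]
      rintro (h | h | h)
      · exact hxy h
      · exact hxz h
      · exact hx h
    obtain ⟨t, ht, htr⟩ := ext_leaf hr hx' y (by
      intro w hw hne
      rcases Finset.mem_insert.mp hw with rfl | hw
      · rfl
      rcases Finset.mem_insert.mp hw with rfl | hw
      · exact absurd hnxz hne
      · exact absurd (hax w hw hne ▸ hw) ha)
    have hset : insert z (insert y (insert x X)) = insert x (insert y (insert z X)) := by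
      ext w
      simp only [Finset.mem_insert]
      tauto
    rw [hset]
    refine ⟨t, ht, fun w hw => ?_⟩
    rw [htr w (Finset.mem_insert_of_mem (Finset.mem_insert_of_mem hw)),
      hrq w (Finset.mem_insert_of_mem hw), hqp w hw]

end SG

end MPa4482b
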