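import Pool.Agent.Lib.MP_a4482b_co.Ext

set_option autoImplicit false
set_option linter.unusedSectionVars false

/-!
# Extension lemmas for the reductions
-/

namespace MPa4482b

variable {V : Type*} [DecidableEq V]

namespace SG

theorem lf_ins {G : SG V} {X : Finset V} {v a y : V} (hy : G.s v y = none ∨ y = a)
    (hX : ∀ w ∈ X, G.s v w ≠ none → w = a) : ∀ w ∈ insert y X, G.s v w ≠ none → w = a := by
  intro w hw hne
  rcases Finset.mem_insert.mp hw with rfl | hw
  · rcases hy with h | h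
    · exact absurd h hne
    · exact h
  · exact hX w hw hne

theorem lf_none {G : SG V} {X : Finset V} {v a : V} (h : ∀ w ∈ X, G.s v w = none) :
    ∀ w ∈ X, G.s v w ≠ none → w = a := fun w hw hne => absurd (h w hw) hne

theorem lf_sub {G : SG V} {X T : Finset V} {v a : V} (hX : X ⊆ T)
    (h : ∀ w ∈ T, G.s v w ≠ none → w = a) : ∀ w ∈ X, G.s v w ≠ none → w = a :=
  fun w hw hne => h w (hX hw) hne

/-- the only possible neighbour `y` is not in `X` -/
theorem lf_abs {G : SG V} {X T : Finset V} {v a y : V} (hX : X ⊆ T) (hy : y ∉ X)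
    (h : ∀ w ∈ T, G.s v w ≠ none → w = y) : ∀ w ∈ X, G.s v w ≠ none → w = a :=
  fun w hw hne => absurd (h w (hX hw) hne ▸ hw) hy

/-- two neighbours joined by an edge with the right sign -/
theorem Bal.tri {G : SG V} {X : Finset V} (h : G.Bal X) {v a c : V} {e₁ e₂ e₃ : Bool}
    (h1 : G.s v a = some e₁) (h2 : G.s v c = some e₂) (h3 : G.s a c = some e₃)
    (he : (e₁ ^^ (e₂ ^^ e₃)) = false)
    (hn : ∀ w ∈ X, G.s v w ≠ none → w = a ∨ w = c) : G.Bal (insert v X) := by
  by_cases hv : v ∈ X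
  · rwa [Finset.insert_eq_of_mem hv]
  · obtain ⟨p, hp⟩ := h
    refine (ext_two hp hv h1 h2 hn ?_).bal
    intro ha hc
    have := hp a ha c hc e₃ h3
    subst this
    revert he
    cases e₁ <;> cases e₂ <;> cases p a <;> cases p c <;> simp

theorem two_ins {G : SG V} {X : Finset V} {v a c y : V} (hy : G.s v y = none ∨ y = a ∨ y = c)
    (hX : ∀ w ∈ X, G.s v w ≠ none → w = a ∨ w = c) :
    ∀ w ∈ insert y X, G.s v w ≠ none → w = a ∨ w = c := by
  intro w hw hne
  rcases Finset.mem_insert.mp hw with rfl | hw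
  · rcases hy with h | h
    · exact absurd h hne
    · exact h
  · exact hX w hw hne

theorem two_sub {G : SG V} {X T : Finset V} {v a c : V} (hX : X ⊆ T)
    (h : ∀ w ∈ T, G.s v w ≠ none → w = a ∨ w = c) :
    ∀ w ∈ X, G.s v w ≠ none → w = a ∨ w = c := fun w hw hne => h w (hX hw) hne

theorem nnone {G : SG V} {u w : V} (h : G.s u w = none) : G.s w u = none := by rwa [G.symm]

theorem nsome {G : SG V} {u w : V} {e : Bool} (h : G.s u w = some e) : G.s w u = some e := by
  rwa [G.symm]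

/-! ### Degree two vertices -/

/-- suppressing a vertex of degree two -/
theorem ext_supp {G G' : SG V} {S T : Finset V} {v a b : V} {e₁ e₂ : Bool}
    (hS : S ⊆ insert v T) (hv : v ∉ T)
    (hm : ∀ u ∈ T, ∀ w ∈ T, ∀ e, G.s u w = some e → G'.s u w = some e)
    (h1 : G.s v a = some e₁) (h2 : G.s v b = some e₂) (h3 : G'.s a b = some (e₁ ^^ e₂))
    (hn : ∀ w ∈ T, G.s v w ≠ none → w = a ∨ w = b) (hc : G'.Col T) : G.Col S := by
  obtain ⟨P, hP, hPT, h5⟩ := hc.exact
  refine Col.extend P (fun v hv => (h5 v hv).ge) (fun _ => {v}) ?_ ?_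
  · intro j
    obtain ⟨p, hp⟩ := hP j
    have hp' : G.PB (P j) p := hp.of_le fun u hu w hw e he =>
      hm u (hPT j hu) w (hPT j hw) e he
    rw [Finset.union_singleton]
    refine (ext_two hp' (fun h => hv (hPT j h)) h1 h2 (two_sub (hPT j) hn) ?_).bal
    intro ha hb
    exact (hp a ha b hb _ h3).symm
  · intro u hu hu'
    rcases Finset.mem_insert.mp (hS hu) with rfl | h
    · exact ⟨{0, 1, 2, 3, 4}, by decide, fun j _ => Finset.mem_singleton_self _⟩
    · exact absurd h hu'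

/-- a triangle `v a b` with `v` of degree two -/
theorem ext_tri2 {G : SG V} {S T : Finset V} {v a b a' b' : V}
    (hS : S ⊆ insert v (insert a (insert b T)))
    (hvT : ∀ w ∈ T, G.s v w = none) (haT : ∀ w ∈ T, G.s a w ≠ none → w = a')
    (hbT : ∀ w ∈ T, G.s b w ≠ none → w = b') (hc : G.Col T) : G.Col S := by
  obtain ⟨P, hP, hPT, h5, hy0, hy1, hy2⟩ := hc.norm a'
  have hab : ∀ j, a' ∉ P j → G.Bal (insert a (insert b (P j))) := by
    intro j hj
    refine Bal.leaf (Bal.leaf (hP j) b b' (lf_sub (hPT j) hbT)) a b ?_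
    exact lf_ins (Or.inr rfl) (lf_abs (hPT j) hj haT)
  have hvb : ∀ j, G.Bal (insert v (insert b (P j))) := by
    intro j
    refine Bal.leaf (Bal.leaf (hP j) b b' (lf_sub (hPT j) hbT)) v b ?_
    exact lf_ins (Or.inr rfl) (lf_none fun w hw => hvT w (hPT j hw))
  have hva : ∀ j, G.Bal (insert v (insert a (P j))) := by
    intro j
    refine Bal.leaf (Bal.leaf (hP j) a a' (lf_sub (hPT j) haT)) v a ?_
    exact lf_ins (Or.inr rfl) (lf_none fun w hw => hvT w (hPT j hw))
  refine Col.extend8 P h5 {a, b} {a, b} {a, b} {v, b} {v, b} {v, b} {v, a} {v, a}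
    ?_ ?_ ?_ ?_ ?_ ?_ ?_ ?_ ?_
  pick_goal 9
  · intro u hu hu'
    have := hS hu
    simp only [Finset.mem_insert] at this
    rcases this with rfl | rfl | rfl | h
    · exact ⟨{3, 4, 5, 6, 7}, by decide, by simp⟩
    · exact ⟨{0, 1, 2, 6, 7}, by decide, by simp⟩
    · exact ⟨{0, 1, 2, 3, 4}, by decide, by simp⟩
    · exact absurd h hu'
  any_goals simp only [Finset.union_insert, Finset.union_singleton]
  exacts [hab _ hy0, hab _ hy1, hab _ hy2, hvb _, hvb _, hvb _, hva _, hva _]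

/-! ### Diamonds `p q r s` (edges `pq, pr, ps, qr, qs`) -/

/-- both triangles positive: no link is needed -/
theorem ext_dia_pp {G : SG V} {S T : Finset V} {p q r s r' s' : V}
    {epq epr eps eqr eqs : Bool}
    (hS : S ⊆ insert p (insert q (insert r (insert s T))))
    (hpq : G.s p q = some epq) (hpr : G.s p r = some epr) (hps : G.s p s = some eps)
    (hqr : G.s q r = some eqr) (hqs : G.s q s = some eqs) (hrs : G.s r s = none)
    (t1 : (epq ^^ (epr ^^ eqr)) = false) (t2 : (epq ^^ (eps ^^ eqs)) = false)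
    (hpT : ∀ w ∈ T, G.s p w = none) (hqT : ∀ w ∈ T, G.s q w = none)
    (hrT : ∀ w ∈ T, G.s r w ≠ none → w = r') (hsT : ∀ w ∈ T, G.s s w ≠ none → w = s')
    (hc : G.Col T) : G.Col S := by
  obtain ⟨P, hP, hPT, h5⟩ := hc.exact
  have A : ∀ j, G.Bal (insert q (insert p (insert s (P j)))) := by
    intro j
    refine Bal.tri (Bal.leaf (Bal.leaf (hP j) s s' (lf_sub (hPT j) hsT)) p s ?_)
      (nsome hpq) hqs hps ?_ ?_
    · exact lf_ins (Or.inr rfl) (lf_none fun w hw => hpT w (hPT j hw))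
    · revert t2
      cases epq <;> cases eps <;> cases eqs <;> simp
    · exact two_ins (Or.inr (Or.inl rfl)) (two_ins (Or.inr (Or.inr rfl))
        (fun w hw hne => absurd (hqT w (hPT j hw)) hne))
  have B : ∀ j, G.Bal (insert q (insert p (insert r (P j)))) := by
    intro j
    refine Bal.tri (Bal.leaf (Bal.leaf (hP j) r r' (lf_sub (hPT j) hrT)) p r ?_)
      (nsome hpq) hqr hpr ?_ ?_
    · exact lf_ins (Or.inr rfl) (lf_none fun w hw => hpT w (hPT j hw))
    · revert t1
      cases epq <;> cases epr <;> cases eqr <;> simp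
    · exact two_ins (Or.inr (Or.inl rfl)) (two_ins (Or.inr (Or.inr rfl))
        (fun w hw hne => absurd (hqT w (hPT j hw)) hne))
  have C : ∀ j, G.Bal (insert r (insert s (P j))) := by
    intro j
    refine Bal.leaf (Bal.leaf (hP j) s s' (lf_sub (hPT j) hsT)) r r' ?_
    exact lf_ins (Or.inl hrs) (lf_sub (hPT j) hrT)
  refine Col.extend8 P (fun v hv => (h5 v hv).ge) {q, p, s} {q, p, s} {q, p, s} {q, p, r}
    {q, p, r} {q, p, r} {r, s} {r, s} ?_ ?_ ?_ ?_ ?_ ?_ ?_ ?_ ?_
  pick_goal 9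
  · intro u hu hu'
    have := hS hu
    simp only [Finset.mem_insert] at this
    rcases this with rfl | rfl | rfl | rfl | h
    · exact ⟨{0, 1, 2, 3, 4}, by decide, by simp⟩
    · exact ⟨{0, 1, 2, 3, 4}, by decide, by simp⟩
    · exact ⟨{3, 4, 5, 6, 7}, by decide, by simp⟩
    · exact ⟨{0, 1, 2, 6, 7}, by decide, by simp⟩
    · exact absurd h hu'
  any_goals simp only [Finset.union_insert, Finset.union_singleton]
  exacts [A _, A _, A _, B _, B _, B _, C _, C _]

/-- `s - p - r` replaces an edge: path `r' r p s s'` -/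
theorem dia_path {G G' : SG V} {T X : Finset V} {p r s r' s' : V}
    {epr eps er es t : Bool} (hXT : X ⊆ T) (hp0 : p ∉ T) (hr0 : r ∉ T) (hs0 : s ∉ T)
    (hrsne : r ≠ s)
    (hm : ∀ u ∈ T, ∀ w ∈ T, ∀ e, G.s u w = some e → G'.s u w = some e)
    (hpr : G.s p r = some epr) (hps : G.s p s = some eps) (hrs : G.s r s = none)
    (hr : G.s r r' = some er) (hs : G.s s s' = some es) (ht : G'.s r' s' = some t)
    (hte : t = ((er ^^ epr) ^^ (eps ^^ es)))
    (hpT : ∀ w ∈ T, G.s p w = none)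
    (hrT : ∀ w ∈ T, G.s r w ≠ none → w = r') (hsT : ∀ w ∈ T, G.s s w ≠ none → w = s')
    (hX : G'.Bal X) : G.Bal (insert s (insert p (insert r X))) := by
  obtain ⟨f, hf⟩ := hX
  have hf' : G.PB X f := hf.of_le fun u hu w hw e he => hm u (hXT hu) w (hXT hw) e he
  refine (path3 hf' (fun h => hr0 (hXT h)) (fun h => hp0 (hXT h)) (fun h => hs0 (hXT h)) hrsne
    hr (nsome hpr) hps hs hrs (lf_sub hXT hrT) (fun w hw => hpT w (hXT hw)) (lf_sub hXT hsT)
    ?_).bal
  intro ha hc
  rw [← hf r' ha s' hc t ht, hte]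

/-- both links have the same parity -/
theorem ext_dia_link {G G' : SG V} {S T : Finset V} {p q r s r' s' : V}
    {epr eps eqr eqs er es t : Bool}
    (hS : S ⊆ insert p (insert q (insert r (insert s T))))
    (hp0 : p ∉ T) (hq0 : q ∉ T) (hr0 : r ∉ T) (hs0 : s ∉ T) (hrsne : r ≠ s)
    (hm : ∀ u ∈ T, ∀ w ∈ T, ∀ e, G.s u w = some e → G'.s u w = some e)
    (hpr : G.s p r = some epr) (hps : G.s p s = some eps)
    (hqr : G.s q r = some eqr) (hqs : G.s q s = some eqs) (hrs : G.s r s = none)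
    (hr : G.s r r' = some er) (hs : G.s s s' = some es) (ht : G'.s r' s' = some t)
    (t1 : t = ((er ^^ epr) ^^ (eps ^^ es))) (t2 : t = ((er ^^ eqr) ^^ (eqs ^^ es)))
    (hpT : ∀ w ∈ T, G.s p w = none) (hqT : ∀ w ∈ T, G.s q w = none)
    (hrT : ∀ w ∈ T, G.s r w ≠ none → w = r') (hsT : ∀ w ∈ T, G.s s w ≠ none → w = s')
    (hc : G'.Col T) : G.Col S := by
  obtain ⟨P, hP, hPT, h5⟩ := hc.exact
  have A : ∀ j, G.Bal (insert s (insert q (insert r (P j)))) := fun j =>
    dia_path (hPT j) hq0 hr0 hs0 hrsne hm hqr hqs hrs hr hs ht t2 hqT hrT hsT (hP j)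
  have B : ∀ j, G.Bal (insert s (insert p (insert r (P j)))) := fun j =>
    dia_path (hPT j) hp0 hr0 hs0 hrsne hm hpr hps hrs hr hs ht t1 hpT hrT hsT (hP j)
  have P0 : ∀ j, G.Bal (P j) := by
    intro j
    obtain ⟨f, hf⟩ := hP j
    exact ⟨f, hf.of_le fun u hu w hw e he => hm u (hPT j hu) w (hPT j hw) e he⟩
  have C : ∀ j, G.Bal (insert q (insert p (P j))) := by
    intro j
    refine Bal.leaf (Bal.leaf (P0 j) p p (lf_none fun w hw => hpT w (hPT j hw))) q p ?_
    exact lf_ins (Or.inr rfl) (lf_none fun w hw => hqT w (hPT j hw))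
  refine Col.extend8 P (fun v hv => (h5 v hv).ge) {s, q, r} {s, q, r} {s, q, r} {s, p, r}
    {s, p, r} {s, p, r} {q, p} {q, p} ?_ ?_ ?_ ?_ ?_ ?_ ?_ ?_ ?_
  pick_goal 9
  · intro u hu hu'
    have := hS hu
    simp only [Finset.mem_insert] at this
    rcases this with rfl | rfl | rfl | rfl | h
    · exact ⟨{3, 4, 5, 6, 7}, by decide, by simp⟩
    · exact ⟨{0, 1, 2, 6, 7}, by decide, by simp⟩
    · exact ⟨{0, 1, 2, 3, 4}, by decide, by simp⟩
    · exact ⟨{0, 1, 2, 3, 4}, by decide, by simp⟩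
    · exact absurd h hu'
  any_goals simp only [Finset.union_insert, Finset.union_singleton]
  exacts [A _, A _, A _, B _, B _, B _, C _, C _]

/-- link through `p` only, and the triangle `p q s` is positive -/
theorem ext_dia_mix {G G' : SG V} {S T : Finset V} {p q r s r' s' : V}
    {epq epr eps eqr eqs er es t : Bool}
    (hS : S ⊆ insert p (insert q (insert r (insert s T))))
    (hp0 : p ∉ T) (hr0 : r ∉ T) (hs0 : s ∉ T) (hrsne : r ≠ s)
    (hm : ∀ u ∈ T, ∀ w ∈ T, ∀ e, G.s u w = some e → G'.s u w = some e)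
    (hpq : G.s p q = some epq) (hpr : G.s p r = some epr) (hps : G.s p s = some eps)
    (hqr : G.s q r = some eqr) (hqs : G.s q s = some eqs) (hrs : G.s r s = none)
    (hr : G.s r r' = some er) (hs : G.s s s' = some es) (ht : G'.s r' s' = some t)
    (t1 : t = ((er ^^ epr) ^^ (eps ^^ es))) (t2 : (epq ^^ (eps ^^ eqs)) = false)
    (hpT : ∀ w ∈ T, G.s p w = none) (hqT : ∀ w ∈ T, G.s q w = none)
    (hrT : ∀ w ∈ T, G.s r w ≠ none → w = r') (hsT : ∀ w ∈ T, G.s s w ≠ none → w = s')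
    (hc : G'.Col T) : G.Col S := by
  obtain ⟨P, hP, hPT, h5⟩ := hc.exact
  have A : ∀ j, G.Bal (insert s (insert p (insert r (P j)))) := fun j =>
    dia_path (hPT j) hp0 hr0 hs0 hrsne hm hpr hps hrs hr hs ht t1 hpT hrT hsT (hP j)
  have P0 : ∀ j, G.Bal (P j) := by
    intro j
    obtain ⟨f, hf⟩ := hP j
    exact ⟨f, hf.of_le fun u hu w hw e he => hm u (hPT j hu) w (hPT j hw) e he⟩
  have B : ∀ j, G.Bal (insert q (insert p (insert s (P j)))) := by
    intro j
    refine Bal.tri (Bal.leaf (Bal.leaf (P0 j) s s' (lf_sub (hPT j) hsT)) p s ?_)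
      (nsome hpq) hqs hps ?_ ?_
    · exact lf_ins (Or.inr rfl) (lf_none fun w hw => hpT w (hPT j hw))
    · revert t2
      cases epq <;> cases eps <;> cases eqs <;> simp
    · exact two_ins (Or.inr (Or.inl rfl)) (two_ins (Or.inr (Or.inr rfl))
        (fun w hw hne => absurd (hqT w (hPT j hw)) hne))
  have C : ∀ j, G.Bal (insert q (insert r (P j))) := by
    intro j
    refine Bal.leaf (Bal.leaf (P0 j) r r' (lf_sub (hPT j) hrT)) q r ?_
    exact lf_ins (Or.inr rfl) (lf_none fun w hw => hqT w (hPT j hw))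
  refine Col.extend8 P (fun v hv => (h5 v hv).ge) {s, p, r} {s, p, r} {s, p, r} {q, p, s}
    {q, p, s} {q, p, s} {q, r} {q, r} ?_ ?_ ?_ ?_ ?_ ?_ ?_ ?_ ?_
  pick_goal 9
  · intro u hu hu'
    have := hS hu
    simp only [Finset.mem_insert] at this
    rcases this with rfl | rfl | rfl | rfl | h
    · exact ⟨{0, 1, 2, 3, 4}, by decide, by simp⟩
    · exact ⟨{3, 4, 5, 6, 7}, by decide, by simp⟩
    · exact ⟨{0, 1, 2, 6, 7}, by decide, by simp⟩
    · exact ⟨{0, 1, 2, 3, 4}, by decide, by simp⟩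
    · exact absurd h hu'
  any_goals simp only [Finset.union_insert, Finset.union_singleton]
  exacts [A _, A _, A _, B _, B _, B _, C _, C _]

/-- the ends `r'`, `s'` are adjacent with the wrong sign: remove them too -/
theorem ext_dia_sp {G : SG V} {S T : Finset V} {p q r s r' s' r'' s'' : V}
    (hS : S ⊆ insert p (insert q (insert r (insert s (insert r' (insert s' T))))))
    (hrs : G.s r s = none) (hpr' : G.s p r' = none) (hps' : G.s p s' = none)
    (hqr' : G.s q r' = none) (hqs' : G.s q s' = none) (hrs' : G.s r s' = none)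
    (hsr' : G.s s r' = none)
    (hpT : ∀ w ∈ T, G.s p w = none) (hqT : ∀ w ∈ T, G.s q w = none)
    (hrT : ∀ w ∈ T, G.s r w = none) (hsT : ∀ w ∈ T, G.s s w = none)
    (hr'T : ∀ w ∈ T, G.s r' w ≠ none → w = r'') (hs'T : ∀ w ∈ T, G.s s' w ≠ none → w = s'')
    (hc : G.Col T) : G.Col S := by
  obtain ⟨P, hP, hPT, h5, hy0, hy1, hy2⟩ := hc.norm r''
  have A : ∀ j, r'' ∉ P j → G.Bal (insert q (insert p (insert r' (insert s' (P j))))) := by
    intro j hj
    refine Bal.leaf (Bal.leaf (Bal.leaf (Bal.leaf (hP j) s' s'' (lf_sub (hPT j) hs'T)) r' s' ?_)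
      p p ?_) q p ?_
    · exact lf_ins (Or.inr rfl) (lf_abs (hPT j) hj hr'T)
    · exact lf_ins (Or.inl hpr') (lf_ins (Or.inl hps') (lf_none fun w hw => hpT w (hPT j hw)))
    · exact lf_ins (Or.inr rfl) (lf_ins (Or.inl hqr') (lf_ins (Or.inl hqs')
        (lf_none fun w hw => hqT w (hPT j hw))))
  have B : ∀ j, G.Bal (insert r (insert q (insert s (insert s' (P j))))) := by
    intro j
    refine Bal.leaf (Bal.leaf (Bal.leaf (Bal.leaf (hP j) s' s'' (lf_sub (hPT j) hs'T)) s s' ?_)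
      q s ?_) r q ?_
    · exact lf_ins (Or.inr rfl) (lf_none fun w hw => hsT w (hPT j hw))
    · exact lf_ins (Or.inr rfl) (lf_ins (Or.inl hqs') (lf_none fun w hw => hqT w (hPT j hw)))
    · exact lf_ins (Or.inr rfl) (lf_ins (Or.inl hrs) (lf_ins (Or.inl hrs')
        (lf_none fun w hw => hrT w (hPT j hw))))
  have C : ∀ j, G.Bal (insert s (insert p (insert r (insert r' (P j))))) := by
    intro j
    refine Bal.leaf (Bal.leaf (Bal.leaf (Bal.leaf (hP j) r' r'' (lf_sub (hPT j) hr'T)) r r' ?_)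
      p r ?_) s p ?_
    · exact lf_ins (Or.inr rfl) (lf_none fun w hw => hrT w (hPT j hw))
    · exact lf_ins (Or.inr rfl) (lf_ins (Or.inl hpr') (lf_none fun w hw => hpT w (hPT j hw)))
    · exact lf_ins (Or.inr rfl) (lf_ins (Or.inl (nnone hrs)) (lf_ins (Or.inl hsr')
        (lf_none fun w hw => hsT w (hPT j hw))))
  refine Col.extend8 P h5 {q, p, r', s'} {q, p, r', s'} {r, q, s, s'} {r, q, s, s'}
    {r, q, s, s'} {s, p, r, r'} {s, p, r, r'} {s, p, r, r'} ?_ ?_ ?_ ?_ ?_ ?_ ?_ ?_ ?_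
  pick_goal 9
  · intro u hu hu'
    have := hS hu
    simp only [Finset.mem_insert] at this
    rcases this with rfl | rfl | rfl | rfl | rfl | rfl | h
    · exact ⟨{0, 1, 5, 6, 7}, by decide, by simp⟩
    · exact ⟨{0, 1, 2, 3, 4}, by decide, by simp⟩
    · exact ⟨{2, 3, 4, 5, 6}, by decide, by simp⟩
    · exact ⟨{2, 3, 4, 5, 6}, by decide, by simp⟩
    · exact ⟨{0, 1, 5, 6, 7}, by decide, by simp⟩
    · exact ⟨{0, 1, 2, 3, 4}, by decide, by simp⟩
    · exact absurd h hu'
  any_goals simp only [Finset.union_insert, Finset.union_singleton]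
  exacts [A _ hy0, A _ hy1, B _, B _, B _, C _, C _, C _]

end SG

end MPa4482b
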