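import Pool.Agent.Lib.MP_a4482b_co.Ext2

set_option autoImplicit false
set_option linter.unusedSectionVars false

/-!
# Extension lemmas for cubic signed graphs: triangles and claws
-/

namespace MPa4482b

variable {V : Type*} [DecidableEq V]

namespace SG

/-- `K₄` with two positive triangles (opposite to `a` and to `b`) -/
theorem col_K4 {G : SG V} {S : Finset V} {a b c d : V} {ebc ebd ecd eac ead : Bool}
    (hS : S ⊆ {a, b, c, d})
    (hbc : G.s b c = some ebc) (hbd : G.s b d = some ebd) (hcd : G.s c d = some ecd)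
    (hac : G.s a c = some eac) (had : G.s a d = some ead)
    (t1 : (ebc ^^ (ebd ^^ ecd)) = false) (t2 : (eac ^^ (ead ^^ ecd)) = false) : G.Col S := by
  have cd : G.Bal (insert c (insert d ∅)) := by
    refine Bal.leaf (Bal.leaf G.bal_empty d d (by simp)) c d ?_
    exact lf_ins (Or.inr rfl) (by simp)
  have A : G.Bal (insert b (insert c (insert d ∅))) :=
    Bal.tri cd hbc hbd hcd t1 (two_ins (Or.inr (Or.inl rfl)) (two_ins (Or.inr (Or.inr rfl))
      (by simp)))
  have B : G.Bal (insert a (insert c (insert d ∅))) :=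
    Bal.tri cd hac had hcd t2 (two_ins (Or.inr (Or.inl rfl)) (two_ins (Or.inr (Or.inr rfl))
      (by simp)))
  have C : G.Bal (insert a (insert b ∅)) := by
    refine Bal.leaf (Bal.leaf G.bal_empty b b (by simp)) a b ?_
    exact lf_ins (Or.inr rfl) (by simp)
  refine Col.extend8 (S' := ∅) (fun _ => ∅) (by simp) {b, c, d} {b, c, d} {b, c, d} {a, c, d}
    {a, c, d} {a, c, d} {a, b} {a, b} ?_ ?_ ?_ ?_ ?_ ?_ ?_ ?_ ?_
  pick_goal 9
  · intro u hu hu'
    have := hS hu
    simp only [Finset.mem_insert, Finset.mem_singleton] at this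
    rcases this with rfl | rfl | rfl | rfl
    · exact ⟨{3, 4, 5, 6, 7}, by decide, by simp⟩
    · exact ⟨{0, 1, 2, 6, 7}, by decide, by simp⟩
    · exact ⟨{0, 1, 2, 3, 4}, by decide, by simp⟩
    · exact ⟨{0, 1, 2, 3, 4}, by decide, by simp⟩
  any_goals rw [Finset.empty_union]
  exacts [A, A, A, B, B, B, C, C]

/-- a triangle `x y z`, with outer neighbours `x'`, `y'`, `z'`; `x` is deleted and `y`, `z`, `x'`
are suppressed -/
theorem ext_tri {G G' : SG V} {S T : Finset V} {x y z x' y' z' x₁ x₂ : V}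
    {eyz eyy ezz e1 e2 : Bool}
    (hS : S ⊆ insert x (insert y (insert z (insert x' T))))
    (hy0 : y ∉ T) (hz0 : z ∉ T) (hx'0 : x' ∉ T) (hyx' : y ≠ x') (hzx' : z ≠ x')
    (hy'T : y' ∈ T) (hz'T : z' ∈ T)
    (hm : ∀ u ∈ T, ∀ w ∈ T, ∀ e, G.s u w = some e → G'.s u w = some e)
    (hyz : G.s y z = some eyz) (hyy : G.s y y' = some eyy) (hzz : G.s z z' = some ezz)
    (h1 : G.s x' x₁ = some e1) (h2 : G.s x' x₂ = some e2)
    (hyx : G.s y x' = none) (hzx : G.s z x' = none)
    (n1 : G'.s y' z' = some (eyy ^^ (eyz ^^ ezz))) (n2 : G'.s x₁ x₂ = some (e1 ^^ e2))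
    (hxT : ∀ w ∈ T, G.s x w = none) (hyT : ∀ w ∈ T, G.s y w ≠ none → w = y')
    (hzT : ∀ w ∈ T, G.s z w ≠ none → w = z')
    (hx'T : ∀ w ∈ T, G.s x' w ≠ none → w = x₁ ∨ w = x₂)
    (hc : G'.Col T) : G.Col S := by
  obtain ⟨P, hP', hPT, h5, hq0, hq1, hq2⟩ := hc.norm y'
  have hP : ∀ j, G.Bal (P j) := by
    intro j
    obtain ⟨f, hf⟩ := hP' j
    exact ⟨f, hf.of_le fun u hu w hw e he => hm u (hPT j hu) w (hPT j hw) e he⟩
  have X' : ∀ j, ∃ f q : V → Bool, G'.PB (P j) f ∧ G.PB (insert x' (P j)) q ∧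
      ∀ w ∈ P j, q w = f w := by
    intro j
    obtain ⟨f, hf⟩ := hP' j
    have hf' : G.PB (P j) f := hf.of_le fun u hu w hw e he =>
      hm u (hPT j hu) w (hPT j hw) e he
    obtain ⟨q, hq, hqf⟩ := ext_two hf' (fun h => hx'0 (hPT j h)) h1 h2 (two_sub (hPT j) hx'T)
      (fun ha hb => (hf x₁ ha x₂ hb _ n2).symm)
    exact ⟨f, q, hf, hq, hqf⟩
  have X'b : ∀ j, G.Bal (insert x' (P j)) := by
    intro j
    obtain ⟨f, q, _, hq, _⟩ := X' j
    exact ⟨q, hq⟩
  have XX' : ∀ j, G.Bal (insert x (insert x' (P j))) := by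
    intro j
    refine Bal.leaf (X'b j) x x' ?_
    exact lf_ins (Or.inr rfl) (lf_none fun w hw => hxT w (hPT j hw))
  have A : ∀ j, y' ∉ P j → G.Bal (insert y (insert x (insert x' (P j)))) := by
    intro j hj
    refine Bal.leaf (XX' j) y x ?_
    exact lf_ins (Or.inr rfl) (lf_ins (Or.inl hyx) (lf_abs (hPT j) hj hyT))
  have B : ∀ j, G.Bal (insert z (insert y (insert x' (P j)))) := by
    intro j
    obtain ⟨f, q, hf, hq, hqf⟩ := X' j
    refine (path2 hq (x := y) (y := z) (a := y') (c := z') ?_ ?_ hyy hyz hzz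
      (lf_ins (Or.inl hyx) (lf_sub (hPT j) hyT)) (lf_ins (Or.inl hzx) (lf_sub (hPT j) hzT))
      ?_).bal
    · rw [Finset.mem_insert]
      rintro (h | h)
      · exact hyx' h
      · exact hy0 (hPT j h)
    · rw [Finset.mem_insert]
      rintro (h | h)
      · exact hzx' h
      · exact hz0 (hPT j h)
    · intro ha hb
      have ha' : y' ∈ P j := by
        rcases Finset.mem_insert.mp ha with h | h
        · exact absurd (h ▸ hy'T) hx'0
        · exact h
      have hb' : z' ∈ P j := by
        rcases Finset.mem_insert.mp hb with h | h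
        · exact absurd (h ▸ hz'T) hx'0
        · exact h
      rw [hqf _ ha', hqf _ hb']
      exact (hf y' ha' z' hb' _ n1).symm
  have C : ∀ j, G.Bal (insert x (insert z (P j))) := by
    intro j
    refine Bal.leaf (Bal.leaf (hP j) z z' (lf_sub (hPT j) hzT)) x z ?_
    exact lf_ins (Or.inr rfl) (lf_none fun w hw => hxT w (hPT j hw))
  have D : ∀ j, G.Bal (insert x (insert y (P j))) := by
    intro j
    refine Bal.leaf (Bal.leaf (hP j) y y' (lf_sub (hPT j) hyT)) x y ?_
    exact lf_ins (Or.inr rfl) (lf_none fun w hw => hxT w (hPT j hw))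
  refine Col.extend8 P h5 {y, x, x'} {z, y, x'} {z, y, x'} {z, y, x'} {x, z} {x, z} {x, y}
    {x, x'} ?_ ?_ ?_ ?_ ?_ ?_ ?_ ?_ ?_
  pick_goal 9
  · intro u hu hu'
    have := hS hu
    simp only [Finset.mem_insert] at this
    rcases this with rfl | rfl | rfl | rfl | h
    · exact ⟨{0, 4, 5, 6, 7}, by decide, by simp⟩
    · exact ⟨{0, 1, 2, 3, 6}, by decide, by simp⟩
    · exact ⟨{1, 2, 3, 4, 5}, by decide, by simp⟩
    · exact ⟨{0, 1, 2, 3, 7}, by decide, by simp⟩
    · exact absurd h hu'
  any_goals simp only [Finset.union_insert, Finset.union_singleton]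
  exacts [A _ hq0, B _, B _, B _, C _, C _, D _, XX' _]

/-- two triangles `x y z` and `x' u w` joined by the edge `x x'` -/
theorem ext_tritri {G G' : SG V} {S T : Finset V} {x y z x' u w y' z' u' w' : V}
    {eyz eyy ezz euw euu eww : Bool}
    (hS : S ⊆ insert x (insert y (insert z (insert x' (insert u (insert w T))))))
    (hy0 : y ∉ T) (hz0 : z ∉ T) (hu0 : u ∉ T) (hw0 : w ∉ T)
    (hm : ∀ u ∈ T, ∀ w ∈ T, ∀ e, G.s u w = some e → G'.s u w = some e)
    (hyz : G.s y z = some eyz) (hyy : G.s y y' = some eyy) (hzz : G.s z z' = some ezz)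
    (huw : G.s u w = some euw) (huu : G.s u u' = some euu) (hww : G.s w w' = some eww)
    (hyx : G.s y x' = none) (hzx : G.s z x' = none) (hxu : G.s x u = none)
    (hxw : G.s x w = none) (hyu : G.s y u = none) (hyw : G.s y w = none)
    (hzu : G.s z u = none) (hzw : G.s z w = none)
    (n1 : G'.s y' z' = some (eyy ^^ (eyz ^^ ezz))) (n2 : G'.s u' w' = some (euu ^^ (euw ^^ eww)))
    (hxT : ∀ t ∈ T, G.s x t = none) (hx'T : ∀ t ∈ T, G.s x' t = none)
    (hyT : ∀ t ∈ T, G.s y t ≠ none → t = y') (hzT : ∀ t ∈ T, G.s z t ≠ none → t = z')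
    (huT : ∀ t ∈ T, G.s u t ≠ none → t = u') (hwT : ∀ t ∈ T, G.s w t ≠ none → t = w')
    (hc : G'.Col T) : G.Col S := by
  obtain ⟨P, hP', hPT, h5, hq0, hq1, hq2⟩ := hc.norm z'
  have hP : ∀ j, G.Bal (P j) := by
    intro j
    obtain ⟨f, hf⟩ := hP' j
    exact ⟨f, hf.of_le fun u hu w hw e he => hm u (hPT j hu) w (hPT j hw) e he⟩
  have YZ : ∀ j, G.Bal (insert z (insert y (P j))) := by
    intro j
    obtain ⟨f, hf⟩ := hP' j
    have hf' : G.PB (P j) f := hf.of_le fun u hu w hw e he =>
      hm u (hPT j hu) w (hPT j hw) e he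
    exact (path2 hf' (fun h => hy0 (hPT j h)) (fun h => hz0 (hPT j h)) hyy hyz hzz
      (lf_sub (hPT j) hyT) (lf_sub (hPT j) hzT)
      (fun ha hb => (hf y' ha z' hb _ n1).symm)).bal
  have UW : ∀ j, G.Bal (insert w (insert u (P j))) := by
    intro j
    obtain ⟨f, hf⟩ := hP' j
    have hf' : G.PB (P j) f := hf.of_le fun u hu w hw e he =>
      hm u (hPT j hu) w (hPT j hw) e he
    exact (path2 hf' (fun h => hu0 (hPT j h)) (fun h => hw0 (hPT j h)) huu huw hww
      (lf_sub (hPT j) huT) (lf_sub (hPT j) hwT)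
      (fun ha hb => (hf u' ha w' hb _ n2).symm)).bal
  have XXW : ∀ j, G.Bal (insert x (insert x' (insert w (P j)))) := by
    intro j
    refine Bal.leaf (Bal.leaf (Bal.leaf (hP j) w w' (lf_sub (hPT j) hwT)) x' w ?_) x x' ?_
    · exact lf_ins (Or.inr rfl) (lf_none fun t ht => hx'T t (hPT j ht))
    · exact lf_ins (Or.inr rfl) (lf_ins (Or.inl hxw) (lf_none fun t ht => hxT t (hPT j ht)))
  have A : ∀ j, z' ∉ P j → G.Bal (insert z (insert x (insert x' (insert w (P j))))) := by
    intro j hj
    refine Bal.leaf (XXW j) z x ?_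
    exact lf_ins (Or.inr rfl) (lf_ins (Or.inl hzx) (lf_ins (Or.inl hzw)
      (lf_abs (hPT j) hj hzT)))
  have B : ∀ j, G.Bal (insert x' (insert w (insert z (insert y (P j))))) := by
    intro j
    refine Bal.leaf (Bal.leaf (YZ j) w w' ?_) x' w ?_
    · exact lf_ins (Or.inl (nnone hzw)) (lf_ins (Or.inl (nnone hyw)) (lf_sub (hPT j) hwT))
    · exact lf_ins (Or.inr rfl) (lf_ins (Or.inl (nnone hzx)) (lf_ins (Or.inl (nnone hyx))
        (lf_none fun t ht => hx'T t (hPT j ht))))
  have C : ∀ j, G.Bal (insert x' (insert u (insert z (insert y (P j))))) := by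
    intro j
    refine Bal.leaf (Bal.leaf (YZ j) u u' ?_) x' u ?_
    · exact lf_ins (Or.inl (nnone hzu)) (lf_ins (Or.inl (nnone hyu)) (lf_sub (hPT j) huT))
    · exact lf_ins (Or.inr rfl) (lf_ins (Or.inl (nnone hzx)) (lf_ins (Or.inl (nnone hyx))
        (lf_none fun t ht => hx'T t (hPT j ht))))
  have D : ∀ j, G.Bal (insert x (insert z (insert w (insert u (P j))))) := by
    intro j
    refine Bal.leaf (Bal.leaf (UW j) z z' ?_) x z ?_
    · exact lf_ins (Or.inl hzw) (lf_ins (Or.inl hzu) (lf_sub (hPT j) hzT))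
    · exact lf_ins (Or.inr rfl) (lf_ins (Or.inl hxw) (lf_ins (Or.inl hxu)
        (lf_none fun t ht => hxT t (hPT j ht))))
  have E : ∀ j, G.Bal (insert x (insert y (insert w (insert u (P j))))) := by
    intro j
    refine Bal.leaf (Bal.leaf (UW j) y y' ?_) x y ?_
    · exact lf_ins (Or.inl hyw) (lf_ins (Or.inl hyu) (lf_sub (hPT j) hyT))
    · exact lf_ins (Or.inr rfl) (lf_ins (Or.inl hxw) (lf_ins (Or.inl hxu)
        (lf_none fun t ht => hxT t (hPT j ht))))
  refine Col.extend8 P h5 {z, x, x', w} {x, x', w} {x', w, z, y} {x', u, z, y} {x', u, z, y}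
    {x, z, w, u} {x, y, w, u} {x, y, w, u} ?_ ?_ ?_ ?_ ?_ ?_ ?_ ?_ ?_
  pick_goal 9
  · intro t ht ht'
    have := hS ht
    simp only [Finset.mem_insert] at this
    rcases this with rfl | rfl | rfl | rfl | rfl | rfl | h
    · exact ⟨{0, 1, 5, 6, 7}, by decide, by simp⟩
    · exact ⟨{2, 3, 4, 6, 7}, by decide, by simp⟩
    · exact ⟨{0, 2, 3, 4, 5}, by decide, by simp⟩
    · exact ⟨{0, 1, 2, 3, 4}, by decide, by simp⟩
    · exact ⟨{3, 4, 5, 6, 7}, by decide, by simp⟩
    · exact ⟨{0, 1, 2, 5, 6}, by decide, by simp⟩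
    · exact absurd h ht'
  any_goals simp only [Finset.union_insert, Finset.union_singleton]
  exacts [A _ hq0, XXW _, B _, C _, C _, D _, E _, E _]

/-- the main step: delete `v` and suppress its three neighbours `a`, `b`, `d` -/
theorem ext_claw {G G' : SG V} {S T : Finset V} {v a b d a₁ a₂ b₁ b₂ d₁ d₂ : V}
    {ea1 ea2 eb1 eb2 ed1 ed2 : Bool}
    (hS : S ⊆ insert v (insert a (insert b (insert d T))))
    (hv0 : v ∉ T) (ha0 : a ∉ T) (hb0 : b ∉ T) (hd0 : d ∉ T)
    (hva : v ≠ a) (hvb : v ≠ b) (hvd : v ≠ d) (hab : a ≠ b) (had : a ≠ d) (hbd : b ≠ d)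
    (hb₁ : b₁ ∈ T) (hb₂ : b₂ ∈ T) (hd₁ : d₁ ∈ T) (hd₂ : d₂ ∈ T)
    (hm : ∀ u ∈ T, ∀ w ∈ T, ∀ e, G.s u w = some e → G'.s u w = some e)
    (h1 : G.s a a₁ = some ea1) (h2 : G.s a a₂ = some ea2)
    (h3 : G.s b b₁ = some eb1) (h4 : G.s b b₂ = some eb2)
    (h5 : G.s d d₁ = some ed1) (h6 : G.s d d₂ = some ed2)
    (nab : G.s a b = none) (nad : G.s a d = none) (nbd : G.s b d = none)
    (n1 : G'.s a₁ a₂ = some (ea1 ^^ ea2)) (n2 : G'.s b₁ b₂ = some (eb1 ^^ eb2))
    (n3 : G'.s d₁ d₂ = some (ed1 ^^ ed2))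
    (hvT : ∀ w ∈ T, G.s v w = none)
    (haT : ∀ w ∈ T, G.s a w ≠ none → w = a₁ ∨ w = a₂)
    (hbT : ∀ w ∈ T, G.s b w ≠ none → w = b₁ ∨ w = b₂)
    (hdT : ∀ w ∈ T, G.s d w ≠ none → w = d₁ ∨ w = d₂)
    (hc : G'.Col T) : G.Col S := by
  obtain ⟨P, hP', hPT, h5'⟩ := hc.exact
  have hX : ∀ j, ∃ q : V → Bool, G.PB (insert d (insert b (insert a (P j)))) q := by
    intro j
    obtain ⟨f, hf⟩ := hP' j
    have hf' : G.PB (P j) f := hf.of_le fun u hu w hw e he =>
      hm u (hPT j hu) w (hPT j hw) e he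
    obtain ⟨q1, hq1, hq1f⟩ := ext_two hf' (fun h => ha0 (hPT j h)) h1 h2
      (two_sub (hPT j) haT) (fun ha hb => (hf a₁ ha a₂ hb _ n1).symm)
    have key : ∀ {t t' : V}, t ∈ T → t' ∈ insert a (P j) → t' = t → t ∈ P j := by
      intro t t' ht ht' htt
      subst htt
      rcases Finset.mem_insert.mp ht' with h | h
      · exact absurd (h ▸ ht) ha0
      · exact h
    obtain ⟨q2, hq2, hq2f⟩ := ext_two hq1 (v := b) (by
        rw [Finset.mem_insert]
        rintro (h | h)
        · exact hab h.symm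
        · exact hb0 (hPT j h)) h3 h4
      (two_ins (Or.inl (nnone nab)) (two_sub (hPT j) hbT)) (by
        intro ha hb
        have ha' := key hb₁ ha rfl
        have hb' := key hb₂ hb rfl
        rw [hq1f _ ha', hq1f _ hb']
        exact (hf b₁ ha' b₂ hb' _ n2).symm)
    have key2 : ∀ {t : V}, t ∈ T → t ∈ insert b (insert a (P j)) → t ∈ P j := by
      intro t ht ht'
      rcases Finset.mem_insert.mp ht' with h | h
      · exact absurd (h ▸ ht) hb0
      · exact key ht h rfl
    obtain ⟨q3, hq3, _⟩ := ext_two hq2 (v := d) (by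
        rw [Finset.mem_insert, Finset.mem_insert]
        rintro (h | h | h)
        · exact hbd h.symm
        · exact had h.symm
        · exact hd0 (hPT j h)) h5 h6
      (two_ins (Or.inl (nnone nbd)) (two_ins (Or.inl (nnone nad)) (two_sub (hPT j) hdT))) (by
        intro ha hb
        have ha' := key2 hd₁ ha
        have hb' := key2 hd₂ hb
        rw [hq2f _ (Finset.mem_insert_of_mem ha'), hq2f _ (Finset.mem_insert_of_mem hb'),
          hq1f _ ha', hq1f _ hb']
        exact (hf d₁ ha' d₂ hb' _ n3).symm)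
    exact ⟨q3, hq3⟩
  choose q hq using hX
  -- the value which the new vertex `v` would need
  let ev : V → Bool := fun x => (G.s v x).getD false
  let val : Fin 8 → V → Bool := fun j x => (ev x ^^ q j x)
  let t : Fin 8 → V := fun j => if val j a = val j b then d else if val j a = val j d then b else a
  let c : Fin 8 → Bool := fun j => if t j = a then val j b else val j a
  have htmem : ∀ j, t j = a ∨ t j = b ∨ t j = d := by
    intro j
    simp only [t]
    split_ifs
    · exact Or.inr (Or.inr rfl)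
    · exact Or.inr (Or.inl rfl)
    · exact Or.inl rfl
  have ht : ∀ j, ∀ x, (x = a ∨ x = b ∨ x = d) → x ≠ t j → val j x = c j := by
    intro j x hx hxt
    simp only [c]
    by_cases h1' : val j a = val j b
    · have htd : t j = d := by simp only [t, if_pos h1']
      rw [htd, if_neg had.symm]
      rcases hx with rfl | rfl | rfl
      · rfl
      · exact h1'.symm
      · exact absurd htd.symm hxt
    · by_cases h2' : val j a = val j d
      · have htb : t j = b := by simp only [t, if_neg h1', if_pos h2']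
        rw [htb, if_neg hab.symm]
        rcases hx with rfl | rfl | rfl
        · rfl
        · exact absurd htb.symm hxt
        · exact h2'.symm
      · have hta : t j = a := by simp only [t, if_neg h1', if_neg h2']
        rw [hta, if_pos rfl]
        rcases hx with rfl | rfl | rfl
        · exact absurd hta.symm hxt
        · rfl
        · revert h1' h2'
          cases val j a <;> cases val j b <;> cases val j x <;> simp
  have hvX : ∀ j, v ∉ insert d (insert b (insert a (P j))) := by
    intro j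
    simp only [Finset.mem_insert]
    rintro (h | h | h | h)
    · exact hvd h
    · exact hvb h
    · exact hva h
    · exact hv0 (hPT j h)
  -- adding `v` to a set `Y` when all the present neighbours have the same value
  have main : ∀ (j : Fin 8) (Y : Finset V) (cc : Bool),
      Y ⊆ insert d (insert b (insert a (P j))) →
      (∀ x ∈ Y, (x = a ∨ x = b ∨ x = d) → val j x = cc) → G.Bal (insert v Y) := by
    intro j Y cc hY hval
    refine (ext_of ((hq j).mono hY) (fun h => hvX j (hY h)) cc ?_).bal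
    intro w hw e he
    have hwm := hY hw
    simp only [Finset.mem_insert] at hwm
    have hx : w = a ∨ w = b ∨ w = d := by
      rcases hwm with h | h | h | h
      · exact Or.inr (Or.inr h)
      · exact Or.inr (Or.inl h)
      · exact Or.inl h
      · exact absurd (hvT w (hPT j h)) (by rw [he]; simp)
    have := hval w hw hx
    simp only [val, ev, he, Option.getD_some] at this
    rw [← this]
    cases e <;> cases q j w <;> rfl
  have N : ∀ j, G.Bal (P j ∪ {d, b, a}) := by
    intro j
    simp only [Finset.union_insert, Finset.union_singleton]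
    exact ⟨q j, hq j⟩
  have F : ∀ j, G.Bal (P j ∪ insert v (({d, b, a} : Finset V).erase (t j))) := by
    intro j
    rw [Finset.union_insert]
    refine main j _ (c j) ?_ ?_
    · intro x hx
      rcases Finset.mem_union.mp hx with h | h
      · simp [h]
      · have := Finset.mem_of_mem_erase h
        simp only [Finset.mem_insert, Finset.mem_singleton] at this
        simp only [Finset.mem_insert]
        tauto
    · intro x hx hx3
      refine ht j x hx3 ?_
      rcases Finset.mem_union.mp hx with h | h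
      · intro hxt
        have hxT := hPT j h
        rcases hx3 with rfl | rfl | rfl
        · exact ha0 hxT
        · exact hb0 hxT
        · exact hd0 hxT
      · exact (Finset.mem_erase.mp h).1
  have M : ∀ j k, G.Bal (P j ∪ {v, t k}) := by
    intro j k
    simp only [Finset.union_insert, Finset.union_singleton]
    refine main j _ (val j (t k)) ?_ ?_
    · intro x hx
      rcases Finset.mem_insert.mp hx with h | h
      · rw [h]
        simp only [Finset.mem_insert]
        rcases htmem k with h | h | h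
        · exact Or.inr (Or.inr (Or.inl h))
        · exact Or.inr (Or.inl h)
        · exact Or.inl h
      · simp [h]
    · intro x hx hx3
      rcases Finset.mem_insert.mp hx with h | h
      · rw [h]
      · exfalso
        have hxT := hPT j h
        rcases hx3 with rfl | rfl | rfl
        · exact ha0 hxT
        · exact hb0 hxT
        · exact hd0 hxT
  refine Col.extend8 P (fun v hv => (h5' v hv).ge)
    (insert v (({d, b, a} : Finset V).erase (t 0))) {v, t 0} {d, b, a}
    (insert v (({d, b, a} : Finset V).erase (t 3))) {v, t 3} {d, b, a} {d, b, a}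
    (insert v (({d, b, a} : Finset V).erase (t 7))) (F 0) (M 1 0) (N 2) (F 3) (M 4 3) (N 5)
    (N 6) (F 7) ?_
  have cnt : ∀ x, (x = a ∨ x = b ∨ x = d) → ∃ T : Finset (Fin 8), T.card = 5 ∧
      ∀ j ∈ T, x ∈ (![insert v (({d, b, a} : Finset V).erase (t 0)), {v, t 0}, {d, b, a},
        insert v (({d, b, a} : Finset V).erase (t 3)), {v, t 3}, {d, b, a}, {d, b, a},
        insert v (({d, b, a} : Finset V).erase (t 7))] : Fin 8 → Finset V) j := by
    intro x hx
    have hmem : x ∈ ({d, b, a} : Finset V) := by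
      simp only [Finset.mem_insert, Finset.mem_singleton]
      tauto
    have e0 : ∀ k, x ≠ t k → x ∈ insert v (({d, b, a} : Finset V).erase (t k)) := fun k hk =>
      Finset.mem_insert_of_mem (Finset.mem_erase.mpr ⟨hk, hmem⟩)
    by_cases h0 : x = t 0
    · by_cases h3' : x = t 3
      · refine ⟨{1, 2, 4, 5, 6}, by decide, ?_⟩
        have g1 : x ∈ ({v, t 0} : Finset V) := by simp [h0]
        have g4 : x ∈ ({v, t 3} : Finset V) := by simp [← h3']
        intro j hj
        simp only [Finset.mem_insert, Finset.mem_singleton] at hj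
        rcases hj with rfl | rfl | rfl | rfl | rfl
        exacts [g1, hmem, g4, hmem, hmem]
      · refine ⟨{1, 2, 3, 5, 6}, by decide, ?_⟩
        have g1 : x ∈ ({v, t 0} : Finset V) := by simp [h0]
        intro j hj
        simp only [Finset.mem_insert, Finset.mem_singleton] at hj
        rcases hj with rfl | rfl | rfl | rfl | rfl
        exacts [g1, hmem, e0 3 h3', hmem, hmem]
    · by_cases h3' : x = t 3
      · refine ⟨{0, 2, 4, 5, 6}, by decide, ?_⟩
        have g4 : x ∈ ({v, t 3} : Finset V) := by simp [← h3']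
        intro j hj
        simp only [Finset.mem_insert, Finset.mem_singleton] at hj
        rcases hj with rfl | rfl | rfl | rfl | rfl
        exacts [e0 0 h0, hmem, g4, hmem, hmem]
      · refine ⟨{0, 2, 3, 5, 6}, by decide, ?_⟩
        intro j hj
        simp only [Finset.mem_insert, Finset.mem_singleton] at hj
        rcases hj with rfl | rfl | rfl | rfl | rfl
        exacts [e0 0 h0, hmem, e0 3 h3', hmem, hmem]
  intro x hx hx'
  have := hS hx
  simp only [Finset.mem_insert] at this
  rcases this with rfl | h | h | h | h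
  · exact ⟨{0, 1, 3, 4, 7}, by decide, by simp⟩
  · exact cnt x (Or.inl h)
  · exact cnt x (Or.inr (Or.inl h))
  · exact cnt x (Or.inr (Or.inr h))
  · exact absurd h hx'

end SG

end MPa4482b
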