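import Pool.Agent.Lib.MP_a4482b_co.Red9

set_option autoImplicit false
set_option linter.unusedSectionVars false

/-!
# The main induction
-/

namespace MPa4482b

variable {V : Type*} [DecidableEq V]

namespace SG

theorem red_claw {G : SG V} {S : Finset V} (ih : IH V S.card) (ok : G.Ok S)
    (cub : G.Cubic S) (hc2 : ¬ G.Cut2 S) (nt : G.NoTri S) {v : V} (hv : v ∈ S) : G.Col S := by
  obtain ⟨a, ha, b, hb, d, hd, ab, ad, bd, va, vb, vd, nv⟩ := cub.three hv
  obtain ⟨a₁, ha₁, a₂, ha₂, a₁v, a₂v, a12, aa₁, aa₂, na⟩ := cub.others ha hv (adj_symm va)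
  obtain ⟨b₁, hb₁, b₂, hb₂, b₁v, b₂v, b12, bb₁, bb₂, nb⟩ := cub.others hb hv (adj_symm vb)
  obtain ⟨d₁, hd₁, d₂, hd₂, d₁v, d₂v, d12, dd₁, dd₂, nd⟩ := cub.others hd hv (adj_symm vd)
  by_cases pab : Pr a₁ a₂ b₁ b₂
  · have k1 : G.s b a₁ ≠ none := by
      rcases pab with ⟨rfl, rfl⟩ | ⟨rfl, rfl⟩ <;> assumption
    have k2 : G.s b a₂ ≠ none := by
      rcases pab with ⟨rfl, rfl⟩ | ⟨rfl, rfl⟩ <;> assumption
    exact red_K23 ih ok cub hc2 nt ha hb hv ha₁ ha₂ ab a₁v.symm a₂v.symm a12 (adj_symm va) aa₁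
      aa₂ (adj_symm vb) k1 k2
  by_cases pad : Pr a₁ a₂ d₁ d₂
  · have k1 : G.s d a₁ ≠ none := by
      rcases pad with ⟨rfl, rfl⟩ | ⟨rfl, rfl⟩ <;> assumption
    have k2 : G.s d a₂ ≠ none := by
      rcases pad with ⟨rfl, rfl⟩ | ⟨rfl, rfl⟩ <;> assumption
    exact red_K23 ih ok cub hc2 nt ha hd hv ha₁ ha₂ ad a₁v.symm a₂v.symm a12 (adj_symm va) aa₁
      aa₂ (adj_symm vd) k1 k2
  by_cases pbd : Pr b₁ b₂ d₁ d₂
  · have k1 : G.s d b₁ ≠ none := by
      rcases pbd with ⟨rfl, rfl⟩ | ⟨rfl, rfl⟩ <;> assumption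
    have k2 : G.s d b₂ ≠ none := by
      rcases pbd with ⟨rfl, rfl⟩ | ⟨rfl, rfl⟩ <;> assumption
    exact red_K23 ih ok cub hc2 nt hb hd hv hb₁ hb₂ bd b₁v.symm b₂v.symm b12 (adj_symm vb) bb₁
      bb₂ (adj_symm vd) k1 k2
  have h : G.Claw S v a b d a₁ a₂ b₁ b₂ d₁ d₂ :=
    ⟨hv, ha, hb, hd, ha₁, ha₂, hb₁, hb₂, hd₁, hd₂, va, vb, vd, aa₁, aa₂, bb₁, bb₂, dd₁, dd₂,
      nv, na, nb, nd, ab, ad, bd, a₁v, a₂v, b₁v, b₂v, d₁v, d₂v, a12, b12, d12⟩
  exact h.red ih ok cub hc2 nt pab pad pbd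

/-- Main theorem on vertex sets: if all degrees in `S` are at most three and `S` contains neither
`(K₄,-)` nor `K̂₄•`, then `S` has a balanced `(8,5)`-colouring. -/
theorem main_col : ∀ (n : ℕ) (G : SG V) (S : Finset V), S.card = n → G.Ok S → G.Col S := by
  intro n
  induction n using Nat.strong_induction_on with
  | _ n IHn =>
    intro G S hn ok
    have ih : IH V S.card := fun G' T hT hok => IHn T.card (by omega) G' T rfl hok
    by_cases hS : S.card ≤ 1
    · refine ⟨fun _ => S, ?_, ?_⟩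
      · intro j
        refine ⟨fun _ => false, ?_⟩
        intro u hu w hw e he
        have huw : u = w := Finset.card_le_one.mp hS u hu w hw
        subst huw
        rw [G.irr] at he
        exact absurd he (by simp)
      · intro v hv
        simp [hv]
    by_cases hc1 : G.Cut1 S
    · exact red_cut1 ih ok hc1
    by_cases cub : G.Cubic S
    swap
    · unfold Cubic at cub
      push Not at cub
      obtain ⟨v, hv, hv3⟩ := cub
      have h2 := deg_ge_two (by omega) hc1 v hv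
      have h3 := ok.deg v hv
      have hcard : (G.nb S v).card = 2 := by omega
      obtain ⟨a, b, hab, heq⟩ := Finset.card_eq_two.mp hcard
      have ha : a ∈ G.nb S v := by
        rw [heq]
        simp
      have hb : b ∈ G.nb S v := by
        rw [heq]
        simp
      rw [mem_nb] at ha hb
      have hn : ∀ w ∈ S, G.s v w ≠ none → w = a ∨ w = b := by
        intro w hw hne
        have : w ∈ G.nb S v := mem_nb.mpr ⟨hw, hne⟩
        rw [heq] at this
        simpa using this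
      by_cases hadj : G.s a b = none
      · exact red_supp ih ok hc1 hv ha.1 hb.1 hab ha.2 hb.2 hadj hn
      · exact red_tri2 ih ok hv ha.1 hb.1 ha.2 hb.2 hadj hn
    by_cases nd : G.NoDia S
    swap
    · exact red_dia ih ok cub hc1 nd
    by_cases hc2 : G.Cut2 S
    · exact red_cut2 ih ok cub hc1 nd hc2
    by_cases ht : ∃ x ∈ S, G.InTri S x
    · obtain ⟨x, hx, hxt⟩ := ht
      exact red_tri ih ok cub hc2 nd hx hxt
    · have nt : G.NoTri S := by
        intro u hu v hv w hw h1 h2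
        by_contra h3
        exact ht ⟨u, hu, v, hv, w, hw, h1, h2, h3⟩
      obtain ⟨v, hv⟩ : S.Nonempty := by
        rw [← Finset.card_pos]
        omega
      exact red_claw ih ok cub hc2 nt hv

end SG

end MPa4482b
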