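import Pool.Agent.Lib.MP_a4482b_co.Base

set_option autoImplicit false
set_option linter.unusedSectionVars false
set_option linter.style.longLine false

/-!
# Finite models: the small base graphs
-/

namespace MPa4482b

variable {V : Type*} [DecidableEq V]

namespace SG

abbrev I44 : Type := Fin 4 ⊕ Fin 4
abbrev I51 : Type := Fin 5 ⊕ Fin 1

/-- first end of the edge number `e` of `K₄` -/
def lo : Fin 6 → Fin 4 := ![0, 0, 0, 1, 1, 2]
/-- second end of the edge number `e` of `K₄` -/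
def hi : Fin 6 → Fin 4 := ![1, 2, 3, 2, 3, 3]

/-- `i j` are the ends of the edge number `e` -/
def inE (e : Fin 6) (i j : Fin 4) : Bool :=
  (decide (i = lo e) && decide (j = hi e)) || (decide (i = hi e) && decide (j = lo e))

theorem exists_edge : ∀ i j : Fin 4, i ≠ j →
    ∃ e : Fin 6, (i = lo e ∧ j = hi e) ∨ (i = hi e ∧ j = lo e) := by decide


/-! ### Claw model : `0 1 2 3` and `v a b d` -/

def adj1 (eb ed : Fin 6) : I44 → I44 → Bool
  | .inl i, .inl j => decide (i ≠ j) && !inE 0 i j && !inE eb i j && !inE ed i j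
  | .inl i, .inr k => (decide (k = 1) && (decide (i = 0) || decide (i = 1))) ||
      (decide (k = 2) && (decide (i = lo eb) || decide (i = hi eb))) ||
      (decide (k = 3) && (decide (i = lo ed) || decide (i = hi ed)))
  | .inr k, .inl i => (decide (k = 1) && (decide (i = 0) || decide (i = 1))) ||
      (decide (k = 2) && (decide (i = lo eb) || decide (i = hi eb))) ||
      (decide (k = 3) && (decide (i = lo ed) || decide (i = hi ed)))
  | .inr k, .inr l => (decide (k = 0) && decide (l ≠ 0)) || (decide (l = 0) && decide (k ≠ 0))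

def tab1 (eb ed : ℕ) : List (List I44) :=
  match eb, ed with
  | 1, 3 =>
     [[.inl 3, .inr 1, .inr 2, .inr 0, .inr 3],
      [.inl 3, .inr 1, .inr 2, .inr 0, .inr 3],
      [.inl 3, .inr 1, .inr 2, .inr 0, .inr 3],
      [.inl 0, .inl 1, .inr 2, .inl 2, .inr 3],
      [.inl 0, .inl 2, .inr 1, .inl 1, .inr 3],
      [.inl 1, .inl 2, .inr 1, .inl 0, .inr 2],
      [.inl 0, .inl 1, .inl 2, .inl 3, .inr 0],
      [.inl 0, .inl 1, .inl 2, .inl 3, .inr 0]]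
  | 1, 4 =>
     [[.inl 3, .inr 1, .inr 2, .inr 0, .inr 3],
      [.inl 3, .inr 1, .inr 2, .inr 0, .inr 3],
      [.inl 2, .inr 1, .inr 2, .inr 0, .inr 3],
      [.inl 1, .inl 3, .inr 1, .inl 0, .inr 2],
      [.inl 0, .inr 2, .inl 2, .inl 1, .inr 3],
      [.inl 0, .inl 2, .inr 1, .inl 1, .inr 3],
      [.inl 0, .inl 1, .inl 2, .inl 3, .inr 0],
      [.inl 0, .inl 1, .inl 2, .inl 3, .inr 0]]
  | 1, 5 =>
     [[.inl 3, .inr 1, .inr 2, .inr 0, .inr 3],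
      [.inl 3, .inr 1, .inr 2, .inr 0, .inr 3],
      [.inl 3, .inr 1, .inr 2, .inl 2, .inr 3],
      [.inl 1, .inr 1, .inl 0, .inr 2, .inr 3],
      [.inl 0, .inl 1, .inr 2, .inl 2, .inr 3],
      [.inl 0, .inl 2, .inl 1, .inr 0, .inr 1],
      [.inl 0, .inl 2, .inl 1, .inl 3, .inr 0],
      [.inl 0, .inl 2, .inl 1, .inl 3, .inr 0]]
  | 2, 3 =>
     [[.inl 3, .inr 1, .inr 2, .inr 0, .inr 3],
      [.inl 3, .inr 1, .inr 2, .inr 0, .inr 3],
      [.inl 2, .inr 1, .inr 2, .inr 0, .inr 3],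
      [.inl 0, .inl 3, .inr 1, .inl 1, .inr 3],
      [.inl 1, .inr 2, .inl 0, .inl 2, .inr 3],
      [.inl 1, .inl 2, .inr 1, .inl 0, .inr 2],
      [.inl 0, .inl 1, .inl 2, .inl 3, .inr 0],
      [.inl 0, .inl 1, .inl 2, .inl 3, .inr 0]]
  | 2, 4 =>
     [[.inl 2, .inr 1, .inr 2, .inr 0, .inr 3],
      [.inl 2, .inr 1, .inr 2, .inr 0, .inr 3],
      [.inl 2, .inr 1, .inr 2, .inr 0, .inr 3],
      [.inl 0, .inl 1, .inr 2, .inl 3, .inr 3],
      [.inl 0, .inl 3, .inr 1, .inl 1, .inr 3],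
      [.inl 1, .inl 3, .inr 1, .inl 0, .inr 2],
      [.inl 0, .inl 1, .inl 2, .inl 3, .inr 0],
      [.inl 0, .inl 1, .inl 2, .inl 3, .inr 0]]
  | 2, 5 =>
     [[.inl 2, .inr 1, .inr 2, .inr 0, .inr 3],
      [.inl 2, .inr 1, .inr 2, .inr 0, .inr 3],
      [.inl 2, .inr 1, .inr 2, .inl 3, .inr 3],
      [.inl 1, .inr 1, .inl 0, .inr 2, .inr 3],
      [.inl 0, .inl 1, .inr 2, .inl 3, .inr 3],
      [.inl 0, .inl 3, .inl 1, .inr 0, .inr 1],
      [.inl 0, .inl 2, .inl 1, .inl 3, .inr 0],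
      [.inl 0, .inl 2, .inl 1, .inl 3, .inr 0]]
  | 3, 1 =>
     [[.inl 3, .inr 1, .inr 2, .inr 0, .inr 3],
      [.inl 3, .inr 1, .inr 2, .inr 0, .inr 3],
      [.inl 3, .inr 1, .inr 2, .inr 0, .inr 3],
      [.inl 0, .inl 1, .inr 2, .inl 2, .inr 3],
      [.inl 1, .inl 2, .inr 1, .inl 0, .inr 3],
      [.inl 0, .inl 2, .inr 1, .inl 1, .inr 2],
      [.inl 0, .inl 1, .inl 2, .inl 3, .inr 0],
      [.inl 0, .inl 1, .inl 2, .inl 3, .inr 0]]
  | 3, 2 =>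
     [[.inl 3, .inr 1, .inr 2, .inr 0, .inr 3],
      [.inl 3, .inr 1, .inr 2, .inr 0, .inr 3],
      [.inl 2, .inr 1, .inr 2, .inr 0, .inr 3],
      [.inl 0, .inl 3, .inr 1, .inl 1, .inr 2],
      [.inl 1, .inr 2, .inl 2, .inl 0, .inr 3],
      [.inl 1, .inl 2, .inr 1, .inl 0, .inr 3],
      [.inl 0, .inl 1, .inl 2, .inl 3, .inr 0],
      [.inl 0, .inl 1, .inl 2, .inl 3, .inr 0]]
  | 3, 5 =>
     [[.inl 3, .inr 1, .inr 2, .inr 0, .inr 3],
      [.inl 3, .inr 1, .inr 2, .inr 0, .inr 3],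
      [.inl 3, .inr 1, .inr 2, .inl 2, .inr 3],
      [.inl 0, .inr 1, .inl 1, .inr 2, .inr 3],
      [.inl 0, .inl 1, .inr 2, .inl 2, .inr 3],
      [.inl 1, .inl 2, .inl 0, .inr 0, .inr 1],
      [.inl 1, .inl 2, .inl 0, .inl 3, .inr 0],
      [.inl 1, .inl 2, .inl 0, .inl 3, .inr 0]]
  | 4, 1 =>
     [[.inl 3, .inr 1, .inr 2, .inr 0, .inr 3],
      [.inl 3, .inr 1, .inr 2, .inr 0, .inr 3],
      [.inl 2, .inr 1, .inr 2, .inr 0, .inr 3],
      [.inl 1, .inl 3, .inr 1, .inl 0, .inr 3],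
      [.inl 0, .inr 2, .inl 1, .inl 2, .inr 3],
      [.inl 0, .inl 2, .inr 1, .inl 1, .inr 2],
      [.inl 0, .inl 1, .inl 2, .inl 3, .inr 0],
      [.inl 0, .inl 1, .inl 2, .inl 3, .inr 0]]
  | 4, 2 =>
     [[.inl 2, .inr 1, .inr 2, .inr 0, .inr 3],
      [.inl 2, .inr 1, .inr 2, .inr 0, .inr 3],
      [.inl 2, .inr 1, .inr 2, .inr 0, .inr 3],
      [.inl 0, .inl 1, .inr 2, .inl 3, .inr 3],
      [.inl 1, .inl 3, .inr 1, .inl 0, .inr 3],
      [.inl 0, .inl 3, .inr 1, .inl 1, .inr 2],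
      [.inl 0, .inl 1, .inl 2, .inl 3, .inr 0],
      [.inl 0, .inl 1, .inl 2, .inl 3, .inr 0]]
  | 4, 5 =>
     [[.inl 2, .inr 1, .inr 2, .inr 0, .inr 3],
      [.inl 2, .inr 1, .inr 2, .inr 0, .inr 3],
      [.inl 2, .inr 1, .inr 2, .inl 3, .inr 3],
      [.inl 0, .inr 1, .inl 1, .inr 2, .inr 3],
      [.inl 0, .inl 1, .inr 2, .inl 3, .inr 3],
      [.inl 1, .inl 3, .inl 0, .inr 0, .inr 1],
      [.inl 1, .inl 2, .inl 0, .inl 3, .inr 0],
      [.inl 1, .inl 2, .inl 0, .inl 3, .inr 0]]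
  | 5, 1 =>
     [[.inl 3, .inr 1, .inr 2, .inr 0, .inr 3],
      [.inl 3, .inr 1, .inr 2, .inr 0, .inr 3],
      [.inl 3, .inr 1, .inr 2, .inl 2, .inr 3],
      [.inl 1, .inr 1, .inl 0, .inr 2, .inr 3],
      [.inl 0, .inl 1, .inr 2, .inl 2, .inr 3],
      [.inl 0, .inl 2, .inl 1, .inr 0, .inr 1],
      [.inl 0, .inl 2, .inl 1, .inl 3, .inr 0],
      [.inl 0, .inl 2, .inl 1, .inl 3, .inr 0]]
  | 5, 2 =>
     [[.inl 2, .inr 1, .inr 2, .inr 0, .inr 3],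
      [.inl 2, .inr 1, .inr 2, .inr 0, .inr 3],
      [.inl 2, .inr 1, .inr 2, .inl 3, .inr 3],
      [.inl 1, .inr 1, .inl 0, .inr 2, .inr 3],
      [.inl 0, .inl 1, .inr 2, .inl 3, .inr 3],
      [.inl 0, .inl 3, .inl 1, .inr 0, .inr 1],
      [.inl 0, .inl 2, .inl 1, .inl 3, .inr 0],
      [.inl 0, .inl 2, .inl 1, .inl 3, .inr 0]]
  | 5, 3 =>
     [[.inl 3, .inr 1, .inr 2, .inr 0, .inr 3],
      [.inl 3, .inr 1, .inr 2, .inr 0, .inr 3],
      [.inl 3, .inr 1, .inr 2, .inl 2, .inr 3],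
      [.inl 0, .inr 1, .inl 1, .inr 2, .inr 3],
      [.inl 0, .inl 1, .inr 2, .inl 2, .inr 3],
      [.inl 1, .inl 2, .inl 0, .inr 0, .inr 1],
      [.inl 1, .inl 2, .inl 0, .inl 3, .inr 0],
      [.inl 1, .inl 2, .inl 0, .inl 3, .inr 0]]
  | 5, 4 =>
     [[.inl 2, .inr 1, .inr 2, .inr 0, .inr 3],
      [.inl 2, .inr 1, .inr 2, .inr 0, .inr 3],
      [.inl 2, .inr 1, .inr 2, .inl 3, .inr 3],
      [.inl 0, .inr 1, .inl 1, .inr 2, .inr 3],
      [.inl 0, .inl 1, .inr 2, .inl 3, .inr 3],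
      [.inl 1, .inl 3, .inl 0, .inr 0, .inr 1],
      [.inl 1, .inl 2, .inl 0, .inl 3, .inr 0],
      [.inl 1, .inl 2, .inl 0, .inl 3, .inr 0]]
  | _, _ => []


def L1 (eb ed : Fin 6) (j : Fin 8) : List I44 := (tab1 eb.1 ed.1).getD j.1 []

/-- the pair of edges is admissible: no star with the edge `01` -/
def valid1 (eb ed : Fin 6) : Bool :=
  decide (eb ≠ 0) && decide (ed ≠ 0) && decide (eb ≠ ed) &&
  !(decide (eb = 1) && decide (ed = 2)) && !(decide (eb = 2) && decide (ed = 1)) &&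
  !(decide (eb = 3) && decide (ed = 4)) && !(decide (eb = 4) && decide (ed = 3))

theorem ok1 : ∀ eb ed : Fin 6, valid1 eb ed = true →
    (∀ j, fst (adj1 eb ed) (L1 eb ed j) = true) ∧
    (∀ i : I44, 5 ≤ (Finset.univ.filter (fun j => i ∈ L1 eb ed j)).card) := by
  decide +kernel


/-! ### Triangle model : `0 1 2 3` and `x y z x'` -/

def adj2 (e : Fin 6) : I44 → I44 → Bool
  | .inl i, .inl j => decide (i ≠ j) && !inE 0 i j && !inE e i j
  | .inl i, .inr k => (decide (k = 1) && decide (i = 0)) || (decide (k = 2) && decide (i = 1)) ||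
      (decide (k = 3) && (decide (i = lo e) || decide (i = hi e)))
  | .inr k, .inl i => (decide (k = 1) && decide (i = 0)) || (decide (k = 2) && decide (i = 1)) ||
      (decide (k = 3) && (decide (i = lo e) || decide (i = hi e)))
  | .inr k, .inr l => decide (k ≠ l) && !(decide (k = 1) && decide (l = 3)) &&
      !(decide (k = 3) && decide (l = 1)) && !(decide (k = 2) && decide (l = 3)) &&
      !(decide (k = 3) && decide (l = 2))

def tab2 (e : ℕ) : List (List I44) :=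
  match e with
  | 1 =>
     [[.inl 3, .inl 2, .inr 1, .inr 2, .inr 3],
      [.inl 3, .inl 2, .inr 1, .inr 2, .inr 3],
      [.inl 3, .inl 2, .inr 1, .inr 2, .inr 3],
      [.inl 0, .inl 1, .inr 2, .inr 0, .inr 3],
      [.inl 1, .inl 3, .inl 0, .inr 0, .inr 3],
      [.inl 0, .inl 3, .inl 1, .inr 0, .inr 2],
      [.inl 0, .inl 1, .inl 2, .inr 0, .inr 1],
      [.inl 0, .inl 1, .inl 2, .inr 0, .inr 1]]
  | 2 =>
     [[.inl 2, .inl 3, .inr 1, .inr 2, .inr 3],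
      [.inl 2, .inl 3, .inr 1, .inr 2, .inr 3],
      [.inl 2, .inl 3, .inr 1, .inr 2, .inr 3],
      [.inl 0, .inl 1, .inr 2, .inr 0, .inr 3],
      [.inl 0, .inl 1, .inl 3, .inr 0, .inr 3],
      [.inl 0, .inl 3, .inl 1, .inr 0, .inr 2],
      [.inl 1, .inl 2, .inl 0, .inr 0, .inr 1],
      [.inl 1, .inl 2, .inl 0, .inr 0, .inr 1]]
  | 3 =>
     [[.inl 3, .inl 2, .inr 1, .inr 2, .inr 3],
      [.inl 3, .inl 2, .inr 1, .inr 2, .inr 3],
      [.inl 3, .inl 2, .inr 1, .inr 2, .inr 3],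
      [.inl 0, .inl 1, .inr 1, .inr 0, .inr 3],
      [.inl 0, .inl 3, .inl 1, .inr 0, .inr 3],
      [.inl 0, .inl 3, .inl 1, .inr 0, .inr 2],
      [.inl 0, .inl 1, .inl 2, .inr 0, .inr 2],
      [.inl 1, .inl 2, .inl 0, .inr 0, .inr 1]]
  | 4 =>
     [[.inl 2, .inl 3, .inr 1, .inr 2, .inr 3],
      [.inl 2, .inl 3, .inr 1, .inr 2, .inr 3],
      [.inl 2, .inl 3, .inr 1, .inr 2, .inr 3],
      [.inl 0, .inl 1, .inr 1, .inr 0, .inr 3],
      [.inl 0, .inl 1, .inl 3, .inr 0, .inr 3],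
      [.inl 0, .inl 1, .inl 3, .inr 0, .inr 2],
      [.inl 0, .inl 2, .inl 1, .inr 0, .inr 2],
      [.inl 1, .inl 2, .inl 0, .inr 0, .inr 1]]
  | 5 =>
     [[.inl 2, .inl 3, .inr 1, .inr 2, .inr 3],
      [.inl 2, .inl 3, .inr 1, .inr 2, .inr 3],
      [.inl 2, .inl 3, .inr 1, .inr 2, .inr 3],
      [.inl 0, .inl 1, .inr 2, .inr 0, .inr 3],
      [.inl 0, .inl 1, .inl 3, .inr 0, .inr 3],
      [.inl 0, .inl 3, .inl 1, .inr 0, .inr 2],
      [.inl 1, .inl 2, .inl 0, .inr 0, .inr 1],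
      [.inl 1, .inl 2, .inl 0, .inr 0, .inr 1]]
  | _ => []


def L2 (e : Fin 6) (j : Fin 8) : List I44 := (tab2 e.1).getD j.1 []

theorem ok2 : ∀ e : Fin 6, e ≠ 0 →
    (∀ j, fst (adj2 e) (L2 e j) = true) ∧
    (∀ i : I44, 5 ≤ (Finset.univ.filter (fun j => i ∈ L2 e j)).card) := by
  decide +kernel


/-! ### Diamond model : `0 1 2 3` and `p q r s` -/

def adj0 : I44 → I44 → Bool
  | .inl i, .inl j => decide (i ≠ j) && !inE 0 i j
  | .inl i, .inr k => (decide (k = 2) && decide (i = 0)) || (decide (k = 3) && decide (i = 1))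
  | .inr k, .inl i => (decide (k = 2) && decide (i = 0)) || (decide (k = 3) && decide (i = 1))
  | .inr k, .inr l => decide (k ≠ l) && !(decide (k = 2) && decide (l = 3)) &&
      !(decide (k = 3) && decide (l = 2))

def tab0 : List (List I44) :=
     [[.inl 2, .inl 3, .inr 2, .inr 1, .inr 3],
      [.inl 2, .inl 3, .inr 2, .inr 1, .inr 3],
      [.inl 2, .inl 3, .inr 2, .inr 1, .inr 3],
      [.inl 0, .inl 1, .inr 2, .inr 0, .inr 3],
      [.inl 0, .inl 3, .inl 1, .inr 0, .inr 3],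
      [.inl 1, .inl 3, .inl 0, .inr 0, .inr 2],
      [.inl 0, .inl 1, .inl 2, .inr 0, .inr 1],
      [.inl 0, .inl 1, .inl 2, .inr 0, .inr 1]]

def L0 (j : Fin 8) : List I44 := tab0.getD j.1 []

theorem ok0 : (∀ j, fst adj0 (L0 j) = true) ∧
    (∀ i : I44, 5 ≤ (Finset.univ.filter (fun j => i ∈ L0 j)).card) := by
  decide +kernel


/-! ### `K̂₄•` with a subdivided edge -/

/-- the edges of `K₄•`: vertices `a b c d x` = `0 1 2 3 4` -/
def lod : Fin 7 → Fin 5 := ![0, 0, 1, 1, 2, 0, 4]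
def hid : Fin 7 → Fin 5 := ![2, 3, 2, 3, 3, 4, 1]

def inD (e : Fin 7) (i j : Fin 5) : Bool :=
  (decide (i = lod e) && decide (j = hid e)) || (decide (i = hid e) && decide (j = lod e))

/-- adjacency in `K₄•` -/
def adjD (i j : Fin 5) : Bool :=
  inD 0 i j || inD 1 i j || inD 2 i j || inD 3 i j || inD 4 i j || inD 5 i j || inD 6 i j

theorem exists_edgeD : ∀ i j : Fin 5, adjD i j = true →
    ∃ e : Fin 7, (i = lod e ∧ j = hid e) ∨ (i = hid e ∧ j = lod e) := by decide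

def adj3 (e : Fin 7) : I51 → I51 → Bool
  | .inl i, .inl j => adjD i j && !inD e i j
  | .inl i, .inr _ => decide (i = lod e) || decide (i = hid e)
  | .inr _, .inl i => decide (i = lod e) || decide (i = hid e)
  | .inr _, .inr _ => false

def tab3 (e : ℕ) : List (List I51) :=
  match e with
  | 0 =>
     [[.inl 3, .inl 2, .inl 4, .inr 0],
      [.inl 3, .inl 2, .inl 4, .inr 0],
      [.inl 3, .inl 2, .inl 4, .inr 0],
      [.inl 1, .inl 4, .inl 0, .inr 0],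
      [.inl 1, .inl 3, .inl 0, .inr 0],
      [.inl 1, .inl 3, .inl 0, .inr 0],
      [.inl 0, .inl 1, .inl 2, .inr 0],
      [.inl 0, .inl 2, .inl 1, .inl 4]]
  | 1 =>
     [[.inl 2, .inl 3, .inl 4, .inr 0],
      [.inl 2, .inl 3, .inl 4, .inr 0],
      [.inl 2, .inl 3, .inl 4, .inr 0],
      [.inl 1, .inl 4, .inl 0, .inr 0],
      [.inl 0, .inl 1, .inl 3, .inr 0],
      [.inl 0, .inl 3, .inl 1, .inl 4],
      [.inl 1, .inl 2, .inl 0, .inr 0],
      [.inl 1, .inl 2, .inl 0, .inr 0]]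
  | 2 =>
     [[.inl 3, .inl 2, .inl 4, .inr 0],
      [.inl 3, .inl 2, .inl 4, .inr 0],
      [.inl 3, .inl 2, .inl 4, .inr 0],
      [.inl 0, .inl 4, .inl 1, .inr 0],
      [.inl 0, .inl 3, .inl 1, .inr 0],
      [.inl 0, .inl 3, .inl 1, .inr 0],
      [.inl 0, .inl 1, .inl 2, .inr 0],
      [.inl 1, .inl 2, .inl 0, .inl 4]]
  | 3 =>
     [[.inl 2, .inl 3, .inl 4, .inr 0],
      [.inl 2, .inl 3, .inl 4, .inr 0],
      [.inl 2, .inl 3, .inl 4, .inr 0],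
      [.inl 0, .inl 4, .inl 1, .inr 0],
      [.inl 0, .inl 1, .inl 3, .inr 0],
      [.inl 1, .inl 3, .inl 0, .inl 4],
      [.inl 0, .inl 2, .inl 1, .inr 0],
      [.inl 0, .inl 2, .inl 1, .inr 0]]
  | 4 =>
     [[.inl 2, .inl 3, .inl 4, .inr 0],
      [.inl 2, .inl 3, .inl 4, .inr 0],
      [.inl 4, .inl 1, .inl 3, .inr 0],
      [.inl 2, .inl 3, .inl 0, .inl 4],
      [.inl 0, .inl 1, .inl 4, .inr 0],
      [.inl 0, .inl 1, .inl 3, .inr 0],
      [.inl 0, .inl 1, .inl 2, .inr 0],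
      [.inl 0, .inl 1, .inl 2, .inr 0]]
  | 5 =>
     [[.inl 2, .inl 3, .inl 4, .inr 0],
      [.inl 2, .inl 3, .inl 4, .inr 0],
      [.inl 2, .inl 3, .inl 4, .inr 0],
      [.inl 0, .inl 1, .inl 4, .inr 0],
      [.inl 1, .inl 3, .inl 0, .inr 0],
      [.inl 1, .inl 3, .inl 0, .inr 0],
      [.inl 1, .inl 2, .inl 0, .inr 0],
      [.inl 0, .inl 2, .inl 1, .inl 4]]
  | 6 =>
     [[.inl 2, .inl 3, .inl 4, .inr 0],
      [.inl 2, .inl 3, .inl 4, .inr 0],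
      [.inl 2, .inl 3, .inl 4, .inr 0],
      [.inl 0, .inl 1, .inl 4, .inr 0],
      [.inl 0, .inl 3, .inl 1, .inr 0],
      [.inl 0, .inl 3, .inl 1, .inr 0],
      [.inl 0, .inl 2, .inl 1, .inr 0],
      [.inl 1, .inl 2, .inl 0, .inl 4]]
  | _ => []


def L3 (e : Fin 7) (j : Fin 8) : List I51 := (tab3 e.1).getD j.1 []

theorem ok3 : ∀ e : Fin 7,
    (∀ j, fst (adj3 e) (L3 e j) = true) ∧
    (∀ i : I51, 5 ≤ (Finset.univ.filter (fun j => i ∈ L3 e j)).card) := by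
  decide +kernel


/-! ### Prism and `K₃₃` -/

def adjP (i j : Fin 6) : Bool :=
  decide (i ≠ j) && (decide (i.1 / 3 = j.1 / 3) || decide (i.1 % 3 = j.1 % 3))

def LP (j : Fin 8) : List (Fin 6) :=
  ([[1, 2, 3, 5], [1, 2, 3, 5], [1, 2, 3, 5], [0, 2, 4, 5], [2, 0, 3, 4], [2, 0, 3, 4], [0, 1, 4, 5], [0, 1, 4, 5]] : List (List (Fin 6))).getD j.1 []

theorem okP : (∀ j, fst adjP (LP j) = true) ∧
    (∀ i : Fin 6, 5 ≤ (Finset.univ.filter (fun j => i ∈ LP j)).card) := by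
  decide +kernel


def adjK (i j : Fin 6) : Bool := decide (i.1 / 3 ≠ j.1 / 3)

def LK (j : Fin 8) : List (Fin 6) :=
  ([[3, 4, 2, 5], [3, 4, 2, 5], [3, 4, 1, 5], [3, 4, 0, 5], [0, 1, 2, 5], [0, 1, 2, 5], [0, 1, 2, 4], [0, 1, 2, 3]] : List (List (Fin 6))).getD j.1 []

theorem okK : (∀ j, fst adjK (LK j) = true) ∧
    (∀ i : Fin 6, 5 ≤ (Finset.univ.filter (fun j => i ∈ LK j)).card) := by
  decide +kernel

end SG

end MPa4482b
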