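import Pool.Agent.Lib.MP_a4482b_co.Str
import Pool.Agent.Lib.MP_a4482b_co.Models

set_option autoImplicit false
set_option linter.unusedSectionVars false

/-!
# Reductions: cuts with at most one edge, vertices of degree two
-/

namespace MPa4482b

variable {V : Type*} [DecidableEq V]

namespace SG

/-- induction hypothesis -/
def IH (V : Type*) [DecidableEq V] (n : ℕ) : Prop :=
  ∀ (G : SG V) (T : Finset V), T.card < n → G.Ok T → G.Col T

theorem red_cut1 {G : SG V} {S : Finset V} (ih : IH V S.card) (ok : G.Ok S) (h : G.Cut1 S) :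
    G.Col S := by
  obtain ⟨A, hAS, hne, hAne, a, b, hab⟩ := h
  have hlt : A.card < S.card := Finset.card_lt_card (hAS.ssubset_of_ne hAne)
  have hBS : S \ A ⊆ S := Finset.sdiff_subset
  have hlt' : (S \ A).card < S.card := by
    apply Finset.card_lt_card
    refine hBS.ssubset_of_ne ?_
    intro hh
    obtain ⟨x, hx⟩ := hne
    have := hAS hx
    rw [← hh] at this
    exact (Finset.mem_sdiff.mp this).2 hx
  have := glue1 (ih G A hlt (ok.mono hAS)) (ih G (S \ A) hlt' (ok.mono hBS))
    Finset.disjoint_sdiff a b (by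
      intro x hx y hy hadj
      rw [Finset.mem_sdiff] at hy
      exact hab x hx y hy.1 hy.2 hadj)
  rwa [Finset.union_sdiff_of_subset hAS] at this

theorem deg_ge_two {G : SG V} {S : Finset V} (hS : 2 ≤ S.card) (h1 : ¬ G.Cut1 S) :
    ∀ v ∈ S, 2 ≤ (G.nb S v).card := by
  intro v hv
  by_contra hlt
  push Not at hlt
  apply h1
  refine ⟨{v}, by simpa using hv, ⟨v, by simp⟩, ?_, ?_⟩
  · intro h
    rw [← h, Finset.card_singleton] at hS
    omega
  · rcases Nat.lt_succ_iff_lt_or_eq.mp hlt with h | h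
    · have h0 : G.nb S v = ∅ := Finset.card_eq_zero.mp (by omega)
      refine ⟨v, v, ?_⟩
      intro u hu w hw _ hadj
      rw [Finset.mem_singleton] at hu
      subst hu
      have : w ∈ G.nb S u := mem_nb.mpr ⟨hw, hadj⟩
      rw [h0] at this
      simp at this
    · obtain ⟨b, hb⟩ := Finset.card_eq_one.mp h
      refine ⟨v, b, ?_⟩
      intro u hu w hw _ hadj
      rw [Finset.mem_singleton] at hu
      subst hu
      refine ⟨rfl, ?_⟩
      have : w ∈ G.nb S u := mem_nb.mpr ⟨hw, hadj⟩
      rw [hb] at this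
      simpa using this

theorem some_of_adj {G : SG V} {u w : V} (h : G.s u w ≠ none) : ∃ e, G.s u w = some e := by
  rcases hs : G.s u w with _ | e
  · exact absurd hs h
  · exact ⟨e, rfl⟩

/-- a vertex of degree two in a triangle -/
theorem red_tri2 {G : SG V} {S : Finset V} (ih : IH V S.card) (ok : G.Ok S) {v a b : V}
    (hv : v ∈ S) (ha : a ∈ S) (hb : b ∈ S)
    (hva : G.s v a ≠ none) (hvb : G.s v b ≠ none) (hadj : G.s a b ≠ none)
    (hn : ∀ w ∈ S, G.s v w ≠ none → w = a ∨ w = b) : G.Col S := by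
  have hnva := ne_of_adj hva
  have hnvb := ne_of_adj hvb
  set T := ((S.erase v).erase a).erase b with hT
  have hTS : T ⊆ S := by
    intro w hw
    simp only [hT, Finset.mem_erase] at hw
    tauto
  have hlt : T.card < S.card := by
    apply Finset.card_lt_card
    refine hTS.ssubset_of_ne ?_
    intro hh
    have := hv
    rw [← hh] at this
    simp [hT] at this
  obtain ⟨a', ha'⟩ := two_nb (ok.deg a ha) (mem_nb.mpr ⟨hv, adj_symm hva⟩)
    (mem_nb.mpr ⟨hb, hadj⟩) hnvb
  obtain ⟨b', hb'⟩ := two_nb (ok.deg b hb) (mem_nb.mpr ⟨hv, adj_symm hvb⟩)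
    (mem_nb.mpr ⟨ha, adj_symm hadj⟩) hnva
  refine ext_tri2 (T := T) (v := v) (a := a) (b := b) (a' := a') (b' := b') ?_ ?_ ?_ ?_
    (ih G T hlt (ok.mono hTS))
  · intro w hw
    simp only [hT, Finset.mem_insert, Finset.mem_erase]
    tauto
  · intro w hw
    simp only [hT, Finset.mem_erase] at hw
    by_contra hne
    rcases hn w hw.2.2.2 hne with h | h
    · exact hw.2.1 h
    · exact hw.1 h
  · intro w hw hne
    simp only [hT, Finset.mem_erase] at hw
    rcases ha' w hw.2.2.2 hne with h | h | h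
    · exact absurd h hw.2.2.1
    · exact absurd h hw.1
    · exact h
  · intro w hw hne
    simp only [hT, Finset.mem_erase] at hw
    rcases hb' w hw.2.2.2 hne with h | h | h
    · exact absurd h hw.2.2.1
    · exact absurd h hw.2.1
    · exact h

/-! ### Permuting the vertices of a `K₄` -/

theorem K4At.swap12 {G : SG V} {a b c d : V} (h : G.K4At a b c d) : G.K4At b a c d := by
  obtain ⟨pa, pb, pc, pd, h1, h2, h3, h4, h5, h6⟩ := h
  refine ⟨pb, pa, pc, pd, ?_, h4, h5, h2, h3, h6⟩
  rw [nsome h1, Bool.xor_comm]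

theorem K4At.swap23 {G : SG V} {a b c d : V} (h : G.K4At a b c d) : G.K4At a c b d := by
  obtain ⟨pa, pb, pc, pd, h1, h2, h3, h4, h5, h6⟩ := h
  refine ⟨pa, pc, pb, pd, h2, h1, h3, ?_, h6, h5⟩
  rw [nsome h4, Bool.xor_comm]

theorem K4At.swap34 {G : SG V} {a b c d : V} (h : G.K4At a b c d) : G.K4At a b d c := by
  obtain ⟨pa, pb, pc, pd, h1, h2, h3, h4, h5, h6⟩ := h
  refine ⟨pa, pb, pd, pc, h1, h3, h2, h5, h4, ?_⟩
  rw [nsome h6, Bool.xor_comm]

/-- choose the first vertex -/
theorem K4At.choose1 {G : SG V} {a b c d u : V} (h : G.K4At a b c d)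
    (hu : u ∈ ({a, b, c, d} : Finset V)) :
    ∃ b' c' d', G.K4At u b' c' d' ∧ ({u, b', c', d'} : Finset V) = {a, b, c, d} := by
  simp only [Finset.mem_insert, Finset.mem_singleton] at hu
  rcases hu with rfl | rfl | rfl | rfl
  · exact ⟨b, c, d, h, rfl⟩
  · refine ⟨a, c, d, h.swap12, ?_⟩
    ext w
    simp only [Finset.mem_insert, Finset.mem_singleton]
    tauto
  · refine ⟨a, b, d, h.swap23.swap12, ?_⟩
    ext w
    simp only [Finset.mem_insert, Finset.mem_singleton]
    tauto
  · refine ⟨a, b, c, h.swap34.swap23.swap12, ?_⟩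
    ext w
    simp only [Finset.mem_insert, Finset.mem_singleton]
    tauto

/-- choose the first two vertices -/
theorem K4At.choose2 {G : SG V} {a b c d u w : V} (h : G.K4At a b c d)
    (hu : u ∈ ({a, b, c, d} : Finset V)) (hw : w ∈ ({a, b, c, d} : Finset V)) (huw : u ≠ w) :
    ∃ c' d', G.K4At u w c' d' ∧ ({u, w, c', d'} : Finset V) = {a, b, c, d} := by
  obtain ⟨b', c', d', h', hs⟩ := h.choose1 hu
  rw [← hs] at hw ⊢
  simp only [Finset.mem_insert, Finset.mem_singleton] at hw
  rcases hw with rfl | rfl | rfl | rfl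
  · exact absurd rfl huw
  · exact ⟨c', d', h', rfl⟩
  · refine ⟨b', d', h'.swap23, ?_⟩
    ext x
    simp only [Finset.mem_insert, Finset.mem_singleton]
    tauto
  · refine ⟨b', c', h'.swap34.swap23, ?_⟩
    ext x
    simp only [Finset.mem_insert, Finset.mem_singleton]
    tauto

/-! ### `K̂₄•` with a subdivided edge -/

theorem base_K4d {G : SG V} {S : Finset V} (q : Fin 5 → V) (v : V)
    (e : Fin 7) (hS : ∀ u ∈ S, (∃ i, q i = u) ∨ u = v)
    (hQ : ∀ i j, G.s (q i) (q j) ≠ none → adjD i j = true)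
    (hnew : G.s (q (lod e)) (q (hid e)) = none)
    (hv : ∀ i, G.s v (q i) ≠ none → i = lod e ∨ i = hid e) : G.Col S := by
  refine col_model (Sum.elim q (fun _ => v)) (adj3 e) (L3 e) ?_ ?_ (ok3 e).1 (ok3 e).2
  · intro u hu
    rcases hS u hu with ⟨i, hi⟩ | h
    · exact ⟨Sum.inl i, hi⟩
    · exact ⟨Sum.inr 0, h.symm⟩
  · rintro (i | i) (j | j) hne
    · simp only [Sum.elim_inl] at hne
      simp only [adj3, hQ i j hne, Bool.true_and, Bool.not_eq_true']
      by_contra hin
      simp only [Bool.not_eq_false, inD, Bool.or_eq_true, Bool.and_eq_true,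
        decide_eq_true_eq] at hin
      rcases hin with ⟨rfl, rfl⟩ | ⟨rfl, rfl⟩
      · exact hne hnew
      · exact hne (nnone hnew)
    · simp only [Sum.elim_inl, Sum.elim_inr] at hne
      simpa [adj3] using hv i (adj_symm hne)
    · simp only [Sum.elim_inl, Sum.elim_inr] at hne
      simpa [adj3] using hv j hne
    · simp only [Sum.elim_inr] at hne
      exact absurd (G.irr v) hne

theorem K4dAt.adjD {G : SG V} {T : Finset V} {a b c d x : V} (h : G.K4dAt a b c d x)
    (hdeg : ∀ v ∈ T, (G.nb T v).card ≤ 3) (ha : a ∈ T) (hb : b ∈ T) (hc : c ∈ T) (hd : d ∈ T)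
    (hx : x ∈ T) :
    ∀ i j, G.s ((![a, b, c, d, x] : Fin 5 → V) i) ((![a, b, c, d, x] : Fin 5 → V) j) ≠ none →
      SG.adjD i j = true := by
  obtain ⟨nab, nxc, nxd, pa, pb, pc, pd, px, h1, h2, h3, h4, h5, h6, h7⟩ := h
  have nac := ne_of_some h1
  have nad := ne_of_some h2
  have nbc := ne_of_some h3
  have nbd := ne_of_some h4
  have ncd := ne_of_some h5
  have nax := ne_of_some h6
  have nxb := ne_of_some h7
  have mem : ∀ {u w : V} {e : Bool}, w ∈ T → G.s u w = some e → w ∈ G.nb T u :=
    fun hw he => mem_nb.mpr ⟨hw, by rw [he]; simp⟩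
  have A1 : G.s a b = none := by
    by_contra hne
    rcases three_nb (hdeg _ ha) (mem hc h1) (mem hd h2) (mem hx h6) ncd nxc.symm nxd.symm b hb hne
      with h | h | h
    exacts [nbc h, nbd h, nxb h.symm]
  have A2 : G.s c x = none := by
    by_contra hne
    rcases three_nb (hdeg _ hc) (mem ha (nsome h1)) (mem hb (nsome h3)) (mem hd h5) nab nad nbd
      x hx hne with h | h | h
    exacts [nax h.symm, nxb h, nxd h]
  have A3 : G.s d x = none := by
    by_contra hne
    rcases three_nb (hdeg _ hd) (mem ha (nsome h2)) (mem hb (nsome h4)) (mem hc (nsome h5)) nab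
      nac nbc x hx hne with h | h | h
    exacts [nax h.symm, nxb h, nxc h]
  intro i j hne
  fin_cases i <;> fin_cases j <;>
    first
    | rfl
    | exact absurd (G.irr _) hne
    | exact absurd A1 hne
    | exact absurd (nnone A1) hne
    | exact absurd A2 hne
    | exact absurd (nnone A2) hne
    | exact absurd A3 hne
    | exact absurd (nnone A3) hne

theorem K4dAt.inj {G : SG V} {a b c d x : V} (h : G.K4dAt a b c d x) :
    Function.Injective (![a, b, c, d, x] : Fin 5 → V) := by
  obtain ⟨nab, nxc, nxd, pa, pb, pc, pd, px, k1, k2, k3, k4, k5, k6, k7⟩ := h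
  have nac := ne_of_some k1
  have nad := ne_of_some k2
  have nbc := ne_of_some k3
  have nbd := ne_of_some k4
  have ncd := ne_of_some k5
  have nax := ne_of_some k6
  have nxb := ne_of_some k7
  intro i j hij
  fin_cases i <;> fin_cases j <;>
    first
    | rfl
    | exact absurd hij (by assumption)
    | exact absurd hij.symm (by assumption)

/-- suppressing a vertex of degree two with nonadjacent neighbours -/
theorem red_supp {G : SG V} {S : Finset V} (ih : IH V S.card) (ok : G.Ok S) (hc1 : ¬ G.Cut1 S)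
    {v a b : V} (hv : v ∈ S) (ha : a ∈ S) (hb : b ∈ S) (hab : a ≠ b)
    (hva : G.s v a ≠ none) (hvb : G.s v b ≠ none) (hadj : G.s a b = none)
    (hn : ∀ w ∈ S, G.s v w ≠ none → w = a ∨ w = b) : G.Col S := by
  obtain ⟨e₁, h1⟩ := some_of_adj hva
  obtain ⟨e₂, h2⟩ := some_of_adj hvb
  have nva := ne_of_adj hva
  have nvb := ne_of_adj hvb
  set T := S.erase v with hT
  have hTS : T ⊆ S := Finset.erase_subset _ _
  have hvT : v ∉ T := Finset.notMem_erase _ _
  have haT : a ∈ T := Finset.mem_erase.mpr ⟨nva.symm, ha⟩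
  have hbT : b ∈ T := Finset.mem_erase.mpr ⟨nvb.symm, hb⟩
  set G' := G.add a b (e₁ ^^ e₂) hab with hG'
  have L : Lift G G' S T (fun u w m => m = v ∧ ((u = a ∧ w = b) ∨ (u = b ∧ w = a))) := by
    refine ⟨hTS, ?_, ?_, ?_, ?_, ?_, ?_⟩
    · intro u w h
      exact add_of fun hh => h v ⟨rfl, hh⟩
    · rintro u w m ⟨_, ⟨rfl, rfl⟩ | ⟨rfl, rfl⟩⟩
      · exact hadj
      · exact nnone hadj
    · rintro u w m ⟨rfl, ⟨rfl, rfl⟩ | ⟨rfl, rfl⟩⟩
      · exact ⟨hv, hvT, adj_symm hva⟩
      · exact ⟨hv, hvT, adj_symm hvb⟩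
    · rintro u w w' m ⟨_, h⟩ ⟨_, h'⟩
      rcases h with ⟨rfl, rfl⟩ | ⟨rfl, rfl⟩ <;> rcases h' with ⟨h, rfl⟩ | ⟨h, rfl⟩
      · rfl
      · exact absurd h hab
      · exact absurd h hab.symm
      · rfl
    · rintro u w m m' ⟨rfl, _⟩ ⟨rfl, _⟩
      rfl
    · intro u hu h hh hhT huh
      have hhv : h = v := by
        by_contra hne
        exact hhT (Finset.mem_erase.mpr ⟨hne, hh⟩)
      subst hhv
      rcases hn u (hTS hu) (adj_symm huh) with rfl | rfl
      · exact ⟨b, hbT, ⟨rfl, Or.inl ⟨rfl, rfl⟩⟩, by rw [hG', add_self]; simp⟩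
      · exact ⟨a, haT, ⟨rfl, Or.inr ⟨rfl, rfl⟩⟩, by rw [G'.symm, hG', add_self]; simp⟩
  have hdeg : ∀ u ∈ T, (G'.nb T u).card ≤ 3 := fun u hu => (L.deg u).trans (ok.deg u (hTS hu))
  have hsame : ∀ Q : Finset V, ¬ (a ∈ Q ∧ b ∈ Q) → ∀ u ∈ Q, ∀ w ∈ Q, G'.s u w = G.s u w := by
    intro Q hQ u hu w hw
    refine add_of ?_
    rintro (⟨rfl, rfl⟩ | ⟨rfl, rfl⟩)
    · exact hQ ⟨hu, hw⟩
    · exact hQ ⟨hw, hu⟩
  by_cases hOk : G'.Ok T
  · have hlt : T.card < S.card := Finset.card_erase_lt_of_mem hv
    refine ext_supp (G' := G') (T := T) (v := v) ?_ hvT (fun u _ w _ e he => L.mono u w e he) h1 h2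
      ?_ (fun w hw hne => hn w (hTS hw) hne) (ih G' T hlt hOk)
    · intro w hw
      simp only [hT, Finset.mem_insert, Finset.mem_erase]
      tauto
    · rw [hG', add_self]
  · by_contra hcol
    apply hOk
    refine ⟨hdeg, ?_, ?_⟩
    · intro a0 ha0 b0 hb0 c0 hc0 d0 hd0 hK
      set Q : Finset V := {a0, b0, c0, d0} with hQ
      have hQT : Q ⊆ T := by
        intro w hw
        simp only [hQ, Finset.mem_insert, Finset.mem_singleton] at hw
        rcases hw with rfl | rfl | rfl | rfl <;> assumption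
      by_cases hin : a ∈ Q ∧ b ∈ Q
      · obtain ⟨c', d', hK', hs⟩ := hK.choose2 hin.1 hin.2 hab
        have hc' : c' ∈ T := hQT (by rw [hQ, ← hs]; simp)
        have hd' : d' ∈ T := hQT (by rw [hQ, ← hs]; simp)
        obtain ⟨pa, pb, pc, pd, k1, k2, k3, k4, k5, k6⟩ := hK'
        have nac := ne_of_some k2
        have nad := ne_of_some k3
        have nbc := ne_of_some k4
        have nbd := ne_of_some k5
        have ncd := ne_of_some k6
        have hvc : v ≠ c' := fun h => hvT (h ▸ hc')
        have hvd : v ≠ d' := fun h => hvT (h ▸ hd')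
        rw [hG', add_self] at k1
        rw [hG', add_of (by tauto)] at k2 k3 k4 k5 k6
        refine ok.noD a ha b hb c' (hTS hc') d' (hTS hd') v hv
          ⟨hab, hvc, hvd, pa, pb, pc, pd, (!(e₁ ^^ pa)), k2, k3, k4, k5, k6, ?_, ?_⟩
        · rw [nsome h1]
          cases e₁ <;> cases pa <;> rfl
        · rw [h2]
          simp only [Option.some.injEq] at k1 ⊢
          revert k1
          cases e₁ <;> cases e₂ <;> cases pa <;> cases pb <;> simp
      · refine ok.noK a0 (hTS ha0) b0 (hTS hb0) c0 (hTS hc0) d0 (hTS hd0)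
          (hK.of_eq (Q := Q) ?_ ?_ ?_ ?_ (hsame Q hin)) <;> simp [hQ]
    · intro a0 ha0 b0 hb0 c0 hc0 d0 hd0 x0 hx0 hK
      set Q : Finset V := {a0, b0, c0, d0, x0} with hQ
      have hQT : Q ⊆ T := by
        intro w hw
        simp only [hQ, Finset.mem_insert, Finset.mem_singleton] at hw
        rcases hw with rfl | rfl | rfl | rfl | rfl <;> assumption
      by_cases hin : a ∈ Q ∧ b ∈ Q
      · obtain ⟨w₀, hcl⟩ := hK.closed hdeg ha0 hb0 hc0 hd0 hx0
        obtain ⟨h₀, hh₀⟩ := L.cut (A := insert v Q) hQT hcl (Finset.subset_insert _ _) (by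
          rintro u _ w _ m ⟨rfl, _⟩
          exact Finset.mem_insert_self _ _)
        by_cases hAS : insert v Q = S
        · apply hcol
          have hia : ∃ i, (![a0, b0, c0, d0, x0] : Fin 5 → V) i = a := by
            have := hin.1
            simp only [hQ, Finset.mem_insert, Finset.mem_singleton] at this
            rcases this with rfl | rfl | rfl | rfl | rfl
            exacts [⟨0, rfl⟩, ⟨1, rfl⟩, ⟨2, rfl⟩, ⟨3, rfl⟩, ⟨4, rfl⟩]
          have hib : ∃ i, (![a0, b0, c0, d0, x0] : Fin 5 → V) i = b := by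
            have := hin.2
            simp only [hQ, Finset.mem_insert, Finset.mem_singleton] at this
            rcases this with rfl | rfl | rfl | rfl | rfl
            exacts [⟨0, rfl⟩, ⟨1, rfl⟩, ⟨2, rfl⟩, ⟨3, rfl⟩, ⟨4, rfl⟩]
          obtain ⟨i, hi⟩ := hia
          obtain ⟨j, hj⟩ := hib
          have hadjD := hK.adjD hdeg ha0 hb0 hc0 hd0 hx0
          have hij : SG.adjD i j = true := by
            apply hadjD i j
            rw [hi, hj, hG', add_self]
            simp
          obtain ⟨e, he⟩ := exists_edgeD i j hij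
          have hinj := hK.inj
          refine base_K4d (![a0, b0, c0, d0, x0] : Fin 5 → V) v e ?_ ?_ ?_ ?_
          · intro u hu
            rw [← hAS, Finset.mem_insert] at hu
            rcases hu with rfl | hu
            · exact Or.inr rfl
            · left
              simp only [hQ, Finset.mem_insert, Finset.mem_singleton] at hu
              rcases hu with rfl | rfl | rfl | rfl | rfl
              exacts [⟨0, rfl⟩, ⟨1, rfl⟩, ⟨2, rfl⟩, ⟨3, rfl⟩, ⟨4, rfl⟩]
          · intro k l hkl
            apply hadjD k l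
            obtain ⟨ε, hε⟩ := some_of_adj hkl
            rw [L.mono _ _ _ hε]
            simp
          · rcases he with ⟨rfl, rfl⟩ | ⟨rfl, rfl⟩
            · rw [hi, hj]
              exact hadj
            · rw [hi, hj]
              exact nnone hadj
          · intro k hk
            have hkS : (![a0, b0, c0, d0, x0] : Fin 5 → V) k ∈ S := by
              apply hTS
              apply hQT
              fin_cases k <;> simp [hQ]
            have hkk : k = i ∨ k = j := by
              rcases hn _ hkS hk with h | h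
              · exact Or.inl (hinj (h.trans hi.symm))
              · exact Or.inr (hinj (h.trans hj.symm))
            rcases he with ⟨rfl, rfl⟩ | ⟨rfl, rfl⟩
            · exact hkk
            · exact hkk.symm
        · apply hc1
          refine ⟨insert v Q, ?_, ⟨v, by simp⟩, hAS, x0, h₀, ?_⟩
          · intro w hw
            rcases Finset.mem_insert.mp hw with rfl | h
            · exact hv
            · exact hTS (hQT h)
          · intro u hu w hw hwA hadj'
            rcases Finset.mem_insert.mp hu with rfl | hu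
            · exfalso
              rcases hn w hw hadj' with rfl | rfl
              · exact hwA (Finset.mem_insert_of_mem hin.1)
              · exact hwA (Finset.mem_insert_of_mem hin.2)
            · exact hh₀ u hu w hw hwA hadj'
      · refine ok.noD a0 (hTS ha0) b0 (hTS hb0) c0 (hTS hc0) d0 (hTS hd0) x0 (hTS hx0)
          (hK.of_eq (Q := Q) ?_ ?_ ?_ ?_ ?_ (hsame Q hin)) <;> simp [hQ]

end SG

end MPa4482b
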