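import Pool.Agent.Lib.MP_a4482b_co.Red1

set_option autoImplicit false
set_option linter.unusedSectionVars false

/-!
# Reductions for cubic graphs: `K₄` and diamonds
-/

namespace MPa4482b

variable {V : Type*} [DecidableEq V]

namespace SG

/-- all degrees in `S` are three -/
def Cubic (G : SG V) (S : Finset V) : Prop := ∀ v ∈ S, (G.nb S v).card = 3

theorem Cubic.third {G : SG V} {S : Finset V} (h : G.Cubic S) {v a b : V} (hv : v ∈ S)
    (ha : a ∈ S) (hb : b ∈ S) (hab : a ≠ b) (hva : G.s v a ≠ none) (hvb : G.s v b ≠ none) :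
    ∃ c ∈ S, c ≠ a ∧ c ≠ b ∧ G.s v c ≠ none ∧
      ∀ w ∈ S, G.s v w ≠ none → w = a ∨ w = b ∨ w = c := by
  have hex : ∃ c ∈ G.nb S v, c ≠ a ∧ c ≠ b := by
    by_contra hno
    push Not at hno
    have hsub : G.nb S v ⊆ {a, b} := by
      intro w hw
      simp only [Finset.mem_insert, Finset.mem_singleton]
      by_cases hwa : w = a
      · exact Or.inl hwa
      · exact Or.inr (hno w hw hwa)
    have := (Finset.card_le_card hsub).trans Finset.card_le_two
    rw [h v hv] at this
    omega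
  obtain ⟨c, hc, hca, hcb⟩ := hex
  rw [mem_nb] at hc
  exact ⟨c, hc.1, hca, hcb, hc.2, three_nb (h v hv).le (mem_nb.mpr ⟨ha, hva⟩)
    (mem_nb.mpr ⟨hb, hvb⟩) (mem_nb.mpr hc) hab hca.symm hcb.symm⟩

theorem Cubic.three {G : SG V} {S : Finset V} (h : G.Cubic S) {v : V} (hv : v ∈ S) :
    ∃ a ∈ S, ∃ b ∈ S, ∃ c ∈ S, a ≠ b ∧ a ≠ c ∧ b ≠ c ∧ G.s v a ≠ none ∧ G.s v b ≠ none ∧
      G.s v c ≠ none ∧ ∀ w ∈ S, G.s v w ≠ none → w = a ∨ w = b ∨ w = c := by
  obtain ⟨a, b, c, hab, hac, hbc, heq⟩ := Finset.card_eq_three.mp (h v hv)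
  have ha : a ∈ G.nb S v := by rw [heq]; simp
  have hb : b ∈ G.nb S v := by rw [heq]; simp
  have hc : c ∈ G.nb S v := by rw [heq]; simp
  rw [mem_nb] at ha hb hc
  refine ⟨a, ha.1, b, hb.1, c, hc.1, hab, hac, hbc, ha.2, hb.2, hc.2, ?_⟩
  intro w hw hne
  have : w ∈ G.nb S v := mem_nb.mpr ⟨hw, hne⟩
  rw [heq] at this
  simpa using this

/-! ### `K₄` -/

theorem red_K4 {G : SG V} {S : Finset V} (ok : G.Ok S) (hc1 : ¬ G.Cut1 S) {a b c d : V}
    (ha : a ∈ S) (hb : b ∈ S) (hc : c ∈ S) (hd : d ∈ S)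
    (hab : G.s a b ≠ none) (hac : G.s a c ≠ none) (had : G.s a d ≠ none) (hbc : G.s b c ≠ none)
    (hbd : G.s b d ≠ none) (hcd : G.s c d ≠ none) : G.Col S := by
  have nab := ne_of_adj hab
  have nac := ne_of_adj hac
  have nad := ne_of_adj had
  have nbc := ne_of_adj hbc
  have nbd := ne_of_adj hbd
  have ncd := ne_of_adj hcd
  have hS : S = {a, b, c, d} := by
    by_contra hne
    apply hc1
    refine ⟨{a, b, c, d}, ?_, ⟨a, by simp⟩, fun h => hne h.symm, a, a, ?_⟩
    · intro w hw
      simp only [Finset.mem_insert, Finset.mem_singleton] at hw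
      rcases hw with rfl | rfl | rfl | rfl <;> assumption
    · intro u hu w hw hwA hadj
      exfalso
      apply hwA
      simp only [Finset.mem_insert, Finset.mem_singleton] at hu ⊢
      rcases hu with rfl | rfl | rfl | rfl
      · have := three_nb (ok.deg _ ha) (mem_nb.mpr ⟨hb, hab⟩) (mem_nb.mpr ⟨hc, hac⟩)
          (mem_nb.mpr ⟨hd, had⟩) nbc nbd ncd w hw hadj
        tauto
      · have := three_nb (ok.deg _ hb) (mem_nb.mpr ⟨ha, adj_symm hab⟩) (mem_nb.mpr ⟨hc, hbc⟩)
          (mem_nb.mpr ⟨hd, hbd⟩) nac nad ncd w hw hadj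
        tauto
      · have := three_nb (ok.deg _ hc) (mem_nb.mpr ⟨ha, adj_symm hac⟩)
          (mem_nb.mpr ⟨hb, adj_symm hbc⟩) (mem_nb.mpr ⟨hd, hcd⟩) nab nad nbd w hw hadj
        tauto
      · have := three_nb (ok.deg _ hd) (mem_nb.mpr ⟨ha, adj_symm had⟩)
          (mem_nb.mpr ⟨hb, adj_symm hbd⟩) (mem_nb.mpr ⟨hc, adj_symm hcd⟩) nab nac nbc w hw hadj
        tauto
  obtain ⟨eab, kab⟩ := some_of_adj hab
  obtain ⟨eac, kac⟩ := some_of_adj hac
  obtain ⟨ead, kad⟩ := some_of_adj had
  obtain ⟨ebc, kbc⟩ := some_of_adj hbc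
  obtain ⟨ebd, kbd⟩ := some_of_adj hbd
  obtain ⟨ecd, kcd⟩ := some_of_adj hcd
  by_cases hK : (ebc = !(!eab ^^ !eac)) ∧ (ebd = !(!eab ^^ !ead)) ∧ (ecd = !(!eac ^^ !ead))
  · exfalso
    refine ok.noK a ha b hb c hc d hd ⟨false, !eab, !eac, !ead, ?_, ?_, ?_, ?_, ?_, ?_⟩
    · rw [kab]; cases eab <;> rfl
    · rw [kac]; cases eac <;> rfl
    · rw [kad]; cases ead <;> rfl
    · rw [kbc]; exact congrArg some hK.1
    · rw [kbd]; exact congrArg some hK.2.1
    · rw [kcd]; exact congrArg some hK.2.2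
  · have six : ((ebc ^^ (ebd ^^ ecd)) = false ∧ (eac ^^ (ead ^^ ecd)) = false) ∨
        ((ebc ^^ (ebd ^^ ecd)) = false ∧ (eab ^^ (ead ^^ ebd)) = false) ∨
        ((ebc ^^ (ebd ^^ ecd)) = false ∧ (eab ^^ (eac ^^ ebc)) = false) ∨
        ((eac ^^ (ead ^^ ecd)) = false ∧ (eab ^^ (ead ^^ ebd)) = false) ∨
        ((eac ^^ (ead ^^ ecd)) = false ∧ (eab ^^ (eac ^^ ebc)) = false) ∨
        ((eab ^^ (ead ^^ ebd)) = false ∧ (eab ^^ (eac ^^ ebc)) = false) := by
      revert hK
      cases eab <;> cases eac <;> cases ead <;> cases ebc <;> cases ebd <;> cases ecd <;> simp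
    rcases six with ⟨t1, t2⟩ | ⟨t1, t2⟩ | ⟨t1, t2⟩ | ⟨t1, t2⟩ | ⟨t1, t2⟩ | ⟨t1, t2⟩
    · -- opposite to a and b
      exact col_K4 (a := a) (b := b) (c := c) (d := d) hS.subset kbc kbd kcd kac kad t1 t2
    · -- opposite to a and c : bcd, abd
      refine col_K4 (a := a) (b := c) (c := b) (d := d) ?_ (nsome kbc) kcd kbd kab kad ?_ t2
      · rw [hS]
        intro w
        simp only [Finset.mem_insert, Finset.mem_singleton]
        tauto
      · revert t1
        cases ebc <;> cases ebd <;> cases ecd <;> simp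
    · -- opposite to a and d : bcd, abc
      refine col_K4 (a := a) (b := d) (c := b) (d := c) ?_ (nsome kbd) (nsome kcd) kbc kab kac ?_ t2
      · rw [hS]
        intro w
        simp only [Finset.mem_insert, Finset.mem_singleton]
        tauto
      · revert t1
        cases ebc <;> cases ebd <;> cases ecd <;> simp
    · -- opposite to b and c : acd, abd
      refine col_K4 (a := b) (b := c) (c := a) (d := d) ?_ (nsome kac) kcd kad (nsome kab) kbd ?_ ?_
      · rw [hS]
        intro w
        simp only [Finset.mem_insert, Finset.mem_singleton]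
        tauto
      · revert t1
        cases eac <;> cases ead <;> cases ecd <;> simp
      · revert t2
        cases eab <;> cases ead <;> cases ebd <;> simp
    · -- opposite to b and d : acd, abc
      refine col_K4 (a := b) (b := d) (c := a) (d := c) ?_ (nsome kad) (nsome kcd) kac (nsome kab)
        kbc ?_ ?_
      · rw [hS]
        intro w
        simp only [Finset.mem_insert, Finset.mem_singleton]
        tauto
      · revert t1
        cases eac <;> cases ead <;> cases ecd <;> simp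
      · revert t2
        cases eab <;> cases eac <;> cases ebc <;> simp
    · -- opposite to c and d : abd, abc
      refine col_K4 (a := c) (b := d) (c := a) (d := b) ?_ (nsome kad) (nsome kbd) kab (nsome kac)
        (nsome kbc) ?_ ?_
      · rw [hS]
        intro w
        simp only [Finset.mem_insert, Finset.mem_singleton]
        tauto
      · revert t1
        cases eab <;> cases ead <;> cases ebd <;> simp
      · revert t2
        cases eab <;> cases eac <;> cases ebc <;> simp

/-! ### Diamonds -/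

theorem base_dia {G : SG V} {S : Finset V} (q : Fin 4 → V) (p₀ q₀ r s : V)
    (hS : ∀ u ∈ S, (∃ i, q i = u) ∨ u = p₀ ∨ u = q₀ ∨ u = r ∨ u = s)
    (hnew : G.s (q 0) (q 1) = none) (hp : ∀ i, G.s p₀ (q i) = none)
    (hq : ∀ i, G.s q₀ (q i) = none) (hr : ∀ i, G.s r (q i) ≠ none → i = 0)
    (hs : ∀ i, G.s s (q i) ≠ none → i = 1) (hrs : G.s r s = none) : G.Col S := by
  refine col_model (Sum.elim q ![p₀, q₀, r, s]) adj0 L0 ?_ ?_ ok0.1 ok0.2
  · intro u hu
    rcases hS u hu with ⟨i, hi⟩ | h | h | h | h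
    · exact ⟨Sum.inl i, hi⟩
    · exact ⟨Sum.inr 0, h.symm⟩
    · exact ⟨Sum.inr 1, h.symm⟩
    · exact ⟨Sum.inr 2, h.symm⟩
    · exact ⟨Sum.inr 3, h.symm⟩
  · have key : ∀ i k, G.s ((![p₀, q₀, r, s] : Fin 4 → V) k) (q i) ≠ none →
        adj0 (.inl i) (.inr k) = true := by
      intro i k hne
      fin_cases k
      · exact absurd (hp i) hne
      · exact absurd (hq i) hne
      · have := hr i hne
        subst this
        rfl
      · have := hs i hne
        subst this
        rfl
    rintro (i | i) (j | j) hne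
    · simp only [Sum.elim_inl] at hne
      have hij : i ≠ j := by
        rintro rfl
        exact hne (G.irr _)
      simp only [adj0, hij, ne_eq, not_false_eq_true, decide_true, Bool.true_and,
        Bool.not_eq_true']
      by_contra hin
      simp only [Bool.not_eq_false, inE, Bool.or_eq_true, Bool.and_eq_true,
        decide_eq_true_eq] at hin
      rcases hin with ⟨rfl, rfl⟩ | ⟨rfl, rfl⟩
      · exact hne hnew
      · exact hne (nnone hnew)
    · simp only [Sum.elim_inl, Sum.elim_inr] at hne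
      exact key i j (adj_symm hne)
    · simp only [Sum.elim_inl, Sum.elim_inr] at hne
      exact key j i hne
    · simp only [Sum.elim_inr] at hne
      fin_cases i <;> fin_cases j <;>
        first
        | rfl
        | exact absurd (G.irr _) hne
        | exact absurd hrs hne
        | exact absurd (nnone hrs) hne

end SG

end MPa4482b
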