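import Pool.Agent.Lib.MP_a4482b_co.Red2

set_option autoImplicit false
set_option linter.unusedSectionVars false

/-!
# General consequences of a failed reduction; the reduction of diamonds
-/

namespace MPa4482b

variable {V : Type*} [DecidableEq V]

namespace SG

/-- `Q` is the vertex set of a `(K₄,-)` of `G` in `T`. -/
structure IsK (G : SG V) (T Q : Finset V) : Prop where
  closed : ∀ q ∈ Q, ∀ w ∈ T, G.s q w ≠ none → w ∈ Q
  ex : ∃ a b c d, Q = {a, b, c, d} ∧ G.K4At a b c d

/-- The vertex set `Q` of a forbidden subgraph has at most one boundary edge. -/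
structure Bad (G : SG V) (T Q : Finset V) (x₀ w₀ : V) : Prop where
  sub : Q ⊆ T
  ne : Q.Nonempty
  closed : ∀ q ∈ Q, ∀ w ∈ T, G.s q w ≠ none → w ∈ Q ∨ (q = x₀ ∧ w = w₀)
  kind : Q.card = 5 ∨ G.IsK T Q

theorem not_ok {G : SG V} {T : Finset V} (hdeg : ∀ v ∈ T, (G.nb T v).card ≤ 3)
    (h : ¬ G.Ok T) :
    (∃ a ∈ T, ∃ b ∈ T, ∃ c ∈ T, ∃ d ∈ T, G.K4At a b c d) ∨
    (∃ a ∈ T, ∃ b ∈ T, ∃ c ∈ T, ∃ d ∈ T, ∃ x ∈ T, G.K4dAt a b c d x) := by
  by_contra hno
  push Not at hno
  exact h ⟨hdeg, hno.1, hno.2⟩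

theorem Lift.cases {G G' : SG V} {S T : Finset V} {N : V → V → V → Prop}
    (L : Lift G G' S T N) (ok : G.Ok S) :
    G'.Ok T ∨ ∃ Q x₀ w₀, G'.Bad T Q x₀ w₀ ∧ ∃ u ∈ Q, ∃ w ∈ Q, ∃ m, N u w m := by
  by_cases hok : G'.Ok T
  · exact Or.inl hok
  right
  have hdeg : ∀ u ∈ T, (G'.nb T u).card ≤ 3 :=
    fun u hu => (L.deg u).trans (ok.deg u (L.sub hu))
  rcases not_ok hdeg hok with ⟨a, ha, b, hb, c, hc, d, hd, hK⟩ |
    ⟨a, ha, b, hb, c, hc, d, hd, x, hx, hK⟩
  · set Q : Finset V := {a, b, c, d} with hQ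
    have hcl := hK.closed hdeg ha hb hc hd
    refine ⟨Q, a, a, ⟨?_, ⟨a, by simp [hQ]⟩, fun q hq w hw h => Or.inl (hcl q hq w hw h),
      Or.inr ⟨hcl, a, b, c, d, rfl, hK⟩⟩, ?_⟩
    · intro w hw
      simp only [hQ, Finset.mem_insert, Finset.mem_singleton] at hw
      rcases hw with rfl | rfl | rfl | rfl <;> assumption
    · by_contra hno
      push Not at hno
      refine ok.noK a (L.sub ha) b (L.sub hb) c (L.sub hc) d (L.sub hd)
        (hK.of_eq (Q := Q) ?_ ?_ ?_ ?_ (fun u hu w hw => L.same u w (hno u hu w hw))) <;>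
        simp [hQ]
  · set Q : Finset V := {a, b, c, d, x} with hQ
    obtain ⟨w₀, hcl⟩ := hK.closed hdeg ha hb hc hd hx
    refine ⟨Q, x, w₀, ⟨?_, ⟨a, by simp [hQ]⟩, hcl, Or.inl hK.card⟩, ?_⟩
    · intro w hw
      simp only [hQ, Finset.mem_insert, Finset.mem_singleton] at hw
      rcases hw with rfl | rfl | rfl | rfl | rfl <;> assumption
    · by_contra hno
      push Not at hno
      refine ok.noD a (L.sub ha) b (L.sub hb) c (L.sub hc) d (L.sub hd) x (L.sub hx)
        (hK.of_eq (Q := Q) ?_ ?_ ?_ ?_ ?_ (fun u hu w hw => L.same u w (hno u hu w hw))) <;>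
        simp [hQ]

/-- no cut with at most one edge -/
theorem eq_of_not_cut1 {G : SG V} {S A : Finset V} (h : ¬ G.Cut1 S) (hA : A ⊆ S)
    (hne : A.Nonempty) (a b : V)
    (hb : ∀ u ∈ A, ∀ w ∈ S, w ∉ A → G.s u w ≠ none → u = a ∧ w = b) : A = S := by
  by_contra hAS
  exact h ⟨A, hA, hne, hAS, a, b, hb⟩

/-! ### Diamonds -/

/-- a diamond `p q r s` with `r` and `s` not adjacent, third neighbours `r'`, `s'` -/
structure Dia (G : SG V) (S : Finset V) (p q r s r' s' : V) : Prop where
  hp : p ∈ S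
  hq : q ∈ S
  hr : r ∈ S
  hs : s ∈ S
  hr' : r' ∈ S
  hs' : s' ∈ S
  pq : G.s p q ≠ none
  pr : G.s p r ≠ none
  ps : G.s p s ≠ none
  qr : G.s q r ≠ none
  qs : G.s q s ≠ none
  rs : G.s r s = none
  rr : G.s r r' ≠ none
  ss : G.s s s' ≠ none
  nrs : r ≠ s
  np : ∀ w ∈ S, G.s p w ≠ none → w = q ∨ w = r ∨ w = s
  nq : ∀ w ∈ S, G.s q w ≠ none → w = p ∨ w = r ∨ w = s
  nr : ∀ w ∈ S, G.s r w ≠ none → w = p ∨ w = q ∨ w = r'
  ns : ∀ w ∈ S, G.s s w ≠ none → w = p ∨ w = q ∨ w = s'
  rp' : r' ≠ p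
  rq' : r' ≠ q
  sp' : s' ≠ p
  sq' : s' ≠ q
  ne : r' ≠ s'

theorem Dia.swapr {G : SG V} {S : Finset V} {p q r s r' s' : V} (h : G.Dia S p q r s r' s') :
    G.Dia S p q s r s' r' where
  hp := h.hp
  hq := h.hq
  hr := h.hs
  hs := h.hr
  hr' := h.hs'
  hs' := h.hr'
  pq := h.pq
  pr := h.ps
  ps := h.pr
  qr := h.qs
  qs := h.qr
  rs := nnone h.rs
  rr := h.ss
  ss := h.rr
  nrs := h.nrs.symm
  np := fun w hw hne => by have := h.np w hw hne; tauto
  nq := fun w hw hne => by have := h.nq w hw hne; tauto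
  nr := h.ns
  ns := h.nr
  rp' := h.sp'
  rq' := h.sq'
  sp' := h.rp'
  sq' := h.rq'
  ne := h.ne.symm

theorem Dia.swapp {G : SG V} {S : Finset V} {p q r s r' s' : V} (h : G.Dia S p q r s r' s') :
    G.Dia S q p r s r' s' where
  hp := h.hq
  hq := h.hp
  hr := h.hr
  hs := h.hs
  hr' := h.hr'
  hs' := h.hs'
  pq := adj_symm h.pq
  pr := h.qr
  ps := h.qs
  qr := h.pr
  qs := h.ps
  rs := h.rs
  rr := h.rr
  ss := h.ss
  nrs := h.nrs
  np := h.nq
  nq := h.np
  nr := fun w hw hne => by have := h.nr w hw hne; tauto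
  ns := fun w hw hne => by have := h.ns w hw hne; tauto
  rp' := h.rq'
  rq' := h.rp'
  sp' := h.sq'
  sq' := h.sp'
  ne := h.ne

/-- the remaining vertex set -/
def rem4 (S : Finset V) (p q r s : V) : Finset V := S \ {p, q, r, s}

theorem mem_rem4 {S : Finset V} {p q r s w : V} :
    w ∈ rem4 S p q r s ↔ w ∈ S ∧ w ≠ p ∧ w ≠ q ∧ w ≠ r ∧ w ≠ s := by
  simp only [rem4, Finset.mem_sdiff, Finset.mem_insert, Finset.mem_singleton]
  tauto

theorem rem4_sub {S : Finset V} {p q r s : V} : rem4 S p q r s ⊆ S := Finset.sdiff_subset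

theorem sub_ins4 {S : Finset V} {p q r s : V} :
    S ⊆ insert p (insert q (insert r (insert s (rem4 S p q r s)))) := by
  intro w hw
  simp only [Finset.mem_insert, mem_rem4]
  tauto

theorem rem4_card_lt {S : Finset V} {p q r s : V} (hp : p ∈ S) :
    (rem4 S p q r s).card < S.card := by
  apply Finset.card_lt_card
  refine rem4_sub.ssubset_of_ne ?_
  intro hh
  rw [← hh, mem_rem4] at hp
  exact hp.2.1 rfl

theorem Dia.r'T {G : SG V} {S : Finset V} {p q r s r' s' : V} (h : G.Dia S p q r s r' s') :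
    r' ∈ rem4 S p q r s := by
  rw [mem_rem4]
  refine ⟨h.hr', h.rp', h.rq', (ne_of_adj h.rr).symm, ?_⟩
  rintro rfl
  exact h.rr h.rs

theorem Dia.s'T {G : SG V} {S : Finset V} {p q r s r' s' : V} (h : G.Dia S p q r s r' s') :
    s' ∈ rem4 S p q r s := by
  rw [mem_rem4]
  refine ⟨h.hs', h.sp', h.sq', ?_, (ne_of_adj h.ss).symm⟩
  rintro rfl
  exact h.ss (nnone h.rs)

theorem Dia.lift {G : SG V} {S : Finset V} {p q r s r' s' : V} (h : G.Dia S p q r s r' s')
    (hadj : G.s r' s' = none) (t : Bool) :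
    Lift G (G.add r' s' t h.ne) S (rem4 S p q r s)
      (fun u w m => (u = r' ∧ w = s' ∧ m = r) ∨ (u = s' ∧ w = r' ∧ m = s)) := by
  have hne := h.ne
  have hnrs := h.nrs
  refine ⟨rem4_sub, ?_, ?_, ?_, ?_, ?_, ?_⟩
  · intro u w hno
    refine add_of ?_
    rintro (⟨h1, h2⟩ | ⟨h1, h2⟩)
    · exact hno r (Or.inl ⟨h1, h2, rfl⟩)
    · exact hno s (Or.inr ⟨h1, h2, rfl⟩)
  · rintro u w m (⟨rfl, rfl, _⟩ | ⟨rfl, rfl, _⟩)
    · exact hadj
    · exact nnone hadj
  · rintro u w m (⟨rfl, rfl, rfl⟩ | ⟨rfl, rfl, rfl⟩)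
    · exact ⟨h.hr, by simp [mem_rem4], adj_symm h.rr⟩
    · exact ⟨h.hs, by simp [mem_rem4], adj_symm h.ss⟩
  · rintro u w w' m (⟨rfl, rfl, rfl⟩ | ⟨rfl, rfl, rfl⟩) (⟨h1, h2, h3⟩ | ⟨h1, h2, h3⟩)
    · exact h2.symm
    · exact absurd h1 hne
    · exact absurd h1.symm hne
    · exact h2.symm
  · rintro u w m m' (⟨rfl, rfl, rfl⟩ | ⟨rfl, rfl, rfl⟩) (⟨h1, h2, h3⟩ | ⟨h1, h2, h3⟩)
    · exact h3.symm
    · exact absurd h1 hne
    · exact absurd h1.symm hne
    · exact h3.symm
  · intro u hu x hx hxT hadj'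
    have hu' := mem_rem4.mp hu
    have hx' : x = p ∨ x = q ∨ x = r ∨ x = s := by
      by_contra hno
      push Not at hno
      exact hxT (mem_rem4.mpr ⟨hx, hno⟩)
    rcases hx' with rfl | rfl | rfl | rfl
    · have := h.np u hu'.1 (adj_symm hadj')
      tauto
    · have := h.nq u hu'.1 (adj_symm hadj')
      tauto
    · have h1 := h.nr u hu'.1 (adj_symm hadj')
      have h2 : u = r' := by tauto
      exact ⟨s', h.s'T, Or.inl ⟨h2, rfl, rfl⟩, by rw [h2, add_self]; simp⟩
    · have h1 := h.ns u hu'.1 (adj_symm hadj')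
      have h2 : u = s' := by tauto
      exact ⟨r', h.r'T, Or.inr ⟨h2, rfl, rfl⟩, by rw [h2, SG.symm, add_self]; simp⟩

theorem Dia.cases {G : SG V} {S : Finset V} {p q r s r' s' : V} (h : G.Dia S p q r s r' s')
    (ok : G.Ok S) (cub : G.Cubic S) (hc1 : ¬ G.Cut1 S) (hadj : G.s r' s' = none) (t : Bool) :
    (G.add r' s' t h.ne).Ok (rem4 S p q r s) ∨
    ∃ c ∈ rem4 S p q r s, ∃ d ∈ rem4 S p q r s, (G.add r' s' t h.ne).K4At r' s' c d ∧
      S ⊆ ({r', s', c, d} : Finset V) ∪ {p, q, r, s} := by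
  have L := h.lift hadj t
  rcases L.cases ok with hok | ⟨Q, x₀, w₀, hB, u, hu, w, hw, m, hN⟩
  · exact Or.inl hok
  right
  have hr'Q : r' ∈ Q ∧ s' ∈ Q := by
    rcases hN with ⟨rfl, rfl, _⟩ | ⟨rfl, rfl, _⟩
    · exact ⟨hu, hw⟩
    · exact ⟨hw, hu⟩
  obtain ⟨h₀, hh₀⟩ := L.cut (A := Q ∪ {p, q, r, s}) hB.sub hB.closed
    Finset.subset_union_left (by
      rintro u _ w _ m (⟨_, _, rfl⟩ | ⟨_, _, rfl⟩) <;> simp)
  have hAS : Q ∪ {p, q, r, s} = S := by
    refine eq_of_not_cut1 hc1 ?_ ⟨p, by simp⟩ x₀ h₀ ?_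
    · intro w hw
      rw [Finset.mem_union] at hw
      rcases hw with hw | hw
      · exact rem4_sub (hB.sub hw)
      · simp only [Finset.mem_insert, Finset.mem_singleton] at hw
        rcases hw with rfl | rfl | rfl | rfl
        exacts [h.hp, h.hq, h.hr, h.hs]
    · intro u hu w hw hwA hadj'
      rw [Finset.mem_union] at hu
      rcases hu with hu | hu
      · exact hh₀ u hu w hw hwA hadj'
      · exfalso
        apply hwA
        simp only [Finset.mem_insert, Finset.mem_singleton, Finset.mem_union] at hu ⊢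
        rcases hu with rfl | rfl | rfl | rfl
        · have := h.np w hw hadj'
          tauto
        · have := h.nq w hw hadj'
          tauto
        · rcases h.nr w hw hadj' with h | h | rfl
          · tauto
          · tauto
          · exact Or.inl hr'Q.1
        · rcases h.ns w hw hadj' with h | h | rfl
          · tauto
          · tauto
          · exact Or.inl hr'Q.2
  rcases hB.kind with hc | hK
  · exfalso
    have hev := cubic_even cub
    have hdisj : Disjoint Q ({p, q, r, s} : Finset V) := by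
      rw [Finset.disjoint_left]
      intro w hw hw'
      have := mem_rem4.mp (hB.sub hw)
      simp only [Finset.mem_insert, Finset.mem_singleton] at hw'
      tauto
    have h4 : ({p, q, r, s} : Finset V).card = 4 := by
      rw [Finset.card_insert_of_notMem, Finset.card_insert_of_notMem,
        Finset.card_insert_of_notMem, Finset.card_singleton]
      · simpa using h.nrs
      · simp only [Finset.mem_insert, Finset.mem_singleton, not_or]
        exact ⟨ne_of_adj h.qr, ne_of_adj h.qs⟩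
      · simp only [Finset.mem_insert, Finset.mem_singleton, not_or]
        exact ⟨ne_of_adj h.pq, ne_of_adj h.pr, ne_of_adj h.ps⟩
    rw [← hAS, Finset.card_union_of_disjoint hdisj, hc, h4] at hev
    revert hev
    decide
  · obtain ⟨a, b, c, d, hQ, hK4⟩ := hK.ex
    rw [hQ] at hr'Q
    obtain ⟨c', d', hK', hs⟩ := hK4.choose2 hr'Q.1 hr'Q.2 h.ne
    have hc' : c' ∈ Q := by
      rw [hQ, ← hs]
      simp
    have hd' : d' ∈ Q := by
      rw [hQ, ← hs]
      simp
    refine ⟨c', hB.sub hc', d', hB.sub hd', hK', ?_⟩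
    rw [← hAS, hQ, ← hs]

theorem Dia.pT {G : SG V} {S : Finset V} {p q r s r' s' : V} (h : G.Dia S p q r s r' s') :
    ∀ w ∈ rem4 S p q r s, G.s p w = none := by
  intro w hw
  by_contra hne
  have hw' := mem_rem4.mp hw
  have := h.np w hw'.1 hne
  tauto

theorem Dia.qT {G : SG V} {S : Finset V} {p q r s r' s' : V} (h : G.Dia S p q r s r' s') :
    ∀ w ∈ rem4 S p q r s, G.s q w = none := by
  intro w hw
  by_contra hne
  have hw' := mem_rem4.mp hw
  have := h.nq w hw'.1 hne
  tauto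

theorem Dia.rT {G : SG V} {S : Finset V} {p q r s r' s' : V} (h : G.Dia S p q r s r' s') :
    ∀ w ∈ rem4 S p q r s, G.s r w ≠ none → w = r' := by
  intro w hw hne
  have hw' := mem_rem4.mp hw
  have := h.nr w hw'.1 hne
  tauto

theorem Dia.sT {G : SG V} {S : Finset V} {p q r s r' s' : V} (h : G.Dia S p q r s r' s') :
    ∀ w ∈ rem4 S p q r s, G.s s w ≠ none → w = s' := by
  intro w hw hne
  have hw' := mem_rem4.mp hw
  have := h.ns w hw'.1 hne
  tauto

theorem K4At.parity {G : SG V} {a b c d : V} (h : G.K4At a b c d) {e1 e2 e3 : Bool}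
    (h1 : G.s a b = some e1) (h2 : G.s a c = some e2) (h3 : G.s b c = some e3) :
    (e1 ^^ (e2 ^^ e3)) = true := by
  obtain ⟨pa, pb, pc, pd, k1, k2, k3, k4, k5, k6⟩ := h
  rw [h1] at k1
  rw [h2] at k2
  rw [h3] at k4
  simp only [Option.some.injEq] at k1 k2 k4
  subst k1 k2 k4
  cases pa <;> cases pb <;> cases pc <;> rfl

theorem red_dia_pp {G : SG V} {S : Finset V} (ih : IH V S.card) (ok : G.Ok S)
    {p q r s r' s' : V} (h : G.Dia S p q r s r' s') {epq epr eps eqr eqs : Bool}
    (kpq : G.s p q = some epq) (kpr : G.s p r = some epr) (kps : G.s p s = some eps)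
    (kqr : G.s q r = some eqr) (kqs : G.s q s = some eqs)
    (t1 : (epq ^^ (epr ^^ eqr)) = false) (t2 : (epq ^^ (eps ^^ eqs)) = false) : G.Col S :=
  ext_dia_pp sub_ins4 kpq kpr kps kqr kqs h.rs t1 t2 h.pT h.qT h.rT h.sT
    (ih G _ (rem4_card_lt h.hp) (ok.mono rem4_sub))

theorem red_dia_nn {G : SG V} {S : Finset V} (ih : IH V S.card) (ok : G.Ok S)
    (cub : G.Cubic S) (hc1 : ¬ G.Cut1 S)
    {p q r s r' s' : V} (h : G.Dia S p q r s r' s') {epq epr eps eqr eqs : Bool}
    (kpq : G.s p q = some epq) (kpr : G.s p r = some epr) (kps : G.s p s = some eps)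
    (kqr : G.s q r = some eqr) (kqs : G.s q s = some eqs)
    (t1 : (epq ^^ (epr ^^ eqr)) = true) (t2 : (epq ^^ (eps ^^ eqs)) = true) : G.Col S := by
  obtain ⟨er, kr⟩ := some_of_adj h.rr
  obtain ⟨es, ks⟩ := some_of_adj h.ss
  obtain ⟨t, ht⟩ : ∃ t : Bool, t = ((er ^^ epr) ^^ (eps ^^ es)) := ⟨_, rfl⟩
  have ht2 : t = ((er ^^ eqr) ^^ (eqs ^^ es)) := by
    rw [ht]
    revert t1 t2
    cases epq <;> cases epr <;> cases eps <;> cases eqr <;> cases eqs <;> cases er <;>
      cases es <;> simp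
  have hp0 : p ∉ rem4 S p q r s := by simp [mem_rem4]
  have hq0 : q ∉ rem4 S p q r s := by simp [mem_rem4]
  have hr0 : r ∉ rem4 S p q r s := by simp [mem_rem4]
  have hs0 : s ∉ rem4 S p q r s := by simp [mem_rem4]
  rcases hrs' : G.s r' s' with _ | t'
  · have L := h.lift hrs' t
    rcases h.cases ok cub hc1 hrs' t with hok | ⟨c, hc, d, hd, hK, hS⟩
    · exact ext_dia_link (G' := G.add r' s' t h.ne) sub_ins4 hp0 hq0 hr0 hs0 h.nrs
        (fun u _ w _ e he => L.mono u w e he) kpr kps kqr kqs h.rs kr ks add_self ht ht2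
        h.pT h.qT h.rT h.sT (ih _ _ (rem4_card_lt h.hp) hok)
    · have hmem : ∀ i, (![r', s', c, d] : Fin 4 → V) i ∈ rem4 S p q r s := by
        intro i
        fin_cases i
        exacts [h.r'T, h.s'T, hc, hd]
      have hinj : Function.Injective (![r', s', c, d] : Fin 4 → V) := by
        obtain ⟨pa, pb, pc, pd, k1, k2, k3, k4, k5, k6⟩ := hK
        have n1 := ne_of_some k1
        have n2 := ne_of_some k2
        have n3 := ne_of_some k3
        have n4 := ne_of_some k4
        have n5 := ne_of_some k5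
        have n6 := ne_of_some k6
        intro i j hij
        fin_cases i <;> fin_cases j <;>
          first
          | rfl
          | exact absurd hij (by assumption)
          | exact absurd hij.symm (by assumption)
      refine base_dia ![r', s', c, d] p q r s ?_ hrs' (fun i => h.pT _ (hmem i))
        (fun i => h.qT _ (hmem i)) ?_ ?_ h.rs
      · intro u hu
        have := hS hu
        simp only [Finset.mem_union, Finset.mem_insert, Finset.mem_singleton] at this
        rcases this with (rfl | rfl | rfl | rfl) | h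
        · exact Or.inl ⟨0, rfl⟩
        · exact Or.inl ⟨1, rfl⟩
        · exact Or.inl ⟨2, rfl⟩
        · exact Or.inl ⟨3, rfl⟩
        · exact Or.inr h
      · intro i hi
        have := h.rT _ (hmem i) hi
        exact hinj (this.trans rfl)
      · intro i hi
        have := h.sT _ (hmem i) hi
        exact hinj (this.trans rfl)
  · by_cases htt : t' = t
    · subst htt
      exact ext_dia_link (G' := G) sub_ins4 hp0 hq0 hr0 hs0 h.nrs
        (fun u _ w _ e he => he) kpr kps kqr kqs h.rs kr ks hrs' ht ht2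
        h.pT h.qT h.rT h.sT (ih _ _ (rem4_card_lt h.hp) (ok.mono rem4_sub))
    · have hr's' : G.s r' s' ≠ none := by rw [hrs']; simp
      have hnr : r ≠ s' := by
        rintro rfl
        exact h.ss (nnone h.rs)
      have hns : s ≠ r' := by
        rintro rfl
        exact h.rr h.rs
      obtain ⟨r'', _, _, _, _, hr''⟩ := cub.third h.hr' h.hr h.hs' hnr (adj_symm h.rr) hr's'
      obtain ⟨s'', _, _, _, _, hs''⟩ := cub.third h.hs' h.hs h.hr' hns (adj_symm h.ss)
        (adj_symm hr's')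
      have hTsub : rem4 S p q r s \ {r', s'} ⊆ rem4 S p q r s := Finset.sdiff_subset
      have hTS : rem4 S p q r s \ {r', s'} ⊆ S := hTsub.trans rem4_sub
      have hr'' : ∀ w ∈ rem4 S p q r s \ {r', s'}, G.s r' w ≠ none → w = r'' := by
        intro w hw hne
        simp only [Finset.mem_sdiff, mem_rem4, Finset.mem_insert, Finset.mem_singleton] at hw
        have := hr'' w hw.1.1 hne
        tauto
      have hs'' : ∀ w ∈ rem4 S p q r s \ {r', s'}, G.s s' w ≠ none → w = s'' := by
        intro w hw hne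
        simp only [Finset.mem_sdiff, mem_rem4, Finset.mem_insert, Finset.mem_singleton] at hw
        have := hs'' w hw.1.1 hne
        tauto
      refine ext_dia_sp (T := rem4 S p q r s \ {r', s'}) (p := p) (q := q) (r := r) (s := s)
        (r' := r') (s' := s') (r'' := r'') (s'' := s'') ?_ h.rs (h.pT _ h.r'T) (h.pT _ h.s'T)
        (h.qT _ h.r'T) (h.qT _ h.s'T) ?_ ?_ (fun w hw => h.pT w (hTsub hw))
        (fun w hw => h.qT w (hTsub hw)) ?_ ?_ hr'' hs'' (ih G _ ?_ (ok.mono hTS))
      · intro w hw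
        simp only [Finset.mem_insert, Finset.mem_sdiff, Finset.mem_singleton, mem_rem4]
        tauto
      · by_contra hne
        exact h.ne (h.rT _ h.s'T hne).symm
      · by_contra hne
        exact h.ne (h.sT _ h.r'T hne)
      · intro w hw
        by_contra hne
        have h1 := h.rT w (hTsub hw) hne
        rw [h1] at hw
        simp at hw
      · intro w hw
        by_contra hne
        have h1 := h.sT w (hTsub hw) hne
        rw [h1] at hw
        simp at hw
      · exact (Finset.card_le_card hTsub).trans_lt (rem4_card_lt h.hp)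

/-- the triangle `p q r` is negative and the triangle `p q s` is positive -/
theorem red_dia_np {G : SG V} {S : Finset V} (ih : IH V S.card) (ok : G.Ok S)
    (cub : G.Cubic S) (hc1 : ¬ G.Cut1 S)
    {p q r s r' s' : V} (h : G.Dia S p q r s r' s') {epq epr eps eqr eqs : Bool}
    (kpq : G.s p q = some epq) (kpr : G.s p r = some epr) (kps : G.s p s = some eps)
    (kqr : G.s q r = some eqr) (kqs : G.s q s = some eqs)
    (t1 : (epq ^^ (epr ^^ eqr)) = true) (t2 : (epq ^^ (eps ^^ eqs)) = false) : G.Col S := by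
  obtain ⟨er, kr⟩ := some_of_adj h.rr
  obtain ⟨es, ks⟩ := some_of_adj h.ss
  have hp0 : p ∉ rem4 S p q r s := by simp [mem_rem4]
  have hq0 : q ∉ rem4 S p q r s := by simp [mem_rem4]
  have hr0 : r ∉ rem4 S p q r s := by simp [mem_rem4]
  have hs0 : s ∉ rem4 S p q r s := by simp [mem_rem4]
  -- reduction to a suitable graph `G'`
  have key : ∀ (G' : SG V) (t : Bool), G'.s r' s' = some t →
      (∀ u ∈ rem4 S p q r s, ∀ w ∈ rem4 S p q r s, ∀ e, G.s u w = some e →
        G'.s u w = some e) → G'.Ok (rem4 S p q r s) → G.Col S := by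
    intro G' t ht hm hok
    have hc := ih G' _ (rem4_card_lt h.hp) hok
    by_cases htt : t = ((er ^^ epr) ^^ (eps ^^ es))
    · exact ext_dia_mix sub_ins4 hp0 hr0 hs0 h.nrs hm kpq kpr kps kqr kqs h.rs kr ks ht htt t2
        h.pT h.qT h.rT h.sT hc
    · have htt' : t = ((er ^^ eqr) ^^ (eqs ^^ es)) := by
        revert htt t1 t2
        cases t <;> cases epq <;> cases epr <;> cases eps <;> cases eqr <;> cases eqs <;>
          cases er <;> cases es <;> simp
      refine ext_dia_mix (p := q) (q := p) (T := rem4 S p q r s) (G' := G') ?_ hq0 hr0 hs0 h.nrs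
        hm (nsome kpq) kqr kqs kpr kps h.rs kr ks ht htt' ?_ h.qT h.pT h.rT h.sT hc
      · intro w hw
        simp only [Finset.mem_insert, mem_rem4]
        tauto
      · rw [← t2]
        cases epq <;> cases eps <;> cases eqs <;> rfl
  rcases hrs' : G.s r' s' with _ | t'
  · by_cases hex : ∃ t, (G.add r' s' t h.ne).Ok (rem4 S p q r s)
    · obtain ⟨t, ht⟩ := hex
      have L := h.lift hrs' t
      exact key _ t add_self (fun u _ w _ e he => L.mono u w e he) ht
    · exfalso
      push Not at hex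
      have h1 := (h.cases ok cub hc1 hrs' true).resolve_left (hex true)
      have h2 := (h.cases ok cub hc1 hrs' false).resolve_left (hex false)
      obtain ⟨c, hc, d, hd, hK, -⟩ := h1
      obtain ⟨c', hc', d', hd', hK', -⟩ := h2
      have hcS := mem_rem4.mp hc
      have hdS := mem_rem4.mp hd
      have hcS' := mem_rem4.mp hc'
      -- the neighbours of `r'`
      have nk : ∀ t {c d : V}, (G.add r' s' t h.ne).K4At r' s' c d →
          ∃ ε₁ ε₂ : Bool, G.s r' c = some ε₁ ∧ G.s s' c = some ε₂ ∧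
          (t ^^ (ε₁ ^^ ε₂)) = true := by
        intro t c d hK
        have hpar := hK
        obtain ⟨pa, pb, pc, pd, k1, k2, k3, k4, k5, k6⟩ := hK
        have n2 := ne_of_some k2
        have n4 := ne_of_some k4
        refine ⟨!(pa ^^ pc), !(pb ^^ pc), ?_, ?_, hpar.parity add_self k2 k4⟩
        · rwa [add_of (by rintro (⟨_, h⟩ | ⟨_, h⟩); exacts [n4 h.symm, n2 h.symm])] at k2
        · rwa [add_of (by rintro (⟨_, h⟩ | ⟨_, h⟩); exacts [n4 h.symm, n2 h.symm])] at k4
      obtain ⟨e1, e2, k1, k2, k3⟩ := nk true hK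
      obtain ⟨f1, f2, l1, l2, l3⟩ := nk true hK.swap34
      obtain ⟨e1', e2', k1', k2', k3'⟩ := nk false hK'
      have ncd : c ≠ d := by
        obtain ⟨pa, pb, pc, pd, k1, k2, k3, k4, k5, k6⟩ := hK
        exact ne_of_some k6
      have h3 := three_nb (ok.deg r' h.hr') (mem_nb.mpr ⟨h.hr, adj_symm h.rr⟩)
        (mem_nb.mpr ⟨hcS.1, by rw [k1]; simp⟩) (mem_nb.mpr ⟨hdS.1, by rw [l1]; simp⟩)
        hcS.2.2.2.1.symm hdS.2.2.2.1.symm ncd c' hcS'.1 (by rw [k1']; simp)
      rcases h3 with h3 | rfl | rfl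
      · exact hcS'.2.2.2.1 h3
      · rw [k1] at k1'
        rw [k2] at k2'
        simp only [Option.some.injEq] at k1' k2'
        subst k1' k2'
        revert k3 k3'
        cases e1 <;> cases e2 <;> simp
      · rw [l1] at k1'
        rw [l2] at k2'
        simp only [Option.some.injEq] at k1' k2'
        subst k1' k2'
        revert l3 k3'
        cases f1 <;> cases f2 <;> simp
  · exact key G t' hrs' (fun u _ w _ e he => he) (ok.mono rem4_sub)

/-- no diamond and no `K₄` -/
def NoDia (G : SG V) (S : Finset V) : Prop :=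
  ∀ p ∈ S, ∀ q ∈ S, ∀ r ∈ S, ∀ s ∈ S, G.s p q ≠ none → G.s p r ≠ none → G.s p s ≠ none →
    G.s q r ≠ none → G.s q s ≠ none → r = s

theorem red_dia {G : SG V} {S : Finset V} (ih : IH V S.card) (ok : G.Ok S)
    (cub : G.Cubic S) (hc1 : ¬ G.Cut1 S) (hd : ¬ G.NoDia S) : G.Col S := by
  unfold NoDia at hd
  push Not at hd
  obtain ⟨p, hp, q, hq, r, hr, s, hs, pq, pr, ps, qr, qs, nrs⟩ := hd
  rcases hrs : G.s r s with _ | ers
  swap
  · exact red_K4 ok hc1 hp hq hr hs pq pr ps qr qs (by rw [hrs]; simp)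
  have npq := ne_of_adj pq
  have npr := ne_of_adj pr
  have nps := ne_of_adj ps
  have nqr := ne_of_adj qr
  have nqs := ne_of_adj qs
  obtain ⟨r', hr', r'p, r'q, rr', nr⟩ := cub.third hr hp hq npq (adj_symm pr) (adj_symm qr)
  obtain ⟨s', hs', s'p, s'q, ss', ns⟩ := cub.third hs hp hq npq (adj_symm ps) (adj_symm qs)
  have np := three_nb (ok.deg p hp) (mem_nb.mpr ⟨hq, pq⟩) (mem_nb.mpr ⟨hr, pr⟩)
    (mem_nb.mpr ⟨hs, ps⟩) nqr nqs nrs
  have nq := three_nb (ok.deg q hq) (mem_nb.mpr ⟨hp, adj_symm pq⟩) (mem_nb.mpr ⟨hr, qr⟩)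
    (mem_nb.mpr ⟨hs, qs⟩) npr nps nrs
  have nr' := ne_of_adj rr'
  have ns' := ne_of_adj ss'
  have nsr' : s ≠ r' := by
    rintro rfl
    exact rr' hrs
  by_cases hne : r' = s'
  · exfalso
    subst hne
    obtain ⟨t, ht, tr, ts, rt, nt⟩ := cub.third hr' hr hs nrs (adj_symm rr') (adj_symm ss')
    have hAS : ({p, q, r, s, r'} : Finset V) = S := by
      refine eq_of_not_cut1 hc1 ?_ ⟨p, by simp⟩ r' t ?_
      · intro w hw
        simp only [Finset.mem_insert, Finset.mem_singleton] at hw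
        rcases hw with rfl | rfl | rfl | rfl | rfl <;> assumption
      · intro u hu w hw hwA hadj
        simp only [Finset.mem_insert, Finset.mem_singleton] at hu hwA
        rcases hu with rfl | rfl | rfl | rfl | rfl
        · have := np w hw hadj
          tauto
        · have := nq w hw hadj
          tauto
        · have := nr w hw hadj
          tauto
        · have := ns w hw hadj
          tauto
        · have := nt w hw hadj
          tauto
    have hev := cubic_even cub
    rw [← hAS, Finset.card_insert_of_notMem, Finset.card_insert_of_notMem,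
      Finset.card_insert_of_notMem, Finset.card_insert_of_notMem, Finset.card_singleton] at hev
    · revert hev
      decide
    · simp only [Finset.mem_singleton]
      exact nsr'
    · simp only [Finset.mem_insert, Finset.mem_singleton, not_or]
      exact ⟨nrs, nr'⟩
    · simp only [Finset.mem_insert, Finset.mem_singleton, not_or]
      exact ⟨nqr, nqs, r'q.symm⟩
    · simp only [Finset.mem_insert, Finset.mem_singleton, not_or]
      exact ⟨npq, npr, nps, r'p.symm⟩
  · have h : G.Dia S p q r s r' s' :=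
      ⟨hp, hq, hr, hs, hr', hs', pq, pr, ps, qr, qs, hrs, rr', ss', nrs, np, nq, nr, ns, r'p, r'q,
        s'p, s'q, hne⟩
    obtain ⟨epq, kpq⟩ := some_of_adj pq
    obtain ⟨epr, kpr⟩ := some_of_adj pr
    obtain ⟨eps, kps⟩ := some_of_adj ps
    obtain ⟨eqr, kqr⟩ := some_of_adj qr
    obtain ⟨eqs, kqs⟩ := some_of_adj qs
    rcases t1 : (epq ^^ (epr ^^ eqr)) with _ | _
    · rcases t2 : (epq ^^ (eps ^^ eqs)) with _ | _
      · exact red_dia_pp ih ok h kpq kpr kps kqr kqs t1 t2
      · exact red_dia_np ih ok cub hc1 h.swapr kpq kps kpr kqs kqr t2 t1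
    · rcases t2 : (epq ^^ (eps ^^ eqs)) with _ | _
      · exact red_dia_np ih ok cub hc1 h kpq kpr kps kqr kqs t1 t2
      · exact red_dia_nn ih ok cub hc1 h kpq kpr kps kqr kqs t1 t2

end SG

end MPa4482b
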