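import Pool.Agent.Lib.MP_a4482b_co.Red3

set_option autoImplicit false
set_option linter.unusedSectionVars false

/-!
# The reduction of cuts with two edges
-/

namespace MPa4482b

variable {V : Type*} [DecidableEq V]

namespace SG

theorem Lift.deg_ge {G G' : SG V} {S T : Finset V} {N : V → V → V → Prop}
    (L : Lift G G' S T N) {u : V} (hu : u ∈ T) : (G.nb S u).card ≤ (G'.nb T u).card := by
  classical
  let f : V → V := fun w => if h : ∃ m, N u w m then h.choose else w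
  apply Finset.card_le_card_of_surjOn f
  intro m hm
  rw [Finset.mem_coe, mem_nb] at hm
  by_cases hmT : m ∈ T
  · refine ⟨m, ?_, ?_⟩
    · rw [Finset.mem_coe, mem_nb]
      refine ⟨hmT, ?_⟩
      obtain ⟨e, he⟩ := some_of_adj hm.2
      rw [L.mono _ _ _ he]
      simp
    · have : ¬ ∃ m', N u m m' := by
        rintro ⟨m', h⟩
        exact hm.2 (L.nold _ _ _ h)
      simp only [f]
      rw [dif_neg this]
  · obtain ⟨w, hw, hN, hadj⟩ := L.surj u hu m hm.1 hmT hm.2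
    have hex : ∃ m', N u w m' := ⟨m, hN⟩
    refine ⟨w, mem_nb.mpr ⟨hw, hadj⟩, ?_⟩
    simp only [f]
    rw [dif_pos hex]
    exact L.uni _ _ _ _ hex.choose_spec hN

theorem Lift.cubic {G G' : SG V} {S T : Finset V} {N : V → V → V → Prop}
    (L : Lift G G' S T N) (cub : G.Cubic S) : G'.Cubic T := by
  intro u hu
  have h1 := L.deg u
  have h2 := L.deg_ge hu
  have h3 := cub u (L.sub hu)
  omega

/-- the exact two edges of a cut -/
structure TwoCut (G : SG V) (S A : Finset V) (a₁ b₁ a₂ b₂ : V) : Prop where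
  sub : A ⊆ S
  ha₁ : a₁ ∈ A
  ha₂ : a₂ ∈ A
  hb₁ : b₁ ∈ S
  hb₁' : b₁ ∉ A
  hb₂ : b₂ ∈ S
  hb₂' : b₂ ∉ A
  h1 : G.s a₁ b₁ ≠ none
  h2 : G.s a₂ b₂ ≠ none
  ne : ¬ (a₁ = a₂ ∧ b₁ = b₂)
  bd : ∀ u ∈ A, ∀ w ∈ S, w ∉ A → G.s u w ≠ none → (u = a₁ ∧ w = b₁) ∨ (u = a₂ ∧ w = b₂)

theorem TwoCut.compl {G : SG V} {S A : Finset V} {a₁ b₁ a₂ b₂ : V}
    (h : G.TwoCut S A a₁ b₁ a₂ b₂) : G.TwoCut S (S \ A) b₁ a₁ b₂ a₂ where
  sub := Finset.sdiff_subset
  ha₁ := Finset.mem_sdiff.mpr ⟨h.hb₁, h.hb₁'⟩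
  ha₂ := Finset.mem_sdiff.mpr ⟨h.hb₂, h.hb₂'⟩
  hb₁ := h.sub h.ha₁
  hb₁' := fun hh => (Finset.mem_sdiff.mp hh).2 h.ha₁
  hb₂ := h.sub h.ha₂
  hb₂' := fun hh => (Finset.mem_sdiff.mp hh).2 h.ha₂
  h1 := adj_symm h.h1
  h2 := adj_symm h.h2
  ne := fun hh => h.ne ⟨hh.2, hh.1⟩
  bd := by
    intro u hu w hw hwA hadj
    rw [Finset.mem_sdiff] at hu hwA
    have hwA' : w ∈ A := by
      by_contra hno
      exact hwA ⟨hw, hno⟩
    have := h.bd w hwA' u hu.1 hu.2 (adj_symm hadj)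
    tauto

theorem TwoCut.ne_a {G : SG V} {S A : Finset V} {a₁ b₁ a₂ b₂ : V}
    (h : G.TwoCut S A a₁ b₁ a₂ b₂) (cub : G.Cubic S) (hc1 : ¬ G.Cut1 S) : a₁ ≠ a₂ := by
  intro heq
  have hb : b₁ ≠ b₂ := fun hh => h.ne ⟨heq, hh⟩
  have h2' : G.s a₁ b₂ ≠ none := by
    rw [heq]
    exact h.h2
  obtain ⟨c, hc, hcb, hcb', hac, hn⟩ := cub.third (h.sub h.ha₁) h.hb₁ h.hb₂ hb h.h1 h2'
  have hcA : c ∈ A := by
    by_contra hno
    rcases h.bd a₁ h.ha₁ c hc hno hac with h' | h'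
    · exact hcb h'.2
    · exact hcb' h'.2
  apply hc1
  refine ⟨A.erase a₁, (Finset.erase_subset _ _).trans h.sub,
    ⟨c, Finset.mem_erase.mpr ⟨(ne_of_adj hac).symm, hcA⟩⟩, ?_, c, a₁, ?_⟩
  · intro hh
    have := h.sub h.ha₁
    rw [← hh] at this
    simp at this
  · intro u hu w hw hwA hadj
    rw [Finset.mem_erase] at hu
    by_cases hwa : w = a₁
    · subst hwa
      refine ⟨?_, rfl⟩
      rcases hn u (h.sub hu.2) (adj_symm hadj) with rfl | rfl | rfl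
      · exact absurd hu.2 h.hb₁'
      · exact absurd hu.2 h.hb₂'
      · rfl
    · have hwA' : w ∉ A := fun hh => hwA (Finset.mem_erase.mpr ⟨hwa, hh⟩)
      exfalso
      rcases h.bd u hu.2 w hw hwA' hadj with h' | h'
      · exact hu.1 h'.1
      · exact hu.1 (h'.1.trans heq.symm)

theorem TwoCut.ok {G : SG V} {S A : Finset V} {a₁ b₁ a₂ b₂ : V}
    (h : G.TwoCut S A a₁ b₁ a₂ b₂) (ok : G.Ok S) (cub : G.Cubic S) (hc1 : ¬ G.Cut1 S)
    (nd : G.NoDia S) (ha : a₁ ≠ a₂) (hadj : G.s a₁ a₂ = none) (t : Bool) :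
    (G.add a₁ a₂ t ha).Ok A := by
  have hAne : A ≠ S := fun hh => h.hb₁' (hh ▸ h.hb₁)
  have L : Lift G (G.add a₁ a₂ t ha) S A
      (fun u w m => (u = a₁ ∧ w = a₂ ∧ m = b₁) ∨ (u = a₂ ∧ w = a₁ ∧ m = b₂)) := by
    refine ⟨h.sub, ?_, ?_, ?_, ?_, ?_, ?_⟩
    · intro u w hno
      refine add_of ?_
      rintro (⟨h1, h2⟩ | ⟨h1, h2⟩)
      · exact hno b₁ (Or.inl ⟨h1, h2, rfl⟩)
      · exact hno b₂ (Or.inr ⟨h1, h2, rfl⟩)
    · rintro u w m (⟨rfl, rfl, _⟩ | ⟨rfl, rfl, _⟩)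
      · exact hadj
      · exact nnone hadj
    · rintro u w m (⟨rfl, rfl, rfl⟩ | ⟨rfl, rfl, rfl⟩)
      · exact ⟨h.hb₁, h.hb₁', h.h1⟩
      · exact ⟨h.hb₂, h.hb₂', h.h2⟩
    · rintro u w w' m (⟨rfl, rfl, rfl⟩ | ⟨rfl, rfl, rfl⟩) (⟨h1, h2, h3⟩ | ⟨h1, h2, h3⟩)
      · exact h2.symm
      · exact absurd h1 ha
      · exact absurd h1.symm ha
      · exact h2.symm
    · rintro u w m m' (⟨rfl, rfl, rfl⟩ | ⟨rfl, rfl, rfl⟩) (⟨h1, h2, h3⟩ | ⟨h1, h2, h3⟩)
      · exact h3.symm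
      · exact absurd h1 ha
      · exact absurd h1.symm ha
      · exact h3.symm
    · intro u hu x hx hxT hadj'
      rcases h.bd u hu x hx hxT hadj' with h' | h'
      · exact ⟨a₂, h.ha₂, Or.inl ⟨h'.1, rfl, h'.2⟩, by rw [h'.1, add_self]; simp⟩
      · exact ⟨a₁, h.ha₁, Or.inr ⟨h'.1, rfl, h'.2⟩, by rw [h'.1, SG.symm, add_self]; simp⟩
  rcases L.cases ok with hok | ⟨Q, x₀, w₀, hB, u, hu, w, hw, m, hN⟩
  · exact hok
  exfalso
  have hQ : a₁ ∈ Q ∧ a₂ ∈ Q := by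
    rcases hN with ⟨rfl, rfl, _⟩ | ⟨rfl, rfl, _⟩
    · exact ⟨hu, hw⟩
    · exact ⟨hw, hu⟩
  rcases hB.kind with hc | hK
  · by_cases hAQ : A ⊆ Q
    · have hAQ' : A = Q := Finset.Subset.antisymm hAQ hB.sub
      have hev := cubic_even (L.cubic cub)
      rw [hAQ', hc] at hev
      revert hev
      decide
    · apply hc1
      obtain ⟨y, hy, hyQ⟩ := Finset.not_subset.mp hAQ
      refine ⟨A \ Q, Finset.sdiff_subset.trans h.sub, ⟨y, Finset.mem_sdiff.mpr ⟨hy, hyQ⟩⟩, ?_,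
        w₀, x₀, ?_⟩
      · intro hh
        have := h.sub h.ha₁
        rw [← hh, Finset.mem_sdiff] at this
        exact this.2 hQ.1
      · intro u hu w hw hwA hadj'
        rw [Finset.mem_sdiff] at hu hwA
        by_cases hwA' : w ∈ A
        · have hwQ : w ∈ Q := by
            by_contra hno
            exact hwA ⟨hwA', hno⟩
          obtain ⟨e, he⟩ := some_of_adj (adj_symm hadj')
          rcases hB.closed w hwQ u hu.1 (by rw [L.mono _ _ _ he]; simp) with h' | h'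
          · exact absurd h' hu.2
          · exact ⟨h'.2, h'.1⟩
        · exfalso
          rcases h.bd u hu.1 w hw hwA' hadj' with h' | h'
          · exact hu.2 (h'.1 ▸ hQ.1)
          · exact hu.2 (h'.1 ▸ hQ.2)
  · obtain ⟨a, b, c, d, hQe, hK4⟩ := hK.ex
    rw [hQe] at hQ
    obtain ⟨c', d', hK', hs⟩ := hK4.choose2 hQ.1 hQ.2 ha
    have hc' : c' ∈ Q := by
      rw [hQe, ← hs]
      simp
    have hd' : d' ∈ Q := by
      rw [hQe, ← hs]
      simp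
    obtain ⟨pa, pb, pc, pd, k1, k2, k3, k4, k5, k6⟩ := hK'
    have n2 := ne_of_some k2
    have n3 := ne_of_some k3
    have n4 := ne_of_some k4
    have n5 := ne_of_some k5
    rw [add_of (by tauto)] at k2 k3 k4 k5 k6
    exact ha (nd c' (h.sub (hB.sub hc')) d' (h.sub (hB.sub hd')) a₁ (h.sub h.ha₁) a₂
      (h.sub h.ha₂) (by rw [k6]; simp) (by rw [nsome k2]; simp) (by rw [nsome k4]; simp)
      (by rw [nsome k3]; simp) (by rw [nsome k5]; simp))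

theorem exists_twoCut {G : SG V} {S A : Finset V} (hc1 : ¬ G.Cut1 S) (hAS : A ⊆ S)
    (hne : A.Nonempty) (hA : A ≠ S) {a b a' b' : V}
    (hbd : ∀ u ∈ A, ∀ w ∈ S, w ∉ A → G.s u w ≠ none → (u = a ∧ w = b) ∨ (u = a' ∧ w = b')) :
    G.TwoCut S A a b a' b' := by
  have e1 : a ∈ A ∧ b ∈ S ∧ b ∉ A ∧ G.s a b ≠ none := by
    by_contra hno
    apply hc1
    refine ⟨A, hAS, hne, hA, a', b', ?_⟩
    intro u hu w hw hwA hadj
    rcases hbd u hu w hw hwA hadj with ⟨rfl, rfl⟩ | h'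
    · exact absurd ⟨hu, hw, hwA, hadj⟩ hno
    · exact h'
  have e2 : a' ∈ A ∧ b' ∈ S ∧ b' ∉ A ∧ G.s a' b' ≠ none := by
    by_contra hno
    apply hc1
    refine ⟨A, hAS, hne, hA, a, b, ?_⟩
    intro u hu w hw hwA hadj
    rcases hbd u hu w hw hwA hadj with h' | ⟨rfl, rfl⟩
    · exact h'
    · exact absurd ⟨hu, hw, hwA, hadj⟩ hno
  refine ⟨hAS, e1.1, e2.1, e1.2.1, e1.2.2.1, e2.2.1, e2.2.2.1, e1.2.2.2, e2.2.2.2, ?_, hbd⟩
  rintro ⟨rfl, rfl⟩
  apply hc1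
  refine ⟨A, hAS, hne, hA, a, b, ?_⟩
  intro u hu w hw hwA hadj
  have := hbd u hu w hw hwA hadj
  tauto

theorem red_cut2 {G : SG V} {S : Finset V} (ih : IH V S.card) (ok : G.Ok S)
    (cub : G.Cubic S) (hc1 : ¬ G.Cut1 S) (nd : G.NoDia S) (hc2 : G.Cut2 S) : G.Col S := by
  set P : Finset V → Prop := fun A => A ⊆ S ∧ A.Nonempty ∧ A ≠ S ∧ ∃ a b a' b', ∀ u ∈ A, ∀ w ∈ S,
    w ∉ A → G.s u w ≠ none → (u = a ∧ w = b) ∨ (u = a' ∧ w = b') with hP
  obtain ⟨A₀, hA₀⟩ : ∃ A, P A := hc2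
  obtain ⟨n, ⟨A, hPA, hn⟩, hmin⟩ := WellFounded.has_min Nat.lt_wfRel.wf
    {n | ∃ A, P A ∧ A.card = n} ⟨_, A₀, hA₀, rfl⟩
  have hmin' : ∀ B, P B → A.card ≤ B.card := by
    intro B hB
    have := hmin B.card ⟨B, hB, rfl⟩
    rw [hn]
    exact not_lt.mp this
  obtain ⟨hAS, hne, hA, a₁, b₁, a₂, b₂, hbd⟩ := hPA
  have h := exists_twoCut hc1 hAS hne hA hbd
  have ha := h.ne_a cub hc1
  have hb := h.compl.ne_a cub hc1
  have hadj : G.s a₁ a₂ = none := by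
    by_contra hadj
    have n1 : b₁ ≠ a₂ := fun hh => h.hb₁' (hh ▸ h.ha₂)
    have n2 : b₂ ≠ a₁ := fun hh => h.hb₂' (hh ▸ h.ha₁)
    obtain ⟨c₁, hc₁, hcb, hca, hac, hn₁⟩ := cub.third (hAS h.ha₁) h.hb₁ (hAS h.ha₂) n1 h.h1 hadj
    obtain ⟨c₂, hc₂, hcb', hca', hac', hn₂⟩ := cub.third (hAS h.ha₂) h.hb₂ (hAS h.ha₁) n2 h.h2
      (adj_symm hadj)
    have hc₁A : c₁ ∈ A := by
      by_contra hno
      rcases h.bd a₁ h.ha₁ c₁ hc₁ hno hac with h' | h'
      · exact hcb h'.2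
      · exact ha h'.1
    have hlt : ((A.erase a₁).erase a₂).card < A.card :=
      (Finset.card_le_card (Finset.erase_subset _ _)).trans_lt (Finset.card_erase_lt_of_mem h.ha₁)
    have := hmin' ((A.erase a₁).erase a₂) ⟨?_, ?_, ?_, c₁, a₁, c₂, a₂, ?_⟩
    · omega
    · exact (Finset.erase_subset _ _).trans ((Finset.erase_subset _ _).trans hAS)
    · exact ⟨c₁, by simp [hca, (ne_of_adj hac).symm, hc₁A]⟩
    · intro hh
      have := hAS h.ha₁
      rw [← hh] at this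
      simp at this
    · intro u hu w hw hwA hadj'
      simp only [Finset.mem_erase] at hu hwA
      by_cases hw1 : w = a₁
      · subst hw1
        rcases hn₁ u (hAS hu.2.2) (adj_symm hadj') with rfl | rfl | rfl
        · exact absurd hu.2.2 h.hb₁'
        · exact absurd rfl hu.1
        · exact Or.inl ⟨rfl, rfl⟩
      · by_cases hw2 : w = a₂
        · subst hw2
          rcases hn₂ u (hAS hu.2.2) (adj_symm hadj') with rfl | rfl | rfl
          · exact absurd hu.2.2 h.hb₂'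
          · exact absurd rfl hu.2.1
          · exact Or.inr ⟨rfl, rfl⟩
        · have hwA' : w ∉ A := fun hh => hwA ⟨hw2, hw1, hh⟩
          exfalso
          rcases h.bd u hu.2.2 w hw hwA' hadj' with h' | h'
          · exact hu.2.1 h'.1
          · exact hu.1 h'.1
  have hltA : A.card < S.card := Finset.card_lt_card (hAS.ssubset_of_ne hA)
  have hltB : (S \ A).card < S.card := by
    apply Finset.card_lt_card
    refine Finset.sdiff_subset.ssubset_of_ne ?_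
    intro hh
    have := hAS h.ha₁
    rw [← hh, Finset.mem_sdiff] at this
    exact this.2 h.ha₁
  obtain ⟨e₁, k1⟩ := some_of_adj h.h1
  obtain ⟨e₂, k2⟩ := some_of_adj h.h2
  have hfin : ∀ (GB : SG V) (t : Bool), GB.s b₁ b₂ = some t → GB.Col (S \ A) →
      (∀ u ∈ S \ A, ∀ w ∈ S \ A, ∀ e, G.s u w = some e → GB.s u w = some e) → G.Col S := by
    intro GB t ht hcol hm
    have hA' := ih _ _ hltA (h.ok ok cub hc1 nd ha hadj (t ^^ (e₁ ^^ e₂)))
    have := glue2 hA' hcol Finset.disjoint_sdiff ?_ hm k1 k2 add_self ht ?_ ?_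
    · rwa [Finset.union_sdiff_of_subset hAS] at this
    · intro u hu w hw e he
      rw [add_of, he]
      rintro (⟨rfl, rfl⟩ | ⟨rfl, rfl⟩)
      · rw [hadj] at he
        exact absurd he (by simp)
      · rw [nnone hadj] at he
        exact absurd he (by simp)
    · cases t <;> cases e₁ <;> cases e₂ <;> rfl
    · intro x hx y hy hxy
      rw [Finset.mem_sdiff] at hy
      exact h.bd x hx y hy.1 hy.2 hxy
  rcases hbb : G.s b₁ b₂ with _ | t
  · refine hfin (G.add b₁ b₂ true hb) true add_self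
      (ih _ _ hltB (h.compl.ok ok cub hc1 nd hb hbb true)) ?_
    intro u hu w hw e he
    rw [add_of, he]
    rintro (⟨rfl, rfl⟩ | ⟨rfl, rfl⟩)
    · rw [hbb] at he
      exact absurd he (by simp)
    · rw [nnone hbb] at he
      exact absurd he (by simp)
  · exact hfin G t hbb (ih _ _ hltB (ok.mono Finset.sdiff_subset)) (fun u _ w _ e he => he)

end SG

end MPa4482b
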