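import Pool.Agent.Lib.MP_a4482b_co.Red4

set_option autoImplicit false
set_option linter.unusedSectionVars false

/-!
# Reductions at a triangle
-/

namespace MPa4482b

variable {V : Type*} [DecidableEq V]

namespace SG

/-- a triangle `x y z` with its outer neighbours -/
structure T3 (G : SG V) (S : Finset V) (x y z x' y' z' : V) : Prop where
  hx : x ∈ S
  hy : y ∈ S
  hz : z ∈ S
  hx' : x' ∈ S
  hy' : y' ∈ S
  hz' : z' ∈ S
  xy : G.s x y ≠ none
  xz : G.s x z ≠ none
  yz : G.s y z ≠ none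
  xx : G.s x x' ≠ none
  yy : G.s y y' ≠ none
  zz : G.s z z' ≠ none
  nx : ∀ w ∈ S, G.s x w ≠ none → w = y ∨ w = z ∨ w = x'
  ny : ∀ w ∈ S, G.s y w ≠ none → w = x ∨ w = z ∨ w = y'
  nz : ∀ w ∈ S, G.s z w ≠ none → w = x ∨ w = y ∨ w = z'
  x'y : x' ≠ y
  x'z : x' ≠ z
  y'x : y' ≠ x
  y'z : y' ≠ z
  z'x : z' ≠ x
  z'y : z' ≠ y
  x'y' : x' ≠ y'
  x'z' : x' ≠ z'
  y'z' : y' ≠ z'

theorem T3.swapxy {G : SG V} {S : Finset V} {x y z x' y' z' : V} (h : G.T3 S x y z x' y' z') :
    G.T3 S y x z y' x' z' where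
  hx := h.hy
  hy := h.hx
  hz := h.hz
  hx' := h.hy'
  hy' := h.hx'
  hz' := h.hz'
  xy := adj_symm h.xy
  xz := h.yz
  yz := h.xz
  xx := h.yy
  yy := h.xx
  zz := h.zz
  nx := h.ny
  ny := h.nx
  nz := fun w hw hne => by have := h.nz w hw hne; tauto
  x'y := h.y'x
  x'z := h.y'z
  y'x := h.x'y
  y'z := h.x'z
  z'x := h.z'y
  z'y := h.z'x
  x'y' := h.x'y'.symm
  x'z' := h.y'z'
  y'z' := h.x'z'

theorem T3.swapyz {G : SG V} {S : Finset V} {x y z x' y' z' : V} (h : G.T3 S x y z x' y' z') :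
    G.T3 S x z y x' z' y' where
  hx := h.hx
  hy := h.hz
  hz := h.hy
  hx' := h.hx'
  hy' := h.hz'
  hz' := h.hy'
  xy := h.xz
  xz := h.xy
  yz := adj_symm h.yz
  xx := h.xx
  yy := h.zz
  zz := h.yy
  nx := fun w hw hne => by have := h.nx w hw hne; tauto
  ny := h.nz
  nz := h.ny
  x'y := h.x'z
  x'z := h.x'y
  y'x := h.z'x
  y'z := h.z'y
  z'x := h.y'x
  z'y := h.y'z
  x'y' := h.x'z'
  x'z' := h.x'y'
  y'z' := h.y'z'.symm

/-- `x` is not adjacent to `y'` -/
theorem T3.nadj {G : SG V} {S : Finset V} {x y z x' y' z' : V} (h : G.T3 S x y z x' y' z') :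
    G.s x y' = none := by
  by_contra hne
  rcases h.nx y' h.hy' hne with h1 | h1 | h1
  · exact ne_of_adj h.yy h1.symm
  · exact h.y'z h1
  · exact h.x'y' h1.symm

theorem exists_T3 {G : SG V} {S : Finset V} (cub : G.Cubic S) (nd : G.NoDia S) {x y z : V}
    (hx : x ∈ S) (hy : y ∈ S) (hz : z ∈ S) (xy : G.s x y ≠ none) (xz : G.s x z ≠ none)
    (yz : G.s y z ≠ none) : ∃ x' y' z', G.T3 S x y z x' y' z' := by
  have nxy := ne_of_adj xy
  have nxz := ne_of_adj xz
  have nyz := ne_of_adj yz
  obtain ⟨x', hx', x'y, x'z, xx, nx⟩ := cub.third hx hy hz nyz xy xz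
  obtain ⟨y', hy', y'x, y'z, yy, ny⟩ := cub.third hy hx hz nxz (adj_symm xy) yz
  obtain ⟨z', hz', z'x, z'y, zz, nz⟩ := cub.third hz hx hy nxy (adj_symm xz) (adj_symm yz)
  refine ⟨x', y', z', hx, hy, hz, hx', hy', hz', xy, xz, yz, xx, yy, zz, nx, ny, nz, x'y, x'z,
    y'x, y'z, z'x, z'y, ?_, ?_, ?_⟩
  · rintro rfl
    exact x'z (nd x hx y hy z hz x' hx' xy xz xx yz yy).symm
  · rintro rfl
    exact x'y (nd x hx z hz y hy x' hx' xz xy xx (adj_symm yz) zz).symm
  · rintro rfl
    exact y'x (nd y hy z hz x hx y' hy' yz (adj_symm xy) yy (adj_symm xz) zz).symm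

theorem base_tri {G : SG V} {S : Finset V} (q : Fin 4 → V) (x y z x' : V) (e : Fin 6)
    (he : e ≠ 0) (hS : ∀ u ∈ S, (∃ i, q i = u) ∨ u = x ∨ u = y ∨ u = z ∨ u = x')
    (hnew : G.s (q 0) (q 1) = none) (hnew' : G.s (q (lo e)) (q (hi e)) = none)
    (hx : ∀ i, G.s x (q i) = none)
    (hy : ∀ i, G.s y (q i) ≠ none → i = 0)
    (hz : ∀ i, G.s z (q i) ≠ none → i = 1)
    (hx' : ∀ i, G.s x' (q i) ≠ none → i = lo e ∨ i = hi e)
    (hyx : G.s y x' = none) (hzx : G.s z x' = none) : G.Col S := by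
  refine col_model (Sum.elim q ![x, y, z, x']) (adj2 e) (L2 e) ?_ ?_ (ok2 e he).1 (ok2 e he).2
  · intro u hu
    rcases hS u hu with ⟨i, hi⟩ | h | h | h | h
    · exact ⟨Sum.inl i, hi⟩
    · exact ⟨Sum.inr 0, h.symm⟩
    · exact ⟨Sum.inr 1, h.symm⟩
    · exact ⟨Sum.inr 2, h.symm⟩
    · exact ⟨Sum.inr 3, h.symm⟩
  · have key : ∀ i k, G.s ((![x, y, z, x'] : Fin 4 → V) k) (q i) ≠ none →
        ((decide (k = 1) && decide (i = 0)) || (decide (k = 2) && decide (i = 1)) ||
        (decide (k = 3) && (decide (i = lo e) || decide (i = hi e)))) = true := by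
      intro i k hne
      fin_cases k
      · exact absurd (hx i) hne
      · have := hy i hne
        subst this
        rfl
      · have := hz i hne
        subst this
        rfl
      · have := hx' i hne
        simpa using this
    rintro (i | i) (j | j) hne
    · simp only [Sum.elim_inl] at hne
      have hij : i ≠ j := by
        rintro rfl
        exact hne (G.irr _)
      simp only [adj2, hij, ne_eq, not_false_eq_true, decide_true, Bool.true_and,
        Bool.and_eq_true, Bool.not_eq_true']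
      constructor
      · by_contra hin
        simp only [Bool.not_eq_false, inE, Bool.or_eq_true, Bool.and_eq_true,
          decide_eq_true_eq] at hin
        rcases hin with ⟨rfl, rfl⟩ | ⟨rfl, rfl⟩
        · exact hne hnew
        · exact hne (nnone hnew)
      · by_contra hin
        simp only [Bool.not_eq_false, inE, Bool.or_eq_true, Bool.and_eq_true,
          decide_eq_true_eq] at hin
        rcases hin with ⟨rfl, rfl⟩ | ⟨rfl, rfl⟩
        · exact hne hnew'
        · exact hne (nnone hnew')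
    · simp only [Sum.elim_inl, Sum.elim_inr] at hne
      exact key i j (adj_symm hne)
    · simp only [Sum.elim_inl, Sum.elim_inr] at hne
      exact key j i hne
    · simp only [Sum.elim_inr] at hne
      fin_cases i <;> fin_cases j <;>
        first
        | rfl
        | exact absurd (G.irr _) hne
        | exact absurd hyx hne
        | exact absurd (nnone hyx) hne
        | exact absurd hzx hne
        | exact absurd (nnone hzx) hne

/-- injectivity of the labelling of a `K₄` -/
theorem K4At.inj {G : SG V} {a b c d : V} (h : G.K4At a b c d) :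
    Function.Injective (![a, b, c, d] : Fin 4 → V) := by
  obtain ⟨pa, pb, pc, pd, k1, k2, k3, k4, k5, k6⟩ := h
  have n1 := ne_of_some k1
  have n2 := ne_of_some k2
  have n3 := ne_of_some k3
  have n4 := ne_of_some k4
  have n5 := ne_of_some k5
  have n6 := ne_of_some k6
  intro i j hij
  fin_cases i <;> fin_cases j <;>
    first
    | rfl
    | exact absurd hij (by assumption)
    | exact absurd hij.symm (by assumption)

theorem exists_idx {a b c d u : V} (h : u ∈ ({a, b, c, d} : Finset V)) :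
    ∃ i, (![a, b, c, d] : Fin 4 → V) i = u := by
  simp only [Finset.mem_insert, Finset.mem_singleton] at h
  rcases h with rfl | rfl | rfl | rfl
  exacts [⟨0, rfl⟩, ⟨1, rfl⟩, ⟨2, rfl⟩, ⟨3, rfl⟩]

theorem idx_mem {a b c d : V} (i : Fin 4) :
    (![a, b, c, d] : Fin 4 → V) i ∈ ({a, b, c, d} : Finset V) := by
  fin_cases i <;> simp

theorem card4 {a b c d : V} (hab : a ≠ b) (hac : a ≠ c) (had : a ≠ d) (hbc : b ≠ c)
    (hbd : b ≠ d) (hcd : c ≠ d) : ({a, b, c, d} : Finset V).card = 4 := by
  rw [Finset.card_insert_of_notMem, Finset.card_insert_of_notMem,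
    Finset.card_insert_of_notMem, Finset.card_singleton]
  · simpa using hcd
  · simp only [Finset.mem_insert, Finset.mem_singleton, not_or]
    exact ⟨hbc, hbd⟩
  · simp only [Finset.mem_insert, Finset.mem_singleton, not_or]
    exact ⟨hab, hac, had⟩

theorem T3.xT {G : SG V} {S : Finset V} {x y z x' y' z' : V} (h : G.T3 S x y z x' y' z') :
    ∀ w ∈ rem4 S x y z x', G.s x w = none := by
  intro w hw
  by_contra hne
  have hw' := mem_rem4.mp hw
  rcases h.nx w hw'.1 hne with h1 | h1 | h1
  exacts [hw'.2.2.1 h1, hw'.2.2.2.1 h1, hw'.2.2.2.2 h1]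

theorem T3.yT {G : SG V} {S : Finset V} {x y z x' y' z' : V} (h : G.T3 S x y z x' y' z') :
    ∀ w ∈ rem4 S x y z x', G.s y w ≠ none → w = y' := by
  intro w hw hne
  have hw' := mem_rem4.mp hw
  rcases h.ny w hw'.1 hne with h1 | h1 | h1
  exacts [absurd h1 hw'.2.1, absurd h1 hw'.2.2.2.1, h1]

theorem T3.zT {G : SG V} {S : Finset V} {x y z x' y' z' : V} (h : G.T3 S x y z x' y' z') :
    ∀ w ∈ rem4 S x y z x', G.s z w ≠ none → w = z' := by
  intro w hw hne
  have hw' := mem_rem4.mp hw
  rcases h.nz w hw'.1 hne with h1 | h1 | h1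
  exacts [absurd h1 hw'.2.1, absurd h1 hw'.2.2.1, h1]

/-- the main reduction at a triangle -/
theorem red_tri_main {G : SG V} {S : Finset V} (ih : IH V S.card) (ok : G.Ok S)
    (cub : G.Cubic S) (hc2 : ¬ G.Cut2 S) {x y z x' y' z' x₁ x₂ : V}
    (h : G.T3 S x y z x' y' z') (hyz : G.s y' z' = none) (hx₁ : x₁ ∈ S) (hx₂ : x₂ ∈ S)
    (e1 : G.s x' x₁ ≠ none) (e2 : G.s x' x₂ ≠ none)
    (nx' : ∀ w ∈ S, G.s x' w ≠ none → w = x ∨ w = x₁ ∨ w = x₂) (n12 : x₁ ≠ x₂)
    (x₁x : x₁ ≠ x) (x₂x : x₂ ≠ x) (h12 : G.s x₁ x₂ = none)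
    (p1 : ¬ (x₁ = y' ∧ x₂ = z')) (p2 : ¬ (x₁ = z' ∧ x₂ = y')) : G.Col S := by
  have hc1 : ¬ G.Cut1 S := fun hh => hc2 hh.cut2
  have nxx := ne_of_adj h.xx
  have nyy := ne_of_adj h.yy
  have nzz := ne_of_adj h.zz
  have nxy := ne_of_adj h.xy
  have nxz := ne_of_adj h.xz
  have nyz := ne_of_adj h.yz
  have nx1 := ne_of_adj e1
  have nx2 := ne_of_adj e2
  have a1 : G.s y x' = none := h.swapxy.nadj
  have a2 : G.s z x' = none := h.swapyz.swapxy.nadj
  have x₁y : x₁ ≠ y := by
    rintro rfl
    exact e1 (nnone a1)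
  have x₁z : x₁ ≠ z := by
    rintro rfl
    exact e1 (nnone a2)
  have x₂y : x₂ ≠ y := by
    rintro rfl
    exact e2 (nnone a1)
  have x₂z : x₂ ≠ z := by
    rintro rfl
    exact e2 (nnone a2)
  have hy'T : y' ∈ rem4 S x y z x' := mem_rem4.mpr ⟨h.hy', h.y'x, nyy.symm, h.y'z, h.x'y'.symm⟩
  have hz'T : z' ∈ rem4 S x y z x' := mem_rem4.mpr ⟨h.hz', h.z'x, h.z'y, nzz.symm, h.x'z'.symm⟩
  have hx₁T : x₁ ∈ rem4 S x y z x' := mem_rem4.mpr ⟨hx₁, x₁x, x₁y, x₁z, nx1.symm⟩
  have hx₂T : x₂ ∈ rem4 S x y z x' := mem_rem4.mpr ⟨hx₂, x₂x, x₂y, x₂z, nx2.symm⟩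
  have hxT := h.xT
  have hyT := h.yT
  have hzT := h.zT
  have hx'T : ∀ w ∈ rem4 S x y z x', G.s x' w ≠ none → w = x₁ ∨ w = x₂ := by
    intro w hw hne
    have hw' := mem_rem4.mp hw
    rcases nx' w hw'.1 hne with h1 | h1 | h1
    exacts [absurd h1 hw'.2.1, Or.inl h1, Or.inr h1]
  obtain ⟨eyz, kyz⟩ := some_of_adj h.yz
  obtain ⟨eyy, kyy⟩ := some_of_adj h.yy
  obtain ⟨ezz, kzz⟩ := some_of_adj h.zz
  obtain ⟨f1, k1⟩ := some_of_adj e1
  obtain ⟨f2, k2⟩ := some_of_adj e2
  have ny'z' := h.y'z'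
  set G' : SG V := (G.add y' z' (eyy ^^ (eyz ^^ ezz)) h.y'z').add x₁ x₂ (f1 ^^ f2) n12 with hG'
  have g2 : G'.s x₁ x₂ = some (f1 ^^ f2) := add_self
  have g1 : G'.s y' z' = some (eyy ^^ (eyz ^^ ezz)) := by
    rw [hG', add_of, add_self]
    rintro (⟨h1, h2⟩ | ⟨h1, h2⟩)
    · exact p1 ⟨h1.symm, h2.symm⟩
    · exact p2 ⟨h2.symm, h1.symm⟩
  have L : Lift G G' S (rem4 S x y z x') (fun u w m => (u = y' ∧ w = z' ∧ m = y) ∨
      (u = z' ∧ w = y' ∧ m = z) ∨ (u = x₁ ∧ w = x₂ ∧ m = x') ∨ (u = x₂ ∧ w = x₁ ∧ m = x')) := by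
    refine ⟨rem4_sub, ?_, ?_, ?_, ?_, ?_, ?_⟩
    · intro u w hno
      rw [hG', add_of, add_of]
      · rintro (⟨h1, h2⟩ | ⟨h1, h2⟩)
        · exact hno y (Or.inl ⟨h1, h2, rfl⟩)
        · exact hno z (Or.inr (Or.inl ⟨h1, h2, rfl⟩))
      · rintro (⟨h1, h2⟩ | ⟨h1, h2⟩)
        · exact hno x' (Or.inr (Or.inr (Or.inl ⟨h1, h2, rfl⟩)))
        · exact hno x' (Or.inr (Or.inr (Or.inr ⟨h1, h2, rfl⟩)))
    · rintro u w m (⟨rfl, rfl, _⟩ | ⟨rfl, rfl, _⟩ | ⟨rfl, rfl, _⟩ | ⟨rfl, rfl, _⟩)
      exacts [hyz, nnone hyz, h12, nnone h12]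
    · rintro u w m (⟨rfl, rfl, rfl⟩ | ⟨rfl, rfl, rfl⟩ | ⟨rfl, rfl, rfl⟩ | ⟨rfl, rfl, rfl⟩)
      · exact ⟨h.hy, by simp [mem_rem4], adj_symm h.yy⟩
      · exact ⟨h.hz, by simp [mem_rem4], adj_symm h.zz⟩
      · exact ⟨h.hx', by simp [mem_rem4], adj_symm e1⟩
      · exact ⟨h.hx', by simp [mem_rem4], adj_symm e2⟩
    · rintro u w w' m (⟨rfl, rfl, rfl⟩ | ⟨rfl, rfl, rfl⟩ | ⟨rfl, rfl, rfl⟩ | ⟨rfl, rfl, rfl⟩)
        (⟨h1, h2, h3⟩ | ⟨h1, h2, h3⟩ | ⟨h1, h2, h3⟩ | ⟨h1, h2, h3⟩)
      · exact h2.symm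
      · exact absurd h1 ny'z'
      · exact absurd h3.symm h.x'y
      · exact absurd h3.symm h.x'y
      · exact absurd h1.symm ny'z'
      · exact h2.symm
      · exact absurd h3.symm h.x'z
      · exact absurd h3.symm h.x'z
      · exact absurd h3 h.x'y
      · exact absurd h3 h.x'z
      · exact h2.symm
      · exact absurd h1 n12
      · exact absurd h3 h.x'y
      · exact absurd h3 h.x'z
      · exact absurd h1.symm n12
      · exact h2.symm
    · rintro u w m m' (⟨rfl, rfl, rfl⟩ | ⟨rfl, rfl, rfl⟩ | ⟨rfl, rfl, rfl⟩ | ⟨rfl, rfl, rfl⟩)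
        (⟨h1, h2, h3⟩ | ⟨h1, h2, h3⟩ | ⟨h1, h2, h3⟩ | ⟨h1, h2, h3⟩)
      · exact h3.symm
      · exact absurd h1 ny'z'
      · exact absurd ⟨h1.symm, h2.symm⟩ p1
      · exact absurd ⟨h2.symm, h1.symm⟩ p2
      · exact absurd h1.symm ny'z'
      · exact h3.symm
      · exact absurd ⟨h1.symm, h2.symm⟩ p2
      · exact absurd ⟨h2.symm, h1.symm⟩ p1
      · exact absurd ⟨h1, h2⟩ p1
      · exact absurd ⟨h1, h2⟩ p2
      · exact h3.symm
      · exact absurd h1 n12
      · exact absurd ⟨h2, h1⟩ p2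
      · exact absurd ⟨h2, h1⟩ p1
      · exact absurd h1.symm n12
      · exact h3.symm
    · intro u hu m hm hmT hadj'
      have hm' : m = x ∨ m = y ∨ m = z ∨ m = x' := by
        by_contra hno
        push Not at hno
        exact hmT (mem_rem4.mpr ⟨hm, hno⟩)
      rcases hm' with rfl | rfl | rfl | rfl
      · exact absurd (hxT u hu) (adj_symm hadj')
      · have h2 := hyT u hu (adj_symm hadj')
        exact ⟨z', hz'T, Or.inl ⟨h2, rfl, rfl⟩, by rw [h2, g1]; simp⟩
      · have h2 := hzT u hu (adj_symm hadj')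
        exact ⟨y', hy'T, Or.inr (Or.inl ⟨h2, rfl, rfl⟩), by rw [h2, G'.symm, g1]; simp⟩
      · rcases hx'T u hu (adj_symm hadj') with h2 | h2
        · exact ⟨x₂, hx₂T, Or.inr (Or.inr (Or.inl ⟨h2, rfl, rfl⟩)), by rw [h2, g2]; simp⟩
        · exact ⟨x₁, hx₁T, Or.inr (Or.inr (Or.inr ⟨h2, rfl, rfl⟩)),
            by rw [h2, G'.symm, g2]; simp⟩
  rcases L.cases ok with hok | ⟨Q, x₀, w₀, hB, u, hu, w, hw, m, hN⟩
  · exact ext_tri (G' := G') sub_ins4 (by simp [mem_rem4]) (by simp [mem_rem4])
      (by simp [mem_rem4]) h.x'y.symm h.x'z.symm hy'T hz'T (fun u _ w _ e he => L.mono u w e he)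
      kyz kyy kzz k1 k2 a1 a2 g1 g2 hxT hyT hzT hx'T (ih _ _ (rem4_card_lt h.hx) hok)
  · have hx'Q : x' ∉ Q := fun hh => (mem_rem4.mp (hB.sub hh)).2.2.2.2 rfl
    have hxQ : x ∉ Q := fun hh => (mem_rem4.mp (hB.sub hh)).2.1 rfl
    by_cases hyQ : y' ∈ Q ∧ z' ∈ Q
    · by_cases hxxQ : x₁ ∈ Q ∧ x₂ ∈ Q
      · obtain ⟨h₀, hh₀⟩ := L.cut (A := Q ∪ {x, y, z, x'}) hB.sub hB.closed
          Finset.subset_union_left (by
            rintro u _ w _ m (⟨_, _, rfl⟩ | ⟨_, _, rfl⟩ | ⟨_, _, rfl⟩ | ⟨_, _, rfl⟩) <;> simp)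
        have hAS : Q ∪ {x, y, z, x'} = S := by
          refine eq_of_not_cut1 hc1 ?_ ⟨x, by simp⟩ x₀ h₀ ?_
          · intro w hw
            rw [Finset.mem_union] at hw
            rcases hw with hw | hw
            · exact rem4_sub (hB.sub hw)
            · simp only [Finset.mem_insert, Finset.mem_singleton] at hw
              rcases hw with rfl | rfl | rfl | rfl
              exacts [h.hx, h.hy, h.hz, h.hx']
          · intro u hu w hw hwA hadj'
            rw [Finset.mem_union] at hu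
            rcases hu with hu | hu
            · exact hh₀ u hu w hw hwA hadj'
            · exfalso
              apply hwA
              simp only [Finset.mem_insert, Finset.mem_singleton] at hu
              rcases hu with rfl | rfl | rfl | rfl
              · rcases h.nx w hw hadj' with rfl | rfl | rfl <;> simp
              · rcases h.ny w hw hadj' with rfl | rfl | rfl
                · simp
                · simp
                · exact Finset.mem_union_left _ hyQ.1
              · rcases h.nz w hw hadj' with rfl | rfl | rfl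
                · simp
                · simp
                · exact Finset.mem_union_left _ hyQ.2
              · rcases nx' w hw hadj' with rfl | rfl | rfl
                · simp
                · exact Finset.mem_union_left _ hxxQ.1
                · exact Finset.mem_union_left _ hxxQ.2
        rcases hB.kind with hc | hK
        · exfalso
          have hev := cubic_even cub
          have hdisj : Disjoint Q ({x, y, z, x'} : Finset V) := by
            rw [Finset.disjoint_left]
            intro w hw hw'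
            have hw4 := mem_rem4.mp (hB.sub hw)
            simp only [Finset.mem_insert, Finset.mem_singleton] at hw'
            rcases hw' with h1 | h1 | h1 | h1
            exacts [hw4.2.1 h1, hw4.2.2.1 h1, hw4.2.2.2.1 h1, hw4.2.2.2.2 h1]
          rw [← hAS, Finset.card_union_of_disjoint hdisj, hc,
            card4 nxy nxz nxx nyz h.x'y.symm h.x'z.symm] at hev
          revert hev
          decide
        · obtain ⟨a, b, c, d, hQ, hK4⟩ := hK.ex
          rw [hQ] at hyQ hxxQ
          obtain ⟨c', d', hK', hs⟩ := hK4.choose2 hyQ.1 hyQ.2 h.y'z'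
          rw [← hs] at hxxQ
          obtain ⟨i, hi⟩ := exists_idx hxxQ.1
          obtain ⟨j, hj⟩ := exists_idx hxxQ.2
          have hij : i ≠ j := by
            rintro rfl
            exact n12 (hi.symm.trans hj)
          have hinj := hK'.inj
          have hmem : ∀ i, (![y', z', c', d'] : Fin 4 → V) i ∈ rem4 S x y z x' := by
            intro i
            apply hB.sub
            rw [hQ, ← hs]
            exact idx_mem i
          obtain ⟨e, he⟩ := exists_edge i j hij
          refine base_tri ![y', z', c', d'] x y z x' e ?_ ?_ hyz ?_ (fun k => hxT _ (hmem k))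
            ?_ ?_ ?_ a1 a2
          · rintro rfl
            rcases he with ⟨rfl, rfl⟩ | ⟨rfl, rfl⟩
            · exact p1 ⟨hi.symm, hj.symm⟩
            · exact p2 ⟨hi.symm, hj.symm⟩
          · intro u hu
            rw [← hAS, Finset.mem_union, hQ, ← hs] at hu
            rcases hu with hu | hu
            · exact Or.inl (exists_idx hu)
            · right
              simpa using hu
          · rcases he with ⟨rfl, rfl⟩ | ⟨rfl, rfl⟩
            · rw [hi, hj]
              exact h12
            · rw [hi, hj]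
              exact nnone h12
          · intro k hk
            exact hinj ((hyT _ (hmem k) hk).trans rfl)
          · intro k hk
            exact hinj ((hzT _ (hmem k) hk).trans rfl)
          · intro k hk
            have hkk : k = i ∨ k = j := by
              rcases hx'T _ (hmem k) hk with h | h
              · exact Or.inl (hinj (h.trans hi.symm))
              · exact Or.inr (hinj (h.trans hj.symm))
            rcases he with ⟨rfl, rfl⟩ | ⟨rfl, rfl⟩
            · exact hkk
            · exact hkk.symm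
      · exfalso
        obtain ⟨h₀, hh₀⟩ := L.cut (A := Q ∪ {x, y, z}) hB.sub hB.closed
          Finset.subset_union_left (by
            rintro u hu w hw m (⟨_, _, rfl⟩ | ⟨_, _, rfl⟩ | ⟨rfl, rfl, rfl⟩ | ⟨rfl, rfl, rfl⟩)
            · simp
            · simp
            · exact absurd ⟨hu, hw⟩ hxxQ
            · exact absurd ⟨hw, hu⟩ hxxQ)
        apply hc2
        refine ⟨Q ∪ {x, y, z}, ?_, ⟨x, by simp⟩, ?_, x₀, h₀, x, x', ?_⟩
        · intro w hw
          rw [Finset.mem_union] at hw
          rcases hw with hw | hw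
          · exact rem4_sub (hB.sub hw)
          · simp only [Finset.mem_insert, Finset.mem_singleton] at hw
            rcases hw with rfl | rfl | rfl
            exacts [h.hx, h.hy, h.hz]
        · intro hh
          have := h.hx'
          rw [← hh] at this
          simp only [Finset.mem_union, Finset.mem_insert, Finset.mem_singleton] at this
          rcases this with h1 | h1 | h1 | h1
          · exact hx'Q h1
          · exact nxx h1.symm
          · exact h.x'y h1
          · exact h.x'z h1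
        · intro u hu w hw hwA hadj'
          rw [Finset.mem_union] at hu
          rcases hu with hu | hu
          · exact Or.inl (hh₀ u hu w hw hwA hadj')
          · right
            simp only [Finset.mem_insert, Finset.mem_singleton] at hu
            rcases hu with rfl | rfl | rfl
            · rcases h.nx w hw hadj' with rfl | rfl | rfl
              · exact absurd (by simp) hwA
              · exact absurd (by simp) hwA
              · exact ⟨rfl, rfl⟩
            · rcases h.ny w hw hadj' with rfl | rfl | rfl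
              · exact absurd (by simp) hwA
              · exact absurd (by simp) hwA
              · exact absurd (Finset.mem_union_left _ hyQ.1) hwA
            · rcases h.nz w hw hadj' with rfl | rfl | rfl
              · exact absurd (by simp) hwA
              · exact absurd (by simp) hwA
              · exact absurd (Finset.mem_union_left _ hyQ.2) hwA
    · exfalso
      have hxxQ : x₁ ∈ Q ∧ x₂ ∈ Q := by
        rcases hN with ⟨rfl, rfl, _⟩ | ⟨rfl, rfl, _⟩ | ⟨rfl, rfl, _⟩ | ⟨rfl, rfl, _⟩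
        · exact absurd ⟨hu, hw⟩ hyQ
        · exact absurd ⟨hw, hu⟩ hyQ
        · exact ⟨hu, hw⟩
        · exact ⟨hw, hu⟩
      obtain ⟨h₀, hh₀⟩ := L.cut (A := Q ∪ {x'}) hB.sub hB.closed
        Finset.subset_union_left (by
          rintro u hu w hw m (⟨rfl, rfl, rfl⟩ | ⟨rfl, rfl, rfl⟩ | ⟨_, _, rfl⟩ | ⟨_, _, rfl⟩)
          · exact absurd ⟨hu, hw⟩ hyQ
          · exact absurd ⟨hw, hu⟩ hyQ
          · simp
          · simp)
      apply hc2
      refine ⟨Q ∪ {x'}, ?_, ⟨x', by simp⟩, ?_, x₀, h₀, x', x, ?_⟩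
      · intro w hw
        rw [Finset.mem_union] at hw
        rcases hw with hw | hw
        · exact rem4_sub (hB.sub hw)
        · rw [Finset.mem_singleton] at hw
          subst hw
          exact h.hx'
      · intro hh
        have := h.hx
        rw [← hh] at this
        simp only [Finset.mem_union, Finset.mem_singleton] at this
        rcases this with h1 | h1
        · exact hxQ h1
        · exact nxx h1
      · intro u hu w hw hwA hadj'
        rw [Finset.mem_union] at hu
        rcases hu with hu | hu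
        · exact Or.inl (hh₀ u hu w hw hwA hadj')
        · right
          rw [Finset.mem_singleton] at hu
          subst hu
          rcases nx' w hw hadj' with rfl | rfl | rfl
          · exact ⟨rfl, rfl⟩
          · exact absurd (Finset.mem_union_left _ hxxQ.1) hwA
          · exact absurd (Finset.mem_union_left _ hxxQ.2) hwA

end SG

end MPa4482b
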