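import Pool.Agent.Lib.MP_a4482b_co.Red5

set_option autoImplicit false
set_option linter.unusedSectionVars false

/-!
# Reductions at a triangle, continued
-/

namespace MPa4482b

variable {V : Type*} [DecidableEq V]

namespace SG

theorem Cubic.others {G : SG V} {S : Finset V} (h : G.Cubic S) {v a : V} (hv : v ∈ S)
    (ha : a ∈ S) (hva : G.s v a ≠ none) :
    ∃ b ∈ S, ∃ c ∈ S, b ≠ a ∧ c ≠ a ∧ b ≠ c ∧ G.s v b ≠ none ∧ G.s v c ≠ none ∧
      ∀ w ∈ S, G.s v w ≠ none → w = a ∨ w = b ∨ w = c := by
  obtain ⟨a1, h1, b1, h2, c1, h3, nab, nac, nbc, k1, k2, k3, hn⟩ := h.three hv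
  rcases hn a ha hva with rfl | rfl | rfl
  · exact ⟨b1, h2, c1, h3, nab.symm, nac.symm, nbc, k2, k3, hn⟩
  · refine ⟨a1, h1, c1, h3, nab, nbc.symm, nac, k1, k3, ?_⟩
    intro w hw hne
    have := hn w hw hne
    tauto
  · refine ⟨a1, h1, b1, h2, nac, nbc, nab, k1, k2, ?_⟩
    intro w hw hne
    have := hn w hw hne
    tauto

theorem base_prism {G : SG V} {S : Finset V} {x y z x' y' z' : V}
    (h : G.T3 S x y z x' y' z') (hS : S ⊆ {x, y, z, x', y', z'}) : G.Col S := by
  have n1 : G.s x y' = none := h.nadj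
  have n2 : G.s x z' = none := h.swapyz.nadj
  have n3 : G.s y x' = none := h.swapxy.nadj
  have n4 : G.s y z' = none := h.swapxy.swapyz.nadj
  have n5 : G.s z x' = none := h.swapyz.swapxy.nadj
  have n6 : G.s z y' = none := h.swapyz.swapxy.swapyz.nadj
  refine col_model (![x, y, z, x', y', z'] : Fin 6 → V) adjP LP ?_ ?_ okP.1 okP.2
  · intro v hv
    have := hS hv
    simp only [Finset.mem_insert, Finset.mem_singleton] at this
    rcases this with rfl | rfl | rfl | rfl | rfl | rfl
    exacts [⟨0, rfl⟩, ⟨1, rfl⟩, ⟨2, rfl⟩, ⟨3, rfl⟩, ⟨4, rfl⟩, ⟨5, rfl⟩]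
  · intro i j hne
    fin_cases i <;> fin_cases j <;>
      first
      | rfl
      | exact absurd (G.irr _) hne
      | exact absurd n1 hne
      | exact absurd (nnone n1) hne
      | exact absurd n2 hne
      | exact absurd (nnone n2) hne
      | exact absurd n3 hne
      | exact absurd (nnone n3) hne
      | exact absurd n4 hne
      | exact absurd (nnone n4) hne
      | exact absurd n5 hne
      | exact absurd (nnone n5) hne
      | exact absurd n6 hne
      | exact absurd (nnone n6) hne

/-- if two outer neighbours are adjacent to the third one then they are adjacent -/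
theorem T3.no_one {G : SG V} {S : Finset V} (cub : G.Cubic S) (hc2 : ¬ G.Cut2 S)
    {x y z x' y' z' : V} (h : G.T3 S x y z x' y' z') (hyz : G.s y' z' ≠ none)
    (hxz : G.s x' z' ≠ none) : G.s x' y' ≠ none := by
  intro hxy
  have n3 : G.s y x' = none := h.swapxy.nadj
  have n4 : G.s y z' = none := h.swapxy.swapyz.nadj
  have n5 : G.s z x' = none := h.swapyz.swapxy.nadj
  have n6 : G.s z y' = none := h.swapyz.swapxy.swapyz.nadj
  have n2 : G.s x z' = none := h.swapyz.nadj
  have nxz : x ≠ z' := h.z'x.symm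
  have nyz : y ≠ z' := h.z'y.symm
  obtain ⟨t, ht, tx, tz, xt, nt⟩ := cub.third h.hx' h.hx h.hz' nxz (adj_symm h.xx) hxz
  obtain ⟨t2, ht2, ty2, tz2, yt2, nt2⟩ := cub.third h.hy' h.hy h.hz' nyz (adj_symm h.yy) hyz
  have nz' := three_nb (cub z' h.hz').le (mem_nb.mpr ⟨h.hz, adj_symm h.zz⟩)
    (mem_nb.mpr ⟨h.hy', adj_symm hyz⟩) (mem_nb.mpr ⟨h.hx', adj_symm hxz⟩) h.y'z.symm h.x'z.symm
    h.x'y'.symm
  have htA : t ∉ ({x, y, z, x', y', z'} : Finset V) := by
    simp only [Finset.mem_insert, Finset.mem_singleton, not_or]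
    refine ⟨tx, ?_, ?_, (ne_of_adj xt).symm, ?_, tz⟩
    · rintro rfl
      exact xt (nnone n3)
    · rintro rfl
      exact xt (nnone n5)
    · rintro rfl
      exact xt hxy
  apply hc2
  refine ⟨{x, y, z, x', y', z'}, ?_, ⟨x, by simp⟩, ?_, x', t, y', t2, ?_⟩
  · intro w hw
    simp only [Finset.mem_insert, Finset.mem_singleton] at hw
    rcases hw with rfl | rfl | rfl | rfl | rfl | rfl
    exacts [h.hx, h.hy, h.hz, h.hx', h.hy', h.hz']
  · intro hh
    rw [hh] at htA
    exact htA ht
  · intro u hu w hw hwA hadj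
    simp only [Finset.mem_insert, Finset.mem_singleton] at hu
    rcases hu with rfl | rfl | rfl | rfl | rfl | rfl
    · rcases h.nx w hw hadj with rfl | rfl | rfl <;> exact absurd (by simp) hwA
    · rcases h.ny w hw hadj with rfl | rfl | rfl <;> exact absurd (by simp) hwA
    · rcases h.nz w hw hadj with rfl | rfl | rfl <;> exact absurd (by simp) hwA
    · rcases nt w hw hadj with rfl | rfl | rfl
      · exact absurd (by simp) hwA
      · exact absurd (by simp) hwA
      · exact Or.inl ⟨rfl, rfl⟩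
    · rcases nt2 w hw hadj with rfl | rfl | rfl
      · exact absurd (by simp) hwA
      · exact absurd (by simp) hwA
      · exact Or.inr ⟨rfl, rfl⟩
    · rcases nz' w hw hadj with rfl | rfl | rfl <;> exact absurd (by simp) hwA

/-- two adjacent outer neighbours -/
theorem red_tri_adj {G : SG V} {S : Finset V} (ih : IH V S.card) (ok : G.Ok S)
    (cub : G.Cubic S) (hc2 : ¬ G.Cut2 S) {x y z x' y' z' : V}
    (h : G.T3 S x y z x' y' z') (hadj : G.s y' z' ≠ none) : G.Col S := by
  have hc1 : ¬ G.Cut1 S := fun hh => hc2 hh.cut2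
  have n6 : G.s z y' = none := h.swapyz.swapxy.swapyz.nadj
  by_cases hxz : G.s x' z' = none
  swap
  · -- prism
    have hxy : G.s x' y' ≠ none := h.no_one cub hc2 hadj hxz
    have nx' := three_nb (cub x' h.hx').le (mem_nb.mpr ⟨h.hx, adj_symm h.xx⟩)
      (mem_nb.mpr ⟨h.hy', hxy⟩) (mem_nb.mpr ⟨h.hz', hxz⟩) h.y'x.symm h.z'x.symm h.y'z'
    have ny' := three_nb (cub y' h.hy').le (mem_nb.mpr ⟨h.hy, adj_symm h.yy⟩)
      (mem_nb.mpr ⟨h.hx', adj_symm hxy⟩) (mem_nb.mpr ⟨h.hz', hadj⟩) h.x'y.symm h.z'y.symm h.x'z'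
    have nz' := three_nb (cub z' h.hz').le (mem_nb.mpr ⟨h.hz, adj_symm h.zz⟩)
      (mem_nb.mpr ⟨h.hx', adj_symm hxz⟩) (mem_nb.mpr ⟨h.hy', adj_symm hadj⟩) h.x'z.symm
      h.y'z.symm h.x'y'
    have hAS : ({x, y, z, x', y', z'} : Finset V) = S := by
      refine eq_of_not_cut1 hc1 ?_ ⟨x, by simp⟩ x x ?_
      · intro w hw
        simp only [Finset.mem_insert, Finset.mem_singleton] at hw
        rcases hw with rfl | rfl | rfl | rfl | rfl | rfl
        exacts [h.hx, h.hy, h.hz, h.hx', h.hy', h.hz']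
      · intro u hu w hw hwA hadj'
        exfalso
        apply hwA
        simp only [Finset.mem_insert, Finset.mem_singleton] at hu
        rcases hu with rfl | rfl | rfl | rfl | rfl | rfl
        · rcases h.nx w hw hadj' with rfl | rfl | rfl <;> simp
        · rcases h.ny w hw hadj' with rfl | rfl | rfl <;> simp
        · rcases h.nz w hw hadj' with rfl | rfl | rfl <;> simp
        · rcases nx' w hw hadj' with rfl | rfl | rfl <;> simp
        · rcases ny' w hw hadj' with rfl | rfl | rfl <;> simp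
        · rcases nz' w hw hadj' with rfl | rfl | rfl <;> simp
    exact base_prism h (by rw [hAS])
  by_cases hxy : G.s x' y' = none
  swap
  · exact absurd hxz (h.swapyz.no_one cub hc2 (adj_symm hadj) hxy)
  have nyz : y ≠ z' := h.z'y.symm
  obtain ⟨y'', hy'', yy1, yz1, yy2, ny'⟩ := cub.third h.hy' h.hy h.hz' nyz (adj_symm h.yy) hadj
  by_cases hzy : G.s z' y'' = none
  · exact red_tri_main ih ok cub hc2 h.swapxy hxz h.hz' hy'' hadj yy2 ny' yz1.symm h.z'y yy1 hzy
      (fun hh => h.x'z' hh.1.symm) (fun hh => by rw [hh.2] at yy2; exact yy2 (nnone hxy))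
  · exfalso
    have zy'' : z ≠ y'' := by
      rintro rfl
      exact yy2 (nnone n6)
    have nz' := three_nb (cub z' h.hz').le (mem_nb.mpr ⟨h.hz, adj_symm h.zz⟩)
      (mem_nb.mpr ⟨h.hy', adj_symm hadj⟩) (mem_nb.mpr ⟨hy'', hzy⟩) h.y'z.symm zy''
      (ne_of_adj yy2)
    obtain ⟨t, ht, _, _, _, nt⟩ := cub.third hy'' h.hy' h.hz' h.y'z' (adj_symm yy2)
      (adj_symm hzy)
    apply hc2
    refine ⟨{x, y, z, y', z', y''}, ?_, ⟨x, by simp⟩, ?_, x, x', y'', t, ?_⟩
    · intro w hw
      simp only [Finset.mem_insert, Finset.mem_singleton] at hw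
      rcases hw with rfl | rfl | rfl | rfl | rfl | rfl
      exacts [h.hx, h.hy, h.hz, h.hy', h.hz', hy'']
    · intro hh
      have hx' := h.hx'
      rw [← hh] at hx'
      simp only [Finset.mem_insert, Finset.mem_singleton] at hx'
      rcases hx' with h1 | h1 | h1 | h1 | h1 | h1
      · exact ne_of_adj h.xx h1.symm
      · exact h.x'y h1
      · exact h.x'z h1
      · exact h.x'y' h1
      · exact h.x'z' h1
      · rw [← h1] at yy2
        exact yy2 (nnone hxy)
    · intro u hu w hw hwA hadj'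
      simp only [Finset.mem_insert, Finset.mem_singleton] at hu
      rcases hu with rfl | rfl | rfl | rfl | rfl | rfl
      · rcases h.nx w hw hadj' with rfl | rfl | rfl
        · exact absurd (by simp) hwA
        · exact absurd (by simp) hwA
        · exact Or.inl ⟨rfl, rfl⟩
      · rcases h.ny w hw hadj' with rfl | rfl | rfl <;> exact absurd (by simp) hwA
      · rcases h.nz w hw hadj' with rfl | rfl | rfl <;> exact absurd (by simp) hwA
      · rcases ny' w hw hadj' with rfl | rfl | rfl <;> exact absurd (by simp) hwA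
      · rcases nz' w hw hadj' with rfl | rfl | rfl <;> exact absurd (by simp) hwA
      · rcases nt w hw hadj' with rfl | rfl | rfl
        · exact absurd (by simp) hwA
        · exact absurd (by simp) hwA
        · exact Or.inr ⟨rfl, rfl⟩

/-- `v` lies in a triangle -/
def InTri (G : SG V) (S : Finset V) (v : V) : Prop :=
  ∃ p ∈ S, ∃ q ∈ S, G.s v p ≠ none ∧ G.s v q ≠ none ∧ G.s p q ≠ none

/-- an outer neighbour which is in no triangle -/
theorem red_tri_out {G : SG V} {S : Finset V} (ih : IH V S.card) (ok : G.Ok S)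
    (cub : G.Cubic S) (hc2 : ¬ G.Cut2 S) {x y z x' y' z' : V}
    (h : G.T3 S x y z x' y' z') (hyz : G.s y' z' = none) (hxy : G.s x' y' = none)
    (hxz : G.s x' z' = none) (ht : ¬ G.InTri S x') : G.Col S := by
  obtain ⟨x₁, hx₁, x₂, hx₂, x₁x, x₂x, n12, e1, e2, nx'⟩ := cub.others h.hx' h.hx
    (adj_symm h.xx)
  refine red_tri_main ih ok cub hc2 h hyz hx₁ hx₂ e1 e2 nx' n12 x₁x x₂x ?_ ?_ ?_
  · by_contra hne
    exact ht ⟨x₁, hx₁, x₂, hx₂, e1, e2, hne⟩
  · rintro ⟨rfl, rfl⟩
    exact e1 hxy
  · rintro ⟨rfl, rfl⟩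
    exact e1 hxz

/-- outer neighbours of adjacent triangles -/
theorem T3.no_common {G : SG V} {S : Finset V} (cub : G.Cubic S) {x y z x' y' z' u w u' w' : V}
    (h1 : G.T3 S x y z x' y' z') (h2 : G.T3 S x' u w x u' w') (hxy : G.s x' y' = none)
    (ht : G.InTri S y') : y' ≠ u' := by
  rintro rfl
  have n1 : G.s x y' = none := h1.nadj
  have n6 : G.s z y' = none := h1.swapyz.swapxy.swapyz.nadj
  have m6 : G.s w y' = none := h2.swapyz.swapxy.swapyz.nadj
  have k1 : ∀ t ∈ S, G.s y' t ≠ none → G.s y t = none := by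
    intro t ht hyt
    by_contra hne
    rcases h1.ny t ht hne with rfl | rfl | rfl
    · exact hyt (nnone n1)
    · exact hyt (nnone n6)
    · exact hyt (G.irr _)
  have k2 : ∀ t ∈ S, G.s y' t ≠ none → G.s u t = none := by
    intro t ht hyt
    by_contra hne
    rcases h2.ny t ht hne with rfl | rfl | rfl
    · exact hyt (nnone hxy)
    · exact hyt (nnone m6)
    · exact hyt (G.irr _)
  have nyu : y ≠ u := by
    rintro rfl
    have := h1.swapxy.nadj
    exact h2.xy (nnone this)
  obtain ⟨c, hc, _, _, _, hn⟩ := cub.third h1.hy' h1.hy h2.hy nyu (adj_symm h1.yy)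
    (adj_symm h2.yy)
  obtain ⟨p, hp, q, hq, yp, yq, pq⟩ := ht
  rcases hn p hp yp with rfl | rfl | rfl
  · exact pq (k1 q hq yq)
  · exact pq (k2 q hq yq)
  · rcases hn q hq yq with rfl | rfl | rfl
    · exact pq (nnone (k1 p hp yp))
    · exact pq (nnone (k2 p hp yp))
    · exact pq (G.irr _)

/-- removing two adjacent triangles -/
def rem6 (S : Finset V) (x y z x' u w : V) : Finset V := S \ {x, y, z, x', u, w}

theorem mem_rem6 {S : Finset V} {x y z x' u w v : V} :
    v ∈ rem6 S x y z x' u w ↔ v ∈ S ∧ v ≠ x ∧ v ≠ y ∧ v ≠ z ∧ v ≠ x' ∧ v ≠ u ∧ v ≠ w := by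
  simp only [rem6, Finset.mem_sdiff, Finset.mem_insert, Finset.mem_singleton, not_or]

theorem rem6_sub {S : Finset V} {x y z x' u w : V} : rem6 S x y z x' u w ⊆ S :=
  Finset.sdiff_subset

theorem sub_ins6 {S : Finset V} {x y z x' u w : V} :
    S ⊆ insert x (insert y (insert z (insert x' (insert u (insert w (rem6 S x y z x' u w)))))) := by
  intro v hv
  simp only [Finset.mem_insert, mem_rem6]
  tauto

theorem rem6_card_lt {S : Finset V} {x y z x' u w : V} (hp : x ∈ S) :
    (rem6 S x y z x' u w).card < S.card := by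
  apply Finset.card_lt_card
  refine rem6_sub.ssubset_of_ne ?_
  intro hh
  rw [← hh, mem_rem6] at hp
  exact hp.2.1 rfl

theorem card6 {a b c d e f : V} (hab : a ≠ b) (hac : a ≠ c) (had : a ≠ d) (hae : a ≠ e)
    (haf : a ≠ f) (hbc : b ≠ c) (hbd : b ≠ d) (hbe : b ≠ e) (hbf : b ≠ f) (hcd : c ≠ d)
    (hce : c ≠ e) (hcf : c ≠ f) (hde : d ≠ e) (hdf : d ≠ f) (hef : e ≠ f) :
    ({a, b, c, d, e, f} : Finset V).card = 6 := by
  rw [Finset.card_insert_of_notMem, Finset.card_insert_of_notMem, card4 hcd hce hcf hde hdf hef]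
  · simp only [Finset.mem_insert, Finset.mem_singleton, not_or]
    exact ⟨hbc, hbd, hbe, hbf⟩
  · simp only [Finset.mem_insert, Finset.mem_singleton, not_or]
    exact ⟨hab, hac, had, hae, haf⟩

/-- two adjacent triangles, all outer neighbours in triangles -/
theorem red_tritri {G : SG V} {S : Finset V} (ih : IH V S.card) (ok : G.Ok S)
    (cub : G.Cubic S) (hc2 : ¬ G.Cut2 S) {x y z x' y' z' u w u' w' : V}
    (h : G.T3 S x y z x' y' z') (h2 : G.T3 S x' u w x u' w') (hyz : G.s y' z' = none)
    (hxy : G.s x' y' = none) (hxz : G.s x' z' = none) (huw : G.s u' w' = none)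
    (hxu : G.s x u' = none) (hxw : G.s x w' = none) (ty : G.InTri S y') (tz : G.InTri S z') :
    G.Col S := by
  have hc1 : ¬ G.Cut1 S := fun hh => hc2 hh.cut2
  -- nonadjacent pairs
  have b1 : G.s x y' = none := h.nadj
  have b2 : G.s x z' = none := h.swapyz.nadj
  have b3 : G.s y x' = none := h.swapxy.nadj
  have b4 : G.s y z' = none := h.swapxy.swapyz.nadj
  have b5 : G.s z x' = none := h.swapyz.swapxy.nadj
  have b6 : G.s z y' = none := h.swapyz.swapxy.swapyz.nadj
  have d3 : G.s x u = none := nnone h2.swapxy.nadj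
  have d5 : G.s x w = none := nnone h2.swapyz.swapxy.nadj
  have nyu' : y' ≠ u' := h.no_common cub h2 hxy ty
  have nyw' : y' ≠ w' := h.no_common cub h2.swapyz hxy ty
  have nzu' : z' ≠ u' := h.swapyz.no_common cub h2 hxz tz
  have nzw' : z' ≠ w' := h.swapyz.no_common cub h2.swapyz hxz tz
  have nyu : y' ≠ u := by
    rintro rfl
    exact h2.xy hxy
  have nyw : y' ≠ w := by
    rintro rfl
    exact h2.xz hxy
  have nzu : z' ≠ u := by
    rintro rfl
    exact h2.xy hxz
  have nzw : z' ≠ w := by
    rintro rfl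
    exact h2.xz hxz
  have yu0 : y ≠ u := by
    rintro rfl
    exact h2.xy (nnone b3)
  have yw0 : y ≠ w := by
    rintro rfl
    exact h2.xz (nnone b3)
  have zu0 : z ≠ u := by
    rintro rfl
    exact h2.xy (nnone b5)
  have zw0 : z ≠ w := by
    rintro rfl
    exact h2.xz (nnone b5)
  have yu : G.s y u = none := by
    by_contra hne
    rcases h.ny u h2.hy hne with h' | h' | h'
    exacts [h2.x'y h'.symm, zu0 h'.symm, nyu h'.symm]
  have yw : G.s y w = none := by
    by_contra hne
    rcases h.ny w h2.hz hne with h' | h' | h'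
    exacts [h2.x'z h'.symm, zw0 h'.symm, nyw h'.symm]
  have zu : G.s z u = none := by
    by_contra hne
    rcases h.nz u h2.hy hne with h' | h' | h'
    exacts [h2.x'y h'.symm, yu0 h'.symm, nzu h'.symm]
  have zw : G.s z w = none := by
    by_contra hne
    rcases h.nz w h2.hz hne with h' | h' | h'
    exacts [h2.x'z h'.symm, yw0 h'.symm, nzw h'.symm]
  have u'y : u' ≠ y := by
    rintro rfl
    exact h2.yy (nnone yu)
  have u'z : u' ≠ z := by
    rintro rfl
    exact h2.yy (nnone zu)
  have w'y : w' ≠ y := by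
    rintro rfl
    exact h2.zz (nnone yw)
  have w'z : w' ≠ z := by
    rintro rfl
    exact h2.zz (nnone zw)
  have hy'T : y' ∈ rem6 S x y z x' u w :=
    mem_rem6.mpr ⟨h.hy', h.y'x, (ne_of_adj h.yy).symm, h.y'z, h.x'y'.symm, nyu, nyw⟩
  have hz'T : z' ∈ rem6 S x y z x' u w :=
    mem_rem6.mpr ⟨h.hz', h.z'x, h.z'y, (ne_of_adj h.zz).symm, h.x'z'.symm, nzu, nzw⟩
  have hu'T : u' ∈ rem6 S x y z x' u w :=
    mem_rem6.mpr ⟨h2.hy', h2.x'y'.symm, u'y, u'z, h2.y'x, (ne_of_adj h2.yy).symm, h2.y'z⟩
  have hw'T : w' ∈ rem6 S x y z x' u w :=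
    mem_rem6.mpr ⟨h2.hz', h2.x'z'.symm, w'y, w'z, h2.z'x, h2.z'y, (ne_of_adj h2.zz).symm⟩
  -- neighbours in the rest
  have hxT : ∀ t ∈ rem6 S x y z x' u w, G.s x t = none := by
    intro t ht
    by_contra hne
    have ht' := mem_rem6.mp ht
    rcases h.nx t ht'.1 hne with h1 | h1 | h1
    exacts [ht'.2.2.1 h1, ht'.2.2.2.1 h1, ht'.2.2.2.2.1 h1]
  have hx'T : ∀ t ∈ rem6 S x y z x' u w, G.s x' t = none := by
    intro t ht
    by_contra hne
    have ht' := mem_rem6.mp ht
    rcases h2.nx t ht'.1 hne with h1 | h1 | h1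
    exacts [ht'.2.2.2.2.2.1 h1, ht'.2.2.2.2.2.2 h1, ht'.2.1 h1]
  have hyT : ∀ t ∈ rem6 S x y z x' u w, G.s y t ≠ none → t = y' := by
    intro t ht hne
    have ht' := mem_rem6.mp ht
    rcases h.ny t ht'.1 hne with h1 | h1 | h1
    exacts [absurd h1 ht'.2.1, absurd h1 ht'.2.2.2.1, h1]
  have hzT : ∀ t ∈ rem6 S x y z x' u w, G.s z t ≠ none → t = z' := by
    intro t ht hne
    have ht' := mem_rem6.mp ht
    rcases h.nz t ht'.1 hne with h1 | h1 | h1
    exacts [absurd h1 ht'.2.1, absurd h1 ht'.2.2.1, h1]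
  have huT : ∀ t ∈ rem6 S x y z x' u w, G.s u t ≠ none → t = u' := by
    intro t ht hne
    have ht' := mem_rem6.mp ht
    rcases h2.ny t ht'.1 hne with h1 | h1 | h1
    exacts [absurd h1 ht'.2.2.2.2.1, absurd h1 ht'.2.2.2.2.2.2, h1]
  have hwT : ∀ t ∈ rem6 S x y z x' u w, G.s w t ≠ none → t = w' := by
    intro t ht hne
    have ht' := mem_rem6.mp ht
    rcases h2.nz t ht'.1 hne with h1 | h1 | h1
    exacts [absurd h1 ht'.2.2.2.2.1, absurd h1 ht'.2.2.2.2.2.1, h1]
  obtain ⟨eyz, kyz⟩ := some_of_adj h.yz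
  obtain ⟨eyy, kyy⟩ := some_of_adj h.yy
  obtain ⟨ezz, kzz⟩ := some_of_adj h.zz
  obtain ⟨euw, kuw⟩ := some_of_adj h2.yz
  obtain ⟨euu, kuu⟩ := some_of_adj h2.yy
  obtain ⟨eww, kww⟩ := some_of_adj h2.zz
  have ny'z' := h.y'z'
  have nu'w' := h2.y'z'
  set G' : SG V := (G.add y' z' (eyy ^^ (eyz ^^ ezz)) h.y'z').add u' w' (euu ^^ (euw ^^ eww))
    nu'w' with hG'
  have g2 : G'.s u' w' = some (euu ^^ (euw ^^ eww)) := add_self
  have g1 : G'.s y' z' = some (eyy ^^ (eyz ^^ ezz)) := by
    rw [hG', add_of, add_self]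
    rintro (⟨h1, h2⟩ | ⟨h1, h2⟩)
    · exact nyu' h1
    · exact nyw' h1
  have L : Lift G G' S (rem6 S x y z x' u w) (fun a b m => (a = y' ∧ b = z' ∧ m = y) ∨
      (a = z' ∧ b = y' ∧ m = z) ∨ (a = u' ∧ b = w' ∧ m = u) ∨ (a = w' ∧ b = u' ∧ m = w)) := by
    refine ⟨rem6_sub, ?_, ?_, ?_, ?_, ?_, ?_⟩
    · intro a b hno
      rw [hG', add_of, add_of]
      · rintro (⟨h1, h2⟩ | ⟨h1, h2⟩)
        · exact hno y (Or.inl ⟨h1, h2, rfl⟩)
        · exact hno z (Or.inr (Or.inl ⟨h1, h2, rfl⟩))
      · rintro (⟨h1, h2⟩ | ⟨h1, h2⟩)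
        · exact hno u (Or.inr (Or.inr (Or.inl ⟨h1, h2, rfl⟩)))
        · exact hno w (Or.inr (Or.inr (Or.inr ⟨h1, h2, rfl⟩)))
    · rintro a b m (⟨rfl, rfl, _⟩ | ⟨rfl, rfl, _⟩ | ⟨rfl, rfl, _⟩ | ⟨rfl, rfl, _⟩)
      exacts [hyz, nnone hyz, huw, nnone huw]
    · rintro a b m (⟨rfl, rfl, rfl⟩ | ⟨rfl, rfl, rfl⟩ | ⟨rfl, rfl, rfl⟩ | ⟨rfl, rfl, rfl⟩)
      · exact ⟨h.hy, by simp [mem_rem6], adj_symm h.yy⟩
      · exact ⟨h.hz, by simp [mem_rem6], adj_symm h.zz⟩
      · exact ⟨h2.hy, by simp [mem_rem6], adj_symm h2.yy⟩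
      · exact ⟨h2.hz, by simp [mem_rem6], adj_symm h2.zz⟩
    · rintro a b b' m (⟨rfl, rfl, rfl⟩ | ⟨rfl, rfl, rfl⟩ | ⟨rfl, rfl, rfl⟩ | ⟨rfl, rfl, rfl⟩)
        (⟨h1, h3, h4⟩ | ⟨h1, h3, h4⟩ | ⟨h1, h3, h4⟩ | ⟨h1, h3, h4⟩)
      · exact h3.symm
      · exact absurd h1 ny'z'
      · exact absurd h1 nyu'
      · exact absurd h1 nyw'
      · exact absurd h1.symm ny'z'
      · exact h3.symm
      · exact absurd h1 nzu'
      · exact absurd h1 nzw'
      · exact absurd h1.symm nyu'
      · exact absurd h1.symm nzu'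
      · exact h3.symm
      · exact absurd h1 nu'w'
      · exact absurd h1.symm nyw'
      · exact absurd h1.symm nzw'
      · exact absurd h1.symm nu'w'
      · exact h3.symm
    · rintro a b m m' (⟨rfl, rfl, rfl⟩ | ⟨rfl, rfl, rfl⟩ | ⟨rfl, rfl, rfl⟩ | ⟨rfl, rfl, rfl⟩)
        (⟨h1, h3, h4⟩ | ⟨h1, h3, h4⟩ | ⟨h1, h3, h4⟩ | ⟨h1, h3, h4⟩)
      · exact h4.symm
      · exact absurd h1 ny'z'
      · exact absurd h1 nyu'
      · exact absurd h1 nyw'
      · exact absurd h1.symm ny'z'
      · exact h4.symm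
      · exact absurd h1 nzu'
      · exact absurd h1 nzw'
      · exact absurd h1.symm nyu'
      · exact absurd h1.symm nzu'
      · exact h4.symm
      · exact absurd h1 nu'w'
      · exact absurd h1.symm nyw'
      · exact absurd h1.symm nzw'
      · exact absurd h1.symm nu'w'
      · exact h4.symm
    · intro a ha m hm hmT hadj'
      have hm' : m = x ∨ m = y ∨ m = z ∨ m = x' ∨ m = u ∨ m = w := by
        by_contra hno
        push Not at hno
        exact hmT (mem_rem6.mpr ⟨hm, hno⟩)
      rcases hm' with rfl | rfl | rfl | rfl | rfl | rfl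
      · exact absurd (hxT a ha) (adj_symm hadj')
      · have h3 := hyT a ha (adj_symm hadj')
        exact ⟨z', hz'T, Or.inl ⟨h3, rfl, rfl⟩, by rw [h3, g1]; simp⟩
      · have h3 := hzT a ha (adj_symm hadj')
        exact ⟨y', hy'T, Or.inr (Or.inl ⟨h3, rfl, rfl⟩), by rw [h3, G'.symm, g1]; simp⟩
      · exact absurd (hx'T a ha) (adj_symm hadj')
      · have h3 := huT a ha (adj_symm hadj')
        exact ⟨w', hw'T, Or.inr (Or.inr (Or.inl ⟨h3, rfl, rfl⟩)), by rw [h3, g2]; simp⟩
      · have h3 := hwT a ha (adj_symm hadj')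
        exact ⟨u', hu'T, Or.inr (Or.inr (Or.inr ⟨h3, rfl, rfl⟩)),
          by rw [h3, G'.symm, g2]; simp⟩
  rcases L.cases ok with hok | ⟨Q, x₀, w₀, hB, a, ha, b, hb, m, hN⟩
  · exact ext_tritri (G' := G') sub_ins6 (by simp [mem_rem6]) (by simp [mem_rem6])
      (by simp [mem_rem6]) (by simp [mem_rem6]) (fun u _ w _ e he => L.mono u w e he)
      kyz kyy kzz kuw kuu kww b3 b5 d3 d5 yu yw zu zw g1 g2 hxT hx'T hyT hzT huT hwT
      (ih _ _ (rem6_card_lt h.hx) hok)
  · exfalso
    have hx'Q : x' ∉ Q := fun hh => (mem_rem6.mp (hB.sub hh)).2.2.2.2.1 rfl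
    have hxQ : x ∉ Q := fun hh => (mem_rem6.mp (hB.sub hh)).2.1 rfl
    by_cases hyQ : y' ∈ Q ∧ z' ∈ Q
    · by_cases huQ : u' ∈ Q ∧ w' ∈ Q
      · rcases hB.kind with hc | hK
        · obtain ⟨h₀, hh₀⟩ := L.cut (A := Q ∪ {x, y, z, x', u, w}) hB.sub hB.closed
            Finset.subset_union_left (by
              rintro a _ b _ m (⟨_, _, rfl⟩ | ⟨_, _, rfl⟩ | ⟨_, _, rfl⟩ | ⟨_, _, rfl⟩) <;> simp)
          have hAS : Q ∪ {x, y, z, x', u, w} = S := by
            refine eq_of_not_cut1 hc1 ?_ ⟨x, by simp⟩ x₀ h₀ ?_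
            · intro t ht
              rw [Finset.mem_union] at ht
              rcases ht with ht | ht
              · exact rem6_sub (hB.sub ht)
              · simp only [Finset.mem_insert, Finset.mem_singleton] at ht
                rcases ht with rfl | rfl | rfl | rfl | rfl | rfl
                exacts [h.hx, h.hy, h.hz, h.hx', h2.hy, h2.hz]
            · intro a ha b hb hbA hadj'
              rw [Finset.mem_union] at ha
              rcases ha with ha | ha
              · exact hh₀ a ha b hb hbA hadj'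
              · exfalso
                apply hbA
                simp only [Finset.mem_insert, Finset.mem_singleton] at ha
                rcases ha with rfl | rfl | rfl | rfl | rfl | rfl
                · rcases h.nx b hb hadj' with rfl | rfl | rfl <;> simp
                · rcases h.ny b hb hadj' with rfl | rfl | rfl
                  · simp
                  · simp
                  · exact Finset.mem_union_left _ hyQ.1
                · rcases h.nz b hb hadj' with rfl | rfl | rfl
                  · simp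
                  · simp
                  · exact Finset.mem_union_left _ hyQ.2
                · rcases h2.nx b hb hadj' with rfl | rfl | rfl <;> simp
                · rcases h2.ny b hb hadj' with rfl | rfl | rfl
                  · simp
                  · simp
                  · exact Finset.mem_union_left _ huQ.1
                · rcases h2.nz b hb hadj' with rfl | rfl | rfl
                  · simp
                  · simp
                  · exact Finset.mem_union_left _ huQ.2
          have hev := cubic_even cub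
          have hdisj : Disjoint Q ({x, y, z, x', u, w} : Finset V) := by
            rw [Finset.disjoint_left]
            intro t ht ht'
            have ht6 := mem_rem6.mp (hB.sub ht)
            simp only [Finset.mem_insert, Finset.mem_singleton] at ht'
            rcases ht' with h1 | h1 | h1 | h1 | h1 | h1
            exacts [ht6.2.1 h1, ht6.2.2.1 h1, ht6.2.2.2.1 h1, ht6.2.2.2.2.1 h1,
              ht6.2.2.2.2.2.1 h1, ht6.2.2.2.2.2.2 h1]
          rw [← hAS, Finset.card_union_of_disjoint hdisj, hc,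
            card6 (ne_of_adj h.xy) (ne_of_adj h.xz) (ne_of_adj h.xx) h2.x'y h2.x'z
              (ne_of_adj h.yz) h.x'y.symm yu0 yw0 h.x'z.symm zu0 zw0 (ne_of_adj h2.xy)
              (ne_of_adj h2.xz) (ne_of_adj h2.yz)] at hev
          revert hev
          decide
        · -- `y'` would have the neighbours `y`, `u'`, `w'` and be in no triangle
          obtain ⟨a, b, c, d, hQ, hK4⟩ := hK.ex
          have hadjQ : ∀ t ∈ Q, t ≠ y' → G'.s y' t ≠ none := by
            intro t ht hty
            rw [hQ] at hyQ ht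
            obtain ⟨c', d', hK', hs⟩ := hK4.choose2 hyQ.1 ht (Ne.symm hty)
            obtain ⟨pa, pb, pc, pd, k1, _⟩ := hK'
            rw [k1]
            simp
          have l1 : G.s y' u' ≠ none := by
            have := hadjQ u' huQ.1 nyu'.symm
            rw [hG', add_of, add_of] at this
            · exact this
            · rintro (⟨_, h1⟩ | ⟨h1, _⟩)
              · exact nzu' h1.symm
              · exact ny'z' h1
            · rintro (⟨h1, _⟩ | ⟨h1, _⟩)
              · exact nyu' h1
              · exact nyw' h1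
          have l2 : G.s y' w' ≠ none := by
            have := hadjQ w' huQ.2 nyw'.symm
            rw [hG', add_of, add_of] at this
            · exact this
            · rintro (⟨_, h1⟩ | ⟨h1, _⟩)
              · exact nzw' h1.symm
              · exact ny'z' h1
            · rintro (⟨h1, _⟩ | ⟨h1, _⟩)
              · exact nyu' h1
              · exact nyw' h1
          have hn := three_nb (cub y' h.hy').le (mem_nb.mpr ⟨h.hy, adj_symm h.yy⟩)
            (mem_nb.mpr ⟨h2.hy', l1⟩) (mem_nb.mpr ⟨h2.hz', l2⟩) u'y.symm w'y.symm nu'w'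
          have m1 : G.s y u' = none := by
            by_contra hne
            exact nyu' (hyT u' hu'T hne).symm
          have m2 : G.s y w' = none := by
            by_contra hne
            exact nyw' (hyT w' hw'T hne).symm
          obtain ⟨p, hp, q, hq, yp, yq, pq⟩ := ty
          rcases hn p hp yp with rfl | rfl | rfl <;> rcases hn q hq yq with rfl | rfl | rfl
          exacts [pq (G.irr _), pq m1, pq m2, pq (nnone m1), pq (G.irr _), pq huw,
            pq (nnone m2), pq (nnone huw), pq (G.irr _)]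
      · obtain ⟨h₀, hh₀⟩ := L.cut (A := Q ∪ {x, y, z}) hB.sub hB.closed
          Finset.subset_union_left (by
            rintro a ha b hb m (⟨_, _, rfl⟩ | ⟨_, _, rfl⟩ | ⟨rfl, rfl, rfl⟩ | ⟨rfl, rfl, rfl⟩)
            · simp
            · simp
            · exact absurd ⟨ha, hb⟩ huQ
            · exact absurd ⟨hb, ha⟩ huQ)
        apply hc2
        refine ⟨Q ∪ {x, y, z}, ?_, ⟨x, by simp⟩, ?_, x₀, h₀, x, x', ?_⟩
        · intro t ht
          rw [Finset.mem_union] at ht
          rcases ht with ht | ht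
          · exact rem6_sub (hB.sub ht)
          · simp only [Finset.mem_insert, Finset.mem_singleton] at ht
            rcases ht with rfl | rfl | rfl
            exacts [h.hx, h.hy, h.hz]
        · intro hh
          have := h.hx'
          rw [← hh] at this
          simp only [Finset.mem_union, Finset.mem_insert, Finset.mem_singleton] at this
          rcases this with h1 | h1 | h1 | h1
          · exact hx'Q h1
          · exact ne_of_adj h.xx h1.symm
          · exact h.x'y h1
          · exact h.x'z h1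
        · intro a ha b hb hbA hadj'
          rw [Finset.mem_union] at ha
          rcases ha with ha | ha
          · exact Or.inl (hh₀ a ha b hb hbA hadj')
          · right
            simp only [Finset.mem_insert, Finset.mem_singleton] at ha
            rcases ha with rfl | rfl | rfl
            · rcases h.nx b hb hadj' with rfl | rfl | rfl
              · exact absurd (by simp) hbA
              · exact absurd (by simp) hbA
              · exact ⟨rfl, rfl⟩
            · rcases h.ny b hb hadj' with rfl | rfl | rfl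
              · exact absurd (by simp) hbA
              · exact absurd (by simp) hbA
              · exact absurd (Finset.mem_union_left _ hyQ.1) hbA
            · rcases h.nz b hb hadj' with rfl | rfl | rfl
              · exact absurd (by simp) hbA
              · exact absurd (by simp) hbA
              · exact absurd (Finset.mem_union_left _ hyQ.2) hbA
    · have huQ : u' ∈ Q ∧ w' ∈ Q := by
        rcases hN with ⟨rfl, rfl, _⟩ | ⟨rfl, rfl, _⟩ | ⟨rfl, rfl, _⟩ | ⟨rfl, rfl, _⟩
        · exact absurd ⟨ha, hb⟩ hyQ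
        · exact absurd ⟨hb, ha⟩ hyQ
        · exact ⟨ha, hb⟩
        · exact ⟨hb, ha⟩
      obtain ⟨h₀, hh₀⟩ := L.cut (A := Q ∪ {x', u, w}) hB.sub hB.closed
        Finset.subset_union_left (by
          rintro a ha b hb m (⟨rfl, rfl, rfl⟩ | ⟨rfl, rfl, rfl⟩ | ⟨_, _, rfl⟩ | ⟨_, _, rfl⟩)
          · exact absurd ⟨ha, hb⟩ hyQ
          · exact absurd ⟨hb, ha⟩ hyQ
          · simp
          · simp)
      apply hc2
      refine ⟨Q ∪ {x', u, w}, ?_, ⟨x', by simp⟩, ?_, x₀, h₀, x', x, ?_⟩
      · intro t ht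
        rw [Finset.mem_union] at ht
        rcases ht with ht | ht
        · exact rem6_sub (hB.sub ht)
        · simp only [Finset.mem_insert, Finset.mem_singleton] at ht
          rcases ht with rfl | rfl | rfl
          exacts [h2.hx, h2.hy, h2.hz]
      · intro hh
        have := h.hx
        rw [← hh] at this
        simp only [Finset.mem_union, Finset.mem_insert, Finset.mem_singleton] at this
        rcases this with h1 | h1 | h1 | h1
        · exact hxQ h1
        · exact ne_of_adj h.xx h1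
        · exact h2.x'y h1
        · exact h2.x'z h1
      · intro a ha b hb hbA hadj'
        rw [Finset.mem_union] at ha
        rcases ha with ha | ha
        · exact Or.inl (hh₀ a ha b hb hbA hadj')
        · right
          simp only [Finset.mem_insert, Finset.mem_singleton] at ha
          rcases ha with rfl | rfl | rfl
          · rcases h2.nx b hb hadj' with rfl | rfl | rfl
            · exact absurd (by simp) hbA
            · exact absurd (by simp) hbA
            · exact ⟨rfl, rfl⟩
          · rcases h2.ny b hb hadj' with rfl | rfl | rfl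
            · exact absurd (by simp) hbA
            · exact absurd (by simp) hbA
            · exact absurd (Finset.mem_union_left _ huQ.1) hbA
          · rcases h2.nz b hb hadj' with rfl | rfl | rfl
            · exact absurd (by simp) hbA
            · exact absurd (by simp) hbA
            · exact absurd (Finset.mem_union_left _ huQ.2) hbA

/-- all triangles -/
theorem red_tri {G : SG V} {S : Finset V} (ih : IH V S.card) (ok : G.Ok S)
    (cub : G.Cubic S) (hc2 : ¬ G.Cut2 S) (nd : G.NoDia S) {x : V} (hx : x ∈ S)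
    (ht : G.InTri S x) : G.Col S := by
  by_cases hall : ∃ x y z x' y' z', G.T3 S x y z x' y' z' ∧ G.s y' z' ≠ none
  · obtain ⟨x, y, z, x', y', z', h, hadj⟩ := hall
    exact red_tri_adj ih ok cub hc2 h hadj
  push Not at hall
  obtain ⟨y, hy, z, hz, xy, xz, yz⟩ := ht
  obtain ⟨x', y', z', h⟩ := exists_T3 cub nd hx hy hz xy xz yz
  have hyz := hall _ _ _ _ _ _ h
  have hxz := hall _ _ _ _ _ _ h.swapxy
  have hxy := hall _ _ _ _ _ _ h.swapyz.swapxy
  by_cases tx : G.InTri S x'
  swap
  · exact red_tri_out ih ok cub hc2 h hyz hxy hxz tx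
  by_cases ty : G.InTri S y'
  swap
  · exact red_tri_out ih ok cub hc2 h.swapxy hxz (nnone hxy) hyz ty
  by_cases tz : G.InTri S z'
  swap
  · exact red_tri_out ih ok cub hc2 h.swapyz.swapxy hxy (nnone hxz) (nnone hyz) tz
  obtain ⟨u, hu, w, hw, xu, xw, uw⟩ := tx
  obtain ⟨x'', u', w', h2⟩ := exists_T3 cub nd h.hx' hu hw xu xw uw
  have b3 : G.s y x' = none := h.swapxy.nadj
  have b5 : G.s z x' = none := h.swapyz.swapxy.nadj
  have key : ∀ t ∈ S, G.s x t ≠ none → G.s x' t ≠ none → False := by
    intro t ht h1 h3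
    rcases h.nx t ht h1 with rfl | rfl | rfl
    · exact h3 (nnone b3)
    · exact h3 (nnone b5)
    · exact h3 (G.irr _)
  have hxx : x = x'' := by
    rcases h2.nx x hx (adj_symm h.xx) with rfl | rfl | h'
    · exact absurd xw (fun hh => key w hw uw hh)
    · exact absurd xu (fun hh => key u hu (adj_symm uw) hh)
    · exact h'
  subst hxx
  exact red_tritri ih ok cub hc2 h h2 hyz hxy hxz (hall _ _ _ _ _ _ h2)
    (hall _ _ _ _ _ _ h2.swapyz.swapxy) (hall _ _ _ _ _ _ h2.swapxy) ty tz

end SG

end MPa4482b
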