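import Pool.Agent.Lib.MP_a4482b_co.Red6

set_option autoImplicit false
set_option linter.unusedSectionVars false

/-!
# Triangle-free graphs: the case of a `K₂₃`
-/

namespace MPa4482b

variable {V : Type*} [DecidableEq V]

namespace SG

/-- the weak form of `Lift` -/
structure LiftW (G G' : SG V) (S T : Finset V) (N : V → V → V → Prop) : Prop where
  sub : T ⊆ S
  same : ∀ u w, (∀ m, ¬ N u w m) → G'.s u w = G.s u w
  nold : ∀ u w m, N u w m → G.s u w = none
  mid : ∀ u w m, N u w m → m ∈ S ∧ m ∉ T ∧ G.s u m ≠ none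
  inj : ∀ u w w' m, N u w m → N u w' m → w = w'

theorem LiftW.mono {G G' : SG V} {S T : Finset V} {N : V → V → V → Prop}
    (L : LiftW G G' S T N) : ∀ u w e, G.s u w = some e → G'.s u w = some e := by
  intro u w e he
  rw [L.same u w, he]
  intro m hm
  rw [L.nold u w m hm] at he
  exact absurd he (by simp)

theorem LiftW.deg {G G' : SG V} {S T : Finset V} {N : V → V → V → Prop}
    (L : LiftW G G' S T N) (u : V) : (G'.nb T u).card ≤ (G.nb S u).card := by
  classical
  let f : V → V := fun w => if h : ∃ m, N u w m then h.choose else w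
  apply Finset.card_le_card_of_injOn f
  · intro w hw
    rw [Finset.mem_coe, mem_nb] at hw
    rw [Finset.mem_coe, mem_nb]
    simp only [f]
    split_ifs with h
    · exact ⟨(L.mid _ _ _ h.choose_spec).1, (L.mid _ _ _ h.choose_spec).2.2⟩
    · push Not at h
      rw [L.same u w h] at hw
      exact ⟨L.sub hw.1, hw.2⟩
  · intro w hw w' hw' hff
    rw [Finset.mem_coe, mem_nb] at hw hw'
    simp only [f] at hff
    split_ifs at hff with h h' h'
    · exact L.inj _ _ _ _ h.choose_spec (hff ▸ h'.choose_spec)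
    · exact absurd (hff ▸ hw'.1) (L.mid _ _ _ h.choose_spec).2.1
    · exact absurd (hff.symm ▸ hw.1) (L.mid _ _ _ h'.choose_spec).2.1
    · exact hff

theorem two_le {G : SG V} {Q : Finset V} {u a b : V} (ha : a ∈ Q) (hb : b ∈ Q) (hab : a ≠ b)
    (h1 : G.s u a ≠ none) (h2 : G.s u b ≠ none) : 2 ≤ (G.nb Q u).card := by
  have hsub : ({a, b} : Finset V) ⊆ G.nb Q u := by
    intro w hw
    simp only [Finset.mem_insert, Finset.mem_singleton] at hw
    rcases hw with rfl | rfl
    exacts [mem_nb.mpr ⟨ha, h1⟩, mem_nb.mpr ⟨hb, h2⟩]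
  have := Finset.card_le_card hsub
  rwa [Finset.card_pair hab] at this

theorem three_le {G : SG V} {Q : Finset V} {u a b c : V} (ha : a ∈ Q) (hb : b ∈ Q) (hc : c ∈ Q)
    (hab : a ≠ b) (hac : a ≠ c) (hbc : b ≠ c)
    (h1 : G.s u a ≠ none) (h2 : G.s u b ≠ none) (h3 : G.s u c ≠ none) :
    3 ≤ (G.nb Q u).card := by
  have hsub : ({a, b, c} : Finset V) ⊆ G.nb Q u := by
    intro w hw
    simp only [Finset.mem_insert, Finset.mem_singleton] at hw
    rcases hw with rfl | rfl | rfl
    exacts [mem_nb.mpr ⟨ha, h1⟩, mem_nb.mpr ⟨hb, h2⟩, mem_nb.mpr ⟨hc, h3⟩]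
  have := Finset.card_le_card hsub
  rwa [Finset.card_eq_three.mpr ⟨a, b, c, hab, hac, hbc, rfl⟩] at this

/-- a forbidden subgraph with its degrees -/
structure Bad2 (G : SG V) (T Q : Finset V) (x₀ w₀ : V) : Prop where
  sub : Q ⊆ T
  ne : Q.Nonempty
  closed : ∀ q ∈ Q, ∀ w ∈ T, G.s q w ≠ none → w ∈ Q ∨ (q = x₀ ∧ w = w₀)
  deg2 : ∀ u ∈ Q, 2 ≤ (G.nb Q u).card
  deg3 : ∀ u ∈ Q, ∀ w ∈ Q, u ≠ w → 3 ≤ (G.nb Q u).card ∨ 3 ≤ (G.nb Q w).card

theorem LiftW.cases {G G' : SG V} {S T : Finset V} {N : V → V → V → Prop}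
    (L : LiftW G G' S T N) (ok : G.Ok S) :
    G'.Ok T ∨ ∃ Q x₀ w₀, G'.Bad2 T Q x₀ w₀ ∧ ∃ u ∈ Q, ∃ w ∈ Q, ∃ m, N u w m := by
  by_cases hok : G'.Ok T
  · exact Or.inl hok
  right
  have hdeg : ∀ u ∈ T, (G'.nb T u).card ≤ 3 :=
    fun u hu => (L.deg u).trans (ok.deg u (L.sub hu))
  rcases not_ok hdeg hok with ⟨a, ha, b, hb, c, hc, d, hd, hK⟩ |
    ⟨a, ha, b, hb, c, hc, d, hd, x, hx, hK⟩
  · set Q : Finset V := {a, b, c, d} with hQ
    have hcl := hK.closed hdeg ha hb hc hd
    have haQ : a ∈ Q := by simp [hQ]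
    have hbQ : b ∈ Q := by simp [hQ]
    have hcQ : c ∈ Q := by simp [hQ]
    have hdQ : d ∈ Q := by simp [hQ]
    have h3 : ∀ u ∈ Q, 3 ≤ (G'.nb Q u).card := by
      obtain ⟨pa, pb, pc, pd, k1, k2, k3, k4, k5, k6⟩ := hK
      have n1 := ne_of_some k1
      have n2 := ne_of_some k2
      have n3 := ne_of_some k3
      have n4 := ne_of_some k4
      have n5 := ne_of_some k5
      have n6 := ne_of_some k6
      intro u hu
      simp only [hQ, Finset.mem_insert, Finset.mem_singleton] at hu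
      rcases hu with rfl | rfl | rfl | rfl
      · exact three_le hbQ hcQ hdQ n4 n5 n6 (by rw [k1]; simp) (by rw [k2]; simp)
          (by rw [k3]; simp)
      · exact three_le haQ hcQ hdQ n2 n3 n6 (by rw [nsome k1]; simp) (by rw [k4]; simp)
          (by rw [k5]; simp)
      · exact three_le haQ hbQ hdQ n1 n3 n5 (by rw [nsome k2]; simp) (by rw [nsome k4]; simp)
          (by rw [k6]; simp)
      · exact three_le haQ hbQ hcQ n1 n2 n4 (by rw [nsome k3]; simp) (by rw [nsome k5]; simp)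
          (by rw [nsome k6]; simp)
    refine ⟨Q, a, a, ⟨?_, ⟨a, haQ⟩, fun q hq w hw h => Or.inl (hcl q hq w hw h),
      fun u hu => (by norm_num : 2 ≤ 3).trans (h3 u hu), fun u hu w _ _ => Or.inl (h3 u hu)⟩, ?_⟩
    · intro w hw
      simp only [hQ, Finset.mem_insert, Finset.mem_singleton] at hw
      rcases hw with rfl | rfl | rfl | rfl <;> assumption
    · by_contra hno
      push Not at hno
      exact ok.noK a (L.sub ha) b (L.sub hb) c (L.sub hc) d (L.sub hd)
        (hK.of_eq (Q := Q) haQ hbQ hcQ hdQ (fun u hu w hw => L.same u w (hno u hu w hw)))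
  · set Q : Finset V := {a, b, c, d, x} with hQ
    obtain ⟨w₀, hcl⟩ := hK.closed hdeg ha hb hc hd hx
    have haQ : a ∈ Q := by simp [hQ]
    have hbQ : b ∈ Q := by simp [hQ]
    have hcQ : c ∈ Q := by simp [hQ]
    have hdQ : d ∈ Q := by simp [hQ]
    have hxQ : x ∈ Q := by simp [hQ]
    have h23 : (∀ u ∈ Q, u ≠ x → 3 ≤ (G'.nb Q u).card) ∧ 2 ≤ (G'.nb Q x).card := by
      obtain ⟨nab, nxc, nxd, pa, pb, pc, pd, px, k1, k2, k3, k4, k5, k6, k7⟩ := hK
      have n1 := ne_of_some k1
      have n2 := ne_of_some k2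
      have n3 := ne_of_some k3
      have n4 := ne_of_some k4
      have n5 := ne_of_some k5
      have n6 := ne_of_some k6
      have n7 := ne_of_some k7
      constructor
      · intro u hu hux
        simp only [hQ, Finset.mem_insert, Finset.mem_singleton] at hu
        rcases hu with rfl | rfl | rfl | rfl | rfl
        · exact three_le hcQ hdQ hxQ n5 nxc.symm nxd.symm (by rw [k1]; simp) (by rw [k2]; simp)
            (by rw [k6]; simp)
        · exact three_le hcQ hdQ hxQ n5 nxc.symm nxd.symm (by rw [k3]; simp) (by rw [k4]; simp)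
            (by rw [nsome k7]; simp)
        · exact three_le haQ hbQ hdQ nab n2 n4 (by rw [nsome k1]; simp)
            (by rw [nsome k3]; simp) (by rw [k5]; simp)
        · exact three_le haQ hbQ hcQ nab n1 n3 (by rw [nsome k2]; simp)
            (by rw [nsome k4]; simp) (by rw [nsome k5]; simp)
        · exact absurd rfl hux
      · exact two_le haQ hbQ nab (by rw [nsome k6]; simp) (by rw [k7]; simp)
    refine ⟨Q, x, w₀, ⟨?_, ⟨a, haQ⟩, hcl, ?_, ?_⟩, ?_⟩
    · intro w hw
      simp only [hQ, Finset.mem_insert, Finset.mem_singleton] at hw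
      rcases hw with rfl | rfl | rfl | rfl | rfl <;> assumption
    · intro u hu
      by_cases hux : u = x
      · rw [hux]
        exact h23.2
      · exact (by norm_num : 2 ≤ 3).trans (h23.1 u hu hux)
    · intro u hu w hw huw
      by_cases hux : u = x
      · exact Or.inr (h23.1 w hw (fun hh => huw (hux.trans hh.symm)))
      · exact Or.inl (h23.1 u hu hux)
    · by_contra hno
      push Not at hno
      exact ok.noD a (L.sub ha) b (L.sub hb) c (L.sub hc) d (L.sub hd) x (L.sub hx)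
        (hK.of_eq (Q := Q) haQ hbQ hcQ hdQ hxQ (fun u hu w hw => L.same u w (hno u hu w hw)))

/-- no triangle -/
def NoTri (G : SG V) (S : Finset V) : Prop :=
  ∀ u ∈ S, ∀ v ∈ S, ∀ w ∈ S, G.s u v ≠ none → G.s u w ≠ none → G.s v w = none

/-- a `K₂₃` in `S` -/
structure K23 (G : SG V) (S : Finset V) (a b v p q v' p' q' : V) : Prop where
  ha : a ∈ S
  hb : b ∈ S
  hv : v ∈ S
  hp : p ∈ S
  hq : q ∈ S
  hv' : v' ∈ S
  hp' : p' ∈ S
  hq' : q' ∈ S
  av : G.s a v ≠ none
  ap : G.s a p ≠ none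
  aq : G.s a q ≠ none
  bv : G.s b v ≠ none
  bp : G.s b p ≠ none
  bq : G.s b q ≠ none
  vv : G.s v v' ≠ none
  pp : G.s p p' ≠ none
  qq : G.s q q' ≠ none
  na : ∀ w ∈ S, G.s a w ≠ none → w = v ∨ w = p ∨ w = q
  nb : ∀ w ∈ S, G.s b w ≠ none → w = v ∨ w = p ∨ w = q
  nv : ∀ w ∈ S, G.s v w ≠ none → w = a ∨ w = b ∨ w = v'
  np : ∀ w ∈ S, G.s p w ≠ none → w = a ∨ w = b ∨ w = p'
  nq : ∀ w ∈ S, G.s q w ≠ none → w = a ∨ w = b ∨ w = q'
  nab : a ≠ b
  nvp : v ≠ p
  nvq : v ≠ q
  npq : p ≠ q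
  v'a : v' ≠ a
  v'b : v' ≠ b
  p'a : p' ≠ a
  p'b : p' ≠ b
  q'a : q' ≠ a
  q'b : q' ≠ b

theorem K23.swapvp {G : SG V} {S : Finset V} {a b v p q v' p' q' : V}
    (h : G.K23 S a b v p q v' p' q') : G.K23 S a b p v q p' v' q' where
  ha := h.ha
  hb := h.hb
  hv := h.hp
  hp := h.hv
  hq := h.hq
  hv' := h.hp'
  hp' := h.hv'
  hq' := h.hq'
  av := h.ap
  ap := h.av
  aq := h.aq
  bv := h.bp
  bp := h.bv
  bq := h.bq
  vv := h.pp
  pp := h.vv
  qq := h.qq
  na := fun w hw hne => by have := h.na w hw hne; tauto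
  nb := fun w hw hne => by have := h.nb w hw hne; tauto
  nv := h.np
  np := h.nv
  nq := h.nq
  nab := h.nab
  nvp := h.nvp.symm
  nvq := h.npq
  npq := h.nvq
  v'a := h.p'a
  v'b := h.p'b
  p'a := h.v'a
  p'b := h.v'b
  q'a := h.q'a
  q'b := h.q'b

theorem K23.swappq {G : SG V} {S : Finset V} {a b v p q v' p' q' : V}
    (h : G.K23 S a b v p q v' p' q') : G.K23 S a b v q p v' q' p' where
  ha := h.ha
  hb := h.hb
  hv := h.hv
  hp := h.hq
  hq := h.hp
  hv' := h.hv'
  hp' := h.hq'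
  hq' := h.hp'
  av := h.av
  ap := h.aq
  aq := h.ap
  bv := h.bv
  bp := h.bq
  bq := h.bp
  vv := h.vv
  pp := h.qq
  qq := h.pp
  na := fun w hw hne => by have := h.na w hw hne; tauto
  nb := fun w hw hne => by have := h.nb w hw hne; tauto
  nv := h.nv
  np := h.nq
  nq := h.np
  nab := h.nab
  nvp := h.nvq
  nvq := h.nvp
  npq := h.npq.symm
  v'a := h.v'a
  v'b := h.v'b
  p'a := h.q'a
  p'b := h.q'b
  q'a := h.p'a
  q'b := h.p'b

/-- `v' = p'` forces `v' = q'` -/
theorem K23.eq3 {G : SG V} {S : Finset V} (cub : G.Cubic S) (hc2 : ¬ G.Cut2 S)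
    (nt : G.NoTri S) {a b v p q v' p' q' : V}
    (h : G.K23 S a b v p q v' p' q') (he : v' = p') : v' = q' := by
  by_contra hne
  have pv : G.s v' p ≠ none := by
    rw [he]
    exact adj_symm h.pp
  obtain ⟨t, ht, _, _, _, nv'⟩ := cub.third h.hv' h.hv h.hp h.nvp (adj_symm h.vv) pv
  have vq : G.s v q = none := nt a h.ha v h.hv q h.hq h.av h.aq
  have pq : G.s p q = none := nt a h.ha p h.hp q h.hq h.ap h.aq
  apply hc2
  refine ⟨{a, b, v, p, q, v'}, ?_, ⟨a, by simp⟩, ?_, q, q', v', t, ?_⟩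
  · intro w hw
    simp only [Finset.mem_insert, Finset.mem_singleton] at hw
    rcases hw with rfl | rfl | rfl | rfl | rfl | rfl
    exacts [h.ha, h.hb, h.hv, h.hp, h.hq, h.hv']
  · intro hh
    have hq' := h.hq'
    rw [← hh] at hq'
    simp only [Finset.mem_insert, Finset.mem_singleton] at hq'
    rcases hq' with h1 | h1 | h1 | h1 | h1 | h1
    · exact h.q'a h1
    · exact h.q'b h1
    · exact h.qq (by rw [h1]; exact nnone vq)
    · exact h.qq (by rw [h1]; exact nnone pq)
    · exact ne_of_adj h.qq h1.symm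
    · exact hne h1.symm
  · intro u hu w hw hwA hadj
    simp only [Finset.mem_insert, Finset.mem_singleton] at hu
    rcases hu with rfl | rfl | rfl | rfl | rfl | rfl
    · rcases h.na w hw hadj with rfl | rfl | rfl <;> exact absurd (by simp) hwA
    · rcases h.nb w hw hadj with rfl | rfl | rfl <;> exact absurd (by simp) hwA
    · rcases h.nv w hw hadj with rfl | rfl | rfl <;> exact absurd (by simp) hwA
    · rcases h.np w hw hadj with rfl | rfl | h1
      · exact absurd (by simp) hwA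
      · exact absurd (by simp) hwA
      · exact absurd (by rw [h1, ← he]; simp) hwA
    · rcases h.nq w hw hadj with rfl | rfl | rfl
      · exact absurd (by simp) hwA
      · exact absurd (by simp) hwA
      · exact Or.inl ⟨rfl, rfl⟩
    · rcases nv' w hw hadj with rfl | rfl | rfl
      · exact absurd (by simp) hwA
      · exact absurd (by simp) hwA
      · exact Or.inr ⟨rfl, rfl⟩

/-- `K₃₃` -/
theorem K23.red_K33 {G : SG V} {S : Finset V} (cub : G.Cubic S) (hc1 : ¬ G.Cut1 S)
    (nt : G.NoTri S) {a b v p q v' p' q' : V}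
    (h : G.K23 S a b v p q v' p' q') (h1 : v' = p') (h2 : v' = q') : G.Col S := by
  subst h1 h2
  have m1 : G.s v p = none := nt a h.ha v h.hv p h.hp h.av h.ap
  have m2 : G.s v q = none := nt a h.ha v h.hv q h.hq h.av h.aq
  have m3 : G.s p q = none := nt a h.ha p h.hp q h.hq h.ap h.aq
  have m4 : G.s a b = none := nt v h.hv a h.ha b h.hb (adj_symm h.av) (adj_symm h.bv)
  have m5 : G.s a v' = none := nt v h.hv a h.ha v' h.hv' (adj_symm h.av) h.vv
  have m6 : G.s b v' = none := nt v h.hv b h.hb v' h.hv' (adj_symm h.bv) h.vv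
  have nv' := three_nb (cub v' h.hv').le (mem_nb.mpr ⟨h.hv, adj_symm h.vv⟩)
    (mem_nb.mpr ⟨h.hp, adj_symm h.pp⟩) (mem_nb.mpr ⟨h.hq, adj_symm h.qq⟩) h.nvp h.nvq h.npq
  have hAS : ({a, b, v, p, q, v'} : Finset V) = S := by
    refine eq_of_not_cut1 hc1 ?_ ⟨a, by simp⟩ a a ?_
    · intro w hw
      simp only [Finset.mem_insert, Finset.mem_singleton] at hw
      rcases hw with rfl | rfl | rfl | rfl | rfl | rfl
      exacts [h.ha, h.hb, h.hv, h.hp, h.hq, h.hv']
    · intro u hu w hw hwA hadj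
      exfalso
      apply hwA
      simp only [Finset.mem_insert, Finset.mem_singleton] at hu
      rcases hu with rfl | rfl | rfl | rfl | rfl | rfl
      · rcases h.na w hw hadj with rfl | rfl | rfl <;> simp
      · rcases h.nb w hw hadj with rfl | rfl | rfl <;> simp
      · rcases h.nv w hw hadj with rfl | rfl | rfl <;> simp
      · rcases h.np w hw hadj with rfl | rfl | rfl <;> simp
      · rcases h.nq w hw hadj with rfl | rfl | rfl <;> simp
      · rcases nv' w hw hadj with rfl | rfl | rfl <;> simp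
  refine col_model (![v, p, q, a, b, v'] : Fin 6 → V) adjK LK ?_ ?_ okK.1 okK.2
  · intro u hu
    rw [← hAS] at hu
    simp only [Finset.mem_insert, Finset.mem_singleton] at hu
    rcases hu with rfl | rfl | rfl | rfl | rfl | rfl
    exacts [⟨3, rfl⟩, ⟨4, rfl⟩, ⟨0, rfl⟩, ⟨1, rfl⟩, ⟨2, rfl⟩, ⟨5, rfl⟩]
  · intro i j hne
    fin_cases i <;> fin_cases j <;>
      first
      | rfl
      | exact absurd (G.irr _) hne
      | exact absurd m1 hne
      | exact absurd (nnone m1) hne
      | exact absurd m2 hne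
      | exact absurd (nnone m2) hne
      | exact absurd m3 hne
      | exact absurd (nnone m3) hne
      | exact absurd m4 hne
      | exact absurd (nnone m4) hne
      | exact absurd m5 hne
      | exact absurd (nnone m5) hne
      | exact absurd m6 hne
      | exact absurd (nnone m6) hne

end SG

end MPa4482b
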