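import Pool.Agent.Lib.MP_a4482b_co.Red7

set_option autoImplicit false
set_option linter.unusedSectionVars false

/-!
# Triangle-free graphs: reduction of a `K₂₃`
-/

namespace MPa4482b

variable {V : Type*} [DecidableEq V]

namespace SG

/-- the reduction at the centre `v` of a `K₂₃`, the opposite 4-cycle being positive -/
theorem K23.red {G : SG V} {S : Finset V} (ih : IH V S.card) (ok : G.Ok S)
    (cub : G.Cubic S) (hc2 : ¬ G.Cut2 S) (nt : G.NoTri S) {a b v p q v' p' q' : V}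
    (h : G.K23 S a b v p q v' p' q') (hvp : v' ≠ p') (hvq : v' ≠ q')
    {eap eaq ebp ebq : Bool} (kap : G.s a p = some eap) (kaq : G.s a q = some eaq)
    (kbp : G.s b p = some ebp) (kbq : G.s b q = some ebq) (hpos : (eap ^^ eaq) = (ebp ^^ ebq)) :
    G.Col S := by
  obtain ⟨d₁, hd₁, d₂, hd₂, d₁v, d₂v, n12, e1, e2, hnd⟩ := cub.others h.hv' h.hv (adj_symm h.vv)
  have m1 : G.s v p = none := nt a h.ha v h.hv p h.hp h.av h.ap
  have m2 : G.s v q = none := nt a h.ha v h.hv q h.hq h.av h.aq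
  have m3 : G.s p q = none := nt a h.ha p h.hp q h.hq h.ap h.aq
  have m4 : G.s a b = none := nt v h.hv a h.ha b h.hb (adj_symm h.av) (adj_symm h.bv)
  have m5 : G.s a v' = none := nt v h.hv a h.ha v' h.hv' (adj_symm h.av) h.vv
  have m6 : G.s b v' = none := nt v h.hv b h.hb v' h.hv' (adj_symm h.bv) h.vv
  have m7 : G.s d₁ d₂ = none := nt v' h.hv' d₁ hd₁ d₂ hd₂ e1 e2
  have npv' : p ≠ v' := by
    rintro rfl
    exact h.vv m1
  have nqv' : q ≠ v' := by
    rintro rfl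
    exact h.vv m2
  have pv' : G.s v' p = none := by
    by_contra hne
    rcases h.np v' h.hv' (adj_symm hne) with h' | h' | h'
    exacts [h.v'a h', h.v'b h', hvp h']
  have qv' : G.s v' q = none := by
    by_contra hne
    rcases h.nq v' h.hv' (adj_symm hne) with h' | h' | h'
    exacts [h.v'a h', h.v'b h', hvq h']
  have d₁p : d₁ ≠ p := by
    rintro rfl
    exact e1 pv'
  have d₂p : d₂ ≠ p := by
    rintro rfl
    exact e2 pv'
  have d₁q : d₁ ≠ q := by
    rintro rfl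
    exact e1 qv'
  have d₂q : d₂ ≠ q := by
    rintro rfl
    exact e2 qv'
  have d₁a : d₁ ≠ a := by
    rintro rfl
    exact e1 (nnone m5)
  have d₂a : d₂ ≠ a := by
    rintro rfl
    exact e2 (nnone m5)
  have d₁b : d₁ ≠ b := by
    rintro rfl
    exact e1 (nnone m6)
  have d₂b : d₂ ≠ b := by
    rintro rfl
    exact e2 (nnone m6)
  have hpT : p ∈ rem4 S v a b v' :=
    mem_rem4.mpr ⟨h.hp, h.nvp.symm, (ne_of_adj h.ap).symm, (ne_of_adj h.bp).symm, npv'⟩
  have hqT : q ∈ rem4 S v a b v' :=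
    mem_rem4.mpr ⟨h.hq, h.nvq.symm, (ne_of_adj h.aq).symm, (ne_of_adj h.bq).symm, nqv'⟩
  have hd₁T : d₁ ∈ rem4 S v a b v' :=
    mem_rem4.mpr ⟨hd₁, d₁v, d₁a, d₁b, (ne_of_adj e1).symm⟩
  have hd₂T : d₂ ∈ rem4 S v a b v' :=
    mem_rem4.mpr ⟨hd₂, d₂v, d₂a, d₂b, (ne_of_adj e2).symm⟩
  have hvT : ∀ w ∈ rem4 S v a b v', G.s v w = none := by
    intro w hw
    by_contra hne
    have hw' := mem_rem4.mp hw
    rcases h.nv w hw'.1 hne with h' | h' | h'
    exacts [hw'.2.2.1 h', hw'.2.2.2.1 h', hw'.2.2.2.2 h']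
  have haT : ∀ w ∈ rem4 S v a b v', G.s a w ≠ none → w = p ∨ w = q := by
    intro w hw hne
    have hw' := mem_rem4.mp hw
    rcases h.na w hw'.1 hne with h' | h' | h'
    exacts [absurd h' hw'.2.1, Or.inl h', Or.inr h']
  have hbT : ∀ w ∈ rem4 S v a b v', G.s b w ≠ none → w = p ∨ w = q := by
    intro w hw hne
    have hw' := mem_rem4.mp hw
    rcases h.nb w hw'.1 hne with h' | h' | h'
    exacts [absurd h' hw'.2.1, Or.inl h', Or.inr h']
  have hdT : ∀ w ∈ rem4 S v a b v', G.s v' w ≠ none → w = d₁ ∨ w = d₂ := by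
    intro w hw hne
    have hw' := mem_rem4.mp hw
    rcases hnd w hw'.1 hne with h' | h' | h'
    exacts [absurd h' hw'.2.1, Or.inl h', Or.inr h']
  obtain ⟨f1, k1⟩ := some_of_adj e1
  obtain ⟨f2, k2⟩ := some_of_adj e2
  have npq := h.npq
  have nab := h.nab
  set G' : SG V := (G.add p q (eap ^^ eaq) h.npq).add d₁ d₂ (f1 ^^ f2) n12 with hG'
  have g2 : G'.s d₁ d₂ = some (f1 ^^ f2) := add_self
  have g1 : G'.s p q = some (eap ^^ eaq) := by
    rw [hG', add_of, add_self]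
    rintro (⟨h1, h2⟩ | ⟨h1, h2⟩)
    · exact d₁p h1.symm
    · exact d₂p h1.symm
  have L : LiftW G G' S (rem4 S v a b v') (fun u w m => (u = p ∧ w = q ∧ m = a) ∨
      (u = q ∧ w = p ∧ m = b) ∨ (u = d₁ ∧ w = d₂ ∧ m = v') ∨ (u = d₂ ∧ w = d₁ ∧ m = v')) := by
    refine ⟨rem4_sub, ?_, ?_, ?_, ?_⟩
    · intro u w hno
      rw [hG', add_of, add_of]
      · rintro (⟨h1, h2⟩ | ⟨h1, h2⟩)
        · exact hno a (Or.inl ⟨h1, h2, rfl⟩)
        · exact hno b (Or.inr (Or.inl ⟨h1, h2, rfl⟩))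
      · rintro (⟨h1, h2⟩ | ⟨h1, h2⟩)
        · exact hno v' (Or.inr (Or.inr (Or.inl ⟨h1, h2, rfl⟩)))
        · exact hno v' (Or.inr (Or.inr (Or.inr ⟨h1, h2, rfl⟩)))
    · rintro u w m (⟨rfl, rfl, _⟩ | ⟨rfl, rfl, _⟩ | ⟨rfl, rfl, _⟩ | ⟨rfl, rfl, _⟩)
      exacts [m3, nnone m3, m7, nnone m7]
    · rintro u w m (⟨rfl, rfl, rfl⟩ | ⟨rfl, rfl, rfl⟩ | ⟨rfl, rfl, rfl⟩ | ⟨rfl, rfl, rfl⟩)
      · exact ⟨h.ha, by simp [mem_rem4], adj_symm h.ap⟩
      · exact ⟨h.hb, by simp [mem_rem4], adj_symm h.bq⟩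
      · exact ⟨h.hv', by simp [mem_rem4], adj_symm e1⟩
      · exact ⟨h.hv', by simp [mem_rem4], adj_symm e2⟩
    · rintro u w w' m (⟨rfl, rfl, rfl⟩ | ⟨rfl, rfl, rfl⟩ | ⟨rfl, rfl, rfl⟩ | ⟨rfl, rfl, rfl⟩)
        (⟨h1, h2, h3⟩ | ⟨h1, h2, h3⟩ | ⟨h1, h2, h3⟩ | ⟨h1, h2, h3⟩)
      · exact h2.symm
      · exact absurd h1 npq
      · exact absurd h1.symm d₁p
      · exact absurd h1.symm d₂p
      · exact absurd h1.symm npq
      · exact h2.symm
      · exact absurd h1.symm d₁q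
      · exact absurd h1.symm d₂q
      · exact absurd h1 d₁p
      · exact absurd h1 d₁q
      · exact h2.symm
      · exact absurd h1 n12
      · exact absurd h1 d₂p
      · exact absurd h1 d₂q
      · exact absurd h1.symm n12
      · exact h2.symm
  rcases L.cases ok with hok | ⟨Q, x₀, w₀, hB, u, hu, w, hw, m, hN⟩
  · exact ext_claw (G' := G') sub_ins4 (by simp [mem_rem4]) (by simp [mem_rem4])
      (by simp [mem_rem4]) (by simp [mem_rem4]) (ne_of_adj h.av).symm (ne_of_adj h.bv).symm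
      (ne_of_adj h.vv) h.nab h.v'a.symm h.v'b.symm hpT hqT hd₁T hd₂T
      (fun u _ w _ e he => L.mono u w e he) kap kaq kbp kbq k1 k2 m4 m5 m6 g1
      (by rw [g1, hpos]) g2 hvT haT hbT hdT (ih _ _ (rem4_card_lt h.hv) hok)
  · exfalso
    have sp : G'.nb (rem4 S v a b v') p ⊆ {q, p'} := by
      intro t ht
      rw [mem_nb] at ht
      have ht' := mem_rem4.mp ht.1
      simp only [Finset.mem_insert, Finset.mem_singleton]
      by_cases htq : t = q
      · exact Or.inl htq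
      right
      rw [L.same p t] at ht
      · rcases h.np t ht'.1 ht.2 with h' | h' | h'
        exacts [absurd h' ht'.2.2.1, absurd h' ht'.2.2.2.1, h']
      · rintro m (⟨_, h2, _⟩ | ⟨h2, _, _⟩ | ⟨h2, _, _⟩ | ⟨h2, _, _⟩)
        exacts [htq h2, npq h2, d₁p h2.symm, d₂p h2.symm]
    have sq : G'.nb (rem4 S v a b v') q ⊆ {p, q'} := by
      intro t ht
      rw [mem_nb] at ht
      have ht' := mem_rem4.mp ht.1
      simp only [Finset.mem_insert, Finset.mem_singleton]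
      by_cases htp : t = p
      · exact Or.inl htp
      right
      rw [L.same q t] at ht
      · rcases h.nq t ht'.1 ht.2 with h' | h' | h'
        exacts [absurd h' ht'.2.2.1, absurd h' ht'.2.2.2.1, h']
      · rintro m (⟨h2, _, _⟩ | ⟨_, h2, _⟩ | ⟨h2, _, _⟩ | ⟨h2, _, _⟩)
        exacts [npq h2.symm, htp h2, d₁q h2.symm, d₂q h2.symm]
    have cp : (G'.nb (rem4 S v a b v') p).card ≤ 2 :=
      (Finset.card_le_card sp).trans Finset.card_le_two
    have cq : (G'.nb (rem4 S v a b v') q).card ≤ 2 :=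
      (Finset.card_le_card sq).trans Finset.card_le_two
    have hnot : ¬ (p ∈ Q ∧ q ∈ Q) := by
      rintro ⟨hpQ, hqQ⟩
      rcases hB.deg3 p hpQ q hqQ npq with h3 | h3
      · have := (h3.trans (Finset.card_le_card (nb_mono hB.sub p))).trans cp
        omega
      · have := (h3.trans (Finset.card_le_card (nb_mono hB.sub q))).trans cq
        omega
    have hpQ : p ∉ Q := by
      intro hpQ
      apply hnot
      refine ⟨hpQ, ?_⟩
      have heq := Finset.eq_of_subset_of_card_le (nb_mono hB.sub p) (cp.trans (hB.deg2 p hpQ))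
      have hq : q ∈ G'.nb (rem4 S v a b v') p := mem_nb.mpr ⟨hqT, by rw [g1]; simp⟩
      rw [← heq, mem_nb] at hq
      exact hq.1
    have hqQ : q ∉ Q := by
      intro hqQ
      apply hnot
      refine ⟨?_, hqQ⟩
      have heq := Finset.eq_of_subset_of_card_le (nb_mono hB.sub q) (cq.trans (hB.deg2 q hqQ))
      have hp : p ∈ G'.nb (rem4 S v a b v') q :=
        mem_nb.mpr ⟨hpT, by rw [G'.symm, g1]; simp⟩
      rw [← heq, mem_nb] at hp
      exact hp.1
    have hdQ : d₁ ∈ Q ∧ d₂ ∈ Q := by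
      rcases hN with ⟨rfl, rfl, _⟩ | ⟨rfl, rfl, _⟩ | ⟨rfl, rfl, _⟩ | ⟨rfl, rfl, _⟩
      · exact absurd hu hpQ
      · exact absurd hu hqQ
      · exact ⟨hu, hw⟩
      · exact ⟨hw, hu⟩
    apply hc2
    refine ⟨Q ∪ {v'}, ?_, ⟨v', by simp⟩, ?_, x₀, w₀, v', v, ?_⟩
    · intro t ht
      rw [Finset.mem_union, Finset.mem_singleton] at ht
      rcases ht with ht | rfl
      · exact rem4_sub (hB.sub ht)
      · exact h.hv'
    · intro hh
      have hv := h.hv
      rw [← hh, Finset.mem_union, Finset.mem_singleton] at hv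
      rcases hv with h1 | h1
      · exact (mem_rem4.mp (hB.sub h1)).2.1 rfl
      · exact ne_of_adj h.vv h1
    · intro u hu t ht htA hadj
      rw [Finset.mem_union, Finset.mem_singleton] at hu
      rcases hu with hu | rfl
      · left
        have huT := hB.sub hu
        by_cases htT : t ∈ rem4 S v a b v'
        · obtain ⟨e, he⟩ := some_of_adj hadj
          rcases hB.closed u hu t htT (by rw [L.mono _ _ _ he]; simp) with h' | h'
          · exact absurd (Finset.mem_union_left _ h') htA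
          · exact h'
        · exfalso
          have ht4 : t = v ∨ t = a ∨ t = b ∨ t = v' := by
            by_contra hno
            push Not at hno
            exact htT (mem_rem4.mpr ⟨ht, hno⟩)
          rcases ht4 with rfl | rfl | rfl | rfl
          · exact (adj_symm hadj) (hvT u huT)
          · rcases haT u huT (adj_symm hadj) with rfl | rfl
            exacts [hpQ hu, hqQ hu]
          · rcases hbT u huT (adj_symm hadj) with rfl | rfl
            exacts [hpQ hu, hqQ hu]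
          · exact htA (by simp)
      · right
        rcases hnd t ht hadj with rfl | rfl | rfl
        · exact ⟨rfl, rfl⟩
        · exact absurd (Finset.mem_union_left _ hdQ.1) htA
        · exact absurd (Finset.mem_union_left _ hdQ.2) htA

/-- two vertices with three common neighbours -/
theorem red_K23 {G : SG V} {S : Finset V} (ih : IH V S.card) (ok : G.Ok S)
    (cub : G.Cubic S) (hc2 : ¬ G.Cut2 S) (nt : G.NoTri S) {a b v p q : V}
    (ha : a ∈ S) (hb : b ∈ S) (hv : v ∈ S) (hp : p ∈ S) (hq : q ∈ S) (nab : a ≠ b)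
    (nvp : v ≠ p) (nvq : v ≠ q) (npq : p ≠ q)
    (av : G.s a v ≠ none) (ap : G.s a p ≠ none) (aq : G.s a q ≠ none)
    (bv : G.s b v ≠ none) (bp : G.s b p ≠ none) (bq : G.s b q ≠ none) : G.Col S := by
  have hc1 : ¬ G.Cut1 S := fun hh => hc2 hh.cut2
  have na := three_nb (cub a ha).le (mem_nb.mpr ⟨hv, av⟩) (mem_nb.mpr ⟨hp, ap⟩)
    (mem_nb.mpr ⟨hq, aq⟩) nvp nvq npq
  have nb := three_nb (cub b hb).le (mem_nb.mpr ⟨hv, bv⟩) (mem_nb.mpr ⟨hp, bp⟩)
    (mem_nb.mpr ⟨hq, bq⟩) nvp nvq npq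
  obtain ⟨v', hv', v'a, v'b, vv, nv⟩ := cub.third hv ha hb nab (adj_symm av) (adj_symm bv)
  obtain ⟨p', hp', p'a, p'b, pp, np⟩ := cub.third hp ha hb nab (adj_symm ap) (adj_symm bp)
  obtain ⟨q', hq', q'a, q'b, qq, nq⟩ := cub.third hq ha hb nab (adj_symm aq) (adj_symm bq)
  have h : G.K23 S a b v p q v' p' q' :=
    ⟨ha, hb, hv, hp, hq, hv', hp', hq', av, ap, aq, bv, bp, bq, vv, pp, qq, na, nb, nv, np, nq,
      nab, nvp, nvq, npq, v'a, v'b, p'a, p'b, q'a, q'b⟩
  by_cases h1 : v' = p'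
  · exact h.red_K33 cub hc1 nt h1 (h.eq3 cub hc2 nt h1)
  by_cases h2 : v' = q'
  · exact absurd (h.swappq.eq3 cub hc2 nt h2) h1
  by_cases h3 : p' = q'
  · exact absurd (h.swapvp.swappq.eq3 cub hc2 nt h3).symm h1
  obtain ⟨eav, kav⟩ := some_of_adj av
  obtain ⟨eap, kap⟩ := some_of_adj ap
  obtain ⟨eaq, kaq⟩ := some_of_adj aq
  obtain ⟨ebv, kbv⟩ := some_of_adj bv
  obtain ⟨ebp, kbp⟩ := some_of_adj bp
  obtain ⟨ebq, kbq⟩ := some_of_adj bq
  have hcases : (eap ^^ eaq) = (ebp ^^ ebq) ∨ (eav ^^ eaq) = (ebv ^^ ebq) ∨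
      (eav ^^ eap) = (ebv ^^ ebp) := by
    cases eav <;> cases eap <;> cases eaq <;> cases ebv <;> cases ebp <;> cases ebq <;> simp
  rcases hcases with hc | hc | hc
  · exact h.red ih ok cub hc2 nt h1 h2 kap kaq kbp kbq hc
  · exact h.swapvp.red ih ok cub hc2 nt (Ne.symm h1) h3 kav kaq kbv kbq hc
  · exact h.swappq.swapvp.red ih ok cub hc2 nt (Ne.symm h2) (Ne.symm h3) kav kap kbv kbp hc

end SG

end MPa4482b
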