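import Pool.Agent.Lib.MP_a4482b_co.Red8

set_option autoImplicit false
set_option linter.unusedSectionVars false

/-!
# Triangle-free graphs: the main reduction
-/

namespace MPa4482b

variable {V : Type*} [DecidableEq V]

namespace SG

/-- `{u, w} = {a, b}` -/
def Pr (a b u w : V) : Prop := (u = a ∧ w = b) ∨ (u = b ∧ w = a)

theorem Pr.det {a b u w w' : V} (hab : a ≠ b) (h : Pr a b u w) (h' : Pr a b u w') : w = w' := by
  rcases h with ⟨rfl, rfl⟩ | ⟨rfl, rfl⟩ <;> rcases h' with ⟨h1, rfl⟩ | ⟨h1, rfl⟩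
  · rfl
  · exact absurd h1 hab
  · exact absurd h1.symm hab
  · rfl

theorem Pr.comp {a b c d u w : V} (h : Pr a b u w) (h' : Pr c d u w) : Pr a b c d := by
  rcases h with ⟨rfl, rfl⟩ | ⟨rfl, rfl⟩ <;> rcases h' with ⟨h1, h2⟩ | ⟨h1, h2⟩
  · exact Or.inl ⟨h1.symm, h2.symm⟩
  · exact Or.inr ⟨h2.symm, h1.symm⟩
  · exact Or.inr ⟨h1.symm, h2.symm⟩
  · exact Or.inl ⟨h2.symm, h1.symm⟩

theorem Pr.symm {a b c d : V} (h : Pr a b c d) : Pr c d a b := by
  rcases h with ⟨rfl, rfl⟩ | ⟨rfl, rfl⟩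
  · exact Or.inl ⟨rfl, rfl⟩
  · exact Or.inr ⟨rfl, rfl⟩

theorem Pr.self (a b : V) : Pr a b a b := Or.inl ⟨rfl, rfl⟩

/-- a vertex with its neighbours and their neighbours -/
structure Claw (G : SG V) (S : Finset V) (v a b d a₁ a₂ b₁ b₂ d₁ d₂ : V) : Prop where
  hv : v ∈ S
  ha : a ∈ S
  hb : b ∈ S
  hd : d ∈ S
  ha₁ : a₁ ∈ S
  ha₂ : a₂ ∈ S
  hb₁ : b₁ ∈ S
  hb₂ : b₂ ∈ S
  hd₁ : d₁ ∈ S
  hd₂ : d₂ ∈ S
  va : G.s v a ≠ none
  vb : G.s v b ≠ none
  vd : G.s v d ≠ none
  aa₁ : G.s a a₁ ≠ none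
  aa₂ : G.s a a₂ ≠ none
  bb₁ : G.s b b₁ ≠ none
  bb₂ : G.s b b₂ ≠ none
  dd₁ : G.s d d₁ ≠ none
  dd₂ : G.s d d₂ ≠ none
  nv : ∀ w ∈ S, G.s v w ≠ none → w = a ∨ w = b ∨ w = d
  na : ∀ w ∈ S, G.s a w ≠ none → w = v ∨ w = a₁ ∨ w = a₂
  nb : ∀ w ∈ S, G.s b w ≠ none → w = v ∨ w = b₁ ∨ w = b₂
  nd : ∀ w ∈ S, G.s d w ≠ none → w = v ∨ w = d₁ ∨ w = d₂
  ab : a ≠ b
  ad : a ≠ d
  bd : b ≠ d
  a₁v : a₁ ≠ v
  a₂v : a₂ ≠ v
  b₁v : b₁ ≠ v
  b₂v : b₂ ≠ v
  d₁v : d₁ ≠ v
  d₂v : d₂ ≠ v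
  a12 : a₁ ≠ a₂
  b12 : b₁ ≠ b₂
  d12 : d₁ ≠ d₂

/-- one pair inside `Q` -/
theorem claw_one {G : SG V} {S Q : Finset V} {a v x₀ h₀ : V} (hQS : Q ⊆ S)
    (hh₀ : ∀ u ∈ Q, ∀ h ∈ S, h ∉ Q ∪ {a} → G.s u h ≠ none → u = x₀ ∧ h = h₀) (ha : a ∈ S)
    (hv : v ∈ S) (hvQ : v ∉ Q) (hva : v ≠ a) (na : ∀ w ∈ S, G.s a w ≠ none → w = v ∨ w ∈ Q) :
    G.Cut2 S := by
  refine ⟨Q ∪ {a}, ?_, ⟨a, by simp⟩, ?_, x₀, h₀, a, v, ?_⟩
  · intro t ht
    rw [Finset.mem_union, Finset.mem_singleton] at ht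
    rcases ht with ht | rfl
    exacts [hQS ht, ha]
  · intro hh
    rw [← hh, Finset.mem_union, Finset.mem_singleton] at hv
    rcases hv with h1 | h1
    exacts [hvQ h1, hva h1]
  · intro u hu t ht htA hadj
    rw [Finset.mem_union, Finset.mem_singleton] at hu
    rcases hu with hu | rfl
    · exact Or.inl (hh₀ u hu t ht htA hadj)
    · right
      rcases na t ht hadj with rfl | h'
      · exact ⟨rfl, rfl⟩
      · exact absurd (Finset.mem_union_left _ h') htA

/-- two pairs inside `Q` -/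
theorem claw_two {G : SG V} {S Q : Finset V} {a b d v x₀ h₀ : V} (hQS : Q ⊆ S)
    (hh₀ : ∀ u ∈ Q, ∀ h ∈ S, h ∉ Q ∪ {v, a, b} → G.s u h ≠ none → u = x₀ ∧ h = h₀)
    (ha : a ∈ S) (hb : b ∈ S) (hv : v ∈ S) (hd : d ∈ S) (hdQ : d ∉ Q) (hdv : d ≠ v)
    (hda : d ≠ a) (hdb : d ≠ b)
    (na : ∀ w ∈ S, G.s a w ≠ none → w = v ∨ w ∈ Q)
    (nb : ∀ w ∈ S, G.s b w ≠ none → w = v ∨ w ∈ Q)
    (nv : ∀ w ∈ S, G.s v w ≠ none → w = a ∨ w = b ∨ w = d) :
    G.Cut2 S := by
  refine ⟨Q ∪ {v, a, b}, ?_, ⟨a, by simp⟩, ?_, x₀, h₀, v, d, ?_⟩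
  · intro t ht
    simp only [Finset.mem_union, Finset.mem_insert, Finset.mem_singleton] at ht
    rcases ht with ht | rfl | rfl | rfl
    exacts [hQS ht, hv, ha, hb]
  · intro hh
    rw [← hh] at hd
    simp only [Finset.mem_union, Finset.mem_insert, Finset.mem_singleton] at hd
    rcases hd with h1 | h1 | h1 | h1
    exacts [hdQ h1, hdv h1, hda h1, hdb h1]
  · intro u hu t ht htA hadj
    simp only [Finset.mem_union, Finset.mem_insert, Finset.mem_singleton] at hu
    rcases hu with hu | rfl | rfl | rfl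
    · exact Or.inl (hh₀ u hu t ht htA hadj)
    · right
      rcases nv t ht hadj with rfl | rfl | rfl
      · exact absurd (by simp) htA
      · exact absurd (by simp) htA
      · exact ⟨rfl, rfl⟩
    · exfalso
      rcases na t ht hadj with rfl | h'
      · exact htA (by simp)
      · exact htA (Finset.mem_union_left _ h')
    · exfalso
      rcases nb t ht hadj with rfl | h'
      · exact htA (by simp)
      · exact htA (Finset.mem_union_left _ h')

/-- the new edges of the claw model -/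
def newE (eb ed : Fin 6) (i j : Fin 4) : Bool := inE 0 i j || inE eb i j || inE ed i j

theorem valid_of : ∀ eb ed : Fin 6, eb ≠ 0 → ed ≠ 0 → eb ≠ ed →
    (∀ i j k : Fin 4, i ≠ j → i ≠ k → j ≠ k →
      (newE eb ed i j || newE eb ed i k || newE eb ed j k) = true) →
    valid1 eb ed = true := by decide

theorem base_claw {G : SG V} {S : Finset V} (q : Fin 4 → V) (v a b d : V) (eb ed : Fin 6)
    (hval : valid1 eb ed = true)
    (hS : ∀ u ∈ S, (∃ i, q i = u) ∨ u = v ∨ u = a ∨ u = b ∨ u = d)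
    (h1 : G.s (q 0) (q 1) = none) (h2 : G.s (q (lo eb)) (q (hi eb)) = none)
    (h3 : G.s (q (lo ed)) (q (hi ed)) = none)
    (hv : ∀ i, G.s v (q i) = none) (ha : ∀ i, G.s a (q i) ≠ none → i = 0 ∨ i = 1)
    (hb : ∀ i, G.s b (q i) ≠ none → i = lo eb ∨ i = hi eb)
    (hd : ∀ i, G.s d (q i) ≠ none → i = lo ed ∨ i = hi ed)
    (hab : G.s a b = none) (had : G.s a d = none) (hbd : G.s b d = none) : G.Col S := by
  refine col_model (Sum.elim q ![v, a, b, d]) (adj1 eb ed) (L1 eb ed) ?_ ?_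
    (ok1 eb ed hval).1 (ok1 eb ed hval).2
  · intro u hu
    rcases hS u hu with ⟨i, hi⟩ | h | h | h | h
    · exact ⟨Sum.inl i, hi⟩
    · exact ⟨Sum.inr 0, h.symm⟩
    · exact ⟨Sum.inr 1, h.symm⟩
    · exact ⟨Sum.inr 2, h.symm⟩
    · exact ⟨Sum.inr 3, h.symm⟩
  · have key : ∀ i k, G.s ((![v, a, b, d] : Fin 4 → V) k) (q i) ≠ none →
        ((decide (k = 1) && (decide (i = 0) || decide (i = 1))) ||
      (decide (k = 2) && (decide (i = lo eb) || decide (i = hi eb))) ||
      (decide (k = 3) && (decide (i = lo ed) || decide (i = hi ed)))) = true := by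
      intro i k hne
      fin_cases k
      · exact absurd (hv i) hne
      · have := ha i hne
        simpa using this
      · have := hb i hne
        simpa using this
      · have := hd i hne
        simpa using this
    have key2 : ∀ (e : Fin 6) (i j : Fin 4), G.s (q (lo e)) (q (hi e)) = none →
        G.s (q i) (q j) ≠ none → inE e i j = false := by
      intro e i j hnew hne
      by_contra hin
      simp only [Bool.not_eq_false, inE, Bool.or_eq_true, Bool.and_eq_true,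
        decide_eq_true_eq] at hin
      rcases hin with ⟨rfl, rfl⟩ | ⟨rfl, rfl⟩
      · exact hne hnew
      · exact hne (nnone hnew)
    rintro (i | i) (j | j) hne
    · simp only [Sum.elim_inl] at hne
      have hij : i ≠ j := by
        rintro rfl
        exact hne (G.irr _)
      simp only [adj1, hij, ne_eq, not_false_eq_true, decide_true, Bool.true_and,
        Bool.and_eq_true, Bool.not_eq_true']
      exact ⟨⟨key2 0 i j h1 hne, key2 eb i j h2 hne⟩, key2 ed i j h3 hne⟩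
    · simp only [Sum.elim_inl, Sum.elim_inr] at hne
      exact key i j (adj_symm hne)
    · simp only [Sum.elim_inl, Sum.elim_inr] at hne
      exact key j i hne
    · simp only [Sum.elim_inr] at hne
      fin_cases i <;> fin_cases j <;>
        first
        | rfl
        | exact absurd (G.irr _) hne
        | exact absurd hab hne
        | exact absurd (nnone hab) hne
        | exact absurd had hne
        | exact absurd (nnone had) hne
        | exact absurd hbd hne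
        | exact absurd (nnone hbd) hne

theorem K4At.adjq {G : SG V} {a b c d : V} (h : G.K4At a b c d) : ∀ i j : Fin 4, i ≠ j →
    G.s ((![a, b, c, d] : Fin 4 → V) i) ((![a, b, c, d] : Fin 4 → V) j) ≠ none := by
  obtain ⟨pa, pb, pc, pd, k1, k2, k3, k4, k5, k6⟩ := h
  intro i j hij hn
  fin_cases i <;> fin_cases j <;>
    first
    | exact hij rfl
    | (have := k1.symm.trans hn; exact absurd this (by simp))
    | (have := (nsome k1).symm.trans hn; exact absurd this (by simp))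
    | (have := k2.symm.trans hn; exact absurd this (by simp))
    | (have := (nsome k2).symm.trans hn; exact absurd this (by simp))
    | (have := k3.symm.trans hn; exact absurd this (by simp))
    | (have := (nsome k3).symm.trans hn; exact absurd this (by simp))
    | (have := k4.symm.trans hn; exact absurd this (by simp))
    | (have := (nsome k4).symm.trans hn; exact absurd this (by simp))
    | (have := k5.symm.trans hn; exact absurd this (by simp))
    | (have := (nsome k5).symm.trans hn; exact absurd this (by simp))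
    | (have := k6.symm.trans hn; exact absurd this (by simp))
    | (have := (nsome k6).symm.trans hn; exact absurd this (by simp))

/-- the edge of the model given by a pair -/
theorem edge_of_pair {q : Fin 4 → V} (hinj : Function.Injective q) {b₁ b₂ : V} (hne : b₁ ≠ b₂)
    (h1 : ∃ i, q i = b₁) (h2 : ∃ i, q i = b₂) :
    ∃ e : Fin 6, (∀ i j, Pr b₁ b₂ (q i) (q j) ↔ inE e i j = true) ∧
      Pr b₁ b₂ (q (lo e)) (q (hi e)) ∧ (∀ i, q i = b₁ ∨ q i = b₂ → i = lo e ∨ i = hi e) := by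
  obtain ⟨i, rfl⟩ := h1
  obtain ⟨j, rfl⟩ := h2
  have hij : i ≠ j := fun hh => hne (by rw [hh])
  obtain ⟨e, he⟩ := exists_edge i j hij
  refine ⟨e, ?_, ?_, ?_⟩
  · intro k l
    simp only [Pr, hinj.eq_iff, inE, Bool.or_eq_true, Bool.and_eq_true, decide_eq_true_eq]
    rcases he with ⟨rfl, rfl⟩ | ⟨rfl, rfl⟩
    · exact Iff.rfl
    · exact Or.comm
  · rcases he with ⟨rfl, rfl⟩ | ⟨rfl, rfl⟩
    · exact Or.inl ⟨rfl, rfl⟩
    · exact Or.inr ⟨rfl, rfl⟩
  · intro k hk
    rw [hinj.eq_iff, hinj.eq_iff] at hk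
    rcases he with ⟨rfl, rfl⟩ | ⟨rfl, rfl⟩
    · exact hk
    · exact hk.symm

theorem Claw.red {G : SG V} {S : Finset V} (ih : IH V S.card) (ok : G.Ok S)
    (cub : G.Cubic S) (hc2 : ¬ G.Cut2 S) (nt : G.NoTri S) {v a b d a₁ a₂ b₁ b₂ d₁ d₂ : V}
    (h : G.Claw S v a b d a₁ a₂ b₁ b₂ d₁ d₂) (pab : ¬ Pr a₁ a₂ b₁ b₂) (pad : ¬ Pr a₁ a₂ d₁ d₂)
    (pbd : ¬ Pr b₁ b₂ d₁ d₂) : G.Col S := by
  have hc1 : ¬ G.Cut1 S := fun hh => hc2 hh.cut2
  have mab : G.s a b = none := nt v h.hv a h.ha b h.hb h.va h.vb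
  have mad : G.s a d = none := nt v h.hv a h.ha d h.hd h.va h.vd
  have mbd : G.s b d = none := nt v h.hv b h.hb d h.hd h.vb h.vd
  have ma : G.s a₁ a₂ = none := nt a h.ha a₁ h.ha₁ a₂ h.ha₂ h.aa₁ h.aa₂
  have mb : G.s b₁ b₂ = none := nt b h.hb b₁ h.hb₁ b₂ h.hb₂ h.bb₁ h.bb₂
  have md : G.s d₁ d₂ = none := nt d h.hd d₁ h.hd₁ d₂ h.hd₂ h.dd₁ h.dd₂
  have ha₁T : a₁ ∈ rem4 S v a b d := mem_rem4.mpr ⟨h.ha₁, h.a₁v, (ne_of_adj h.aa₁).symm,
    fun hh => h.aa₁ (by rw [hh]; exact mab), fun hh => h.aa₁ (by rw [hh]; exact mad)⟩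
  have ha₂T : a₂ ∈ rem4 S v a b d := mem_rem4.mpr ⟨h.ha₂, h.a₂v, (ne_of_adj h.aa₂).symm,
    fun hh => h.aa₂ (by rw [hh]; exact mab), fun hh => h.aa₂ (by rw [hh]; exact mad)⟩
  have hb₁T : b₁ ∈ rem4 S v a b d := mem_rem4.mpr ⟨h.hb₁, h.b₁v,
    fun hh => h.bb₁ (by rw [hh]; exact nnone mab), (ne_of_adj h.bb₁).symm,
    fun hh => h.bb₁ (by rw [hh]; exact mbd)⟩
  have hb₂T : b₂ ∈ rem4 S v a b d := mem_rem4.mpr ⟨h.hb₂, h.b₂v,
    fun hh => h.bb₂ (by rw [hh]; exact nnone mab), (ne_of_adj h.bb₂).symm,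
    fun hh => h.bb₂ (by rw [hh]; exact mbd)⟩
  have hd₁T : d₁ ∈ rem4 S v a b d := mem_rem4.mpr ⟨h.hd₁, h.d₁v,
    fun hh => h.dd₁ (by rw [hh]; exact nnone mad), fun hh => h.dd₁ (by rw [hh]; exact nnone mbd),
    (ne_of_adj h.dd₁).symm⟩
  have hd₂T : d₂ ∈ rem4 S v a b d := mem_rem4.mpr ⟨h.hd₂, h.d₂v,
    fun hh => h.dd₂ (by rw [hh]; exact nnone mad), fun hh => h.dd₂ (by rw [hh]; exact nnone mbd),
    (ne_of_adj h.dd₂).symm⟩
  have hvT : ∀ w ∈ rem4 S v a b d, G.s v w = none := by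
    intro w hw
    by_contra hne
    have hw' := mem_rem4.mp hw
    rcases h.nv w hw'.1 hne with h' | h' | h'
    exacts [hw'.2.2.1 h', hw'.2.2.2.1 h', hw'.2.2.2.2 h']
  have haT : ∀ w ∈ rem4 S v a b d, G.s a w ≠ none → w = a₁ ∨ w = a₂ := by
    intro w hw hne
    have hw' := mem_rem4.mp hw
    rcases h.na w hw'.1 hne with h' | h' | h'
    exacts [absurd h' hw'.2.1, Or.inl h', Or.inr h']
  have hbT : ∀ w ∈ rem4 S v a b d, G.s b w ≠ none → w = b₁ ∨ w = b₂ := by
    intro w hw hne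
    have hw' := mem_rem4.mp hw
    rcases h.nb w hw'.1 hne with h' | h' | h'
    exacts [absurd h' hw'.2.1, Or.inl h', Or.inr h']
  have hdT : ∀ w ∈ rem4 S v a b d, G.s d w ≠ none → w = d₁ ∨ w = d₂ := by
    intro w hw hne
    have hw' := mem_rem4.mp hw
    rcases h.nd w hw'.1 hne with h' | h' | h'
    exacts [absurd h' hw'.2.1, Or.inl h', Or.inr h']
  obtain ⟨ea1, ka1⟩ := some_of_adj h.aa₁
  obtain ⟨ea2, ka2⟩ := some_of_adj h.aa₂
  obtain ⟨eb1, kb1⟩ := some_of_adj h.bb₁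
  obtain ⟨eb2, kb2⟩ := some_of_adj h.bb₂
  obtain ⟨ed1, kd1⟩ := some_of_adj h.dd₁
  obtain ⟨ed2, kd2⟩ := some_of_adj h.dd₂
  have hab := h.ab
  have had := h.ad
  have hbd := h.bd
  set G' : SG V := ((G.add a₁ a₂ (ea1 ^^ ea2) h.a12).add b₁ b₂ (eb1 ^^ eb2) h.b12).add d₁ d₂
    (ed1 ^^ ed2) h.d12 with hG'
  have g3 : G'.s d₁ d₂ = some (ed1 ^^ ed2) := add_self
  have g2 : G'.s b₁ b₂ = some (eb1 ^^ eb2) := by
    rw [hG', add_of, add_self]
    exact fun hh => pbd (Pr.symm hh)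
  have g1 : G'.s a₁ a₂ = some (ea1 ^^ ea2) := by
    rw [hG', add_of, add_of, add_self]
    · exact fun hh => pab (Pr.symm hh)
    · exact fun hh => pad (Pr.symm hh)
  have L : Lift G G' S (rem4 S v a b d) (fun u w m => (m = a ∧ Pr a₁ a₂ u w) ∨
      (m = b ∧ Pr b₁ b₂ u w) ∨ (m = d ∧ Pr d₁ d₂ u w)) := by
    refine ⟨rem4_sub, ?_, ?_, ?_, ?_, ?_, ?_⟩
    · intro u w hno
      rw [hG', add_of, add_of, add_of]
      · exact fun hh => hno a (Or.inl ⟨rfl, hh⟩)
      · exact fun hh => hno b (Or.inr (Or.inl ⟨rfl, hh⟩))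
      · exact fun hh => hno d (Or.inr (Or.inr ⟨rfl, hh⟩))
    · rintro u w m (⟨_, ⟨rfl, rfl⟩ | ⟨rfl, rfl⟩⟩ | ⟨_, ⟨rfl, rfl⟩ | ⟨rfl, rfl⟩⟩ |
        ⟨_, ⟨rfl, rfl⟩ | ⟨rfl, rfl⟩⟩)
      exacts [ma, nnone ma, mb, nnone mb, md, nnone md]
    · rintro u w m (⟨rfl, ⟨rfl, rfl⟩ | ⟨rfl, rfl⟩⟩ | ⟨rfl, ⟨rfl, rfl⟩ | ⟨rfl, rfl⟩⟩ |
        ⟨rfl, ⟨rfl, rfl⟩ | ⟨rfl, rfl⟩⟩)
      · exact ⟨h.ha, by simp [mem_rem4], adj_symm h.aa₁⟩
      · exact ⟨h.ha, by simp [mem_rem4], adj_symm h.aa₂⟩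
      · exact ⟨h.hb, by simp [mem_rem4], adj_symm h.bb₁⟩
      · exact ⟨h.hb, by simp [mem_rem4], adj_symm h.bb₂⟩
      · exact ⟨h.hd, by simp [mem_rem4], adj_symm h.dd₁⟩
      · exact ⟨h.hd, by simp [mem_rem4], adj_symm h.dd₂⟩
    · rintro u w w' m (⟨rfl, h1⟩ | ⟨rfl, h1⟩ | ⟨rfl, h1⟩) (⟨h3, h2⟩ | ⟨h3, h2⟩ | ⟨h3, h2⟩)
      · exact Pr.det h.a12 h1 h2
      · exact absurd h3 hab
      · exact absurd h3 had
      · exact absurd h3.symm hab
      · exact Pr.det h.b12 h1 h2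
      · exact absurd h3 hbd
      · exact absurd h3.symm had
      · exact absurd h3.symm hbd
      · exact Pr.det h.d12 h1 h2
    · rintro u w m m' (⟨rfl, h1⟩ | ⟨rfl, h1⟩ | ⟨rfl, h1⟩) (⟨h3, h2⟩ | ⟨h3, h2⟩ | ⟨h3, h2⟩)
      · exact h3.symm
      · exact absurd (h1.comp h2) pab
      · exact absurd (h1.comp h2) pad
      · exact absurd (h2.comp h1) pab
      · exact h3.symm
      · exact absurd (h1.comp h2) pbd
      · exact absurd (h2.comp h1) pad
      · exact absurd (h2.comp h1) pbd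
      · exact h3.symm
    · intro u hu m hm hmT hadj'
      have hm' : m = v ∨ m = a ∨ m = b ∨ m = d := by
        by_contra hno
        push Not at hno
        exact hmT (mem_rem4.mpr ⟨hm, hno⟩)
      rcases hm' with rfl | rfl | rfl | rfl
      · exact absurd (hvT u hu) (adj_symm hadj')
      · rcases haT u hu (adj_symm hadj') with h2 | h2
        · exact ⟨a₂, ha₂T, Or.inl ⟨rfl, Or.inl ⟨h2, rfl⟩⟩, by rw [h2, g1]; simp⟩
        · exact ⟨a₁, ha₁T, Or.inl ⟨rfl, Or.inr ⟨h2, rfl⟩⟩, by rw [h2, G'.symm, g1]; simp⟩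
      · rcases hbT u hu (adj_symm hadj') with h2 | h2
        · exact ⟨b₂, hb₂T, Or.inr (Or.inl ⟨rfl, Or.inl ⟨h2, rfl⟩⟩), by rw [h2, g2]; simp⟩
        · exact ⟨b₁, hb₁T, Or.inr (Or.inl ⟨rfl, Or.inr ⟨h2, rfl⟩⟩),
            by rw [h2, G'.symm, g2]; simp⟩
      · rcases hdT u hu (adj_symm hadj') with h2 | h2
        · exact ⟨d₂, hd₂T, Or.inr (Or.inr ⟨rfl, Or.inl ⟨h2, rfl⟩⟩), by rw [h2, g3]; simp⟩
        · exact ⟨d₁, hd₁T, Or.inr (Or.inr ⟨rfl, Or.inr ⟨h2, rfl⟩⟩),
            by rw [h2, G'.symm, g3]; simp⟩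
  rcases L.cases ok with hok | ⟨Q, x₀, w₀, hB, u, hu, w, hw, m, hN⟩
  · exact ext_claw (G' := G') sub_ins4 (by simp [mem_rem4]) (by simp [mem_rem4])
      (by simp [mem_rem4]) (by simp [mem_rem4]) (ne_of_adj h.va) (ne_of_adj h.vb)
      (ne_of_adj h.vd) h.ab h.ad h.bd hb₁T hb₂T hd₁T hd₂T
      (fun u _ w _ e he => L.mono u w e he) ka1 ka2 kb1 kb2 kd1 kd2 mab mad mbd g1 g2 g3
      hvT haT hbT hdT (ih _ _ (rem4_card_lt h.hv) hok)
  have hQS : Q ⊆ S := hB.sub.trans rem4_sub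
  have hvQ : v ∉ Q := fun hh => (mem_rem4.mp (hB.sub hh)).2.1 rfl
  have haQ : a ∉ Q := fun hh => (mem_rem4.mp (hB.sub hh)).2.2.1 rfl
  have hbQ : b ∉ Q := fun hh => (mem_rem4.mp (hB.sub hh)).2.2.2.1 rfl
  have hdQ : d ∉ Q := fun hh => (mem_rem4.mp (hB.sub hh)).2.2.2.2 rfl
  have nva := ne_of_adj h.va
  have nvb := ne_of_adj h.vb
  have nvd := ne_of_adj h.vd
  by_cases qa : a₁ ∈ Q ∧ a₂ ∈ Q
  · have na' : ∀ w ∈ S, G.s a w ≠ none → w = v ∨ w ∈ Q := by
      intro w hw hne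
      rcases h.na w hw hne with rfl | rfl | rfl
      exacts [Or.inl rfl, Or.inr qa.1, Or.inr qa.2]
    by_cases qb : b₁ ∈ Q ∧ b₂ ∈ Q
    · have nb' : ∀ w ∈ S, G.s b w ≠ none → w = v ∨ w ∈ Q := by
        intro w hw hne
        rcases h.nb w hw hne with rfl | rfl | rfl
        exacts [Or.inl rfl, Or.inr qb.1, Or.inr qb.2]
      by_cases qd : d₁ ∈ Q ∧ d₂ ∈ Q
      · -- all three pairs
        have nd' : ∀ w ∈ S, G.s d w ≠ none → w = v ∨ w ∈ Q := by
          intro w hw hne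
          rcases h.nd w hw hne with rfl | rfl | rfl
          exacts [Or.inl rfl, Or.inr qd.1, Or.inr qd.2]
        obtain ⟨h₀, hh₀⟩ := L.cut (A := Q ∪ {v, a, b, d}) hB.sub hB.closed
          Finset.subset_union_left (by
            rintro u _ w _ m (⟨rfl, _⟩ | ⟨rfl, _⟩ | ⟨rfl, _⟩) <;> simp)
        have hAS : Q ∪ {v, a, b, d} = S := by
          refine eq_of_not_cut1 hc1 ?_ ⟨v, by simp⟩ x₀ h₀ ?_
          · intro t ht
            simp only [Finset.mem_union, Finset.mem_insert, Finset.mem_singleton] at ht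
            rcases ht with ht | rfl | rfl | rfl | rfl
            exacts [hQS ht, h.hv, h.ha, h.hb, h.hd]
          · intro u hu t ht htA hadj
            simp only [Finset.mem_union, Finset.mem_insert, Finset.mem_singleton] at hu
            rcases hu with hu | rfl | rfl | rfl | rfl
            · exact hh₀ u hu t ht htA hadj
            · rcases h.nv t ht hadj with rfl | rfl | rfl <;> exact absurd (by simp) htA
            · rcases na' t ht hadj with rfl | h'
              · exact absurd (by simp) htA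
              · exact absurd (Finset.mem_union_left _ h') htA
            · rcases nb' t ht hadj with rfl | h'
              · exact absurd (by simp) htA
              · exact absurd (Finset.mem_union_left _ h') htA
            · rcases nd' t ht hadj with rfl | h'
              · exact absurd (by simp) htA
              · exact absurd (Finset.mem_union_left _ h') htA
        rcases hB.kind with hc | hK
        · exfalso
          have hev := cubic_even cub
          have hdisj : Disjoint Q ({v, a, b, d} : Finset V) := by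
            rw [Finset.disjoint_left]
            intro w hw hw'
            simp only [Finset.mem_insert, Finset.mem_singleton] at hw'
            rcases hw' with rfl | rfl | rfl | rfl
            exacts [hvQ hw, haQ hw, hbQ hw, hdQ hw]
          rw [← hAS, Finset.card_union_of_disjoint hdisj, hc,
            card4 nva nvb nvd h.ab h.ad h.bd] at hev
          revert hev
          decide
        · obtain ⟨a0, b0, c0, d0, hQ, hK4⟩ := hK.ex
          rw [hQ] at qa qb qd
          obtain ⟨c', d', hK', hs⟩ := hK4.choose2 qa.1 qa.2 h.a12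
          rw [← hs] at qb qd
          have hinj := hK'.inj
          have hmem : ∀ i, (![a₁, a₂, c', d'] : Fin 4 → V) i ∈ rem4 S v a b d := by
            intro i
            apply hB.sub
            rw [hQ, ← hs]
            exact idx_mem i
          obtain ⟨eb, hb1, hb2, hb3⟩ := edge_of_pair hinj h.b12 (exists_idx qb.1)
            (exists_idx qb.2)
          obtain ⟨ed, hd1, hd2, hd3⟩ := edge_of_pair hinj h.d12 (exists_idx qd.1)
            (exists_idx qd.2)
          have ha0 : ∀ i j, Pr a₁ a₂ ((![a₁, a₂, c', d'] : Fin 4 → V) i)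
              ((![a₁, a₂, c', d'] : Fin 4 → V) j) → inE 0 i j = true := by
            rintro i j (⟨h1, h2⟩ | ⟨h1, h2⟩)
            · have i0 : i = 0 := hinj (h1.trans rfl)
              have j1 : j = 1 := hinj (h2.trans rfl)
              subst i0 j1
              rfl
            · have i0 : i = 1 := hinj (h1.trans rfl)
              have j1 : j = 0 := hinj (h2.trans rfl)
              subst i0 j1
              rfl
          have eb0 : eb ≠ 0 := by
            rintro rfl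
            have h1 : Pr b₁ b₂ a₁ a₂ := (hb1 0 1).mpr rfl
            exact pab h1.symm
          have ed0 : ed ≠ 0 := by
            rintro rfl
            have h1 : Pr d₁ d₂ a₁ a₂ := (hd1 0 1).mpr rfl
            exact pad h1.symm
          have ebd : eb ≠ ed := by
            rintro rfl
            exact pbd (hb2.comp hd2)
          have hne : ∀ i j, i ≠ j → newE eb ed i j = false →
              G.s ((![a₁, a₂, c', d'] : Fin 4 → V) i) ((![a₁, a₂, c', d'] : Fin 4 → V) j)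
                ≠ none := by
            intro i j hij hnew
            have := hK'.adjq i j hij
            rw [L.same] at this
            · exact this
            · simp only [newE, Bool.or_eq_false_iff] at hnew
              rintro m (⟨_, h1⟩ | ⟨_, h1⟩ | ⟨_, h1⟩)
              · have := ha0 i j h1
                rw [hnew.1.1] at this
                exact absurd this (by simp)
              · have := (hb1 i j).mp h1
                rw [hnew.1.2] at this
                exact absurd this (by simp)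
              · have := (hd1 i j).mp h1
                rw [hnew.2] at this
                exact absurd this (by simp)
          have hval : valid1 eb ed = true := by
            refine valid_of eb ed eb0 ed0 ebd ?_
            intro i j k hij hik hjk
            by_contra hno
            simp only [Bool.not_eq_true, Bool.or_eq_false_iff] at hno
            exact hne j k hjk hno.2 (nt _ (rem4_sub (hmem i)) _ (rem4_sub (hmem j)) _
              (rem4_sub (hmem k)) (hne i j hij hno.1.1) (hne i k hik hno.1.2))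
          have pnone : ∀ {c₁ c₂ u w : V}, Pr c₁ c₂ u w → G.s c₁ c₂ = none → G.s u w = none := by
            rintro c₁ c₂ u w (⟨rfl, rfl⟩ | ⟨rfl, rfl⟩) hn
            exacts [hn, nnone hn]
          refine base_claw ![a₁, a₂, c', d'] v a b d eb ed hval ?_ ma (pnone hb2 mb)
            (pnone hd2 md) (fun i => hvT _ (hmem i)) ?_
            (fun i hi => hb3 i (hbT _ (hmem i) hi)) (fun i hi => hd3 i (hdT _ (hmem i) hi))
            mab mad mbd
          · intro u hu
            rw [← hAS, Finset.mem_union, hQ, ← hs] at hu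
            rcases hu with hu | hu
            · exact Or.inl (exists_idx hu)
            · right
              simpa using hu
          · intro i hi
            rcases haT _ (hmem i) hi with h1 | h1
            · exact Or.inl (hinj (h1.trans rfl))
            · exact Or.inr (hinj (h1.trans rfl))
      · exfalso
        obtain ⟨h₀, hh₀⟩ := L.cut (A := Q ∪ {v, a, b}) hB.sub hB.closed
          Finset.subset_union_left (by
            rintro u hu w hw m (⟨rfl, _⟩ | ⟨rfl, _⟩ | ⟨_, ⟨rfl, rfl⟩ | ⟨rfl, rfl⟩⟩)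
            · simp
            · simp
            · exact absurd ⟨hu, hw⟩ qd
            · exact absurd ⟨hw, hu⟩ qd)
        exact hc2 (claw_two hQS hh₀ h.ha h.hb h.hv h.hd hdQ nvd.symm had.symm hbd.symm
          na' nb' h.nv)
    · by_cases qd : d₁ ∈ Q ∧ d₂ ∈ Q
      · exfalso
        have nd' : ∀ w ∈ S, G.s d w ≠ none → w = v ∨ w ∈ Q := by
          intro w hw hne
          rcases h.nd w hw hne with rfl | rfl | rfl
          exacts [Or.inl rfl, Or.inr qd.1, Or.inr qd.2]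
        obtain ⟨h₀, hh₀⟩ := L.cut (A := Q ∪ {v, a, d}) hB.sub hB.closed
          Finset.subset_union_left (by
            rintro u hu w hw m (⟨rfl, _⟩ | ⟨_, ⟨rfl, rfl⟩ | ⟨rfl, rfl⟩⟩ | ⟨rfl, _⟩)
            · simp
            · exact absurd ⟨hu, hw⟩ qb
            · exact absurd ⟨hw, hu⟩ qb
            · simp)
        refine hc2 (claw_two hQS hh₀ h.ha h.hd h.hv h.hb hbQ nvb.symm hab.symm hbd
          na' nd' ?_)
        intro w hw hne
        rcases h.nv w hw hne with h' | h' | h'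
        exacts [Or.inl h', Or.inr (Or.inr h'), Or.inr (Or.inl h')]
      · exfalso
        obtain ⟨h₀, hh₀⟩ := L.cut (A := Q ∪ {a}) hB.sub hB.closed
          Finset.subset_union_left (by
            rintro u hu w hw m (⟨rfl, _⟩ | ⟨_, ⟨rfl, rfl⟩ | ⟨rfl, rfl⟩⟩ |
              ⟨_, ⟨rfl, rfl⟩ | ⟨rfl, rfl⟩⟩)
            · simp
            · exact absurd ⟨hu, hw⟩ qb
            · exact absurd ⟨hw, hu⟩ qb
            · exact absurd ⟨hu, hw⟩ qd
            · exact absurd ⟨hw, hu⟩ qd)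
        exact hc2 (claw_one hQS hh₀ h.ha h.hv hvQ nva na')
  · by_cases qb : b₁ ∈ Q ∧ b₂ ∈ Q
    · have nb' : ∀ w ∈ S, G.s b w ≠ none → w = v ∨ w ∈ Q := by
        intro w hw hne
        rcases h.nb w hw hne with rfl | rfl | rfl
        exacts [Or.inl rfl, Or.inr qb.1, Or.inr qb.2]
      by_cases qd : d₁ ∈ Q ∧ d₂ ∈ Q
      · exfalso
        have nd' : ∀ w ∈ S, G.s d w ≠ none → w = v ∨ w ∈ Q := by
          intro w hw hne
          rcases h.nd w hw hne with rfl | rfl | rfl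
          exacts [Or.inl rfl, Or.inr qd.1, Or.inr qd.2]
        obtain ⟨h₀, hh₀⟩ := L.cut (A := Q ∪ {v, b, d}) hB.sub hB.closed
          Finset.subset_union_left (by
            rintro u hu w hw m (⟨_, ⟨rfl, rfl⟩ | ⟨rfl, rfl⟩⟩ | ⟨rfl, _⟩ | ⟨rfl, _⟩)
            · exact absurd ⟨hu, hw⟩ qa
            · exact absurd ⟨hw, hu⟩ qa
            · simp
            · simp)
        refine hc2 (claw_two hQS hh₀ h.hb h.hd h.hv h.ha haQ nva.symm hab had
          nb' nd' ?_)
        intro w hw hne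
        rcases h.nv w hw hne with h' | h' | h'
        exacts [Or.inr (Or.inr h'), Or.inl h', Or.inr (Or.inl h')]
      · exfalso
        obtain ⟨h₀, hh₀⟩ := L.cut (A := Q ∪ {b}) hB.sub hB.closed
          Finset.subset_union_left (by
            rintro u hu w hw m (⟨_, ⟨rfl, rfl⟩ | ⟨rfl, rfl⟩⟩ | ⟨rfl, _⟩ |
              ⟨_, ⟨rfl, rfl⟩ | ⟨rfl, rfl⟩⟩)
            · exact absurd ⟨hu, hw⟩ qa
            · exact absurd ⟨hw, hu⟩ qa
            · simp
            · exact absurd ⟨hu, hw⟩ qd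
            · exact absurd ⟨hw, hu⟩ qd)
        exact hc2 (claw_one hQS hh₀ h.hb h.hv hvQ nvb nb')
    · exfalso
      have qd : d₁ ∈ Q ∧ d₂ ∈ Q := by
        rcases hN with ⟨_, ⟨rfl, rfl⟩ | ⟨rfl, rfl⟩⟩ | ⟨_, ⟨rfl, rfl⟩ | ⟨rfl, rfl⟩⟩ |
          ⟨_, ⟨rfl, rfl⟩ | ⟨rfl, rfl⟩⟩
        · exact absurd ⟨hu, hw⟩ qa
        · exact absurd ⟨hw, hu⟩ qa
        · exact absurd ⟨hu, hw⟩ qb
        · exact absurd ⟨hw, hu⟩ qb
        · exact ⟨hu, hw⟩
        · exact ⟨hw, hu⟩
      have nd' : ∀ w ∈ S, G.s d w ≠ none → w = v ∨ w ∈ Q := by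
        intro w hw hne
        rcases h.nd w hw hne with rfl | rfl | rfl
        exacts [Or.inl rfl, Or.inr qd.1, Or.inr qd.2]
      obtain ⟨h₀, hh₀⟩ := L.cut (A := Q ∪ {d}) hB.sub hB.closed
        Finset.subset_union_left (by
          rintro u hu w hw m (⟨_, ⟨rfl, rfl⟩ | ⟨rfl, rfl⟩⟩ | ⟨_, ⟨rfl, rfl⟩ | ⟨rfl, rfl⟩⟩ |
            ⟨rfl, _⟩)
          · exact absurd ⟨hu, hw⟩ qa
          · exact absurd ⟨hw, hu⟩ qa
          · exact absurd ⟨hu, hw⟩ qb
          · exact absurd ⟨hw, hu⟩ qb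
          · simp)
      exact hc2 (claw_one hQS hh₀ h.hd h.hv hvQ nvd nd')

end SG

end MPa4482b
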