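import Pool.Agent.Lib.MP_a4482b_co.Ext3
import Pool.Agent.Lib.MP_a4482b_co.Base

set_option autoImplicit false
set_option linter.unusedSectionVars false

/-!
# Structure lemmas: excluded subgraphs, cuts, new edges
-/

namespace MPa4482b

variable {V : Type*} [DecidableEq V]

namespace SG

/-- `a, b, c, d` span `(K₄, -)` up to switching -/
def K4At (G : SG V) (a b c d : V) : Prop :=
  ∃ pa pb pc pd : Bool, G.s a b = some (!(pa ^^ pb)) ∧ G.s a c = some (!(pa ^^ pc)) ∧
    G.s a d = some (!(pa ^^ pd)) ∧ G.s b c = some (!(pb ^^ pc)) ∧ G.s b d = some (!(pb ^^ pd)) ∧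
    G.s c d = some (!(pc ^^ pd))

/-- `(K₄, -)` on `a, b, c, d` with the edge `a b` subdivided by `x`, up to switching -/
def K4dAt (G : SG V) (a b c d x : V) : Prop :=
  a ≠ b ∧ x ≠ c ∧ x ≠ d ∧ ∃ pa pb pc pd px : Bool, G.s a c = some (!(pa ^^ pc)) ∧
    G.s a d = some (!(pa ^^ pd)) ∧ G.s b c = some (!(pb ^^ pc)) ∧ G.s b d = some (!(pb ^^ pd)) ∧
    G.s c d = some (!(pc ^^ pd)) ∧ G.s a x = some (!(pa ^^ px)) ∧ G.s x b = some (px ^^ pb)

structure Ok (G : SG V) (S : Finset V) : Prop where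
  deg : ∀ v ∈ S, (G.nb S v).card ≤ 3
  noK : ∀ a ∈ S, ∀ b ∈ S, ∀ c ∈ S, ∀ d ∈ S, ¬ G.K4At a b c d
  noD : ∀ a ∈ S, ∀ b ∈ S, ∀ c ∈ S, ∀ d ∈ S, ∀ x ∈ S, ¬ G.K4dAt a b c d x

theorem nb_mono {G : SG V} {S T : Finset V} (h : T ⊆ S) (u : V) : G.nb T u ⊆ G.nb S u :=
  Finset.filter_subset_filter _ h

theorem Ok.mono {G : SG V} {S T : Finset V} (h : G.Ok S) (hT : T ⊆ S) : G.Ok T where
  deg v hv := (Finset.card_le_card (nb_mono hT v)).trans (h.deg v (hT hv))
  noK a ha b hb c hc d hd := h.noK a (hT ha) b (hT hb) c (hT hc) d (hT hd)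
  noD a ha b hb c hc d hd x hx := h.noD a (hT ha) b (hT hb) c (hT hc) d (hT hd) x (hT hx)

/-- a proper nonempty subset with at most one boundary edge -/
def Cut1 (G : SG V) (S : Finset V) : Prop :=
  ∃ A ⊆ S, A.Nonempty ∧ A ≠ S ∧ ∃ a b, ∀ u ∈ A, ∀ w ∈ S, w ∉ A → G.s u w ≠ none → u = a ∧ w = b

/-- a proper nonempty subset with at most two boundary edges -/
def Cut2 (G : SG V) (S : Finset V) : Prop :=
  ∃ A ⊆ S, A.Nonempty ∧ A ≠ S ∧ ∃ a b a' b', ∀ u ∈ A, ∀ w ∈ S, w ∉ A → G.s u w ≠ none →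
    (u = a ∧ w = b) ∨ (u = a' ∧ w = b')

theorem Cut1.cut2 {G : SG V} {S : Finset V} (h : G.Cut1 S) : G.Cut2 S := by
  obtain ⟨A, hA, hne, hAS, a, b, h⟩ := h
  exact ⟨A, hA, hne, hAS, a, b, a, b, fun u hu w hw hwA hadj => Or.inl (h u hu w hw hwA hadj)⟩

/-- neighbours: three distinct ones are all, if the degree is at most three -/
theorem three_nb {G : SG V} {S : Finset V} {u a b c : V} (h3 : (G.nb S u).card ≤ 3)
    (ha : a ∈ G.nb S u) (hb : b ∈ G.nb S u) (hc : c ∈ G.nb S u) (hab : a ≠ b) (hac : a ≠ c)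
    (hbc : b ≠ c) : ∀ w ∈ S, G.s u w ≠ none → w = a ∨ w = b ∨ w = c := by
  have hsub : ({a, b, c} : Finset V) ⊆ G.nb S u := by
    intro w hw
    simp only [Finset.mem_insert, Finset.mem_singleton] at hw
    rcases hw with rfl | rfl | rfl <;> assumption
  have hcard : ({a, b, c} : Finset V).card = 3 := by
    rw [Finset.card_eq_three]
    exact ⟨a, b, c, hab, hac, hbc, rfl⟩
  have heq := Finset.eq_of_subset_of_card_le hsub (by rw [hcard]; exact h3)
  intro w hw hne
  have : w ∈ G.nb S u := mem_nb.mpr ⟨hw, hne⟩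
  rw [← heq] at this
  simpa using this

theorem two_nb {G : SG V} {S : Finset V} {u a b : V} (h3 : (G.nb S u).card ≤ 3)
    (ha : a ∈ G.nb S u) (hb : b ∈ G.nb S u) (hab : a ≠ b) :
    ∃ c, ∀ w ∈ S, G.s u w ≠ none → w = a ∨ w = b ∨ w = c := by
  by_cases h : ∃ c ∈ G.nb S u, c ≠ a ∧ c ≠ b
  · obtain ⟨c, hc, hca, hcb⟩ := h
    exact ⟨c, three_nb h3 ha hb hc hab hca.symm hcb.symm⟩
  · push Not at h
    refine ⟨a, fun w hw hne => ?_⟩
    by_cases hwa : w = a
    · exact Or.inl hwa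
    · exact Or.inr (Or.inl (h w (mem_nb.mpr ⟨hw, hne⟩) hwa))

/-- the vertex set of a `(K₄,-)` is closed -/
theorem K4At.closed {G : SG V} {T : Finset V} {a b c d : V} (h : G.K4At a b c d)
    (hdeg : ∀ v ∈ T, (G.nb T v).card ≤ 3) (ha : a ∈ T) (hb : b ∈ T) (hc : c ∈ T) (hd : d ∈ T) :
    ∀ q ∈ ({a, b, c, d} : Finset V), ∀ w ∈ T, G.s q w ≠ none → w ∈ ({a, b, c, d} : Finset V) := by
  obtain ⟨pa, pb, pc, pd, h1, h2, h3, h4, h5, h6⟩ := h
  have nab := ne_of_some h1
  have nac := ne_of_some h2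
  have nad := ne_of_some h3
  have nbc := ne_of_some h4
  have nbd := ne_of_some h5
  have ncd := ne_of_some h6
  have mem : ∀ {u w : V} {e : Bool}, w ∈ T → G.s u w = some e → w ∈ G.nb T u :=
    fun hw he => mem_nb.mpr ⟨hw, by rw [he]; simp⟩
  intro q hq w hw hne
  simp only [Finset.mem_insert, Finset.mem_singleton] at hq ⊢
  rcases hq with rfl | rfl | rfl | rfl
  · have := three_nb (hdeg _ ha) (mem hb h1) (mem hc h2) (mem hd h3) nbc nbd ncd w hw hne
    tauto
  · have := three_nb (hdeg _ hb) (mem ha (nsome h1)) (mem hc h4) (mem hd h5) nac nad ncd w hw hne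
    tauto
  · have := three_nb (hdeg _ hc) (mem ha (nsome h2)) (mem hb (nsome h4)) (mem hd h6) nab nad nbd
      w hw hne
    tauto
  · have := three_nb (hdeg _ hd) (mem ha (nsome h3)) (mem hb (nsome h5)) (mem hc (nsome h6)) nab
      nac nbc w hw hne
    tauto

/-- the vertex set of a `K̂₄•` is closed except for one edge at `x` -/
theorem K4dAt.closed {G : SG V} {T : Finset V} {a b c d x : V} (h : G.K4dAt a b c d x)
    (hdeg : ∀ v ∈ T, (G.nb T v).card ≤ 3) (ha : a ∈ T) (hb : b ∈ T) (hc : c ∈ T) (hd : d ∈ T)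
    (hx : x ∈ T) :
    ∃ w₀, ∀ q ∈ ({a, b, c, d, x} : Finset V), ∀ w ∈ T, G.s q w ≠ none →
      w ∈ ({a, b, c, d, x} : Finset V) ∨ (q = x ∧ w = w₀) := by
  obtain ⟨nab, nxc, nxd, pa, pb, pc, pd, px, h1, h2, h3, h4, h5, h6, h7⟩ := h
  have nac := ne_of_some h1
  have nad := ne_of_some h2
  have nbc := ne_of_some h3
  have nbd := ne_of_some h4
  have ncd := ne_of_some h5
  have nax := ne_of_some h6
  have nxb := ne_of_some h7
  have mem : ∀ {u w : V} {e : Bool}, w ∈ T → G.s u w = some e → w ∈ G.nb T u :=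
    fun hw he => mem_nb.mpr ⟨hw, by rw [he]; simp⟩
  obtain ⟨w₀, hw₀⟩ := two_nb (hdeg _ hx) (mem ha (nsome h6)) (mem hb h7) nab
  refine ⟨w₀, ?_⟩
  intro q hq w hw hne
  simp only [Finset.mem_insert, Finset.mem_singleton] at hq ⊢
  rcases hq with rfl | rfl | rfl | rfl | rfl
  · have := three_nb (hdeg _ ha) (mem hc h1) (mem hd h2) (mem hx h6) ncd nxc.symm nxd.symm w hw hne
    tauto
  · have := three_nb (hdeg _ hb) (mem hc h3) (mem hd h4) (mem hx (nsome h7)) ncd nxc.symm nxd.symm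
      w hw hne
    tauto
  · have := three_nb (hdeg _ hc) (mem ha (nsome h1)) (mem hb (nsome h3)) (mem hd h5) nab nad nbd
      w hw hne
    tauto
  · have := three_nb (hdeg _ hd) (mem ha (nsome h2)) (mem hb (nsome h4)) (mem hc (nsome h5)) nab
      nac nbc w hw hne
    tauto
  · have := hw₀ w hw hne
    tauto

theorem K4dAt.card {G : SG V} {a b c d x : V} (h : G.K4dAt a b c d x) :
    ({a, b, c, d, x} : Finset V).card = 5 := by
  obtain ⟨nab, nxc, nxd, pa, pb, pc, pd, px, h1, h2, h3, h4, h5, h6, h7⟩ := h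
  have nac := ne_of_some h1
  have nad := ne_of_some h2
  have nbc := ne_of_some h3
  have nbd := ne_of_some h4
  have ncd := ne_of_some h5
  have nax := ne_of_some h6
  have nxb := ne_of_some h7
  rw [Finset.card_insert_of_notMem, Finset.card_insert_of_notMem, Finset.card_insert_of_notMem,
    Finset.card_insert_of_notMem, Finset.card_singleton]
  all_goals simp only [Finset.mem_insert, Finset.mem_singleton]
  · exact fun h => nxd h.symm
  · rintro (h | h)
    exacts [ncd h, nxc h.symm]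
  · rintro (h | h | h)
    exacts [nbc h, nbd h, nxb h.symm]
  · rintro (h | h | h | h)
    exacts [nab h, nac h, nad h, nax h]

theorem K4At.card {G : SG V} {a b c d : V} (h : G.K4At a b c d) :
    ({a, b, c, d} : Finset V).card = 4 := by
  obtain ⟨pa, pb, pc, pd, h1, h2, h3, h4, h5, h6⟩ := h
  have nab := ne_of_some h1
  have nac := ne_of_some h2
  have nad := ne_of_some h3
  have nbc := ne_of_some h4
  have nbd := ne_of_some h5
  have ncd := ne_of_some h6
  rw [Finset.card_insert_of_notMem, Finset.card_insert_of_notMem, Finset.card_insert_of_notMem,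
    Finset.card_singleton]
  all_goals simp only [Finset.mem_insert, Finset.mem_singleton]
  · exact ncd
  · rintro (h | h)
    exacts [nbc h, nbd h]
  · rintro (h | h | h)
    exacts [nab h, nac h, nad h]

theorem K4At.of_eq {G G' : SG V} {Q : Finset V} {a b c d : V} (h : G'.K4At a b c d)
    (ha : a ∈ Q) (hb : b ∈ Q) (hc : c ∈ Q) (hd : d ∈ Q)
    (he : ∀ u ∈ Q, ∀ w ∈ Q, G'.s u w = G.s u w) : G.K4At a b c d := by
  obtain ⟨pa, pb, pc, pd, h1, h2, h3, h4, h5, h6⟩ := h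
  exact ⟨pa, pb, pc, pd, he a ha b hb ▸ h1, he a ha c hc ▸ h2, he a ha d hd ▸ h3,
    he b hb c hc ▸ h4, he b hb d hd ▸ h5, he c hc d hd ▸ h6⟩

theorem K4dAt.of_eq {G G' : SG V} {Q : Finset V} {a b c d x : V} (h : G'.K4dAt a b c d x)
    (ha : a ∈ Q) (hb : b ∈ Q) (hc : c ∈ Q) (hd : d ∈ Q) (hx : x ∈ Q)
    (he : ∀ u ∈ Q, ∀ w ∈ Q, G'.s u w = G.s u w) : G.K4dAt a b c d x := by
  obtain ⟨nab, nxc, nxd, pa, pb, pc, pd, px, h1, h2, h3, h4, h5, h6, h7⟩ := h
  exact ⟨nab, nxc, nxd, pa, pb, pc, pd, px, he a ha c hc ▸ h1, he a ha d hd ▸ h2,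
    he b hb c hc ▸ h3, he b hb d hd ▸ h4, he c hc d hd ▸ h5, he a ha x hx ▸ h6,
    he x hx b hb ▸ h7⟩

/-! ### Parity -/

theorem cubic_even {G : SG V} {S : Finset V} (h : ∀ v ∈ S, (G.nb S v).card = 3) :
    Even S.card := by
  classical
  let H : SimpleGraph {x // x ∈ S} :=
    { Adj := fun u w => G.s u w ≠ none
      symm := ⟨fun u w h => adj_symm h⟩
      loopless := ⟨fun u h => h (G.irr u)⟩ }
  have hdeg : ∀ u, H.degree u = 3 := by
    intro u
    rw [← h u u.2, SimpleGraph.degree]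
    rw [← Finset.card_map (Function.Embedding.subtype (fun x => x ∈ S))]
    congr 1
    ext w
    simp only [Finset.mem_map, SimpleGraph.mem_neighborFinset, mem_nb,
      Function.Embedding.subtype_apply, Subtype.exists, exists_and_right, exists_eq_right]
    constructor
    · rintro ⟨hw, hadj⟩
      exact ⟨hw, hadj⟩
    · rintro ⟨hw, hadj⟩
      exact ⟨hw, hadj⟩
  have hs := H.sum_degrees_eq_twice_card_edges
  simp only [hdeg, Finset.sum_const, Finset.card_univ, Fintype.card_coe, smul_eq_mul] at hs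
  rw [Nat.even_iff]
  omega

/-! ### New edges -/

/-- `G'` on `T` arises from `G` on `S` by deleting `S \ T` and adding the new edges `u w` with
`N u w m`; here `m ∈ S \ T` is the neighbour of `u` in `G` which is replaced by `w`. -/
structure Lift (G G' : SG V) (S T : Finset V) (N : V → V → V → Prop) : Prop where
  sub : T ⊆ S
  same : ∀ u w, (∀ m, ¬ N u w m) → G'.s u w = G.s u w
  nold : ∀ u w m, N u w m → G.s u w = none
  mid : ∀ u w m, N u w m → m ∈ S ∧ m ∉ T ∧ G.s u m ≠ none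
  inj : ∀ u w w' m, N u w m → N u w' m → w = w'
  uni : ∀ u w m m', N u w m → N u w m' → m = m'
  surj : ∀ u ∈ T, ∀ h ∈ S, h ∉ T → G.s u h ≠ none → ∃ w ∈ T, N u w h ∧ G'.s u w ≠ none

theorem Lift.mono {G G' : SG V} {S T : Finset V} {N : V → V → V → Prop}
    (L : Lift G G' S T N) : ∀ u w e, G.s u w = some e → G'.s u w = some e := by
  intro u w e he
  rw [L.same u w, he]
  intro m hm
  rw [L.nold u w m hm] at he
  exact absurd he (by simp)

theorem Lift.deg {G G' : SG V} {S T : Finset V} {N : V → V → V → Prop}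
    (L : Lift G G' S T N) (u : V) : (G'.nb T u).card ≤ (G.nb S u).card := by
  classical
  let f : V → V := fun w => if h : ∃ m, N u w m then h.choose else w
  apply Finset.card_le_card_of_injOn f
  · intro w hw
    rw [Finset.mem_coe, mem_nb] at hw
    rw [Finset.mem_coe, mem_nb]
    simp only [f]
    split_ifs with h
    · exact ⟨(L.mid _ _ _ h.choose_spec).1, (L.mid _ _ _ h.choose_spec).2.2⟩
    · push Not at h
      rw [L.same u w h] at hw
      exact ⟨L.sub hw.1, hw.2⟩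
  · intro w hw w' hw' hff
    rw [Finset.mem_coe, mem_nb] at hw hw'
    simp only [f] at hff
    split_ifs at hff with h h' h'
    · exact L.inj _ _ _ _ h.choose_spec (hff ▸ h'.choose_spec)
    · exact absurd (hff ▸ hw'.1) (L.mid _ _ _ h.choose_spec).2.1
    · exact absurd (hff.symm ▸ hw.1) (L.mid _ _ _ h'.choose_spec).2.1
    · exact hff

/-- Boundary edges at an almost closed set `Q`. -/
theorem Lift.cut {G G' : SG V} {S T : Finset V} {N : V → V → V → Prop}
    (L : Lift G G' S T N) {Q A : Finset V} {x₀ w₀ : V} (hQ : Q ⊆ T)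
    (hc : ∀ q ∈ Q, ∀ w ∈ T, G'.s q w ≠ none → w ∈ Q ∨ (q = x₀ ∧ w = w₀))
    (hQA : Q ⊆ A)
    (hA : ∀ u ∈ Q, ∀ w ∈ Q, ∀ m, N u w m → m ∈ A) :
    ∃ h₀, ∀ u ∈ Q, ∀ h ∈ S, h ∉ A → G.s u h ≠ none → u = x₀ ∧ h = h₀ := by
  have key : ∀ u ∈ Q, ∀ h ∈ S, h ∉ A → G.s u h ≠ none →
      u = x₀ ∧ (h = w₀ ∨ N x₀ w₀ h) := by
    intro u hu h hh hhA hadj
    by_cases hT : h ∈ T
    · have hadj' : G'.s u h ≠ none := by
        rcases hs : G.s u h with _ | e
        · exact absurd hs hadj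
        · rw [L.mono u h e hs]
          simp
      rcases hc u hu h hT hadj' with h' | h'
      · exact absurd (hQA h') hhA
      · exact ⟨h'.1, Or.inl h'.2⟩
    · obtain ⟨w, hw, hN, hadj'⟩ := L.surj u (hQ hu) h hh hT hadj
      rcases hc u hu w hw hadj' with h' | h'
      · exact absurd (hA u hu w h' h hN) hhA
      · obtain ⟨rfl, rfl⟩ := h'
        exact ⟨rfl, Or.inr hN⟩
  by_cases hN : ∃ m, N x₀ w₀ m
  · obtain ⟨m, hm⟩ := hN
    refine ⟨m, ?_⟩
    intro u hu h hh hhA hadj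
    obtain ⟨rfl, h'⟩ := key u hu h hh hhA hadj
    refine ⟨rfl, ?_⟩
    rcases h' with rfl | h'
    · exact absurd (L.nold _ _ _ hm) hadj
    · exact L.uni _ _ _ _ h' hm
  · refine ⟨w₀, ?_⟩
    intro u hu h hh hhA hadj
    obtain ⟨rfl, h'⟩ := key u hu h hh hhA hadj
    refine ⟨rfl, ?_⟩
    rcases h' with rfl | h'
    · rfl
    · exact absurd ⟨h, h'⟩ hN

/-- add (or change) one edge -/
def add (G : SG V) (a b : V) (e : Bool) (hab : a ≠ b) : SG V where
  s u w := if (u = a ∧ w = b) ∨ (u = b ∧ w = a) then some e else G.s u w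
  symm u w := by
    have : ((u = a ∧ w = b) ∨ (u = b ∧ w = a)) ↔ ((w = a ∧ u = b) ∨ (w = b ∧ u = a)) := by tauto
    simp only [this, G.symm u w]
  irr u := by
    rw [if_neg, G.irr]
    rintro (⟨h, h'⟩ | ⟨h, h'⟩)
    · exact hab (h.symm.trans h')
    · exact hab (h'.symm.trans h)

theorem add_self {G : SG V} {a b : V} {e : Bool} {hab : a ≠ b} : (G.add a b e hab).s a b = some e := by
  simp [add]

theorem add_of {G : SG V} {a b : V} {e : Bool} {hab : a ≠ b} {u w : V}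
    (h : ¬((u = a ∧ w = b) ∨ (u = b ∧ w = a))) : (G.add a b e hab).s u w = G.s u w := by
  simp only [add, if_neg h]

end SG

end MPa4482b
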